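import Pool.Agent.H24.Tri.Defs

set_option autoImplicit false

open MeasureTheory Set Complex Metric Filter Topology
open scoped Real ENNReal NNReal ComplexConjugate

namespace Pool.Agent.H24.Tri

/-! ## COMB (section 10.1) -/

/-- measurability of the ball profile -/
lemma comb_meas (μ : Measure ℂ) [IsFiniteMeasure μ] (r : ℝ) :
    Measurable fun x : ℂ => μ.real (closedBall x r) := by
  have h : MeasurableSet {p : ℂ × ℂ | dist p.2 p.1 ≤ r} :=
    (isClosed_le (by fun_prop) continuous_const).measurableSet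
  have h2 := measurable_measure_prodMk_left (ν := μ) h
  have h3 : (fun x : ℂ => μ (Prod.mk x ⁻¹' {p : ℂ × ℂ | dist p.2 p.1 ≤ r})) =
      fun x => μ (closedBall x r) := by
    funext x
    congr 1
  rw [h3] at h2
  exact h2.ennreal_toReal

lemma comb_int (μ : Measure ℂ) [IsFiniteMeasure μ] (r : ℝ) :
    Integrable (fun x : ℂ => (μ.real (closedBall x r)) ^ (1 / 4 : ℝ)) μ := by
  apply Integrable.of_bound ((comb_meas μ r).pow_const _).aestronglyMeasurable
    ((μ.real univ) ^ (1 / 4 : ℝ))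
  refine Eventually.of_forall fun x => ?_
  rw [Real.norm_of_nonneg (by positivity)]
  exact Real.rpow_le_rpow measureReal_nonneg (measureReal_mono (subset_univ _)) (by norm_num)

/-- telescoping over a finite set of integers -/
lemma comb_tele (a : ℤ → ℝ) (ha : Monotone a) (A : ℝ) (h0 : ∀ j, 0 ≤ a j) (hA : ∀ j, a j ≤ A)
    (s : Finset ℤ) : ∑ j ∈ s, (a (j + 1) - a j) ≤ A := by
  -- put `s` inside an interval
  have hA0 : 0 ≤ A := (h0 0).trans (hA 0)
  rcases s.eq_empty_or_nonempty with rfl | hs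
  · simpa using hA0
  · obtain ⟨m, hm⟩ : ∃ m : ℤ, ∀ j ∈ s, m ≤ j := ⟨s.min' hs, fun j hj => s.min'_le j hj⟩
    obtain ⟨n, hn⟩ : ∃ n : ℕ, ∀ j ∈ s, j < m + n := by
      refine ⟨(s.max' hs + 1 - m).toNat, fun j hj => ?_⟩
      have := s.le_max' j hj
      omega
    have hsub : s ⊆ (Finset.range n).map ⟨fun i : ℕ => m + (i : ℤ), fun i j h => by
        simpa using h⟩ := by
      intro j hj
      rw [Finset.mem_map]
      refine ⟨(j - m).toNat, ?_, ?_⟩
      · rw [Finset.mem_range]
        have := hm j hj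
        have := hn j hj
        omega
      · have := hm j hj
        simp only [Function.Embedding.coeFn_mk]
        omega
    calc ∑ j ∈ s, (a (j + 1) - a j)
        ≤ ∑ j ∈ (Finset.range n).map ⟨fun i : ℕ => m + (i : ℤ), fun i j h => by
            simpa using h⟩, (a (j + 1) - a j) := by
          apply Finset.sum_le_sum_of_subset_of_nonneg hsub
          intro j _ _
          exact sub_nonneg.mpr (ha (by omega))
      _ = ∑ i ∈ Finset.range n, (a (m + (i + 1 : ℕ)) - a (m + (i : ℕ))) := by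
          rw [Finset.sum_map]
          apply Finset.sum_congr rfl
          intro i _
          simp only [Function.Embedding.coeFn_mk]
          push_cast
          rw [add_assoc]
      _ = a (m + (n : ℕ)) - a (m + (0 : ℕ)) :=
          Finset.sum_range_sub (fun i : ℕ => a (m + (i : ℕ))) n
      _ ≤ A := by linarith [h0 (m + (0 : ℕ)), hA (m + (n : ℕ))]

/-- (C1) -/
theorem comb1 (μ : Measure ℂ) [IsFiniteMeasure μ] (q Q : ℝ) (hq : 0 < q) (L : ℕ)
    (hL : Q ≤ q * 2 ^ L) (s : Finset ℤ) :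
    ∑ j ∈ s, ∫ x, ((μ.real (closedBall x (Q * 2 ^ j))) ^ (1 / 4 : ℝ) -
        (μ.real (closedBall x (q * 2 ^ j))) ^ (1 / 4 : ℝ)) ∂μ ≤
      L * (μ.real univ) ^ (5 / 4 : ℝ) := by
  have hintj : ∀ j ∈ s, Integrable (fun x : ℂ => (μ.real (closedBall x (Q * 2 ^ j))) ^ (1 / 4 : ℝ) -
        (μ.real (closedBall x (q * 2 ^ j))) ^ (1 / 4 : ℝ)) μ :=
    fun j _ => (comb_int μ _).sub (comb_int μ _)
  rw [← integral_finsetSum _ hintj]
  have hpt : ∀ x : ℂ, ∑ j ∈ s, ((μ.real (closedBall x (Q * 2 ^ j))) ^ (1 / 4 : ℝ) -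
        (μ.real (closedBall x (q * 2 ^ j))) ^ (1 / 4 : ℝ)) ≤
        L * (μ.real univ) ^ (1 / 4 : ℝ) := by
    intro x
    set a : ℤ → ℝ := fun j => (μ.real (closedBall x (q * 2 ^ j))) ^ (1 / 4 : ℝ) with ha
    have hmono : Monotone a := by
      intro i j hij
      apply Real.rpow_le_rpow measureReal_nonneg _ (by norm_num)
      refine measureReal_mono ?_ (measure_ne_top _ _)
      apply closedBall_subset_closedBall
      apply mul_le_mul_of_nonneg_left _ hq.le
      exact zpow_le_zpow_right₀ (by norm_num) hij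
    have h0 : ∀ j, 0 ≤ a j := fun j => by rw [ha]; positivity
    have hA : ∀ j, a j ≤ (μ.real univ) ^ (1 / 4 : ℝ) := fun j =>
      Real.rpow_le_rpow measureReal_nonneg (measureReal_mono (subset_univ _)) (by norm_num)
    have h1 : ∀ j ∈ s, ((μ.real (closedBall x (Q * 2 ^ j))) ^ (1 / 4 : ℝ) -
        (μ.real (closedBall x (q * 2 ^ j))) ^ (1 / 4 : ℝ)) ≤
        ∑ i ∈ Finset.range L, (a ((j + i) + 1) - a (j + i)) := by
      intro j _
      have h2 : ∑ i ∈ Finset.range L, (a ((j + i) + 1) - a (j + i)) = a (j + L) - a j := by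
        have := Finset.sum_range_sub (fun i : ℕ => a (j + i)) L
        simp only [Nat.cast_add, Nat.cast_one, Nat.cast_zero, add_zero] at this
        rw [← this]
        apply Finset.sum_congr rfl
        intro i _
        rw [add_assoc]
      rw [h2]
      apply sub_le_sub_right
      apply Real.rpow_le_rpow measureReal_nonneg _ (by norm_num)
      refine measureReal_mono ?_ (measure_ne_top _ _)
      apply closedBall_subset_closedBall
      have h3 : (2 : ℝ) ^ (j + (L : ℤ)) = 2 ^ L * 2 ^ j := by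
        rw [zpow_add₀ (by norm_num), zpow_natCast, mul_comm]
      rw [h3, ← mul_assoc]
      exact mul_le_mul_of_nonneg_right hL (by positivity)
    calc _ ≤ ∑ j ∈ s, ∑ i ∈ Finset.range L, (a ((j + i) + 1) - a (j + i)) :=
          Finset.sum_le_sum h1
      _ = ∑ i ∈ Finset.range L, ∑ j ∈ s, (a ((j + i) + 1) - a (j + i)) := Finset.sum_comm
      _ ≤ ∑ i ∈ Finset.range L, (μ.real univ) ^ (1 / 4 : ℝ) := by
          apply Finset.sum_le_sum
          intro i _
          have := comb_tele (fun j => a (j + i)) (fun j k h => hmono (by omega)) _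
            (fun j => h0 _) (fun j => hA _) s
          refine le_trans (le_of_eq ?_) this
          apply Finset.sum_congr rfl
          intro j _
          rw [add_right_comm]
      _ = L * (μ.real univ) ^ (1 / 4 : ℝ) := by
          rw [Finset.sum_const, Finset.card_range, nsmul_eq_mul]
  calc ∫ x, ∑ j ∈ s, ((μ.real (closedBall x (Q * 2 ^ j))) ^ (1 / 4 : ℝ) -
        (μ.real (closedBall x (q * 2 ^ j))) ^ (1 / 4 : ℝ)) ∂μ
      ≤ ∫ _x, L * (μ.real univ) ^ (1 / 4 : ℝ) ∂μ :=
        integral_mono (integrable_finsetSum _ hintj) (integrable_const _) hpt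
    _ = L * (μ.real univ) ^ (5 / 4 : ℝ) := by
        rw [integral_const, smul_eq_mul]
        rcases (measureReal_nonneg (μ := μ) (s := univ)).eq_or_lt with h | h
        · rw [← h]
          rw [Real.zero_rpow (by norm_num)]
          ring
        · have : (5 / 4 : ℝ) = 1 + 1 / 4 := by norm_num
          rw [this, Real.rpow_add h, Real.rpow_one]
          ring

/-- a finite set of integers of diameter less than `L` has at most `L` elements -/
lemma comb_card (t : Finset ℤ) (L : ℕ) (h : ∀ i ∈ t, ∀ j ∈ t, j < i + L) :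
    t.card ≤ L := by
  rcases t.eq_empty_or_nonempty with rfl | ht
  · simp
  · have hm := t.min'_mem ht
    have hsub : t ⊆ Finset.Ico (t.min' ht) (t.min' ht + L) := by
      intro j hj
      rw [Finset.mem_Ico]
      exact ⟨t.min'_le j hj, h _ hm _ hj⟩
    calc t.card ≤ (Finset.Ico (t.min' ht) (t.min' ht + L)).card := Finset.card_le_card hsub
      _ = L := by rw [Int.card_Ico]; omega

/-- comparison of dyadic scales -/
lemma comb_scale (q Q : ℝ) (hq : 0 < q) (L : ℕ) (hL : Q < q * 2 ^ L) (i j : ℤ)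
    (h : q * 2 ^ j ≤ Q * 2 ^ i) : j < i + L := by
  have h1 : Q * 2 ^ i < q * 2 ^ (i + (L : ℤ)) := by
    rw [zpow_add₀ (by norm_num), zpow_natCast, mul_comm ((2 : ℝ) ^ i), ← mul_assoc]
    exact mul_lt_mul_of_pos_right hL (by positivity)
  have h2 := lt_of_mul_lt_mul_left (h.trans_lt h1) hq.le
  exact (zpow_lt_zpow_iff_right₀ (by norm_num)).mp h2

/-- (C2) pointwise -/
theorem comb2 (μ : Measure ℂ) [IsFiniteMeasure μ] (q Q : ℝ) (hq : 0 < q) (L : ℕ)
    (hL : Q < q * 2 ^ L) (s : Finset ℤ) (δ : ℝ) (hδ : 0 < δ) (x : ℂ) :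
    ((s.filter fun j : ℤ => δ < μ.real {y | q * 2 ^ j ≤ dist y x ∧ dist y x ≤ Q * 2 ^ j}).card : ℝ)
      * δ ≤ L * μ.real univ := by
  classical
  set A : ℤ → Set ℂ := fun j => {y | q * 2 ^ j ≤ dist y x ∧ dist y x ≤ Q * 2 ^ j} with hA
  have hAm : ∀ j, MeasurableSet (A j) := by
    intro j
    have h1 : IsClosed {y : ℂ | q * 2 ^ j ≤ dist y x} := isClosed_le continuous_const (by fun_prop)
    have h2 : IsClosed {y : ℂ | dist y x ≤ Q * 2 ^ j} := isClosed_le (by fun_prop) continuous_const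
    exact (h1.inter h2).measurableSet
  set t := s.filter fun j : ℤ => δ < μ.real (A j) with ht
  have h1 : (t.card : ℝ) * δ ≤ ∑ j ∈ t, μ.real (A j) := by
    rw [← nsmul_eq_mul, ← Finset.sum_const]
    apply Finset.sum_le_sum
    intro j hj
    rw [ht, Finset.mem_filter] at hj
    exact hj.2.le
  have h2 : ∑ j ∈ t, μ.real (A j) = ∫ y, ∑ j ∈ t, (A j).indicator (fun _ => (1 : ℝ)) y ∂μ := by
    rw [integral_finsetSum _ (fun j _ => (integrable_const (1 : ℝ)).indicator (hAm j))]
    apply Finset.sum_congr rfl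
    intro j _
    rw [integral_indicator (hAm j)]
    simp
  have h3 : ∫ y, ∑ j ∈ t, (A j).indicator (fun _ => (1 : ℝ)) y ∂μ ≤ ∫ _y, (L : ℝ) ∂μ := by
    apply integral_mono
      (integrable_finsetSum _ (fun j _ => (integrable_const (1 : ℝ)).indicator (hAm j)))
      (integrable_const _)
    intro y
    have h4 : ∑ j ∈ t, (A j).indicator (fun _ => (1 : ℝ)) y =
        ((t.filter fun j => y ∈ A j).card : ℝ) := by
      rw [Finset.card_filter]
      push_cast
      apply Finset.sum_congr rfl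
      intro j _
      by_cases hy : y ∈ A j
      · simp [hy]
      · simp [hy]
    simp only
    rw [h4]
    norm_cast
    apply comb_card
    intro i hi j hj
    rw [Finset.mem_filter] at hi hj
    exact comb_scale q Q hq L hL i j (hj.2.1.trans hi.2.2)
  calc (t.card : ℝ) * δ ≤ ∑ j ∈ t, μ.real (A j) := h1
    _ = _ := h2
    _ ≤ _ := h3
    _ = L * μ.real univ := by rw [integral_const, smul_eq_mul, mul_comm]

/-- (C3) pointwise -/
theorem comb3 (μ : Measure ℂ) [IsFiniteMeasure μ] (q Q : ℝ) (hq : 0 < q) (L : ℕ)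
    (hL : Q < q * 2 ^ L) (s : Finset ℤ) (δ : ℝ) (x : ℂ) :
    (s.filter fun j : ℤ => δ < μ.real (closedBall x (Q * 2 ^ j)) ∧
      μ.real (closedBall x (q * 2 ^ j)) ≤ δ).card ≤ L := by
  apply comb_card
  intro i hi j hj
  rw [Finset.mem_filter] at hi hj
  apply comb_scale q Q hq L hL i j
  by_contra hcon
  push Not at hcon
  have : μ.real (closedBall x (Q * 2 ^ i)) ≤ μ.real (closedBall x (q * 2 ^ j)) :=
    measureReal_mono (closedBall_subset_closedBall hcon.le)
  linarith [hi.2.1, hj.2.2]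

/-- light triples, one scale (10.3): if `S₁`, `S₂` are measurable sets, both inside
`closedBall x₀ r`, at distance more than `2 t` from each other, `r + t ≤ ρ`, then -/
theorem comb_light (μ : Measure ℂ) [IsFiniteMeasure μ] (S₁ S₂ : Set ℂ) (h₁ : MeasurableSet S₁)
    (h₂ : MeasurableSet S₂) (x₀ : ℂ) (r t : ℝ) (hr : 0 < r) (ht : 0 < t) (htr : t ≤ r)
    (hS₁ : S₁ ⊆ closedBall x₀ r) (hS₂ : S₂ ⊆ closedBall x₀ r)
    (hd : ∀ x ∈ S₁, ∀ y ∈ S₂, 2 * t < dist x y) (hle : μ.real S₁ ≤ μ.real S₂) :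
    μ.real S₁ * (μ.real S₂) ^ (1 / 4 : ℝ) ≤
      8 * ∫ x in S₁ ∪ S₂, ((μ.real (closedBall x (4 * r))) ^ (1 / 4 : ℝ) -
        (μ.real (closedBall x t)) ^ (1 / 4 : ℝ)) ∂μ := by
  set M : ℝ := μ.real (closedBall x₀ (2 * r)) with hM
  have hM0 : 0 ≤ M := measureReal_nonneg
  set F : ℂ → ℝ := fun x => (μ.real (closedBall x (4 * r))) ^ (1 / 4 : ℝ) -
        (μ.real (closedBall x t)) ^ (1 / 4 : ℝ) with hF
  have hFint : Integrable F μ := (comb_int μ _).sub (comb_int μ _)
  have hF0 : ∀ x, 0 ≤ F x := fun x => sub_nonneg.mpr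
    (Real.rpow_le_rpow measureReal_nonneg
      (measureReal_mono (closedBall_subset_closedBall (by linarith))) (by norm_num))
  have hbig : ∀ x ∈ S₁ ∪ S₂, M ≤ μ.real (closedBall x (4 * r)) := by
    intro x hx
    have hx' : dist x x₀ ≤ r := by
      rcases hx with hx | hx
      · exact hS₁ hx
      · exact hS₂ hx
    refine measureReal_mono ?_ (measure_ne_top _ _)
    apply closedBall_subset_closedBall'
    rw [dist_comm]; linarith
  have hSM : μ.real S₂ ≤ M := measureReal_mono
    (hS₂.trans (closedBall_subset_closedBall (by linarith)))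
  -- the key numerical inequality
  have hnum : (1 / 2 : ℝ) ^ (1 / 4 : ℝ) ≤ 7 / 8 := by
    have h1 : ((7 / 8 : ℝ) ^ (4 : ℕ)) ^ (1 / 4 : ℝ) = 7 / 8 := by
      rw [← Real.rpow_natCast, ← Real.rpow_mul (by norm_num)]
      norm_num
    rw [← h1]
    exact Real.rpow_le_rpow (by norm_num) (by norm_num) (by norm_num)
  have hkey : ∀ x ∈ S₁ ∪ S₂, μ.real (closedBall x t) ≤ M / 2 → M ^ (1 / 4 : ℝ) / 8 ≤ F x := by
    intro x hx hxM
    have h1 : M ^ (1 / 4 : ℝ) ≤ (μ.real (closedBall x (4 * r))) ^ (1 / 4 : ℝ) :=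
      Real.rpow_le_rpow hM0 (hbig x hx) (by norm_num)
    have h2 : (μ.real (closedBall x t)) ^ (1 / 4 : ℝ) ≤ M ^ (1 / 4 : ℝ) * (7 / 8) := by
      calc (μ.real (closedBall x t)) ^ (1 / 4 : ℝ) ≤ (M * (1 / 2)) ^ (1 / 4 : ℝ) :=
            Real.rpow_le_rpow measureReal_nonneg (by linarith) (by norm_num)
        _ = M ^ (1 / 4 : ℝ) * (1 / 2) ^ (1 / 4 : ℝ) := Real.mul_rpow hM0 (by norm_num)
        _ ≤ M ^ (1 / 4 : ℝ) * (7 / 8) := mul_le_mul_of_nonneg_left hnum (by positivity)
    show M ^ (1 / 4 : ℝ) / 8 ≤ (μ.real (closedBall x (4 * r))) ^ (1 / 4 : ℝ) -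
        (μ.real (closedBall x t)) ^ (1 / 4 : ℝ)
    linarith
  have hS2q : (μ.real S₂) ^ (1 / 4 : ℝ) ≤ M ^ (1 / 4 : ℝ) :=
    Real.rpow_le_rpow measureReal_nonneg hSM (by norm_num)
  -- integrating over one of the two sets
  have hone : ∀ S : Set ℂ, MeasurableSet S → S ⊆ S₁ ∪ S₂ → μ.real S₁ ≤ μ.real S →
      (∀ x ∈ S, μ.real (closedBall x t) ≤ M / 2) →
      μ.real S₁ * (μ.real S₂) ^ (1 / 4 : ℝ) ≤ 8 * ∫ x in S₁ ∪ S₂, F x ∂μ := by
    intro S hSm hSs hSle hSt
    have h1 : ∫ x in S, F x ∂μ ≤ ∫ x in S₁ ∪ S₂, F x ∂μ :=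
      setIntegral_mono_set hFint.integrableOn (Eventually.of_forall fun x => hF0 x)
        (Eventually.of_forall hSs)
    have h2 : μ.real S * (M ^ (1 / 4 : ℝ) / 8) ≤ ∫ x in S, F x ∂μ := by
      have := setIntegral_mono_on (integrable_const (M ^ (1 / 4 : ℝ) / 8)).integrableOn
        hFint.integrableOn hSm (fun x hx => hkey x (hSs hx) (hSt x hx))
      rwa [setIntegral_const, smul_eq_mul] at this
    have h3 : μ.real S₁ * (μ.real S₂) ^ (1 / 4 : ℝ) ≤ μ.real S * M ^ (1 / 4 : ℝ) :=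
      mul_le_mul hSle hS2q (by positivity) measureReal_nonneg
    calc μ.real S₁ * (μ.real S₂) ^ (1 / 4 : ℝ) ≤ μ.real S * M ^ (1 / 4 : ℝ) := h3
      _ = 8 * (μ.real S * (M ^ (1 / 4 : ℝ) / 8)) := by ring
      _ ≤ 8 * ∫ x in S₁ ∪ S₂, F x ∂μ := by linarith
  by_cases hcase : ∀ x ∈ S₁, μ.real (closedBall x t) ≤ M / 2
  · exact hone S₁ h₁ subset_union_left le_rfl hcase
  · push Not at hcase
    obtain ⟨x₁, hx₁, hx₁M⟩ := hcase
    apply hone S₂ h₂ subset_union_right hle
    intro y hy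
    have hdisj : Disjoint (closedBall x₁ t) (closedBall y t) := by
      apply closedBall_disjoint_closedBall
      have := hd x₁ hx₁ y hy
      linarith
    have hsub : closedBall x₁ t ∪ closedBall y t ⊆ closedBall x₀ (2 * r) := by
      apply union_subset
      · apply closedBall_subset_closedBall'
        have : dist x₁ x₀ ≤ r := hS₁ hx₁
        linarith
      · apply closedBall_subset_closedBall'
        have : dist y x₀ ≤ r := hS₂ hy
        linarith
    have h1 : μ.real (closedBall x₁ t) + μ.real (closedBall y t) ≤ M := by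
      rw [← measureReal_union hdisj measurableSet_closedBall]
      exact measureReal_mono hsub
    linarith

end Pool.Agent.H24.Tri
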