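import Mathlib

set_option autoImplicit false

open MeasureTheory Set Complex Metric
open scoped Real ENNReal NNReal FourierTransform ComplexConjugate

namespace Pool.Agent.H24.Tri

/-- the unit vector `e^{iθ}` -/
noncomputable def cis (θ : ℝ) : ℂ := Complex.exp (θ * Complex.I)

/-- the trilinear form at displacement `v`: `∫ f₁(z) f₂(z+v) f₃(z+ρv) dz` -/
noncomputable def tri (ρ : ℂ) (f₁ f₂ f₃ : ℂ → ℂ) (v : ℂ) : ℂ :=
  ∫ z, f₁ z * f₂ (z + v) * f₃ (z + ρ * v)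

/-- the trilinear form integrated over the unit circle centred at `w` (not normalised by `2π`) -/
noncomputable def Lam (ρ : ℂ) (f₁ f₂ f₃ : ℂ → ℂ) (w : ℂ) : ℂ :=
  ∫ θ in Ioc 0 (2 * π), tri ρ f₁ f₂ f₃ (cis θ + w)

/-- `Lam` integrated against a kernel -/
noncomputable def LamK (ρ : ℂ) (k : ℂ → ℂ) (f₁ f₂ f₃ : ℂ → ℂ) : ℂ :=
  ∫ w, k w * Lam ρ f₁ f₂ f₃ w

/-- smooth compactly supported symbols -/
structure Nice (a : ℂ → ℂ) : Prop where
  smooth : ContDiff ℝ ((⊤ : ℕ∞) : WithTop ℕ∞) a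
  compact : HasCompactSupport a

/-- radial cutoff: `1` for `‖z‖ ≤ 1`, `0` for `‖z‖ ≥ 2` -/
noncomputable def chi (z : ℂ) : ℝ := Real.smoothTransition ((4 - ‖z‖ ^ 2) / 3)

noncomputable def chiC (z : ℂ) : ℂ := (chi z : ℂ)

/-- `kap z = chi (z/2) - chi z`, supported in `1 ≤ ‖z‖ ≤ 4` -/
noncomputable def kapC (z : ℂ) : ℂ := chiC (z / 2) - chiC z

/-- `P_R(w) = R² P(Rw)`, `P = 𝓕⁻ chi` -/
noncomputable def PR (R : ℝ) (w : ℂ) : ℂ := (R : ℂ) ^ 2 * 𝓕⁻ chiC ((R : ℂ) * w)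

/-- `k_R(w) = R² k(Rw)`, `k = 𝓕⁻ kap` -/
noncomputable def kR (R : ℝ) (w : ℂ) : ℂ := (R : ℂ) ^ 2 * 𝓕⁻ kapC ((R : ℂ) * w)

/-- the Gaussian of width `s` and integral one -/
noncomputable def gauss (s : ℝ) (w : ℂ) : ℝ := (s ^ 2)⁻¹ * Real.exp (-π * ‖w‖ ^ 2 / s ^ 2)

noncomputable def gaussC (s : ℝ) (w : ℂ) : ℂ := (gauss s w : ℂ)

/-- one-dimensional smooth tent, supported in `[-1,1]`, integer translates sum to one -/
noncomputable def th (t : ℝ) : ℝ := Real.smoothTransition (t + 1) * Real.smoothTransition (1 - t)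

/-- smooth partition-of-unity function on the plane, supported in `[-1,1]²` -/
noncomputable def theta (x : ℂ) : ℝ := th x.re * th x.im

/-- Gaussian integers -/
def gi (n : ℤ × ℤ) : ℂ := (n.1 : ℂ) + (n.2 : ℂ) * Complex.I

/-- `sym c s n ξ = theta (ξ/(c s) - n)` -/
noncomputable def sym (c : ℂ) (s : ℝ) (n : ℤ × ℤ) (ξ : ℂ) : ℝ := theta (ξ / (c * s) - gi n)

/-- frequency piece -/
noncomputable def piece (c : ℂ) (s : ℝ) (n : ℤ × ℤ) (a : ℂ → ℂ) (ξ : ℂ) : ℂ :=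
  (sym c s n ξ : ℂ) * a ξ

/-- unnormalised bump of the unit disc -/
noncomputable def psi0 (z : ℂ) : ℝ := Real.smoothTransition (1 - ‖z‖ ^ 2)

/-- `∫ psi² = 1` -/
noncomputable def psi (z : ℂ) : ℝ := psi0 z / Real.sqrt (∫ x, psi0 x ^ 2)

/-- `psr r x = r⁻¹ psi (x / r)`, so that `∫ (psr r)² = 1` -/
noncomputable def psr (r : ℝ) (x : ℂ) : ℝ := r⁻¹ * psi (x / (r : ℂ))

/-- frequency coefficients -/
noncomputable def c1 (ρ : ℂ) : ℂ := conj ρ - 1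
noncomputable def c2 (ρ : ℂ) : ℂ := -conj ρ
noncomputable def c3 : ℂ := 1

end Pool.Agent.H24.Tri
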