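import Pool.Agent.H24.Tri.Defs

set_option autoImplicit false

open MeasureTheory Set Complex Metric
open scoped Real ENNReal NNReal FourierTransform ComplexConjugate

namespace Pool.Agent.H24.Tri

/-- the localised form `Λ_R^φ` -/
noncomputable def LamLoc (ρ : ℂ) (φ : ℂ → ℝ) (k : ℂ → ℂ) (g₁ g₂ g₃ : ℂ → ℂ) : ℂ :=
  ∫ w, k w * ∫ θ in Ioc 0 (2 * π), ∫ z, (φ z : ℂ) * g₁ z * g₂ (z + (cis θ + w)) *
    g₃ (z + ρ * (cis θ + w))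

/-- `I(h,G,g)`: weight at `z+γu`, `h` at `z`, `G` at `z+αu`, `g` at `z+βu` -/
noncomputable def Iform (α β γ : ℂ) (h G g : ℂ → ℂ) : ℂ :=
  ∫ θ in Ioc 0 (2 * π), ∫ z, (psi0 (z + γ * cis θ) : ℂ) * h z * G (z + α * cis θ) *
    g (z + β * cis θ)

/-- local autocorrelation `A_y(v)` -/
noncomputable def acorr (r : ℝ) (G : ℂ → ℂ) (y v : ℂ) : ℂ :=
  ∫ x, ((psr r (x - y) ^ 2 : ℝ) : ℂ) * G x * conj (G (x + v))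

/-- average of `|A_y(k i α u_j)|²` over `n` directions and `k = h - h'`, `h,h' ∈ (0,η]` uniform -/
noncomputable def avgA (α : ℂ) (n : ℕ) (η r : ℝ) (G : ℂ → ℂ) (y : ℂ) : ℝ :=
  (n : ℝ)⁻¹ * ∑ j ∈ Finset.range n, (η ^ 2)⁻¹ * ∫ h in Ioc 0 η, ∫ h' in Ioc 0 η,
    ‖acorr r G y (((h - h' : ℝ) : ℂ) * (Complex.I * α * cis (2 * π * j / n)))‖ ^ 2

/-- local spectral density -/
noncomputable def specM (r : ℝ) (G : ℂ → ℂ) (y ξ : ℂ) : ℝ :=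
  ‖𝓕 (fun x : ℂ => (psr r (x - y) : ℂ) * G x) ξ‖ ^ 2

/-- frequency piece of side `R/K` -/
noncomputable def pm (K R : ℝ) (a : ℂ → ℂ) (m : ℤ × ℤ) : ℂ → ℂ := 𝓕⁻ (piece 1 (R / K) m a)

/-- local mass -/
noncomputable def mass (r : ℝ) (f : ℂ → ℂ) (t : ℂ) : ℝ := ∫ x, psr r (x - t) ^ 2 * ‖f x‖ ^ 2

/-- index box -/
noncomputable def bx (C₀ K : ℝ) : ℕ := ⌈C₀ * K⌉₊ + 1

noncomputable def mbox (M : ℕ) : Finset (ℤ × ℤ) := Finset.Icc (-(M : ℤ), -(M : ℤ)) ((M : ℤ), (M : ℤ))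

open Classical in
/-- heavy weight `h_m` -/
noncomputable def hwt (K R r th : ℝ) (a : ℂ → ℂ) (m : ℤ × ℤ) (x : ℂ) : ℝ :=
  ∫ t, psr r (x - t) ^ 2 * (if th ≤ mass r (pm K R a m) t then 1 else 0)

open Classical in
/-- light weight `l_m` -/
noncomputable def lwt (K R r th : ℝ) (a : ℂ → ℂ) (m : ℤ × ℤ) (x : ℂ) : ℝ :=
  ∫ t, psr r (x - t) ^ 2 * (if th ≤ mass r (pm K R a m) t then 0 else 1)

/-- heavy part -/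
noncomputable def gh (C₀ K R r th : ℝ) (a : ℂ → ℂ) (x : ℂ) : ℂ :=
  ∑ m ∈ mbox (bx C₀ K), (hwt K R r th a m x : ℂ) * pm K R a m x

/-- light part -/
noncomputable def gl (C₀ K R r th : ℝ) (a : ℂ → ℂ) (x : ℂ) : ℂ :=
  ∑ m ∈ mbox (bx C₀ K), (lwt K R r th a m x : ℂ) * pm K R a m x

open Classical in
/-- heavy set at `t` -/
noncomputable def hset (C₀ K R r th : ℝ) (a : ℂ → ℂ) (t : ℂ) : Finset (ℤ × ℤ) :=
  (mbox (bx C₀ K)).filter fun m => th ≤ mass r (pm K R a m) t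

/-- admissible symbols at frequency scale `R` -/
structure Adm (C₀ R : ℝ) (a : ℂ → ℂ) : Prop where
  nice : Nice a
  supp : ∀ ξ, C₀ * R < ‖ξ‖ → a ξ = 0
  bound : ∀ z, ‖𝓕⁻ a z‖ ≤ 1

/-- the resonance set -/
def resSet (ρ : ℂ) (D τ : ℝ) (N₁ N₂ N₃ : ℂ → ℂ) : Set (ℂ × ℝ) :=
  {p : ℂ × ℝ | ‖p.1‖ ≤ D ∧ p.2 ∈ Ioc 0 (2 * π) ∧
    ‖N₁ p.1 + N₂ (p.1 + cis p.2) + N₃ (p.1 + ρ * cis p.2)‖ ≤ τ ∧
    |(conj (Complex.I * cis p.2) *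
      (N₂ (p.1 + cis p.2) + conj ρ * N₃ (p.1 + ρ * cis p.2))).re| ≤ τ ∧
    1 ≤ ‖N₂ (p.1 + cis p.2) + conj ρ * N₃ (p.1 + ρ * cis p.2)‖}

end Pool.Agent.H24.Tri
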