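import Pool.Agent.H24.Tri.Defs
import Pool.Agent.H98.Tri.SM

set_option autoImplicit false

open MeasureTheory Set Complex Metric Filter Topology
open scoped Real ENNReal NNReal ComplexConjugate

namespace Pool.Agent.H24.Tri

namespace GpBil

/-- pointwise convergence of equi-Lipschitz functions is uniform on compact sets -/
lemma unif_of_lip (U : Filter ℕ) (g : ℕ → ℂ → ℝ) (g' : ℂ → ℝ) (L : ℝ) (hL : 0 ≤ L)
    (hg : ∀ n x y, |g n x - g n y| ≤ L * ‖x - y‖) (hg' : ∀ x y, |g' x - g' y| ≤ L * ‖x - y‖)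
    (hp : ∀ x, Tendsto (fun n => g n x) U (𝓝 (g' x))) (K : Set ℂ) (hK : IsCompact K) (δ : ℝ)
    (hδ : 0 < δ) : ∀ᶠ n in U, ∀ x ∈ K, |g n x - g' x| ≤ δ := by
  set ρ : ℝ := δ / (3 * (L + 1)) with hρ
  have hρ0 : 0 < ρ := by positivity
  obtain ⟨t, ht, htf, hcov⟩ := hK.finite_cover_balls hρ0
  have h1 : ∀ᶠ n in U, ∀ y ∈ t, |g n y - g' y| ≤ δ / 3 := by
    rw [eventually_all_finite htf]
    intro y _
    have := (hp y)
    rw [Metric.tendsto_nhds] at this
    filter_upwards [this (δ / 3) (by positivity)] with n hn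
    rw [Real.dist_eq] at hn
    exact hn.le
  filter_upwards [h1] with n hn x hx
  obtain ⟨y, hy, hxy⟩ := mem_iUnion₂.1 (hcov hx)
  have hxy' : ‖x - y‖ ≤ ρ := by
    rw [mem_ball, dist_eq_norm] at hxy; exact hxy.le
  have e1 := hg n x y
  have e2 := hg' x y
  have e3 := hn y hy
  have e4 : L * ‖x - y‖ ≤ δ / 3 := by
    calc L * ‖x - y‖ ≤ (L + 1) * ρ := by
          apply mul_le_mul (by linarith) hxy' (norm_nonneg _) (by linarith)
      _ = δ / 3 := by rw [hρ]; field_simp
  rw [abs_le] at *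
  constructor <;> linarith [e1.1, e1.2, e2.1, e2.2, e3.1, e3.2]

/-- Fubini for the bilinear form -/
lemma fub (c : ℂ) (P E : ℂ → ℝ) (b : ℝ → ℝ) (mP : Measurable P) (mE : Measurable E)
    (mb : Measurable b) (Q K B D : ℝ) (hP : ∀ x, |P x| ≤ Q) (hE : ∀ x, |E x| ≤ K)
    (hb : ∀ x, |b x| ≤ B) (sP : ∀ x, D ≤ ‖x‖ → P x = 0) :
    ∫ θ in Ioc 0 (2 * π), ∫ z, P z * (b θ * E (z + c * cis θ)) =
      ∫ z, P z * ∫ θ in Ioc 0 (2 * π), b θ * E (z + c * cis θ) := by
  have hcis : Continuous cis := by unfold cis; fun_prop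
  have hQ : 0 ≤ Q := (abs_nonneg _).trans (hP 0)
  have hK : 0 ≤ K := (abs_nonneg _).trans (hE 0)
  have hB : 0 ≤ B := (abs_nonneg _).trans (hb 0)
  have hint : Integrable (Function.uncurry fun (θ : ℝ) (z : ℂ) => P z * (b θ * E (z + c * cis θ)))
      ((volume.restrict (Ioc 0 (2 * π))).prod volume) := by
    have hm : Measurable (Function.uncurry fun (θ : ℝ) (z : ℂ) =>
        P z * (b θ * E (z + c * cis θ))) := by
      refine (mP.comp measurable_snd).mul ((mb.comp measurable_fst).mul (mE.comp ?_))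
      exact (measurable_snd.add ((hcis.measurable.comp measurable_fst).const_mul c))
    have hbd : Integrable (fun p : ℝ × ℂ => (Q * (B * K)) *
        ((closedBall (0 : ℂ) D).indicator (fun _ => (1 : ℝ)) p.2))
        ((volume.restrict (Ioc 0 (2 * π))).prod volume) := by
      have h1 : Integrable (fun _ : ℝ => (Q * (B * K))) (volume.restrict (Ioc 0 (2 * π))) := by
        refine integrable_const_iff.2 (Or.inr ?_)
        refine ⟨?_⟩
        rw [Measure.restrict_apply_univ]
        exact measure_Ioc_lt_top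
      have h2 : Integrable ((closedBall (0 : ℂ) D).indicator (fun _ => (1 : ℝ))) volume := by
        refine (integrable_indicator_iff measurableSet_closedBall).2 ?_
        exact integrableOn_const (by exact measure_closedBall_lt_top.ne) (by simp)
      exact h1.mul_prod h2
    refine hbd.mono' hm.aestronglyMeasurable (ae_of_all _ ?_)
    rintro ⟨θ, z⟩
    simp only [Function.uncurry_apply_pair]
    by_cases hz : z ∈ closedBall (0 : ℂ) D
    · rw [indicator_of_mem hz, mul_one, norm_mul, norm_mul]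
      exact mul_le_mul (hP z) (mul_le_mul (hb θ) (hE _) (norm_nonneg _) hB) (by positivity) hQ
    · have hz' : P z = 0 := by
        apply sP
        rw [mem_closedBall_zero_iff, not_le] at hz
        exact hz.le
      rw [hz', indicator_of_notMem hz]; simp
  rw [integral_integral_swap hint]
  refine integral_congr_ae (ae_of_all _ fun z => ?_)
  simp only
  rw [integral_const_mul]

/-- Cauchy-Schwarz -/
lemma cs (P S : ℂ → ℝ) (mP : Measurable P) (mS : Measurable S) (Q D η : ℝ) (hη : 0 ≤ η)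
    (hP : ∀ x, |P x| ≤ Q) (sP : ∀ x, D ≤ ‖x‖ → P x = 0)
    (hS : ∫⁻ x, ‖(S x : ℂ)‖ₑ ^ 2 ≤ ENNReal.ofReal η) :
    |∫ z, P z * S z| ≤ Real.sqrt (Q ^ 2 * (volume (closedBall (0 : ℂ) D)).toReal * η) := by
  have hQ : 0 ≤ Q := (abs_nonneg _).trans (hP 0)
  set V : ℝ := (volume (closedBall (0 : ℂ) D)).toReal with hV
  have hVt : volume (closedBall (0 : ℂ) D) = ENNReal.ofReal V := by
    rw [hV, ENNReal.ofReal_toReal measure_closedBall_lt_top.ne]
  have h1 : ENNReal.ofReal |∫ z, P z * S z| ≤ ∫⁻ z, (fun z => ‖P z‖ₑ) z * (fun z => ‖S z‖ₑ) z := by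
    have := enorm_integral_le_lintegral_enorm (μ := volume) (fun z : ℂ => P z * S z)
    rw [← ofReal_norm, Real.norm_eq_abs] at this
    refine this.trans (lintegral_mono fun z => ?_)
    simp only
    rw [enorm_mul]
  have h2 := ENNReal.lintegral_mul_le_Lp_mul_Lq (μ := (volume : Measure ℂ))
    (p := 2) (q := 2) Real.HolderConjugate.two_two (f := fun z => ‖P z‖ₑ) (g := fun z => ‖S z‖ₑ)
    (mP.enorm.aemeasurable) (mS.enorm.aemeasurable)
  have h3 : ∫⁻ z, ‖P z‖ₑ ^ (2 : ℝ) ≤ ENNReal.ofReal (Q ^ 2 * V) := by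
    calc ∫⁻ z, ‖P z‖ₑ ^ (2 : ℝ) ≤ ∫⁻ z, (closedBall (0 : ℂ) D).indicator
          (fun _ => ENNReal.ofReal (Q ^ 2)) z := by
          refine lintegral_mono fun z => ?_
          by_cases hz : z ∈ closedBall (0 : ℂ) D
          · rw [indicator_of_mem hz, ← ofReal_norm, ENNReal.rpow_ofNat,
              ← ENNReal.ofReal_pow (norm_nonneg _)]
            apply ENNReal.ofReal_le_ofReal
            exact pow_le_pow_left₀ (norm_nonneg _) (hP z) 2
          · have hz' : P z = 0 := by
              apply sP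
              rw [mem_closedBall_zero_iff, not_le] at hz
              exact hz.le
            rw [hz', indicator_of_notMem hz]; simp
      _ = ENNReal.ofReal (Q ^ 2 * V) := by
          rw [lintegral_indicator measurableSet_closedBall, setLIntegral_const, hVt,
            ← ENNReal.ofReal_mul (by positivity)]
  have h4 : ∫⁻ z, ‖S z‖ₑ ^ (2 : ℝ) ≤ ENNReal.ofReal η := by
    refine le_trans (lintegral_mono fun z => ?_) hS
    rw [ENNReal.rpow_ofNat]
    have : ‖S z‖ₑ = ‖(S z : ℂ)‖ₑ := by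
      rw [← ofReal_norm, ← ofReal_norm, Complex.norm_real]
    rw [this]
  have h5 : ENNReal.ofReal |∫ z, P z * S z| ≤
      (ENNReal.ofReal (Q ^ 2 * V)) ^ (1 / 2 : ℝ) * (ENNReal.ofReal η) ^ (1 / 2 : ℝ) := by
    refine h1.trans (h2.trans ?_)
    exact mul_le_mul' (ENNReal.rpow_le_rpow h3 (by norm_num)) (ENNReal.rpow_le_rpow h4 (by norm_num))
  have hQV : 0 ≤ Q ^ 2 * V := by positivity
  rw [ENNReal.ofReal_rpow_of_nonneg hQV (by norm_num),
    ENNReal.ofReal_rpow_of_nonneg hη (by norm_num), ← ENNReal.ofReal_mul (by positivity),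
    ← Real.mul_rpow hQV hη, ← Real.sqrt_eq_rpow] at h5
  exact (ENNReal.ofReal_le_ofReal_iff (Real.sqrt_nonneg _)).1 h5

/-- a bump -/
noncomputable def bump (z : ℂ) : ℝ := max 0 (1 - ‖z‖) / ∫ w : ℂ, max 0 (1 - ‖w‖)

lemma bump_cont : Continuous bump := by unfold bump; fun_prop

lemma bump_int_pos : 0 < ∫ w : ℂ, max 0 (1 - ‖w‖) := by
  have hc : Continuous fun w : ℂ => max 0 (1 - ‖w‖) := by fun_prop
  have hs : HasCompactSupport fun w : ℂ => max 0 (1 - ‖w‖) := by
    refine HasCompactSupport.intro (isCompact_closedBall (0 : ℂ) 1) ?_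
    intro x hx
    rw [mem_closedBall_zero_iff, not_le] at hx
    exact max_eq_left (by linarith)
  refine hc.integral_pos_of_hasCompactSupport_nonneg_nonzero hs (fun x => le_max_left _ _)
    (x := 0) ?_
  simp

lemma bump_nonneg (z : ℂ) : 0 ≤ bump z :=
  div_nonneg (le_max_left _ _) bump_int_pos.le

lemma bump_even (z : ℂ) : bump (-z) = bump z := by unfold bump; rw [norm_neg]

lemma bump_int : ∫ z, bump z = 1 := by
  unfold bump
  rw [integral_div]
  exact div_self bump_int_pos.ne'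

lemma bump_zero (z : ℂ) (hz : 1 ≤ ‖z‖) : bump z = 0 := by
  unfold bump
  rw [max_eq_left (by linarith)]
  simp

lemma bump_lip (x y : ℂ) : |bump x - bump y| ≤ (∫ w : ℂ, max 0 (1 - ‖w‖))⁻¹ * ‖x - y‖ := by
  unfold bump
  rw [← sub_div, abs_div, abs_of_pos bump_int_pos, div_eq_inv_mul]
  apply mul_le_mul_of_nonneg_left _ (inv_nonneg.2 bump_int_pos.le)
  have h1 := abs_max_sub_max_le_max (0 : ℝ) (1 - ‖x‖) 0 (1 - ‖y‖)
  have h2 : |(1 - ‖x‖) - (1 - ‖y‖)| ≤ ‖x - y‖ := by
    have := abs_norm_sub_norm_le y x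
    rw [norm_sub_rev] at this
    have e : (1 - ‖x‖) - (1 - ‖y‖) = ‖y‖ - ‖x‖ := by ring
    rw [e]; exact this
  refine h1.trans ?_
  simp only [sub_self, abs_zero]
  exact max_le (norm_nonneg _) h2

/-- rescaled bump -/
noncomputable def ker (r : ℝ) (z : ℂ) : ℝ := (r ^ 2)⁻¹ * bump (z / (r : ℂ))

lemma ker_cont (r : ℝ) : Continuous (ker r) := by
  unfold ker
  exact continuous_const.mul (bump_cont.comp (continuous_id.div_const _))

lemma ker_lip (r : ℝ) (hr : 0 < r) : ∃ L : ℝ, 0 ≤ L ∧ ∀ x y : ℂ,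
    |ker r x - ker r y| ≤ L * ‖x - y‖ := by
  refine ⟨(r ^ 2)⁻¹ * ((∫ w : ℂ, max 0 (1 - ‖w‖))⁻¹ * r⁻¹), ?_, fun x y => ?_⟩
  · have := bump_int_pos
    positivity
  · unfold ker
    rw [← mul_sub, abs_mul, abs_of_nonneg (by positivity : (0 : ℝ) ≤ (r ^ 2)⁻¹), mul_assoc]
    apply mul_le_mul_of_nonneg_left _ (by positivity)
    have h := bump_lip (x / (r : ℂ)) (y / (r : ℂ))
    have e : ‖x / (r : ℂ) - y / (r : ℂ)‖ = r⁻¹ * ‖x - y‖ := by
      rw [← sub_div, norm_div, Complex.norm_real, Real.norm_eq_abs, abs_of_pos hr, div_eq_inv_mul]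
    rw [e] at h
    rw [mul_assoc]
    exact h

lemma ker_zero (r : ℝ) (hr : 0 < r) (z : ℂ) (hz : r ≤ ‖z‖) : ker r z = 0 := by
  unfold ker
  rw [bump_zero, mul_zero]
  rw [norm_div, Complex.norm_real, Real.norm_eq_abs, abs_of_pos hr, le_div_iff₀ hr]
  linarith

/-- real mollification -/
noncomputable def rmoll (r : ℝ) (H : ℂ → ℝ) (x : ℂ) : ℝ := ∫ y, ker r (x - y) * H y

lemma moll_rmoll (r : ℝ) (H : ℂ → ℝ) (x : ℂ) :
    moll bump r (fun y => (H y : ℂ)) x = ((rmoll r H x : ℝ) : ℂ) := by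
  unfold moll rmoll
  have h1 : ∫ y, ker r (x - y) * H y = ∫ y, ker r y * H (x - y) := by
    have := integral_sub_left_eq_self (fun y : ℂ => ker r y * H (x - y)) (volume : Measure ℂ) x
    rw [← this]
    refine integral_congr_ae (ae_of_all _ fun y => ?_)
    simp only [sub_sub_cancel]
  rw [h1, ← integral_complex_ofReal]
  refine integral_congr_ae (ae_of_all _ fun y => ?_)
  simp only [ker, Complex.ofReal_mul]

/-- bounded functions supported in a ball: integrability -/
lemma intg (f : ℂ → ℝ) (mf : Measurable f) (C D : ℝ) (hf : ∀ x, |f x| ≤ C)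
    (sf : ∀ x, D ≤ ‖x‖ → f x = 0) : Integrable f := by
  have h1 : Integrable ((closedBall (0 : ℂ) D).indicator (fun _ => C)) volume := by
    refine (integrable_indicator_iff measurableSet_closedBall).2 ?_
    exact integrableOn_const (by exact measure_closedBall_lt_top.ne) (by simp)
  refine h1.mono' mf.aestronglyMeasurable (ae_of_all _ fun z => ?_)
  by_cases hz : z ∈ closedBall (0 : ℂ) D
  · rw [indicator_of_mem hz]; exact hf z
  · have hz' : f z = 0 := by
      apply sf
      rw [mem_closedBall_zero_iff, not_le] at hz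
      exact hz.le
    rw [hz', indicator_of_notMem hz]; simp

/-- bounded functions supported in a ball: bound for the integral -/
lemma intg_le (f : ℂ → ℝ) (C D : ℝ) (hf : ∀ x, ‖x‖ ≤ D → |f x| ≤ C)
    (sf : ∀ x, D ≤ ‖x‖ → f x = 0) :
    |∫ x, f x| ≤ C * (volume (closedBall (0 : ℂ) D)).toReal := by
  have h1 : ∫ x in closedBall (0 : ℂ) D, f x = ∫ x, f x := by
    apply setIntegral_eq_integral_of_forall_compl_eq_zero
    intro z hz
    apply sf
    rw [mem_closedBall_zero_iff, not_le] at hz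
    exact hz.le
  rw [← h1]
  have := norm_setIntegral_le_of_norm_le_const (μ := (volume : Measure ℂ))
    (s := closedBall (0 : ℂ) D) (f := f) (C := C) measure_closedBall_lt_top
    (fun x hx => hf x (by rwa [mem_closedBall_zero_iff] at hx))
  exact this

lemma ker_bdd (r : ℝ) (hr : 0 < r) : ∃ K : ℝ, ∀ z, |ker r z| ≤ K := by
  obtain ⟨K, hK⟩ := (HasCompactSupport.intro (isCompact_closedBall (0 : ℂ) r) (f := ker r)
    (fun x hx => ker_zero r hr x (by
      rw [mem_closedBall_zero_iff, not_le] at hx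
      exact hx.le))).exists_bound_of_continuous (ker_cont r)
  exact ⟨K, fun z => by simpa [Real.norm_eq_abs] using hK z⟩

lemma rmoll_bdd (r : ℝ) (K : ℝ) (hK : ∀ z, |ker r z| ≤ K) (H : ℂ → ℝ) (M D : ℝ)
    (bH : ∀ x, |H x| ≤ M) (sH : ∀ x, D ≤ ‖x‖ → H x = 0) (x : ℂ) :
    |rmoll r H x| ≤ K * M * (volume (closedBall (0 : ℂ) D)).toReal := by
  refine intg_le _ _ D (fun y _ => ?_) (fun y hy => by rw [sH y hy, mul_zero])
  rw [abs_mul]
  exact mul_le_mul (hK _) (bH _) (abs_nonneg _) ((abs_nonneg _).trans (hK 0))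

lemma rmoll_lip (r L : ℝ) (hL0 : 0 ≤ L) (K : ℝ) (hK : ∀ z, |ker r z| ≤ K)
    (hL : ∀ x y : ℂ, |ker r x - ker r y| ≤ L * ‖x - y‖) (H : ℂ → ℝ) (mH : Measurable H) (M D : ℝ)
    (bH : ∀ x, |H x| ≤ M) (sH : ∀ x, D ≤ ‖x‖ → H x = 0) (x x' : ℂ) :
    |rmoll r H x - rmoll r H x'| ≤
      (L * M * (volume (closedBall (0 : ℂ) D)).toReal) * ‖x - x'‖ := by
  have hi : ∀ x, Integrable fun y => ker r (x - y) * H y := by
    intro x
    refine intg _ ?_ (K * M) D (fun y => ?_) (fun y hy => by rw [sH y hy, mul_zero])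
    · exact ((ker_cont r).comp (continuous_const.sub continuous_id)).measurable.mul mH
    · rw [abs_mul]
      exact mul_le_mul (hK _) (bH _) (abs_nonneg _) ((abs_nonneg _).trans (hK 0))
  unfold rmoll
  rw [← integral_sub (hi x) (hi x')]
  have h1 := intg_le (fun y => ker r (x - y) * H y - ker r (x' - y) * H y)
    (L * ‖x - x'‖ * M) D (fun y _ => by
      rw [← sub_mul, abs_mul]
      have h2 := hL (x - y) (x' - y)
      have e : x - y - (x' - y) = x - x' := by ring
      rw [e] at h2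
      exact mul_le_mul h2 (bH y) (abs_nonneg _) (by positivity))
    (fun y hy => by rw [sH y hy]; simp)
  refine h1.trans (le_of_eq ?_)
  ring

/-- the circle average -/
noncomputable def cav (b : ℝ → ℝ) (c : ℂ) (E : ℂ → ℝ) (z : ℂ) : ℝ :=
  ∫ θ in Ioc 0 (2 * π), b θ * E (z + c * cis θ)

lemma cav_meas (b : ℝ → ℝ) (mb : Measurable b) (c : ℂ) (E : ℂ → ℝ) (mE : Measurable E) :
    Measurable (cav b c E) := by
  have hcis : Continuous cis := by unfold cis; fun_prop
  have hm : Measurable (Function.uncurry fun (z : ℂ) (θ : ℝ) => b θ * E (z + c * cis θ)) := by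
    refine (mb.comp measurable_snd).mul (mE.comp ?_)
    exact (measurable_fst.add ((hcis.measurable.comp measurable_snd).const_mul c))
  exact (hm.stronglyMeasurable.integral_prod_right
    (ν := (volume.restrict (Ioc 0 (2 * π)) : Measure ℝ))).measurable

lemma cav_le (b : ℝ → ℝ) (B : ℝ) (hb : ∀ x, |b x| ≤ B) (c : ℂ) (E : ℂ → ℝ) (z : ℂ) (K : ℝ)
    (hK : ∀ θ, |E (z + c * cis θ)| ≤ K) : |cav b c E z| ≤ B * K * (2 * π) := by
  unfold cav
  have := norm_setIntegral_le_of_norm_le_const (μ := (volume : Measure ℝ))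
    (s := Ioc 0 (2 * π)) (f := fun θ => b θ * E (z + c * cis θ)) (C := B * K) measure_Ioc_lt_top
    (fun θ _ => by
      rw [norm_mul]
      exact mul_le_mul (hb θ) (hK θ) (norm_nonneg _) ((abs_nonneg _).trans (hb 0)))
  refine this.trans (le_of_eq ?_)
  rw [Measure.real, Real.volume_Ioc, ENNReal.toReal_ofReal (by have := Real.pi_pos; linarith)]
  ring

lemma cav_intg (b : ℝ → ℝ) (mb : Measurable b) (B : ℝ) (hb : ∀ x, |b x| ≤ B) (c : ℂ) (E : ℂ → ℝ)
    (mE : Measurable E) (z : ℂ) (K : ℝ)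
    (hK : ∀ x, |E x| ≤ K) : IntegrableOn (fun θ => b θ * E (z + c * cis θ)) (Ioc 0 (2 * π)) := by
  have hcis : Continuous cis := by unfold cis; fun_prop
  refine Measure.integrableOn_of_bounded (M := B * K) measure_Ioc_lt_top.ne ?_
    (ae_of_all _ fun θ => ?_)
  · exact (mb.mul (mE.comp (measurable_const.add (hcis.measurable.const_mul c)))).aestronglyMeasurable
  · rw [norm_mul]
    exact mul_le_mul (hb θ) (hK _) (norm_nonneg _) ((abs_nonneg _).trans (hb 0))

lemma cav_sub (b : ℝ → ℝ) (mb : Measurable b) (B : ℝ) (hb : ∀ x, |b x| ≤ B) (c : ℂ) (E G : ℂ → ℝ)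
    (mE : Measurable E) (mG : Measurable G) (z : ℂ) (K : ℝ)
    (hK : ∀ x, |E x| ≤ K) (K' : ℝ) (hK' : ∀ x, |G x| ≤ K') :
    cav b c (fun y => E y - G y) z = cav b c E z - cav b c G z := by
  unfold cav
  rw [← integral_sub (cav_intg b mb B hb c E mE z K hK) (cav_intg b mb B hb c G mG z K' hK')]
  refine integral_congr_ae (ae_of_all _ fun θ => ?_)
  simp only
  ring

lemma cav_cont (a : ℝ → ℝ) (ha : Continuous a) (c : ℂ) (G : ℂ → ℝ) (hG : Continuous G) :
    Continuous fun z => ∫ θ in Ioc 0 (2 * π), a θ * G (z + c * cis θ) := by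
  have hcis : Continuous cis := by unfold cis; fun_prop
  have h1 : Continuous (Function.uncurry fun (z : ℂ) (θ : ℝ) => a θ * G (z + c * cis θ)) := by
    refine (ha.comp continuous_snd).mul (hG.comp ?_)
    exact continuous_fst.add (continuous_const.mul (hcis.comp continuous_snd))
  have h2 := intervalIntegral.continuous_parametric_intervalIntegral_of_continuous'
    (μ := (volume : Measure ℝ)) h1 0 (2 * π)
  have h3 : (fun z => ∫ θ in Ioc 0 (2 * π), a θ * G (z + c * cis θ)) =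
      fun z => ∫ θ in (0 : ℝ)..(2 * π), a θ * G (z + c * cis θ) := by
    funext z
    rw [intervalIntegral.integral_of_le (by have := Real.pi_pos; linarith)]
  rw [h3]
  exact h2

end GpBil

open GpBil

/-- GP-c: bilinear limit along an ultrafilter.  `F n`, `H n` uniformly bounded, converging weakly
(against continuous compactly supported functions) to `F'`, `H'`. -/
theorem gp_bilinear (U : Filter ℕ) [U.NeBot] (c : ℂ) (hc : c ≠ 0) (F H : ℕ → ℂ → ℝ)
    (F' H' : ℂ → ℝ) (mF : ∀ n, Measurable (F n)) (mH : ∀ n, Measurable (H n))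
    (mF' : Measurable F') (mH' : Measurable H') (M D : ℝ)
    (bF : ∀ n x, |F n x| ≤ M) (bH : ∀ n x, |H n x| ≤ M) (bF' : ∀ x, |F' x| ≤ M)
    (bH' : ∀ x, |H' x| ≤ M) (sF : ∀ n x, D ≤ ‖x‖ → F n x = 0) (sH : ∀ n x, D ≤ ‖x‖ → H n x = 0)
    (sF' : ∀ x, D ≤ ‖x‖ → F' x = 0) (sH' : ∀ x, D ≤ ‖x‖ → H' x = 0)
    (cF : ∀ φ : ℂ → ℝ, Continuous φ → Tendsto (fun n => ∫ x, φ x * F n x) U (𝓝 (∫ x, φ x * F' x)))
    (cH : ∀ φ : ℂ → ℝ, Continuous φ → Tendsto (fun n => ∫ x, φ x * H n x) U (𝓝 (∫ x, φ x * H' x)))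
    (a₁ : ℂ → ℝ) (a₂ : ℝ → ℝ) (ha₁ : Continuous a₁) (ha₂ : Continuous a₂)
    (ha₁0 : ∀ x, 0 ≤ a₁ x) (ha₂0 : ∀ x, 0 ≤ a₂ x) :
    Tendsto (fun n => ∫ θ in Ioc 0 (2 * π), ∫ z, a₁ z * a₂ θ * F n z * H n (z + c * cis θ)) U
      (𝓝 (∫ θ in Ioc 0 (2 * π), ∫ z, a₁ z * a₂ θ * F' z * H' (z + c * cis θ))) := by
  have hcis : Continuous cis := by unfold cis; fun_prop
  have hπ := Real.pi_pos
  have hM : 0 ≤ M := (abs_nonneg _).trans (bF' 0)
  -- bounds for the cutoffs
  obtain ⟨A₁, hA₁⟩ : ∃ A : ℝ, ∀ x, ‖x‖ ≤ D → |a₁ x| ≤ A := by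
    obtain ⟨A, hA⟩ := (isCompact_closedBall (0 : ℂ) D).exists_bound_of_continuousOn
      ha₁.continuousOn
    exact ⟨A, fun x hx => hA x (by rwa [mem_closedBall_zero_iff])⟩
  obtain ⟨B, hB⟩ : ∃ B : ℝ, ∀ θ ∈ Ioc 0 (2 * π), |a₂ θ| ≤ B := by
    obtain ⟨A, hA⟩ := (isCompact_Icc (a := (0 : ℝ)) (b := 2 * π)).exists_bound_of_continuousOn
      ha₂.continuousOn
    exact ⟨A, fun x hx => hA x (Ioc_subset_Icc_self hx)⟩
  have hB0 : 0 ≤ B := (abs_nonneg _).trans (hB (2 * π) (by constructor <;> linarith))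
  set b : ℝ → ℝ := (Ioc 0 (2 * π)).indicator a₂ with hb
  have mb : Measurable b := ha₂.measurable.indicator measurableSet_Ioc
  have hb0 : ∀ θ, 0 ≤ b θ := fun θ => indicator_nonneg (fun x _ => ha₂0 x) θ
  have hbB : ∀ θ, |b θ| ≤ B := by
    intro θ
    by_cases hθ : θ ∈ Ioc 0 (2 * π)
    · rw [hb, indicator_of_mem hθ]; exact hB θ hθ
    · rw [hb, indicator_of_notMem hθ]; simpa using hB0
  have hbB' : ∀ θ, b θ ≤ B := fun θ => (le_abs_self _).trans (hbB θ)
  set A : ℝ := max A₁ 0 with hA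
  set Q : ℝ := A * M with hQ
  have hQ0 : 0 ≤ Q := mul_nonneg (le_max_right _ _) hM
  set V : ℝ := (volume (closedBall (0 : ℂ) D)).toReal with hV
  have hV0 : 0 ≤ V := ENNReal.toReal_nonneg
  -- the general form of the functional
  have hP : ∀ (f : ℂ → ℝ), (∀ x, |f x| ≤ M) → (∀ x, D ≤ ‖x‖ → f x = 0) →
      ∀ x, |a₁ x * f x| ≤ Q := by
    intro f hf sf x
    rcases le_total ‖x‖ D with hx | hx
    · rw [abs_mul]
      exact mul_le_mul ((hA₁ x hx).trans (le_max_left _ _)) (hf x) (abs_nonneg _)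
        (le_max_right _ _)
    · rw [sf x hx, mul_zero, abs_zero]; exact hQ0
  have hT : ∀ (f h : ℂ → ℝ), Measurable f → Measurable h → (∀ x, |f x| ≤ M) →
      (∀ x, D ≤ ‖x‖ → f x = 0) → (∀ x, |h x| ≤ M) →
      ∫ θ in Ioc 0 (2 * π), ∫ z, a₁ z * a₂ θ * f z * h (z + c * cis θ) =
        ∫ z, (a₁ z * f z) * cav b c h z := by
    intro f h mf mh hf sf hh
    rw [show (∫ z, (a₁ z * f z) * cav b c h z) =
      ∫ z, (a₁ z * f z) * ∫ θ in Ioc 0 (2 * π), b θ * h (z + c * cis θ) from rfl,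
      ← fub c (fun z => a₁ z * f z) h b (ha₁.measurable.mul mf) mh mb Q M B D (hP f hf sf) hh hbB
        (fun x hx => by rw [sf x hx, mul_zero])]
    refine setIntegral_congr_fun measurableSet_Ioc fun θ hθ => ?_
    refine integral_congr_ae (ae_of_all _ fun z => ?_)
    simp only [hb, indicator_of_mem hθ]
    ring
  rw [Metric.tendsto_nhds]
  intro ε hε
  set W : ℝ := Q ^ 2 * V * (M ^ 2 * V) + 1 with hW
  have hW0 : 0 < W := by positivity
  set ε₁ : ℝ := (ε / 8) ^ 2 / W with hε₁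
  have hε₁0 : 0 < ε₁ := by positivity
  obtain ⟨r, hr0, hr⟩ := sm b mb hb0 B hbB' c hc bump bump_cont bump_nonneg bump_even bump_int
    bump_zero ε₁ hε₁0
  obtain ⟨L, hL0, hL⟩ := ker_lip r hr0
  obtain ⟨K, hK⟩ := ker_bdd r hr0
  have hlipH : ∀ h : ℂ → ℝ, Measurable h → (∀ x, |h x| ≤ M) → (∀ x, D ≤ ‖x‖ → h x = 0) →
      ∀ x y, |rmoll r h x - rmoll r h y| ≤ (L * M * V) * ‖x - y‖ := fun h mh hh sh x y =>
    rmoll_lip r L hL0 K hK hL h mh M D hh sh x y
  have hcontH : ∀ h : ℂ → ℝ, Measurable h → (∀ x, |h x| ≤ M) → (∀ x, D ≤ ‖x‖ → h x = 0) →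
      Continuous (rmoll r h) := by
    intro h mh hh sh
    have : LipschitzWith (Real.toNNReal (L * M * V)) (rmoll r h) := by
      refine LipschitzWith.of_dist_le_mul fun x y => ?_
      rw [Real.dist_eq, dist_eq_norm, Real.coe_toNNReal _ (by positivity)]
      exact hlipH h mh hh sh x y
    exact this.continuous
  have hbddH : ∀ h : ℂ → ℝ, (∀ x, |h x| ≤ M) → (∀ x, D ≤ ‖x‖ → h x = 0) →
      ∀ x, |rmoll r h x| ≤ K * M * V := fun h hh sh x => rmoll_bdd r K hK h M D hh sh x
  -- the error of mollification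
  have herr : ∀ (f h : ℂ → ℝ), Measurable f → Measurable h → (∀ x, |f x| ≤ M) →
      (∀ x, D ≤ ‖x‖ → f x = 0) → (∀ x, |h x| ≤ M) → (∀ x, D ≤ ‖x‖ → h x = 0) →
      |(∫ z, (a₁ z * f z) * cav b c h z) - ∫ z, (a₁ z * f z) * cav b c (rmoll r h) z| ≤ ε / 8 := by
    intro f h mf mh hf sf hh sh
    have hcg := hcontH h mh hh sh
    have i1 : Integrable fun z => (a₁ z * f z) * cav b c h z := by
      refine intg _ ((ha₁.measurable.mul mf).mul (cav_meas b mb c h mh)) (Q * (B * M * (2 * π))) D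
        (fun z => ?_) (fun z hz => by rw [sf z hz]; simp)
      rw [abs_mul]
      exact mul_le_mul (hP f hf sf z) (cav_le b B hbB c h z M fun θ => hh _) (abs_nonneg _) hQ0
    have i2 : Integrable fun z => (a₁ z * f z) * cav b c (rmoll r h) z := by
      refine intg _ ((ha₁.measurable.mul mf).mul (cav_meas b mb c _ hcg.measurable))
        (Q * (B * (K * M * V) * (2 * π))) D (fun z => ?_) (fun z hz => by rw [sf z hz]; simp)
      rw [abs_mul]
      exact mul_le_mul (hP f hf sf z)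
        (cav_le b B hbB c _ z (K * M * V) fun θ => hbddH h hh sh _) (abs_nonneg _) hQ0
    rw [← integral_sub i1 i2]
    have e1 : (∫ z, ((a₁ z * f z) * cav b c h z - (a₁ z * f z) * cav b c (rmoll r h) z)) =
        ∫ z, (a₁ z * f z) * cav b c (fun y => h y - rmoll r h y) z := by
      refine integral_congr_ae (ae_of_all _ fun z => ?_)
      simp only
      rw [cav_sub b mb B hbB c h (rmoll r h) mh hcg.measurable z M hh (K * M * V)
        (hbddH h hh sh)]
      ring
    rw [e1]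
    have h1 := hr r hr0 le_rfl (fun y => (h y : ℂ)) (Complex.measurable_ofReal.comp mh)
      ⟨M, fun x => by rw [Complex.norm_real]; exact hh x⟩
      ⟨D, fun x hx => by rw [sh x hx]; simp⟩
    have h2 : ∫⁻ x, ‖((cav b c (fun y => h y - rmoll r h y) x : ℝ) : ℂ)‖ₑ ^ 2 ≤
        ENNReal.ofReal (ε₁ * (M ^ 2 * V)) := by
      have e2 : ∀ x, circConv b c (fun y => (h y : ℂ) - moll bump r (fun y => (h y : ℂ)) y) x =
          ((cav b c (fun y => h y - rmoll r h y) x : ℝ) : ℂ) := by
        intro x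
        unfold circConv cav
        rw [← integral_complex_ofReal]
        refine integral_congr_ae (ae_of_all _ fun θ => ?_)
        simp only [moll_rmoll]
        push_cast
        ring
      have h3 : ∫⁻ x, ‖(h x : ℂ)‖ₑ ^ 2 ≤ ENNReal.ofReal (M ^ 2 * V) := by
        calc ∫⁻ z, ‖(h z : ℂ)‖ₑ ^ 2 ≤ ∫⁻ z, (closedBall (0 : ℂ) D).indicator
              (fun _ => ENNReal.ofReal (M ^ 2)) z := by
              refine lintegral_mono fun z => ?_
              by_cases hz : z ∈ closedBall (0 : ℂ) D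
              · rw [indicator_of_mem hz, ← ofReal_norm,
                  ← ENNReal.ofReal_pow (norm_nonneg _), Complex.norm_real]
                apply ENNReal.ofReal_le_ofReal
                exact pow_le_pow_left₀ (norm_nonneg _) (hh z) 2
              · have hz' : h z = 0 := by
                  apply sh
                  rw [mem_closedBall_zero_iff, not_le] at hz
                  exact hz.le
                rw [hz', indicator_of_notMem hz]; simp
          _ = ENNReal.ofReal (M ^ 2 * V) := by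
              have hVt : volume (closedBall (0 : ℂ) D) = ENNReal.ofReal V := by
                rw [hV, ENNReal.ofReal_toReal measure_closedBall_lt_top.ne]
              rw [lintegral_indicator measurableSet_closedBall, setLIntegral_const, hVt,
                ← ENNReal.ofReal_mul (by positivity)]
      simp only [e2] at h1
      refine h1.trans ?_
      rw [ENNReal.ofReal_mul hε₁0.le]
      exact mul_le_mul' le_rfl h3
    have h4 := cs (fun z => a₁ z * f z) (cav b c (fun y => h y - rmoll r h y))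
      (ha₁.measurable.mul mf) (cav_meas b mb c _ (mh.sub hcg.measurable)) Q D (ε₁ * (M ^ 2 * V))
      (by positivity) (hP f hf sf) (fun x hx => by rw [sf x hx, mul_zero]) h2
    refine h4.trans ?_
    rw [show ε / 8 = Real.sqrt ((ε / 8) ^ 2) from (Real.sqrt_sq (by positivity)).symm]
    apply Real.sqrt_le_sqrt
    have e3 : Q ^ 2 * V * (ε₁ * (M ^ 2 * V)) = (ε / 8) ^ 2 * ((W - 1) / W) := by
      rw [hε₁, hW]; ring
    rw [e3]
    have e4 : (W - 1) / W ≤ 1 := by
      rw [div_le_one hW0]; linarith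
    calc (ε / 8) ^ 2 * ((W - 1) / W) ≤ (ε / 8) ^ 2 * 1 :=
          mul_le_mul_of_nonneg_left e4 (by positivity)
      _ = (ε / 8) ^ 2 := mul_one _
  -- the smooth part
  have hunif : ∀ δ : ℝ, 0 < δ → ∀ᶠ n in U, ∀ x ∈ closedBall (0 : ℂ) (D + ‖c‖),
      |rmoll r (H n) x - rmoll r H' x| ≤ δ := by
    intro δ hδ
    refine unif_of_lip U (fun n => rmoll r (H n)) (rmoll r H') (L * M * V) (by positivity)
      (fun n => hlipH (H n) (mH n) (bH n) (sH n)) (hlipH H' mH' bH' sH') (fun x => ?_) _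
      (isCompact_closedBall _ _) δ hδ
    exact cH (fun y => ker r (x - y)) ((ker_cont r).comp (continuous_const.sub continuous_id))
  have hG' := hcontH H' mH' bH' sH'
  have hlim : Tendsto (fun n => ∫ z, (a₁ z * F n z) * cav b c (rmoll r H') z) U
      (𝓝 (∫ z, (a₁ z * F' z) * cav b c (rmoll r H') z)) := by
    have hψ : Continuous fun z => a₁ z * cav b c (rmoll r H') z := by
      refine ha₁.mul ?_
      have := cav_cont a₂ ha₂ c (rmoll r H') hG'
      refine this.congr fun z => ?_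
      unfold cav
      refine setIntegral_congr_fun measurableSet_Ioc fun θ hθ => ?_
      simp only [hb, indicator_of_mem hθ]
    have := cF _ hψ
    simpa only [mul_right_comm] using this
  set δ : ℝ := ε / (8 * (Q * V * (B * (2 * π)) + 1)) with hδ
  have hδ0 : 0 < δ := by positivity
  rw [Metric.tendsto_nhds] at hlim
  filter_upwards [hunif δ hδ0, hlim (ε / 8) (by positivity)] with n hn1 hn2
  rw [hT (F n) (H n) (mF n) (mH n) (bF n) (sF n) (bH n), hT F' H' mF' mH' bF' sF' bH']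
  have g1 := herr (F n) (H n) (mF n) (mH n) (bF n) (sF n) (bH n) (sH n)
  have g2 := herr F' H' mF' mH' bF' sF' bH' sH'
  have hGn := hcontH (H n) (mH n) (bH n) (sH n)
  have g3 : |(∫ z, (a₁ z * F n z) * cav b c (rmoll r (H n)) z) -
      ∫ z, (a₁ z * F n z) * cav b c (rmoll r H') z| ≤ ε / 8 := by
    have i1 : Integrable fun z => (a₁ z * F n z) * cav b c (rmoll r (H n)) z := by
      refine intg _ ((ha₁.measurable.mul (mF n)).mul (cav_meas b mb c _ hGn.measurable))
        (Q * (B * (K * M * V) * (2 * π))) D (fun z => ?_)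
        (fun z hz => by rw [sF n z hz]; simp)
      rw [abs_mul]
      exact mul_le_mul (hP (F n) (bF n) (sF n) z)
        (cav_le b B hbB c _ z (K * M * V) fun θ => hbddH (H n) (bH n) (sH n) _)
        (abs_nonneg _) hQ0
    have i2 : Integrable fun z => (a₁ z * F n z) * cav b c (rmoll r H') z := by
      refine intg _ ((ha₁.measurable.mul (mF n)).mul (cav_meas b mb c _ hG'.measurable))
        (Q * (B * (K * M * V) * (2 * π))) D (fun z => ?_)
        (fun z hz => by rw [sF n z hz]; simp)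
      rw [abs_mul]
      exact mul_le_mul (hP (F n) (bF n) (sF n) z)
        (cav_le b B hbB c _ z (K * M * V) fun θ => hbddH H' bH' sH' _)
        (abs_nonneg _) hQ0
    rw [← integral_sub i1 i2]
    have := intg_le (fun z => (a₁ z * F n z) * cav b c (rmoll r (H n)) z -
      (a₁ z * F n z) * cav b c (rmoll r H') z) (Q * (B * δ * (2 * π))) D (fun z hz => by
        rw [← mul_sub, ← cav_sub b mb B hbB c (rmoll r (H n)) (rmoll r H') hGn.measurable
          hG'.measurable z (K * M * V) (hbddH (H n) (bH n) (sH n)) (K * M * V)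
          (hbddH H' bH' sH'), abs_mul]
        refine mul_le_mul (hP (F n) (bF n) (sF n) z) ?_ (abs_nonneg _) hQ0
        refine cav_le b B hbB c _ z δ fun θ => hn1 _ ?_
        rw [mem_closedBall_zero_iff]
        refine (norm_add_le _ _).trans (add_le_add hz ?_)
        rw [norm_mul]
        have : ‖cis θ‖ = 1 := by unfold cis; exact Complex.norm_exp_ofReal_mul_I θ
        rw [this, mul_one])
      (fun z hz => by rw [sF n z hz]; simp)
    refine this.trans ?_
    have e5 : Q * (B * δ * (2 * π)) * V = (Q * V * (B * (2 * π))) * δ := by ring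
    change Q * (B * δ * (2 * π)) * V ≤ ε / 8
    rw [e5, hδ]
    have hpos : 0 ≤ Q * V * (B * (2 * π)) := by positivity
    rw [mul_div_assoc', div_le_div_iff₀ (by positivity) (by norm_num)]
    nlinarith [mul_nonneg hpos hε.le]
  rw [Real.dist_eq] at hn2 ⊢
  have t1 := abs_le.1 g1
  have t2 := abs_le.1 g2
  have t3 := abs_le.1 g3
  have t4 := abs_lt.1 hn2
  rw [abs_lt]
  constructor <;> linarith [t1.1, t1.2, t2.1, t2.2, t3.1, t3.2, t4.1, t4.2]

end Pool.Agent.H24.Tri
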