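import Pool.Agent.H24.Tri.Defs

set_option autoImplicit false

open MeasureTheory Set Complex Metric Filter Topology
open scoped Real ENNReal NNReal ComplexConjugate

namespace Pool.Agent.H24.Tri

/-- finite unions of measurable rectangles -/
private lemma gpd_finite {X Y : Type} [MeasurableSpace X] [MeasurableSpace Y]
    (μ ν : Measure (X × Y))
    (h : ∀ (A : Set X) (B : Set Y), MeasurableSet A → MeasurableSet B → μ (A ×ˢ B) ≤ ν (A ×ˢ B))
    {ι : Type} (s : Finset ι) (A : ι → Set X) (B : ι → Set Y) (hA : ∀ i, MeasurableSet (A i))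
    (hB : ∀ i, MeasurableSet (B i)) :
    ∀ (D : Set X) (E : Set Y), MeasurableSet D → MeasurableSet E →
      μ ((D ×ˢ E) ∪ ⋃ i ∈ s, (A i ∩ D) ×ˢ B i) ≤ ν ((D ×ˢ E) ∪ ⋃ i ∈ s, (A i ∩ D) ×ˢ B i) := by
  classical
  induction s using Finset.induction_on with
  | empty =>
    intro D E hD hE
    simpa using h D E hD hE
  | insert j s hj ih =>
    intro D E hD hE
    have hdec : ((D ×ˢ E) ∪ ⋃ i ∈ insert j s, (A i ∩ D) ×ˢ B i) =
        (((D ∩ A j) ×ˢ (E ∪ B j)) ∪ ⋃ i ∈ s, (A i ∩ (D ∩ A j)) ×ˢ B i) ∪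
        (((D \ A j) ×ˢ E) ∪ ⋃ i ∈ s, (A i ∩ (D \ A j)) ×ˢ B i) := by
      ext ⟨x, y⟩
      simp only [mem_union, mem_iUnion, mem_prod, mem_inter_iff, Set.mem_sdiff, Finset.mem_insert,
        exists_prop]
      constructor
      · rintro (⟨h1, h2⟩ | ⟨i, rfl | hi, ⟨h1, h2⟩, h3⟩)
        · by_cases hx : x ∈ A j
          · exact Or.inl (Or.inl ⟨⟨h1, hx⟩, Or.inl h2⟩)
          · exact Or.inr (Or.inl ⟨⟨h1, hx⟩, h2⟩)
        · exact Or.inl (Or.inl ⟨⟨h2, h1⟩, Or.inr h3⟩)
        · by_cases hx : x ∈ A j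
          · exact Or.inl (Or.inr ⟨i, hi, ⟨h1, h2, hx⟩, h3⟩)
          · exact Or.inr (Or.inr ⟨i, hi, ⟨h1, h2, hx⟩, h3⟩)
      · rintro ((⟨⟨h1, h2⟩, h3 | h3⟩ | ⟨i, hi, ⟨h1, h2, h3⟩, h4⟩) |
          (⟨⟨h1, h2⟩, h3⟩ | ⟨i, hi, ⟨h1, h2, h3⟩, h4⟩))
        · exact Or.inl ⟨h1, h3⟩
        · exact Or.inr ⟨j, Or.inl rfl, ⟨h2, h1⟩, h3⟩
        · exact Or.inr ⟨i, Or.inr hi, ⟨h1, h2⟩, h4⟩
        · exact Or.inl ⟨h1, h3⟩
        · exact Or.inr ⟨i, Or.inr hi, ⟨h1, h2⟩, h4⟩
    have hdisj : Disjoint (((D ∩ A j) ×ˢ (E ∪ B j)) ∪ ⋃ i ∈ s, (A i ∩ (D ∩ A j)) ×ˢ B i)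
        (((D \ A j) ×ˢ E) ∪ ⋃ i ∈ s, (A i ∩ (D \ A j)) ×ˢ B i) := by
      rw [Set.disjoint_left]
      rintro ⟨x, y⟩ h1 h2
      simp only [mem_union, mem_iUnion, mem_prod, mem_inter_iff, Set.mem_sdiff, exists_prop] at h1 h2
      have hx : x ∈ A j := by
        rcases h1 with ⟨⟨_, h3⟩, _⟩ | ⟨i, _, ⟨_, _, h3⟩, _⟩ <;> exact h3
      have hx' : x ∉ A j := by
        rcases h2 with ⟨⟨_, h3⟩, _⟩ | ⟨i, _, ⟨_, _, h3⟩, _⟩ <;> exact h3
      exact hx' hx
    have hm : MeasurableSet (((D \ A j) ×ˢ E) ∪ ⋃ i ∈ s, (A i ∩ (D \ A j)) ×ˢ B i) := by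
      refine ((hD.diff (hA j)).prod hE).union ?_
      refine Finset.measurableSet_biUnion _ fun i _ => ?_
      exact ((hA i).inter (hD.diff (hA j))).prod (hB i)
    rw [hdec, measure_union hdisj hm, measure_union hdisj hm]
    exact add_le_add (ih _ _ (hD.inter (hA j)) (hE.union (hB j))) (ih _ _ (hD.diff (hA j)) hE)

/-- rectangles determine domination -/
theorem le_of_rectangles {X Y : Type} [TopologicalSpace X] [SecondCountableTopology X]
    [MeasurableSpace X] [BorelSpace X] [TopologicalSpace Y] [SecondCountableTopology Y]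
    [MeasurableSpace Y] [BorelSpace Y] (μ ν : Measure (X × Y)) [ν.OuterRegular]
    (h : ∀ (A : Set X) (B : Set Y), MeasurableSet A → MeasurableSet B →
      μ (A ×ˢ B) ≤ ν (A ×ˢ B)) : μ ≤ ν := by
  have hopen : ∀ O : Set (X × Y), IsOpen O → μ O ≤ ν O := by
    intro O hO
    obtain ⟨S, hS, hOS⟩ := ((TopologicalSpace.isBasis_countableBasis X).prod
      (TopologicalSpace.isBasis_countableBasis Y)).open_eq_sUnion hO
    have hScount : S.Countable := by
      refine Set.Countable.mono hS ?_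
      exact (TopologicalSpace.countable_countableBasis X).image2
        (TopologicalSpace.countable_countableBasis Y) _
    have hrect : ∀ R ∈ S, ∃ (A : Set X) (B : Set Y), MeasurableSet A ∧ MeasurableSet B ∧
        R = A ×ˢ B := by
      intro R hR
      obtain ⟨A, hA, B, hB, rfl⟩ := hS hR
      exact ⟨A, B, (TopologicalSpace.isOpen_of_mem_countableBasis hA).measurableSet,
        (TopologicalSpace.isOpen_of_mem_countableBasis hB).measurableSet, rfl⟩
    rcases S.eq_empty_or_nonempty with hSe | hSne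
    · rw [hOS, hSe]; simp
    obtain ⟨R, hR⟩ := hScount.exists_eq_range hSne
    have hrect' : ∀ n, ∃ (A : Set X) (B : Set Y), MeasurableSet A ∧ MeasurableSet B ∧
        R n = A ×ˢ B := fun n => hrect (R n) (by rw [hR]; exact mem_range_self n)
    choose A B hA hB hAB using hrect'
    have hOR : O = ⋃ n, R n := by rw [hOS, hR, sUnion_range]
    have hacc : ∀ n, μ (accumulate R n) ≤ ν (accumulate R n) := by
      intro n
      have h1 := gpd_finite μ ν h (Finset.range (n + 1)) A B hA hB univ ∅ MeasurableSet.univ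
        MeasurableSet.empty
      have h2 : accumulate R n = ((univ : Set X) ×ˢ (∅ : Set Y)) ∪
          ⋃ i ∈ Finset.range (n + 1), (A i ∩ univ) ×ˢ B i := by
        rw [accumulate_def]
        simp only [prod_empty, empty_union, inter_univ, Finset.mem_range, Order.lt_add_one_iff, hAB]
      rw [h2]
      exact h1
    rw [hOR]
    have t1 := tendsto_measure_iUnion_accumulate (μ := μ) (f := R)
    have t2 := tendsto_measure_iUnion_accumulate (μ := ν) (f := R)
    exact le_of_tendsto_of_tendsto' t1 t2 hacc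
  rw [Measure.le_iff]
  intro S hS
  rw [Set.measure_eq_iInf_isOpen S ν]
  refine le_iInf₂ fun U hU => le_iInf fun hUo => ?_
  exact (measure_mono hU).trans (hopen U hUo)

/-- one factor -/
theorem le_of_compactlySupported {X : Type} [NormedAddCommGroup X] [NormedSpace ℝ X]
    [FiniteDimensional ℝ X] [MeasurableSpace X] [BorelSpace X]
    (μ ν : Measure X) [IsFiniteMeasure μ] [IsFiniteMeasure ν]
    (h : ∀ f : X → ℝ, Continuous f → HasCompactSupport f → (∀ x, 0 ≤ f x) →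
      ∫⁻ x, ENNReal.ofReal (f x) ∂μ ≤ ∫⁻ x, ENNReal.ofReal (f x) ∂ν) : μ ≤ ν := by
  have : ProperSpace X := FiniteDimensional.proper ℝ X
  have hopen : ∀ O : Set X, IsOpen O → μ O ≤ ν O := by
    intro O hO
    rw [hO.measure_eq_iSup_isCompact μ]
    refine iSup₂_le fun K hK => iSup_le fun hKc => ?_
    obtain ⟨f, hf1, hf0, hfc, hf⟩ := exists_continuous_one_zero_of_isCompact hKc
      (hO.isClosed_compl) (disjoint_compl_right_iff_subset.2 hK)
    have hfin := h f f.continuous hfc (fun x => (hf x).1)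
    have h1 : μ K ≤ ∫⁻ x, ENNReal.ofReal (f x) ∂μ := by
      rw [← lintegral_indicator_one hKc.measurableSet]
      refine lintegral_mono fun x => ?_
      by_cases hx : x ∈ K
      · simp [hx, hf1 hx]
      · simp [hx]
    have h2 : ∫⁻ x, ENNReal.ofReal (f x) ∂ν ≤ ν O := by
      rw [← lintegral_indicator_one hO.measurableSet]
      refine lintegral_mono fun x => ?_
      by_cases hx : x ∈ O
      · simp only [hx, indicator_of_mem, Pi.one_apply]
        exact ENNReal.ofReal_le_one.2 (hf x).2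
      · have h3 : f x = 0 := hf0 hx
        simp [h3]
    exact h1.trans (hfin.trans h2)
  rw [Measure.le_iff]
  intro S hS
  rw [Set.measure_eq_iInf_isOpen S ν]
  refine le_iInf₂ fun U hU => le_iInf fun hUo => ?_
  exact (measure_mono hU).trans (hopen U hUo)

private lemma ofReal_bdd {X : Type} [TopologicalSpace X] (f : X → ℝ) (hf : Continuous f)
    (hc : HasCompactSupport f) : ∃ C : ℝ≥0, ∀ x, ENNReal.ofReal (f x) ≤ C := by
  obtain ⟨C, hC⟩ := hc.exists_bound_of_continuous hf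
  refine ⟨Real.toNNReal C, fun x => ?_⟩
  have h1 : f x ≤ C := (le_abs_self _).trans ((Real.norm_eq_abs (f x)) ▸ hC x)
  exact ENNReal.ofReal_le_ofReal h1

/-- two factors, `lintegral` form -/
theorem le_of_lintegral_prod {X Y : Type} [NormedAddCommGroup X] [NormedSpace ℝ X]
    [FiniteDimensional ℝ X] [MeasurableSpace X] [BorelSpace X] [NormedAddCommGroup Y]
    [NormedSpace ℝ Y] [FiniteDimensional ℝ Y] [MeasurableSpace Y] [BorelSpace Y]
    (μ ν : Measure (X × Y)) [IsFiniteMeasure μ] [IsFiniteMeasure ν]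
    (h : ∀ (f : X → ℝ) (g : Y → ℝ), Continuous f → Continuous g → HasCompactSupport f →
      HasCompactSupport g → (∀ x, 0 ≤ f x) → (∀ y, 0 ≤ g y) →
      ∫⁻ p, ENNReal.ofReal (f p.1) * ENNReal.ofReal (g p.2) ∂μ ≤
        ∫⁻ p, ENNReal.ofReal (f p.1) * ENNReal.ofReal (g p.2) ∂ν) : μ ≤ ν := by
  have : ProperSpace X := FiniteDimensional.proper ℝ X
  have : ProperSpace Y := FiniteDimensional.proper ℝ Y
  have step1 : ∀ (g : Y → ℝ), Continuous g → HasCompactSupport g → (∀ y, 0 ≤ g y) →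
      ∀ A : Set X, MeasurableSet A →
      ∫⁻ p in Prod.fst ⁻¹' A, ENNReal.ofReal (g p.2) ∂μ ≤
        ∫⁻ p in Prod.fst ⁻¹' A, ENNReal.ofReal (g p.2) ∂ν := by
    intro g hg hgc hg0 A hA
    have hgm : Measurable (fun p : X × Y => ENNReal.ofReal (g p.2)) :=
      (hg.measurable.comp measurable_snd).ennreal_ofReal
    obtain ⟨C, hC⟩ := ofReal_bdd g hg hgc
    have hfin : ∀ (m : Measure (X × Y)) [IsFiniteMeasure m],
        IsFiniteMeasure (m.withDensity fun p => ENNReal.ofReal (g p.2)) := by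
      intro m _
      refine isFiniteMeasure_withDensity ?_
      refine ne_top_of_le_ne_top ?_ (lintegral_mono fun p => hC p.2)
      rw [lintegral_const]
      exact ENNReal.mul_ne_top ENNReal.coe_ne_top (measure_ne_top _ _)
    have := hfin μ
    have := hfin ν
    have hle : (μ.withDensity fun p => ENNReal.ofReal (g p.2)).map Prod.fst ≤
        (ν.withDensity fun p => ENNReal.ofReal (g p.2)).map Prod.fst := by
      refine le_of_compactlySupported _ _ fun f hf hfc hf0 => ?_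
      have hfm : Measurable fun x => ENNReal.ofReal (f x) := hf.measurable.ennreal_ofReal
      have e : ∀ m : Measure (X × Y),
          ∫⁻ a, ENNReal.ofReal (f a.1) ∂(m.withDensity fun p => ENNReal.ofReal (g p.2)) =
            ∫⁻ a, ENNReal.ofReal (g a.2) * ENNReal.ofReal (f a.1) ∂m := fun m =>
        lintegral_withDensity_eq_lintegral_mul m hgm (hfm.comp measurable_fst)
      rw [lintegral_map hfm measurable_fst, lintegral_map hfm measurable_fst, e, e]
      have := h f g hf hg hfc hgc hf0 hg0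
      simpa only [mul_comm] using this
    have := Measure.le_iff.1 hle A hA
    rwa [Measure.map_apply measurable_fst hA, Measure.map_apply measurable_fst hA,
      withDensity_apply _ (measurable_fst hA), withDensity_apply _ (measurable_fst hA)] at this
  refine le_of_rectangles μ ν fun A B hA hB => ?_
  have hle : (μ.restrict (Prod.fst ⁻¹' A)).map Prod.snd ≤
      (ν.restrict (Prod.fst ⁻¹' A)).map Prod.snd := by
    refine le_of_compactlySupported _ _ fun g hg hgc hg0 => ?_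
    have hgm : Measurable fun x => ENNReal.ofReal (g x) := hg.measurable.ennreal_ofReal
    rw [lintegral_map hgm measurable_snd, lintegral_map hgm measurable_snd]
    exact step1 g hg hgc hg0 A hA
  have := Measure.le_iff.1 hle B hB
  rw [Measure.map_apply measurable_snd hB, Measure.map_apply measurable_snd hB,
    Measure.restrict_apply (measurable_snd hB), Measure.restrict_apply (measurable_snd hB)] at this
  have hAB : A ×ˢ B = Prod.snd ⁻¹' B ∩ Prod.fst ⁻¹' A := by
    ext ⟨x, y⟩; simp [and_comm]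
  rwa [hAB]

/-- GP-b: domination of finite measures on a product from nonnegative product test functions -/
theorem gp_domination {X Y : Type} [NormedAddCommGroup X] [NormedSpace ℝ X]
    [FiniteDimensional ℝ X] [MeasurableSpace X] [BorelSpace X] [NormedAddCommGroup Y]
    [NormedSpace ℝ Y] [FiniteDimensional ℝ Y] [MeasurableSpace Y] [BorelSpace Y]
    (μ ν : Measure (X × Y)) [IsFiniteMeasure μ] [IsFiniteMeasure ν]
    (h : ∀ (f : X → ℝ) (g : Y → ℝ), Continuous f → Continuous g → HasCompactSupport f →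
      HasCompactSupport g → (∀ x, 0 ≤ f x) → (∀ y, 0 ≤ g y) →
      ∫ p, f p.1 * g p.2 ∂μ ≤ ∫ p, f p.1 * g p.2 ∂ν) : μ ≤ ν := by
  have : ProperSpace X := FiniteDimensional.proper ℝ X
  have : ProperSpace Y := FiniteDimensional.proper ℝ Y
  refine le_of_lintegral_prod μ ν fun f g hf hg hfc hgc hf0 hg0 => ?_
  have key := h f g hf hg hfc hgc hf0 hg0
  have hcont : Continuous fun p : X × Y => f p.1 * g p.2 :=
    (hf.comp continuous_fst).mul (hg.comp continuous_snd)
  obtain ⟨C, hC⟩ := hfc.exists_bound_of_continuous hf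
  obtain ⟨C', hC'⟩ := hgc.exists_bound_of_continuous hg
  have hint : ∀ (m : Measure (X × Y)) [IsFiniteMeasure m],
      Integrable (fun p : X × Y => f p.1 * g p.2) m := by
    intro m _
    refine Integrable.of_bound hcont.aestronglyMeasurable (C * C') (ae_of_all _ fun p => ?_)
    rw [norm_mul]
    exact mul_le_mul (hC _) (hC' _) (norm_nonneg _) ((norm_nonneg _).trans (hC p.1))
  have hnn : ∀ p : X × Y, 0 ≤ f p.1 * g p.2 := fun p => mul_nonneg (hf0 _) (hg0 _)
  have h2 := ENNReal.ofReal_le_ofReal key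
  rw [ofReal_integral_eq_lintegral_ofReal (hint μ) (ae_of_all _ hnn),
    ofReal_integral_eq_lintegral_ofReal (hint ν) (ae_of_all _ hnn)] at h2
  simpa only [ENNReal.ofReal_mul (hf0 _)] using h2

/-- GP-b, four factors -/
theorem gp_domination4 {X₁ X₂ X₃ X₄ : Type} [NormedAddCommGroup X₁] [NormedSpace ℝ X₁]
    [FiniteDimensional ℝ X₁] [MeasurableSpace X₁] [BorelSpace X₁] [NormedAddCommGroup X₂]
    [NormedSpace ℝ X₂] [FiniteDimensional ℝ X₂] [MeasurableSpace X₂] [BorelSpace X₂]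
    [NormedAddCommGroup X₃] [NormedSpace ℝ X₃]
    [FiniteDimensional ℝ X₃] [MeasurableSpace X₃] [BorelSpace X₃] [NormedAddCommGroup X₄]
    [NormedSpace ℝ X₄] [FiniteDimensional ℝ X₄] [MeasurableSpace X₄] [BorelSpace X₄]
    (μ ν : Measure ((X₁ × X₂) × (X₃ × X₄))) [IsFiniteMeasure μ] [IsFiniteMeasure ν]
    (h : ∀ (a₁ : X₁ → ℝ) (a₂ : X₂ → ℝ) (a₃ : X₃ → ℝ) (a₄ : X₄ → ℝ), Continuous a₁ →
      Continuous a₂ → Continuous a₃ → Continuous a₄ → HasCompactSupport a₁ →
      HasCompactSupport a₂ → HasCompactSupport a₃ → HasCompactSupport a₄ →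
      (∀ x, 0 ≤ a₁ x) → (∀ x, 0 ≤ a₂ x) → (∀ x, 0 ≤ a₃ x) → (∀ x, 0 ≤ a₄ x) →
      ∫ p, a₁ p.1.1 * a₂ p.1.2 * (a₃ p.2.1 * a₄ p.2.2) ∂μ ≤
        ∫ p, a₁ p.1.1 * a₂ p.1.2 * (a₃ p.2.1 * a₄ p.2.2) ∂ν) : μ ≤ ν := by
  have : ProperSpace X₁ := FiniteDimensional.proper ℝ X₁
  have : ProperSpace X₂ := FiniteDimensional.proper ℝ X₂
  have : ProperSpace X₃ := FiniteDimensional.proper ℝ X₃
  have : ProperSpace X₄ := FiniteDimensional.proper ℝ X₄
  -- lintegral form of the hypothesis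
  have h' : ∀ (a₁ : X₁ → ℝ) (a₂ : X₂ → ℝ) (a₃ : X₃ → ℝ) (a₄ : X₄ → ℝ), Continuous a₁ →
      Continuous a₂ → Continuous a₃ → Continuous a₄ → HasCompactSupport a₁ →
      HasCompactSupport a₂ → HasCompactSupport a₃ → HasCompactSupport a₄ →
      (∀ x, 0 ≤ a₁ x) → (∀ x, 0 ≤ a₂ x) → (∀ x, 0 ≤ a₃ x) → (∀ x, 0 ≤ a₄ x) →
      ∫⁻ p, ENNReal.ofReal (a₁ p.1.1) * ENNReal.ofReal (a₂ p.1.2) *
          (ENNReal.ofReal (a₃ p.2.1) * ENNReal.ofReal (a₄ p.2.2)) ∂μ ≤
        ∫⁻ p, ENNReal.ofReal (a₁ p.1.1) * ENNReal.ofReal (a₂ p.1.2) *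
          (ENNReal.ofReal (a₃ p.2.1) * ENNReal.ofReal (a₄ p.2.2)) ∂ν := by
    intro a₁ a₂ a₃ a₄ h1 h2 h3 h4 c1 c2 c3 c4 n1 n2 n3 n4
    have key := h a₁ a₂ a₃ a₄ h1 h2 h3 h4 c1 c2 c3 c4 n1 n2 n3 n4
    have hcont : Continuous fun p : (X₁ × X₂) × (X₃ × X₄) =>
        a₁ p.1.1 * a₂ p.1.2 * (a₃ p.2.1 * a₄ p.2.2) := by fun_prop
    obtain ⟨C1, hC1⟩ := c1.exists_bound_of_continuous h1
    obtain ⟨C2, hC2⟩ := c2.exists_bound_of_continuous h2
    obtain ⟨C3, hC3⟩ := c3.exists_bound_of_continuous h3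
    obtain ⟨C4, hC4⟩ := c4.exists_bound_of_continuous h4
    have hint : ∀ (m : Measure ((X₁ × X₂) × (X₃ × X₄))) [IsFiniteMeasure m],
        Integrable (fun p : (X₁ × X₂) × (X₃ × X₄) =>
          a₁ p.1.1 * a₂ p.1.2 * (a₃ p.2.1 * a₄ p.2.2)) m := by
      intro m _
      refine Integrable.of_bound hcont.aestronglyMeasurable (C1 * C2 * (C3 * C4))
        (ae_of_all _ fun p => ?_)
      rw [norm_mul, norm_mul, norm_mul]
      have e1 : 0 ≤ C1 := (norm_nonneg _).trans (hC1 p.1.1)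
      have e2 : 0 ≤ C2 := (norm_nonneg _).trans (hC2 p.1.2)
      have e3 : 0 ≤ C3 := (norm_nonneg _).trans (hC3 p.2.1)
      refine mul_le_mul (mul_le_mul (hC1 _) (hC2 _) (norm_nonneg _) e1)
        (mul_le_mul (hC3 _) (hC4 _) (norm_nonneg _) e3) (by positivity) (mul_nonneg e1 e2)
    have hnn : ∀ p : (X₁ × X₂) × (X₃ × X₄), 0 ≤ a₁ p.1.1 * a₂ p.1.2 * (a₃ p.2.1 * a₄ p.2.2) :=
      fun p => mul_nonneg (mul_nonneg (n1 _) (n2 _)) (mul_nonneg (n3 _) (n4 _))
    have h2 := ENNReal.ofReal_le_ofReal key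
    rw [ofReal_integral_eq_lintegral_ofReal (hint μ) (ae_of_all _ hnn),
      ofReal_integral_eq_lintegral_ofReal (hint ν) (ae_of_all _ hnn)] at h2
    simpa only [ENNReal.ofReal_mul (mul_nonneg (n1 _) (n2 _)), ENNReal.ofReal_mul (n1 _),
      ENNReal.ofReal_mul (n3 _)] using h2
  have step1 : ∀ (a₃ : X₃ → ℝ) (a₄ : X₄ → ℝ), Continuous a₃ → Continuous a₄ →
      HasCompactSupport a₃ → HasCompactSupport a₄ → (∀ x, 0 ≤ a₃ x) → (∀ x, 0 ≤ a₄ x) →
      ∀ A : Set (X₁ × X₂), MeasurableSet A →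
      ∫⁻ p in Prod.fst ⁻¹' A, ENNReal.ofReal (a₃ p.2.1) * ENNReal.ofReal (a₄ p.2.2) ∂μ ≤
        ∫⁻ p in Prod.fst ⁻¹' A, ENNReal.ofReal (a₃ p.2.1) * ENNReal.ofReal (a₄ p.2.2) ∂ν := by
    intro a₃ a₄ h3 h4 c3 c4 n3 n4 A hA
    have hgm : Measurable (fun p : (X₁ × X₂) × (X₃ × X₄) =>
        ENNReal.ofReal (a₃ p.2.1) * ENNReal.ofReal (a₄ p.2.2)) :=
      ((h3.measurable.comp (measurable_fst.comp measurable_snd)).ennreal_ofReal).mul
        ((h4.measurable.comp (measurable_snd.comp measurable_snd)).ennreal_ofReal)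
    obtain ⟨C3, hC3⟩ := ofReal_bdd a₃ h3 c3
    obtain ⟨C4, hC4⟩ := ofReal_bdd a₄ h4 c4
    have hfin : ∀ (m : Measure ((X₁ × X₂) × (X₃ × X₄))) [IsFiniteMeasure m],
        IsFiniteMeasure (m.withDensity fun p =>
          ENNReal.ofReal (a₃ p.2.1) * ENNReal.ofReal (a₄ p.2.2)) := by
      intro m _
      refine isFiniteMeasure_withDensity ?_
      refine ne_top_of_le_ne_top ?_ (lintegral_mono fun p => mul_le_mul' (hC3 p.2.1) (hC4 p.2.2))
      rw [lintegral_const]
      exact ENNReal.mul_ne_top (ENNReal.mul_ne_top ENNReal.coe_ne_top ENNReal.coe_ne_top)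
        (measure_ne_top _ _)
    have := hfin μ
    have := hfin ν
    have hle : (μ.withDensity fun p =>
          ENNReal.ofReal (a₃ p.2.1) * ENNReal.ofReal (a₄ p.2.2)).map Prod.fst ≤
        (ν.withDensity fun p =>
          ENNReal.ofReal (a₃ p.2.1) * ENNReal.ofReal (a₄ p.2.2)).map Prod.fst := by
      refine le_of_lintegral_prod _ _ fun a₁ a₂ h1 h2 c1 c2 n1 n2 => ?_
      have hfm : Measurable fun x : X₁ × X₂ =>
          ENNReal.ofReal (a₁ x.1) * ENNReal.ofReal (a₂ x.2) :=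
        ((h1.measurable.comp measurable_fst).ennreal_ofReal).mul
          ((h2.measurable.comp measurable_snd).ennreal_ofReal)
      have e : ∀ m : Measure ((X₁ × X₂) × (X₃ × X₄)),
          ∫⁻ a, ENNReal.ofReal (a₁ a.1.1) * ENNReal.ofReal (a₂ a.1.2)
              ∂(m.withDensity fun p => ENNReal.ofReal (a₃ p.2.1) * ENNReal.ofReal (a₄ p.2.2)) =
            ∫⁻ p, ENNReal.ofReal (a₁ p.1.1) * ENNReal.ofReal (a₂ p.1.2) *
              (ENNReal.ofReal (a₃ p.2.1) * ENNReal.ofReal (a₄ p.2.2)) ∂m := by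
        intro m
        refine (lintegral_withDensity_eq_lintegral_mul m hgm (hfm.comp measurable_fst)).trans ?_
        refine lintegral_congr fun p => ?_
        simp only [Pi.mul_apply, Function.comp_apply]
        ring
      rw [lintegral_map hfm measurable_fst, lintegral_map hfm measurable_fst, e, e]
      exact h' a₁ a₂ a₃ a₄ h1 h2 h3 h4 c1 c2 c3 c4 n1 n2 n3 n4
    have := Measure.le_iff.1 hle A hA
    rwa [Measure.map_apply measurable_fst hA, Measure.map_apply measurable_fst hA,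
      withDensity_apply _ (measurable_fst hA), withDensity_apply _ (measurable_fst hA)] at this
  refine le_of_rectangles μ ν fun A B hA hB => ?_
  have hle : (μ.restrict (Prod.fst ⁻¹' A)).map Prod.snd ≤
      (ν.restrict (Prod.fst ⁻¹' A)).map Prod.snd := by
    refine le_of_lintegral_prod _ _ fun a₃ a₄ h3 h4 c3 c4 n3 n4 => ?_
    have hgm : Measurable fun x : X₃ × X₄ =>
        ENNReal.ofReal (a₃ x.1) * ENNReal.ofReal (a₄ x.2) :=
      ((h3.measurable.comp measurable_fst).ennreal_ofReal).mul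
        ((h4.measurable.comp measurable_snd).ennreal_ofReal)
    rw [lintegral_map hgm measurable_snd, lintegral_map hgm measurable_snd]
    exact step1 a₃ a₄ h3 h4 c3 c4 n3 n4 A hA
  have := Measure.le_iff.1 hle B hB
  rw [Measure.map_apply measurable_snd hB, Measure.map_apply measurable_snd hB,
    Measure.restrict_apply (measurable_snd hB), Measure.restrict_apply (measurable_snd hB)] at this
  have hAB : A ×ˢ B = Prod.snd ⁻¹' B ∩ Prod.fst ⁻¹' A := by
    ext ⟨x, y⟩; simp [and_comm]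
  rwa [hAB]

end Pool.Agent.H24.Tri
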