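import Pool.Agent.H24.Tri.Defs

set_option autoImplicit false

open MeasureTheory Set Complex Metric Filter Topology
open scoped Real ENNReal NNReal ComplexConjugate

namespace Pool.Agent.H24.Tri

private lemma gpl_re (θ : ℝ) (w : ℂ) :
    (conj (Complex.I * cis θ) * w).re = -(w.re * Real.sin θ) + w.im * Real.cos θ := by
  have h : cis θ = (Real.cos θ : ℂ) + (Real.sin θ : ℂ) * Complex.I := by
    unfold cis
    rw [Complex.exp_mul_I, Complex.ofReal_cos, Complex.ofReal_sin]
  rw [h]
  simp only [map_mul, map_add, Complex.conj_I, Complex.conj_ofReal, Complex.mul_re, Complex.mul_im,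
    Complex.add_re, Complex.add_im, Complex.neg_re, Complex.neg_im, Complex.I_re, Complex.I_im,
    Complex.ofReal_re, Complex.ofReal_im]
  ring

private lemma gpl_sub (κ : ℂ) (hκ : κ ≠ 0) (θ θ' s s' : ℝ) (h : Real.sin (θ' - θ) ≠ 0) :
    ({N : ℂ | (conj (Complex.I * cis θ) * (κ * N)).re = s} ∩
      {N : ℂ | (conj (Complex.I * cis θ') * (κ * N)).re = s'}).Subsingleton := by
  intro N hN N' hN'
  obtain ⟨h1, h2⟩ := hN
  obtain ⟨h3, h4⟩ := hN'
  simp only [mem_ofPred_eq] at h1 h2 h3 h4
  rw [gpl_re] at h1 h2 h3 h4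
  have e1 : ((κ * N).im - (κ * N').im) * Real.cos θ = ((κ * N).re - (κ * N').re) * Real.sin θ := by
    linarith
  have e2 : ((κ * N).im - (κ * N').im) * Real.cos θ' =
      ((κ * N).re - (κ * N').re) * Real.sin θ' := by
    linarith
  have h5 : (κ * N).re - (κ * N').re = 0 := by
    have : ((κ * N).re - (κ * N').re) * Real.sin (θ' - θ) = 0 := by
      rw [Real.sin_sub]
      linear_combination Real.cos θ' * e1 - Real.cos θ * e2
    rcases mul_eq_zero.1 this with h6 | h6
    · exact h6
    · exact absurd h6 h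
  have h6 : (κ * N).im - (κ * N').im = 0 := by
    have : ((κ * N).im - (κ * N').im) * Real.sin (θ' - θ) = 0 := by
      rw [Real.sin_sub]
      linear_combination Real.sin θ' * e1 - Real.sin θ * e2
    rcases mul_eq_zero.1 this with h6 | h6
    · exact h6
    · exact absurd h6 h
  have h7 : κ * N = κ * N' := by
    apply Complex.ext <;> linarith
  exact mul_left_cancel₀ hκ h7

/-- GP-a: atomless part and lines in varying directions -/
theorem gp_lines (ν : Measure ℂ) [IsFiniteMeasure ν] (κ : ℂ) (hκ : κ ≠ 0) :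
    ∀ᵐ θ : ℝ, ∀ s : ℝ, ν ({N | (conj (Complex.I * cis θ) * (κ * N)).re = s} ∩
      {N | ν {N} = 0}) = 0 := by
  have hcount : {N : ℂ | 0 < ν {N}}.Countable :=
    Measure.countable_meas_pos_of_disjoint_iUnion (μ := ν) (As := fun N : ℂ => ({N} : Set ℂ))
      (fun N => measurableSet_singleton N) (fun N N' h => by
        simp only [Function.onFun, disjoint_singleton]; exact h)
  have hA : MeasurableSet {N : ℂ | ν {N} = 0} := by
    have : {N : ℂ | ν {N} = 0} = {N : ℂ | 0 < ν {N}}ᶜ := by
      ext N; simp [pos_iff_ne_zero]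
    rw [this]
    exact hcount.measurableSet.compl
  set A : Set ℂ := {N : ℂ | ν {N} = 0} with hAdef
  set ν' : Measure ℂ := ν.restrict A with hν'
  have hna : NullSingletonClass ν' := by
    refine ⟨fun x => ?_⟩
    rw [hν', Measure.restrict_apply (measurableSet_singleton x)]
    by_cases hx : x ∈ A
    · exact measure_mono_null inter_subset_left hx
    · have : ({x} : Set ℂ) ∩ A = ∅ := by
        ext y; simp only [mem_inter_iff, mem_singleton_iff, mem_empty_iff_false, iff_false]
        rintro ⟨rfl, h⟩; exact hx h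
      rw [this]; simp
  set L : ℝ → ℝ → Set ℂ := fun θ s => {N | (conj (Complex.I * cis θ) * (κ * N)).re = s} with hL
  have hLm : ∀ θ s, MeasurableSet (L θ s) := by
    intro θ s
    have hc : Continuous (fun N : ℂ => (conj (Complex.I * cis θ) * (κ * N)).re) := by fun_prop
    exact (isClosed_eq hc continuous_const).measurableSet
  have hbad : ∀ k : ℤ, {θ : ℝ | θ ∈ Ico (k * π) ((k + 1) * π) ∧ ∃ s, 0 < ν' (L θ s)}.Countable := by
    intro k
    set B := {θ : ℝ | θ ∈ Ico (k * π) ((k + 1) * π) ∧ ∃ s, 0 < ν' (L θ s)} with hB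
    have hch : ∀ θ : B, ∃ s, 0 < ν' (L θ.1 s) := fun θ => θ.2.2
    choose s hs using hch
    have h1 := Measure.countable_meas_pos_of_disjoint_iUnion₀ (μ := ν')
      (As := fun θ : B => L θ.1 (s θ)) (fun θ => (hLm _ _).nullMeasurableSet) (by
        intro θ θ' hne
        have hne' : θ.1 ≠ θ'.1 := fun h => hne (Subtype.ext h)
        have hsin : Real.sin (θ'.1 - θ.1) ≠ 0 := by
          have hb1 := θ.2.1
          have hb2 := θ'.2.1
          rw [mem_Ico] at hb1 hb2
          have hu : θ'.1 - θ.1 < π := by nlinarith [hb1.1, hb2.2]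
          have hl : -π < θ'.1 - θ.1 := by nlinarith [hb1.2, hb2.1]
          intro h0
          have := (Real.sin_eq_zero_iff_of_lt_of_lt hl hu).1 h0
          exact hne' (by linarith)
        have := gpl_sub κ hκ θ.1 θ'.1 (s θ) (s θ') hsin
        exact this.measure_zero ν')
    have h2 : {θ : B | 0 < ν' (L θ.1 (s θ))} = univ := by
      ext θ; simpa using hs θ
    rw [h2] at h1
    have h3 := h1.image (Subtype.val : B → ℝ)
    rw [image_univ, Subtype.range_val] at h3
    exact h3
  have hall : {θ : ℝ | ∃ s, 0 < ν' (L θ s)}.Countable := by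
    refine (countable_iUnion hbad).mono ?_
    intro θ hθ
    rw [mem_iUnion]
    refine ⟨⌊θ / π⌋, ?_, hθ⟩
    have hπ := Real.pi_pos
    rw [mem_Ico]
    constructor
    · have := Int.floor_le (θ / π)
      rwa [le_div_iff₀ hπ] at this
    · have := Int.lt_floor_add_one (θ / π)
      rwa [div_lt_iff₀ hπ] at this
  have hnull : (volume : Measure ℝ) {θ : ℝ | ∃ s, 0 < ν' (L θ s)} = 0 := hall.measure_zero _
  rw [ae_iff]
  refine measure_mono_null ?_ hnull
  intro θ hθ
  simp only [mem_ofPred_eq, not_forall] at hθ ⊢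
  obtain ⟨s, hs⟩ := hθ
  refine ⟨s, ?_⟩
  rw [hν', Measure.restrict_apply (hLm θ s)]
  exact pos_iff_ne_zero.2 hs

end Pool.Agent.H24.Tri
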