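import Pool.Agent.H24.Tri.Defs

set_option autoImplicit false

/-! # LW : Loomis-Whitney for circle triangles (section 1) -/

open MeasureTheory Set Complex Metric Filter Topology
open scoped Real ENNReal NNReal FourierTransform ComplexConjugate

namespace Pool.Agent.H24.Tri

theorem lw_cis_re (θ : ℝ) : (cis θ).re = Real.cos θ := by
  unfold cis
  rw [Complex.exp_ofReal_mul_I_re]

theorem lw_cis_im (θ : ℝ) : (cis θ).im = Real.sin θ := by
  unfold cis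
  rw [Complex.exp_ofReal_mul_I_im]

theorem lw_cis_add (θ τ : ℝ) : cis (θ + τ) = cis θ * cis τ := by
  unfold cis
  rw [← Complex.exp_add]
  congr 1
  push_cast
  ring

theorem lw_cis_ne (θ : ℝ) : cis θ ≠ 0 := Complex.exp_ne_zero _

theorem lw_norm_cis (θ : ℝ) : ‖cis θ‖ = 1 := Complex.norm_exp_ofReal_mul_I θ

theorem lw_continuous_cis : Continuous cis := by
  unfold cis
  fun_prop

theorem lw_measurable_cis : Measurable cis := lw_continuous_cis.measurable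

/-- The Jacobian factor is bounded below for small angles. -/
theorem lw_small (ρ : ℂ) (hρ : ρ.im ≠ 0) : ∃ τ₀ : ℝ, 0 < τ₀ ∧ τ₀ ≤ 1 ∧ ∀ τ : ℝ, |τ| ≤ τ₀ →
    |ρ.im| / 2 ≤ |ρ.re * Real.sin τ + ρ.im * Real.cos τ| := by
  have hb : 0 < |ρ.im| := abs_pos.2 hρ
  have ha : 0 ≤ |ρ.re| := abs_nonneg _
  have hden : 0 < 4 * (|ρ.re| + 1) := by positivity
  refine ⟨min (1 / 2) (|ρ.im| / (4 * (|ρ.re| + 1))), lt_min (by norm_num) (div_pos hb hden),
    (min_le_left _ _).trans (by norm_num), fun τ hτ => ?_⟩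
  have h1 : |τ| ≤ 1 / 2 := hτ.trans (min_le_left _ _)
  have h2 : |τ| * (4 * (|ρ.re| + 1)) ≤ |ρ.im| := by
    have := hτ.trans (min_le_right _ _)
    rwa [le_div_iff₀ hden] at this
  have h3 : |Real.sin τ| ≤ |τ| := Real.abs_sin_le_abs
  have h4 : 1 - τ ^ 2 / 2 ≤ Real.cos τ := Real.one_sub_sq_div_two_le_cos
  have h5 : Real.cos τ ≤ 1 := Real.cos_le_one τ
  have h6 : |1 - Real.cos τ| ≤ 1 / 8 := by
    rw [abs_le]
    have : τ ^ 2 ≤ 1 / 4 := by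
      rw [← sq_abs]
      nlinarith [abs_nonneg τ]
    constructor <;> linarith
  have h7 : |ρ.im| ≤ |ρ.re * Real.sin τ + ρ.im * Real.cos τ| + |ρ.re * Real.sin τ| +
      |ρ.im * (1 - Real.cos τ)| := by
    have e : ρ.im = (ρ.re * Real.sin τ + ρ.im * Real.cos τ) + (-(ρ.re * Real.sin τ)) +
        ρ.im * (1 - Real.cos τ) := by ring
    calc |ρ.im| = |(ρ.re * Real.sin τ + ρ.im * Real.cos τ) + (-(ρ.re * Real.sin τ)) +
        ρ.im * (1 - Real.cos τ)| := by rw [← e]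
      _ ≤ _ := by
        refine (abs_add_le _ _).trans (add_le_add ((abs_add_le _ _).trans ?_) le_rfl)
        rw [abs_neg]
  rw [abs_mul, abs_mul (a := ρ.im) (b := 1 - Real.cos τ)] at h7
  have h8 : |ρ.re| * |Real.sin τ| ≤ |ρ.im| / 4 := by
    have : |ρ.re| * |Real.sin τ| ≤ |ρ.re| * |τ| := mul_le_mul_of_nonneg_left h3 ha
    nlinarith [abs_nonneg τ]
  have h9 : |ρ.im| * |1 - Real.cos τ| ≤ |ρ.im| / 8 := by nlinarith
  linarith

/-- The map `(θ, θ') ↦ ρ u' - u`. -/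
noncomputable def lwPhi (ρ : ℂ) (p : ℝ × ℝ) : ℂ := ρ * cis p.2 - cis p.1

theorem lw_continuous_phi (ρ : ℂ) : Continuous (lwPhi ρ) := by
  unfold lwPhi
  exact (continuous_const.mul (lw_continuous_cis.comp continuous_snd)).sub
    (lw_continuous_cis.comp continuous_fst)

/-- The map `(θ, θ') ↦ ρ u' - u` in real coordinates. -/
noncomputable def lwPhiR (ρ : ℂ) (p : ℝ × ℝ) : ℝ × ℝ :=
  (ρ.re * Real.cos p.2 - ρ.im * Real.sin p.2 - Real.cos p.1,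
    ρ.re * Real.sin p.2 + ρ.im * Real.cos p.2 - Real.sin p.1)

theorem lw_phiR_eq (ρ : ℂ) (p : ℝ × ℝ) :
    Complex.measurableEquivRealProd (lwPhi ρ p) = lwPhiR ρ p := by
  rw [Complex.measurableEquivRealProd_apply]
  unfold lwPhi lwPhiR
  rw [Complex.sub_re, Complex.sub_im, Complex.mul_re, Complex.mul_im, lw_cis_re, lw_cis_re,
    lw_cis_im, lw_cis_im]

/-- The derivative. -/
noncomputable def lwD (ρ : ℂ) (p : ℝ × ℝ) : ℝ × ℝ →L[ℝ] ℝ × ℝ :=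
  (Matrix.toLin (.finTwoProd ℝ) (.finTwoProd ℝ)
    !![Real.sin p.1, -(ρ.re * Real.sin p.2) - ρ.im * Real.cos p.2;
      -Real.cos p.1, ρ.re * Real.cos p.2 - ρ.im * Real.sin p.2]).toContinuousLinearMap

theorem lw_hasFDerivAt (ρ : ℂ) (p : ℝ × ℝ) : HasFDerivAt (lwPhiR ρ) (lwD ρ p) p := by
  unfold lwD
  rw [Matrix.toLin_finTwoProd_toContinuousLinearMap]
  have hc1 : HasFDerivAt (fun q : ℝ × ℝ => Real.cos q.1)
      (-Real.sin p.1 • ContinuousLinearMap.fst ℝ ℝ ℝ) p :=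
    (Real.hasDerivAt_cos p.1).comp_hasFDerivAt p hasFDerivAt_fst
  have hs1 : HasFDerivAt (fun q : ℝ × ℝ => Real.sin q.1)
      (Real.cos p.1 • ContinuousLinearMap.fst ℝ ℝ ℝ) p :=
    (Real.hasDerivAt_sin p.1).comp_hasFDerivAt p hasFDerivAt_fst
  have hc2 : HasFDerivAt (fun q : ℝ × ℝ => Real.cos q.2)
      (-Real.sin p.2 • ContinuousLinearMap.snd ℝ ℝ ℝ) p :=
    (Real.hasDerivAt_cos p.2).comp_hasFDerivAt p hasFDerivAt_snd
  have hs2 : HasFDerivAt (fun q : ℝ × ℝ => Real.sin q.2)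
      (Real.cos p.2 • ContinuousLinearMap.snd ℝ ℝ ℝ) p :=
    (Real.hasDerivAt_sin p.2).comp_hasFDerivAt p hasFDerivAt_snd
  have h := ((((hc2.const_mul ρ.re).sub (hs2.const_mul ρ.im)).sub hc1).prodMk
    (((hs2.const_mul ρ.re).add (hc2.const_mul ρ.im)).sub hs1))
  refine h.congr_fderiv ?_
  ext <;> simp <;> ring

theorem lw_det (ρ : ℂ) (p : ℝ × ℝ) :
    (lwD ρ p).det = -(ρ.re * Real.sin (p.2 - p.1) + ρ.im * Real.cos (p.2 - p.1)) := by
  unfold lwD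
  rw [LinearMap.det_toContinuousLinearMap, LinearMap.det_toLin, Matrix.det_fin_two_of,
    Real.sin_sub, Real.cos_sub]
  ring

theorem lw_injOn (ρ : ℂ) (hρ : ρ.im ≠ 0) {τ₀ : ℝ} (h1 : τ₀ ≤ 1)
    (h : ∀ τ : ℝ, |τ| ≤ τ₀ → |ρ.im| / 2 ≤ |ρ.re * Real.sin τ + ρ.im * Real.cos τ|)
    {I : Set ℝ} (hI : ∀ x ∈ I, ∀ y ∈ I, |y - x| ≤ τ₀) : InjOn (lwPhi ρ) (I ×ˢ I) := by
  have hb : 0 < |ρ.im| / 2 := by
    have := abs_pos.2 hρ
    linarith
  have hne : ∀ τ : ℝ, |τ| ≤ τ₀ → ρ.re * Real.sin τ + ρ.im * Real.cos τ ≠ 0 := by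
    intro τ hτ h0
    have := h τ hτ
    rw [h0, abs_zero] at this
    linarith
  have hphi : ∀ p : ℝ × ℝ, lwPhi ρ p = cis p.1 * (ρ * cis (p.2 - p.1) - 1) := by
    intro p
    unfold lwPhi
    have : cis p.2 = cis p.1 * cis (p.2 - p.1) := by
      rw [← lw_cis_add]
      congr 1
      ring
    rw [this]
    ring
  have him : ∀ τ : ℝ, (ρ * cis τ - 1).im = ρ.re * Real.sin τ + ρ.im * Real.cos τ := by
    intro τ
    rw [Complex.sub_im, Complex.mul_im, lw_cis_re, lw_cis_im, Complex.one_im, sub_zero]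
  have hnorm : ∀ τ : ℝ, ‖ρ * cis τ - 1‖ ^ 2 = ρ.re ^ 2 + ρ.im ^ 2 + 1 -
      2 * (ρ.re * Real.cos τ - ρ.im * Real.sin τ) := by
    intro τ
    rw [← Complex.normSq_eq_norm_sq, Complex.normSq_apply, him, Complex.sub_re, Complex.mul_re,
      lw_cis_re, lw_cis_im, Complex.one_re]
    linear_combination (ρ.re ^ 2 + ρ.im ^ 2) * Real.sin_sq_add_cos_sq τ
  have hk : ∀ τ : ℝ, HasDerivAt (fun τ => ρ.re * Real.cos τ - ρ.im * Real.sin τ)
      (-(ρ.re * Real.sin τ + ρ.im * Real.cos τ)) τ := by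
    intro τ
    have := ((Real.hasDerivAt_cos τ).const_mul ρ.re).sub ((Real.hasDerivAt_sin τ).const_mul ρ.im)
    refine this.congr_deriv ?_
    ring
  have hkinj : ∀ s t : ℝ, s < t → |s| ≤ τ₀ → |t| ≤ τ₀ →
      ρ.re * Real.cos s - ρ.im * Real.sin s ≠ ρ.re * Real.cos t - ρ.im * Real.sin t := by
    intro s t hst hs ht heq
    obtain ⟨c, hc, hc0⟩ := exists_hasDerivAt_eq_zero hst
      (f := fun τ => ρ.re * Real.cos τ - ρ.im * Real.sin τ)
      (f' := fun τ => -(ρ.re * Real.sin τ + ρ.im * Real.cos τ)) (by fun_prop) heq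
      (fun x _ => hk x)
    have hcτ : |c| ≤ τ₀ := by
      rw [abs_le] at hs ht ⊢
      exact ⟨by linarith [hc.1], by linarith [hc.2]⟩
    exact hne c hcτ (neg_eq_zero.1 hc0)
  rintro ⟨a, a'⟩ ⟨ha, ha'⟩ ⟨b, b'⟩ ⟨hb1, hb1'⟩ heq
  have hta : |a' - a| ≤ τ₀ := hI a ha a' ha'
  have htb : |b' - b| ≤ τ₀ := hI b hb1 b' hb1'
  have heq' : cis a * (ρ * cis (a' - a) - 1) = cis b * (ρ * cis (b' - b) - 1) := by
    rw [← hphi (a, a'), ← hphi (b, b')]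
    exact heq
  have hn : ‖ρ * cis (a' - a) - 1‖ ^ 2 = ‖ρ * cis (b' - b) - 1‖ ^ 2 := by
    have := congrArg norm heq'
    rw [norm_mul, norm_mul, lw_norm_cis, lw_norm_cis, one_mul, one_mul] at this
    rw [this]
  rw [hnorm, hnorm] at hn
  have ht : a' - a = b' - b := by
    rcases lt_trichotomy (a' - a) (b' - b) with hlt | he | hgt
    · exact absurd (by linarith) (hkinj _ _ hlt hta htb)
    · exact he
    · exact absurd (by linarith) (hkinj _ _ hgt htb hta)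
  rw [ht] at heq'
  have hz : ρ * cis (b' - b) - 1 ≠ 0 := by
    intro h0
    have := him (b' - b)
    rw [h0, Complex.zero_im] at this
    exact hne _ htb this.symm
  have hcis : cis a = cis b := mul_right_cancel₀ hz heq'
  have hab : a = b := by
    unfold cis at hcis
    rw [Complex.exp_eq_exp_iff_exists_int] at hcis
    obtain ⟨n, hn⟩ := hcis
    have h2 : (a : ℂ) = b + n * (2 * π) := by
      have h3 : ((a : ℂ) - (b + n * (2 * π))) * Complex.I = 0 := by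
        linear_combination hn
      rcases mul_eq_zero.1 h3 with h4 | h4
      · linear_combination h4
      · exact absurd h4 Complex.I_ne_zero
    have h3 : a = b + n * (2 * π) := by exact_mod_cast h2
    have h4 : |a - b| ≤ 1 := (hI b hb1 a ha).trans h1
    have h5 : n = 0 := by
      by_contra hn0
      have h6 : (1 : ℝ) ≤ |(n : ℝ)| := by exact_mod_cast Int.one_le_abs hn0
      have h7 : |a - b| = |(n : ℝ)| * (2 * π) := by
        rw [h3, add_sub_cancel_left, abs_mul, abs_of_pos Real.two_pi_pos]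
      have h8 : (1 : ℝ) < 2 * π := by linarith [Real.pi_gt_three]
      nlinarith
    rw [h5] at h3
    simpa using h3
  have hab' : a' = b' := by linarith
  rw [hab, hab']

/-- The change of variables. -/
theorem lw_core (ρ : ℂ) (hρ : ρ.im ≠ 0) {τ₀ : ℝ} (h1 : τ₀ ≤ 1)
    (h : ∀ τ : ℝ, |τ| ≤ τ₀ → |ρ.im| / 2 ≤ |ρ.re * Real.sin τ + ρ.im * Real.cos τ|)
    {I : Set ℝ} (hIm : MeasurableSet I) (hI : ∀ x ∈ I, ∀ y ∈ I, |y - x| ≤ τ₀)
    (H : ℂ → ℝ≥0∞) :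
    ∫⁻ p in I ×ˢ I, H (lwPhi ρ p) ≤ ENNReal.ofReal (2 / |ρ.im|) * ∫⁻ z, H z := by
  have hb : 0 < |ρ.im| := abs_pos.2 hρ
  have hS : MeasurableSet (I ×ˢ I) := hIm.prod hIm
  set H' : ℝ × ℝ → ℝ≥0∞ := fun q => H (Complex.measurableEquivRealProd.symm q) with hH'
  have e1 : ∀ p, H (lwPhi ρ p) = H' (lwPhiR ρ p) := by
    intro p
    rw [hH', ← lw_phiR_eq]
    show H (lwPhi ρ p) = H (Complex.measurableEquivRealProd.symm
      (Complex.measurableEquivRealProd (lwPhi ρ p)))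
    rw [MeasurableEquiv.symm_apply_apply]
  have e2 : ∫⁻ q, H' q = ∫⁻ z, H z :=
    (Complex.volume_preserving_equiv_real_prod.symm).lintegral_comp_emb
      Complex.measurableEquivRealProd.symm.measurableEmbedding H
  have hinj : InjOn (lwPhiR ρ) (I ×ˢ I) := by
    intro p hp q hq hpq
    apply lw_injOn ρ hρ h1 h hI hp hq
    apply Complex.measurableEquivRealProd.injective
    rw [lw_phiR_eq, lw_phiR_eq, hpq]
  have e3 := lintegral_image_eq_lintegral_abs_det_fderiv_mul volume hS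
    (fun p _ => (lw_hasFDerivAt ρ p).hasFDerivWithinAt) hinj H'
  have e4 : ENNReal.ofReal (|ρ.im| / 2) * ∫⁻ p in I ×ˢ I, H (lwPhi ρ p) ≤ ∫⁻ z, H z := by
    calc ENNReal.ofReal (|ρ.im| / 2) * ∫⁻ p in I ×ˢ I, H (lwPhi ρ p)
        = ∫⁻ p in I ×ˢ I, ENNReal.ofReal (|ρ.im| / 2) * H (lwPhi ρ p) := by
          rw [lintegral_const_mul' _ _ ENNReal.ofReal_ne_top]
      _ ≤ ∫⁻ p in I ×ˢ I, ENNReal.ofReal |(lwD ρ p).det| * H' (lwPhiR ρ p) := by
          refine setLIntegral_mono' hS fun p hp => ?_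
          rw [e1]
          refine mul_le_mul_left ?_ _
          refine ENNReal.ofReal_le_ofReal ?_
          rw [lw_det, abs_neg]
          exact h _ (hI _ hp.1 _ hp.2)
      _ = ∫⁻ q in lwPhiR ρ '' (I ×ˢ I), H' q := e3.symm
      _ ≤ ∫⁻ q, H' q := setLIntegral_le_lintegral _ _
      _ = _ := e2
  calc ∫⁻ p in I ×ˢ I, H (lwPhi ρ p)
      = ENNReal.ofReal (2 / |ρ.im|) * (ENNReal.ofReal (|ρ.im| / 2) *
          ∫⁻ p in I ×ˢ I, H (lwPhi ρ p)) := by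
        rw [← mul_assoc, ← ENNReal.ofReal_mul (by positivity)]
        have : 2 / |ρ.im| * (|ρ.im| / 2) = 1 := by field_simp
        rw [this, ENNReal.ofReal_one, one_mul]
    _ ≤ _ := mul_le_mul_right e4 _

theorem lw_mul_le (a b : ℝ≥0∞) : a * b ≤ a ^ 2 + b ^ 2 := by
  rcases le_total a b with h | h
  · calc a * b ≤ b * b := mul_le_mul_left h b
      _ = b ^ 2 := (sq b).symm
      _ ≤ _ := le_add_self
  · calc a * b ≤ a * a := mul_le_mul_right h a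
      _ = a ^ 2 := (sq a).symm
      _ ≤ _ := le_self_add

theorem lw_sq (ρ : ℂ) (hρ : ρ.im ≠ 0) {τ₀ : ℝ} (h1 : τ₀ ≤ 1)
    (h : ∀ τ : ℝ, |τ| ≤ τ₀ → |ρ.im| / 2 ≤ |ρ.re * Real.sin τ + ρ.im * Real.cos τ|)
    {I : Set ℝ} (hIm : MeasurableSet I) (hI : ∀ x ∈ I, ∀ y ∈ I, |y - x| ≤ τ₀)
    {f g : ℂ → ℝ≥0∞} (hf : Measurable f) (hg : Measurable g) :
    ∫⁻ z, (∫⁻ θ in I, f (z + cis θ) * g (z + ρ * cis θ)) ^ 2 ≤
      2 * ENNReal.ofReal (2 / |ρ.im|) * (∫⁻ z, f z ^ 2) * ∫⁻ z, g z ^ 2 := by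
  set μ : Measure ℝ := volume.restrict I with hμ
  have hν : μ.prod μ = (volume : Measure (ℝ × ℝ)).restrict (I ×ˢ I) := by
    rw [hμ, Measure.prod_restrict]
    rfl
  have hcis := lw_measurable_cis
  have hFm : ∀ z, Measurable fun θ => f (z + cis θ) * g (z + ρ * cis θ) := fun z =>
    (hf.comp (measurable_const.add hcis)).mul
      (hg.comp (measurable_const.add (measurable_const.mul hcis)))
  -- the main term
  have hQm : Measurable fun q : ℂ × (ℝ × ℝ) =>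
      f (q.1 + cis q.2.1) ^ 2 * g (q.1 + ρ * cis q.2.2) ^ 2 := by
    refine ((hf.comp (measurable_fst.add
      (hcis.comp (measurable_fst.comp measurable_snd)))).pow_const 2).mul ?_
    exact (hg.comp (measurable_fst.add
      (measurable_const.mul (hcis.comp (measurable_snd.comp measurable_snd))))).pow_const 2
  have hmain : ∫⁻ z : ℂ, (∫⁻ p : ℝ × ℝ, f (z + cis p.1) ^ 2 * g (z + ρ * cis p.2) ^ 2 ∂(μ.prod μ)) ≤
      ENNReal.ofReal (2 / |ρ.im|) * (∫⁻ z, f z ^ 2) * ∫⁻ z, g z ^ 2 := by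
    rw [lintegral_lintegral_swap hQm.aemeasurable]
    have s1 : ∀ p : ℝ × ℝ, ∫⁻ z : ℂ, f (z + cis p.1) ^ 2 * g (z + ρ * cis p.2) ^ 2 =
        ∫⁻ x : ℂ, f x ^ 2 * g (x + lwPhi ρ p) ^ 2 := by
      intro p
      rw [← lintegral_add_right_eq_self (fun x => f x ^ 2 * g (x + lwPhi ρ p) ^ 2) (cis p.1)]
      refine lintegral_congr fun z => ?_
      have : z + cis p.1 + lwPhi ρ p = z + ρ * cis p.2 := by
        unfold lwPhi
        ring
      rw [this]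
    have hQ2 : Measurable fun q : (ℝ × ℝ) × ℂ => f q.2 ^ 2 * g (q.2 + lwPhi ρ q.1) ^ 2 := by
      refine ((hf.comp measurable_snd).pow_const 2).mul ?_
      exact (hg.comp (measurable_snd.add
        ((lw_continuous_phi ρ).measurable.comp measurable_fst))).pow_const 2
    calc ∫⁻ p : ℝ × ℝ, (∫⁻ z : ℂ, f (z + cis p.1) ^ 2 * g (z + ρ * cis p.2) ^ 2) ∂(μ.prod μ)
        = ∫⁻ p : ℝ × ℝ, (∫⁻ x : ℂ, f x ^ 2 * g (x + lwPhi ρ p) ^ 2) ∂(μ.prod μ) :=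
          lintegral_congr fun p => s1 p
      _ = ∫⁻ x : ℂ, (∫⁻ p : ℝ × ℝ, f x ^ 2 * g (x + lwPhi ρ p) ^ 2 ∂(μ.prod μ)) :=
          lintegral_lintegral_swap hQ2.aemeasurable
      _ ≤ ∫⁻ x : ℂ, f x ^ 2 * (ENNReal.ofReal (2 / |ρ.im|) * ∫⁻ z, g z ^ 2) := by
          refine lintegral_mono fun x => ?_
          have hgm : Measurable fun p : ℝ × ℝ => g (x + lwPhi ρ p) ^ 2 :=
            (hg.comp (measurable_const.add (lw_continuous_phi ρ).measurable)).pow_const 2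
          show ∫⁻ p, f x ^ 2 * g (x + lwPhi ρ p) ^ 2 ∂(μ.prod μ) ≤ _
          rw [lintegral_const_mul _ hgm]
          refine mul_le_mul_right ?_ _
          rw [hν]
          refine (lw_core ρ hρ h1 h hIm hI (fun z => g (x + z) ^ 2)).trans (le_of_eq ?_)
          rw [lintegral_add_left_eq_self (fun z => g z ^ 2) x]
      _ = ENNReal.ofReal (2 / |ρ.im|) * (∫⁻ z, f z ^ 2) * ∫⁻ z, g z ^ 2 := by
          rw [lintegral_mul_const _ (hf.pow_const 2)]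
          ring
  have hswap : ∀ z, ∫⁻ p, f (z + cis p.2) ^ 2 * g (z + ρ * cis p.1) ^ 2 ∂(μ.prod μ) =
      ∫⁻ p, f (z + cis p.1) ^ 2 * g (z + ρ * cis p.2) ^ 2 ∂(μ.prod μ) := fun z =>
    lintegral_prod_swap (fun p : ℝ × ℝ => f (z + cis p.1) ^ 2 * g (z + ρ * cis p.2) ^ 2)
  calc ∫⁻ z, (∫⁻ θ in I, f (z + cis θ) * g (z + ρ * cis θ)) ^ 2
      = ∫⁻ z, ∫⁻ p, (f (z + cis p.1) * g (z + ρ * cis p.1)) *
          (f (z + cis p.2) * g (z + ρ * cis p.2)) ∂(μ.prod μ) := by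
        refine lintegral_congr fun z => ?_
        rw [sq, ← lintegral_prod_mul (hFm z).aemeasurable (hFm z).aemeasurable]
    _ ≤ ∫⁻ z, (∫⁻ p, f (z + cis p.1) ^ 2 * g (z + ρ * cis p.2) ^ 2 ∂(μ.prod μ) +
          ∫⁻ p, f (z + cis p.2) ^ 2 * g (z + ρ * cis p.1) ^ 2 ∂(μ.prod μ)) := by
        refine lintegral_mono fun z => ?_
        have hm1 : Measurable fun p : ℝ × ℝ =>
            f (z + cis p.1) ^ 2 * g (z + ρ * cis p.2) ^ 2 :=
          ((hf.comp (measurable_const.add (hcis.comp measurable_fst))).pow_const 2).mul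
            ((hg.comp (measurable_const.add (measurable_const.mul
              (hcis.comp measurable_snd)))).pow_const 2)
        rw [← lintegral_add_left hm1]
        refine lintegral_mono fun p => ?_
        have := lw_mul_le (f (z + cis p.1) * g (z + ρ * cis p.2))
          (f (z + cis p.2) * g (z + ρ * cis p.1))
        rw [mul_pow, mul_pow] at this
        refine le_trans (le_of_eq ?_) this
        ring
    _ = 2 * ∫⁻ z, ∫⁻ p, f (z + cis p.1) ^ 2 * g (z + ρ * cis p.2) ^ 2 ∂(μ.prod μ) := by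
        rw [← lintegral_const_mul' 2 _ (by norm_num)]
        refine lintegral_congr fun z => ?_
        rw [hswap z, two_mul]
    _ ≤ _ := by
        refine (mul_le_mul_right hmain 2).trans (le_of_eq ?_)
        ring

theorem lw_holder {f g : ℂ → ℝ≥0∞} (hf : Measurable f) (hg : Measurable g) :
    ∫⁻ z, f z * g z ≤ (∫⁻ z, f z ^ 2) ^ (1 / 2 : ℝ) * (∫⁻ z, g z ^ 2) ^ (1 / 2 : ℝ) := by
  have h := ENNReal.lintegral_mul_le_Lp_mul_Lq (volume : Measure ℂ) Real.HolderConjugate.two_two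
    hf.aemeasurable hg.aemeasurable
  simp only [ENNReal.rpow_two, Pi.mul_apply] at h
  exact h

theorem lw_I (ρ : ℂ) (hρ : ρ.im ≠ 0) {τ₀ : ℝ} (h1 : τ₀ ≤ 1)
    (h : ∀ τ : ℝ, |τ| ≤ τ₀ → |ρ.im| / 2 ≤ |ρ.re * Real.sin τ + ρ.im * Real.cos τ|)
    {I : Set ℝ} (hIm : MeasurableSet I) (hI : ∀ x ∈ I, ∀ y ∈ I, |y - x| ≤ τ₀)
    {f₁ f₂ f₃ : ℂ → ℝ≥0∞} (m₁ : Measurable f₁) (m₂ : Measurable f₂) (m₃ : Measurable f₃) :
    ∫⁻ θ in I, ∫⁻ z, f₁ z * f₂ (z + cis θ) * f₃ (z + ρ * cis θ) ≤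
      (2 * ENNReal.ofReal (2 / |ρ.im|)) ^ (1 / 2 : ℝ) * ((∫⁻ z, f₁ z ^ 2) ^ (1 / 2 : ℝ) *
        (∫⁻ z, f₂ z ^ 2) ^ (1 / 2 : ℝ) * (∫⁻ z, f₃ z ^ 2) ^ (1 / 2 : ℝ)) := by
  have hcis := lw_measurable_cis
  have hm : Measurable fun q : ℝ × ℂ => f₁ q.2 * f₂ (q.2 + cis q.1) * f₃ (q.2 + ρ * cis q.1) :=
    ((m₁.comp measurable_snd).mul (m₂.comp (measurable_snd.add (hcis.comp measurable_fst)))).mul
      (m₃.comp (measurable_snd.add (measurable_const.mul (hcis.comp measurable_fst))))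
  rw [lintegral_lintegral_swap hm.aemeasurable]
  have e1 : ∀ z, ∫⁻ θ in I, f₁ z * f₂ (z + cis θ) * f₃ (z + ρ * cis θ) =
      f₁ z * ∫⁻ θ in I, f₂ (z + cis θ) * f₃ (z + ρ * cis θ) := by
    intro z
    have hz : Measurable fun θ => f₂ (z + cis θ) * f₃ (z + ρ * cis θ) :=
      (m₂.comp (measurable_const.add hcis)).mul
        (m₃.comp (measurable_const.add (measurable_const.mul hcis)))
    rw [← lintegral_const_mul _ hz]
    exact lintegral_congr fun θ => mul_assoc _ _ _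
  rw [lintegral_congr e1]
  have hgm : Measurable fun z => ∫⁻ θ in I, f₂ (z + cis θ) * f₃ (z + ρ * cis θ) := by
    refine Measurable.lintegral_prod_right' (f := fun q : ℂ × ℝ =>
      f₂ (q.1 + cis q.2) * f₃ (q.1 + ρ * cis q.2)) ?_
    exact (m₂.comp (measurable_fst.add (hcis.comp measurable_snd))).mul
      (m₃.comp (measurable_fst.add (measurable_const.mul (hcis.comp measurable_snd))))
  refine (lw_holder m₁ hgm).trans ?_
  have h2 := ENNReal.rpow_le_rpow (lw_sq ρ hρ h1 h hIm hI m₂ m₃)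
    (show (0 : ℝ) ≤ 1 / 2 by norm_num)
  rw [ENNReal.mul_rpow_of_nonneg _ _ (by norm_num), ENNReal.mul_rpow_of_nonneg _ _ (by norm_num)]
    at h2
  refine (mul_le_mul_right h2 _).trans (le_of_eq ?_)
  ring

theorem lw (ρ : ℂ) (hρ : ρ.im ≠ 0) : ∃ C : ℝ≥0, ∀ f₁ f₂ f₃ : ℂ → ℝ≥0∞,
    Measurable f₁ → Measurable f₂ → Measurable f₃ →
    ∫⁻ θ in Ioc 0 (2 * π), ∫⁻ z, f₁ z * f₂ (z + cis θ) * f₃ (z + ρ * cis θ) ≤
      C * (∫⁻ z, f₁ z ^ 2) ^ (1 / 2 : ℝ) * (∫⁻ z, f₂ z ^ 2) ^ (1 / 2 : ℝ) *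
        (∫⁻ z, f₃ z ^ 2) ^ (1 / 2 : ℝ) := by
  obtain ⟨τ₀, hτ0, hτ1, hτ⟩ := lw_small ρ hρ
  obtain ⟨n, hn⟩ := exists_nat_gt (2 * π / τ₀)
  have hn0 : (0 : ℝ) < n := lt_trans (div_pos Real.two_pi_pos hτ0) hn
  have hstep : 2 * π / n ≤ τ₀ := by
    rw [div_le_iff₀ hn0]
    rw [div_lt_iff₀ hτ0] at hn
    linarith
  have hKt : (2 * ENNReal.ofReal (2 / |ρ.im|)) ^ (1 / 2 : ℝ) ≠ ⊤ :=
    ENNReal.rpow_ne_top_of_nonneg (by norm_num)
      (ENNReal.mul_ne_top (by norm_num) ENNReal.ofReal_ne_top)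
  refine ⟨n * ((2 * ENNReal.ofReal (2 / |ρ.im|)) ^ (1 / 2 : ℝ)).toNNReal,
    fun f₁ f₂ f₃ m₁ m₂ m₃ => ?_⟩
  have hcover : Ioc 0 (2 * π) ⊆ ⋃ j : Fin n, Ioc ((j : ℝ) * (2 * π / n))
      (((j : ℝ) + 1) * (2 * π / n)) := by
    intro x hx
    have hd : 0 < 2 * π / n := div_pos Real.two_pi_pos hn0
    set k : ℕ := ⌈x / (2 * π / n)⌉₊ with hk
    have hk0 : 0 < x / (2 * π / n) := div_pos hx.1 hd
    have hk1 : 1 ≤ k := Nat.one_le_iff_ne_zero.2 (Nat.ceil_pos.2 hk0).ne'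
    have hk2 : x / (2 * π / n) ≤ k := Nat.le_ceil _
    have hk3 : (k : ℝ) < x / (2 * π / n) + 1 := Nat.ceil_lt_add_one hk0.le
    have hkn : k ≤ n := by
      rw [hk, Nat.ceil_le, div_le_iff₀ hd]
      have : (n : ℝ) * (2 * π / n) = 2 * π := by field_simp
      rw [this]
      exact hx.2
    rw [mem_iUnion]
    refine ⟨⟨k - 1, by omega⟩, ?_, ?_⟩
    · show ((k - 1 : ℕ) : ℝ) * (2 * π / n) < x
      rw [Nat.cast_sub hk1, Nat.cast_one, ← lt_div_iff₀ hd]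
      linarith
    · show x ≤ (((k - 1 : ℕ) : ℝ) + 1) * (2 * π / n)
      rw [Nat.cast_sub hk1, Nat.cast_one, sub_add_cancel, ← div_le_iff₀ hd]
      exact hk2
  set X := (∫⁻ z, f₁ z ^ 2) ^ (1 / 2 : ℝ) * (∫⁻ z, f₂ z ^ 2) ^ (1 / 2 : ℝ) *
        (∫⁻ z, f₃ z ^ 2) ^ (1 / 2 : ℝ) with hX
  calc ∫⁻ θ in Ioc 0 (2 * π), ∫⁻ z, f₁ z * f₂ (z + cis θ) * f₃ (z + ρ * cis θ)
      ≤ ∫⁻ θ in ⋃ j : Fin n, Ioc ((j : ℝ) * (2 * π / n)) (((j : ℝ) + 1) * (2 * π / n)),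
          ∫⁻ z, f₁ z * f₂ (z + cis θ) * f₃ (z + ρ * cis θ) := lintegral_mono_set hcover
    _ ≤ ∑' j : Fin n, ∫⁻ θ in Ioc ((j : ℝ) * (2 * π / n)) (((j : ℝ) + 1) * (2 * π / n)),
          ∫⁻ z, f₁ z * f₂ (z + cis θ) * f₃ (z + ρ * cis θ) := lintegral_iUnion_le _ _
    _ = ∑ j : Fin n, ∫⁻ θ in Ioc ((j : ℝ) * (2 * π / n)) (((j : ℝ) + 1) * (2 * π / n)),
          ∫⁻ z, f₁ z * f₂ (z + cis θ) * f₃ (z + ρ * cis θ) := tsum_fintype _
    _ ≤ ∑ _j : Fin n, (2 * ENNReal.ofReal (2 / |ρ.im|)) ^ (1 / 2 : ℝ) * X := by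
        refine Finset.sum_le_sum fun j _ => ?_
        refine lw_I ρ hρ hτ1 hτ measurableSet_Ioc ?_ m₁ m₂ m₃
        intro x hx y hy
        refine le_trans ?_ hstep
        rw [abs_le]
        have e : ((j : ℝ) + 1) * (2 * π / n) = (j : ℝ) * (2 * π / n) + 2 * π / n := by ring
        have hx1 := hx.1
        have hx2 := hx.2
        have hy1 := hy.1
        have hy2 := hy.2
        rw [e] at hx2 hy2
        constructor <;> linarith
    _ = _ := by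
        rw [Finset.sum_const, Finset.card_univ, Fintype.card_fin, nsmul_eq_mul, hX]
        push_cast
        rw [ENNReal.coe_toNNReal hKt]
        ring

theorem lam_le (ρ : ℂ) (hρ : ρ.im ≠ 0) : ∃ C : ℝ, 0 ≤ C ∧ ∀ f₁ f₂ f₃ : ℂ → ℂ,
    MemLp f₁ 2 volume → MemLp f₂ 2 volume → MemLp f₃ 2 volume →
    ∀ w : ℂ, ‖Lam ρ f₁ f₂ f₃ w‖ ≤ C * Real.sqrt (∫ z, ‖f₁ z‖ ^ 2) *
      Real.sqrt (∫ z, ‖f₂ z‖ ^ 2) * Real.sqrt (∫ z, ‖f₃ z‖ ^ 2) := by
  obtain ⟨C, hC⟩ := lw ρ hρ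
  refine ⟨C, C.2, fun f₁ f₂ f₃ h₁ h₂ h₃ w => ?_⟩
  -- measurable representatives
  set g₁ := h₁.1.mk f₁ with hg₁
  set g₂ := h₂.1.mk f₂ with hg₂
  set g₃ := h₃.1.mk f₃ with hg₃
  have m₁ : Measurable g₁ := h₁.1.stronglyMeasurable_mk.measurable
  have m₂ : Measurable g₂ := h₂.1.stronglyMeasurable_mk.measurable
  have m₃ : Measurable g₃ := h₃.1.stronglyMeasurable_mk.measurable
  have a₁ : f₁ =ᵐ[volume] g₁ := h₁.1.ae_eq_mk
  have a₂ : f₂ =ᵐ[volume] g₂ := h₂.1.ae_eq_mk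
  have a₃ : f₃ =ᵐ[volume] g₃ := h₃.1.ae_eq_mk
  have hshift : ∀ (f g : ℂ → ℂ) (v : ℂ), f =ᵐ[volume] g →
      (fun z => f (z + v)) =ᵐ[volume] fun z => g (z + v) := fun f g v hfg =>
    (measurePreserving_add_right volume v).quasiMeasurePreserving.ae_eq_comp hfg
  have htri : ∀ v, tri ρ f₁ f₂ f₃ v = tri ρ g₁ g₂ g₃ v := by
    intro v
    unfold tri
    refine integral_congr_ae ?_
    filter_upwards [a₁, hshift f₂ g₂ v a₂, hshift f₃ g₃ (ρ * v) a₃] with z e₁ e₂ e₃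
    rw [e₁, e₂, e₃]
  have hLam : Lam ρ f₁ f₂ f₃ w = Lam ρ g₁ g₂ g₃ w := by
    unfold Lam
    exact integral_congr_ae (Eventually.of_forall fun θ => htri _)
  have hint : ∀ (f g : ℂ → ℂ), MemLp f 2 volume → f =ᵐ[volume] g →
      (∫⁻ z, ‖g z‖ₑ ^ 2) ^ (1 / 2 : ℝ) = ENNReal.ofReal (Real.sqrt (∫ z, ‖f z‖ ^ 2)) := by
    intro f g hf hfg
    have e1 : ∫⁻ z, ‖g z‖ₑ ^ 2 = ∫⁻ z, ‖f z‖ₑ ^ 2 := by
      refine lintegral_congr_ae ?_
      filter_upwards [hfg] with z hz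
      rw [hz]
    have e2 : ∫⁻ z, ‖f z‖ₑ ^ 2 = ENNReal.ofReal (∫ z, ‖f z‖ ^ 2) := by
      rw [ofReal_integral_eq_lintegral_ofReal ((memLp_two_iff_integrable_sq_norm hf.1).1 hf)
        (Eventually.of_forall fun z => by positivity)]
      refine lintegral_congr fun z => ?_
      rw [← ofReal_norm_eq_enorm, ENNReal.ofReal_pow (norm_nonneg _)]
    rw [e1, e2, ENNReal.ofReal_rpow_of_nonneg (integral_nonneg fun z => by positivity)
      (by norm_num), Real.sqrt_eq_rpow]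
  have key : ‖Lam ρ g₁ g₂ g₃ w‖ₑ ≤ C * (∫⁻ z, ‖g₁ z‖ₑ ^ 2) ^ (1 / 2 : ℝ) *
      (∫⁻ z, ‖g₂ z‖ₑ ^ 2) ^ (1 / 2 : ℝ) * (∫⁻ z, ‖g₃ z‖ₑ ^ 2) ^ (1 / 2 : ℝ) := by
    have h4 := hC (fun z => ‖g₁ z‖ₑ) (fun z => ‖g₂ (z + w)‖ₑ) (fun z => ‖g₃ (z + ρ * w)‖ₑ)
      m₁.enorm (m₂.comp (measurable_id.add_const w)).enorm
      (m₃.comp (measurable_id.add_const (ρ * w))).enorm
    rw [lintegral_add_right_eq_self (fun z => ‖g₂ z‖ₑ ^ 2) w,
      lintegral_add_right_eq_self (fun z => ‖g₃ z‖ₑ ^ 2) (ρ * w)] at h4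
    refine le_trans ?_ h4
    unfold Lam
    refine (enorm_integral_le_lintegral_enorm _).trans (lintegral_mono fun θ => ?_)
    unfold tri
    refine (enorm_integral_le_lintegral_enorm _).trans (le_of_eq (lintegral_congr fun z => ?_))
    rw [enorm_mul, enorm_mul]
    have e1 : z + (cis θ + w) = z + cis θ + w := by ring
    have e2 : z + ρ * (cis θ + w) = z + ρ * cis θ + ρ * w := by ring
    rw [e1, e2]
  rw [hint f₁ g₁ h₁ a₁, hint f₂ g₂ h₂ a₂, hint f₃ g₃ h₃ a₃] at key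
  rw [hLam]
  have e5 : (C : ℝ≥0∞) = ENNReal.ofReal (C : ℝ) := by
    rw [ENNReal.ofReal_coe_nnreal]
  rw [e5, ← ENNReal.ofReal_mul (NNReal.coe_nonneg C), ← ENNReal.ofReal_mul (by positivity),
    ← ENNReal.ofReal_mul (by positivity), ← ofReal_norm_eq_enorm,
    ENNReal.ofReal_le_ofReal_iff (by positivity)] at key
  exact key

end Pool.Agent.H24.Tri
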