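import Pool.Agent.H24.Tri.DefsLoc

set_option autoImplicit false

open MeasureTheory Set Complex Metric Filter Topology
open scoped Real ENNReal NNReal FourierTransform ComplexConjugate

namespace Pool.Agent.H24.Tri

theorem avgA_nonneg (α : ℂ) (n : ℕ) (η r : ℝ) (G : ℂ → ℂ) (y : ℂ) : 0 ≤ avgA α n η r G y := by
  unfold avgA
  refine mul_nonneg (by positivity) (Finset.sum_nonneg fun j _ => mul_nonneg (by positivity) ?_)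
  refine integral_nonneg fun h => ?_
  exact integral_nonneg fun h' => by positivity

/-- `light` from `LL`, `LL2`, `ML`, `gl_lip` -/
theorem light_of (α β γ : ℂ) (C₀ : ℝ)
    (hLL : ∃ Cs D : ℝ, 0 < Cs ∧ 0 < D ∧
      ∀ Ch CG Cg H δ : ℝ, 0 < Ch → 0 < CG → 0 < Cg → 1 ≤ H → 0 < δ →
      ∃ n₀ : ℕ, ∀ n : ℕ, n₀ ≤ n → 0 < n → ∃ r₀ : ℝ, 0 < r₀ ∧ ∀ r : ℝ, 0 < r → r ≤ r₀ →
      ∃ R₀ : ℝ, 1 ≤ R₀ ∧ ∀ R : ℝ, R₀ ≤ R → ∀ h G g : ℂ → ℂ, Measurable h →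
        (∀ x, ‖h x‖ ≤ Ch) → (∀ x, ‖G x‖ ≤ CG) → (∀ x y, ‖G x - G y‖ ≤ CG * R * ‖x - y‖) →
        (∀ x, ‖g x‖ ≤ Cg) → (∀ x y, ‖g x - g y‖ ≤ Cg * R * ‖x - y‖) →
        ‖Iform α β γ h G g‖ ^ 2 ≤
          Cs * Ch ^ 2 * Cg ^ 2 * Real.sqrt (∫ y in closedBall (0 : ℂ) D, avgA α n (H / R) r G y)
            + δ)
    (hLL2 : ∀ K δ : ℝ, 1 ≤ K → 0 < δ → ∃ H₀ : ℝ, 1 ≤ H₀ ∧ ∀ H : ℝ,
      H₀ ≤ H → ∃ n₀ : ℕ, ∀ n : ℕ, n₀ ≤ n → 0 < n → ∀ CG r : ℝ, 0 < CG → 0 < r →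
      ∃ R₀ : ℝ, 1 ≤ R₀ ∧ ∀ R : ℝ, R₀ ≤ R → ∀ G : ℂ → ℂ,
        ContDiff ℝ ((⊤ : ℕ∞) : WithTop ℕ∞) G → (∀ x, ‖G x‖ ≤ CG) → ∀ (y : ℂ) (m : ℝ),
        (∀ ξ₀ : ℂ, ∫ ξ in closedBall ξ₀ (R / K), specM r G y ξ ≤ m) →
        avgA α n (H / R) r G y ≤ (∫ ξ, specM r G y ξ) * m + δ * (∫ ξ, specM r G y ξ) ^ 2 + δ)
    (hML : ∃ Cs : ℝ, 0 < Cs ∧ ∀ K r th : ℝ, 1 ≤ K → 0 < r →
      0 < th → th ≤ 1 → ∃ R₀ : ℝ, 1 ≤ R₀ ∧ ∀ R : ℝ, R₀ ≤ R → ∀ a : ℂ → ℂ, Adm C₀ R a → ∀ y : ℂ,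
        (∫ ξ, specM r (gl C₀ K R r th a) y ξ) ≤ Cs ∧
        ∀ ξ₀ : ℂ, ∫ ξ in closedBall ξ₀ (R / K), specM r (gl C₀ K R r th a) y ξ ≤ Cs * th)
    (hgl : ∀ th : ℝ, 0 < th → th ≤ 1 → ∃ CG : ℝ, 1 ≤ CG ∧
      ∀ K r : ℝ, 1 ≤ K → 0 < r → ∃ R₀ : ℝ, 1 ≤ R₀ ∧ ∀ R : ℝ, R₀ ≤ R → ∀ a : ℂ → ℂ, Adm C₀ R a →
        ContDiff ℝ ((⊤ : ℕ∞) : WithTop ℕ∞) (gl C₀ K R r th a) ∧
        ContDiff ℝ ((⊤ : ℕ∞) : WithTop ℕ∞) (gh C₀ K R r th a) ∧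
        (∀ x, ‖gl C₀ K R r th a x‖ ≤ CG) ∧ (∀ x, ‖gh C₀ K R r th a x‖ ≤ CG) ∧
        (∀ x y, ‖gl C₀ K R r th a x - gl C₀ K R r th a y‖ ≤ CG * R * ‖x - y‖) ∧
        (∀ x y, ‖gh C₀ K R r th a x - gh C₀ K R r th a y‖ ≤ CG * R * ‖x - y‖)) :
    ∀ Ch Cg ε : ℝ, 0 < Ch → 0 < Cg → 0 < ε → ∃ th : ℝ, 0 < th ∧ th ≤ 1 ∧ ∀ K : ℝ, 1 ≤ K →
    ∃ r₀ : ℝ, 0 < r₀ ∧ ∀ r : ℝ, 0 < r → r ≤ r₀ → ∃ R₀ : ℝ, 1 ≤ R₀ ∧ ∀ R : ℝ, R₀ ≤ R →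
    ∀ a : ℂ → ℂ, Adm C₀ R a → ∀ h g : ℂ → ℂ, Measurable h → (∀ x, ‖h x‖ ≤ Ch) →
      (∀ x, ‖g x‖ ≤ Cg) → (∀ x y, ‖g x - g y‖ ≤ Cg * R * ‖x - y‖) →
      ‖Iform α β γ h (gl C₀ K R r th a) g‖ ≤ ε := by
  intro Ch Cg ε hCh hCg hε
  obtain ⟨Cs, D, hCs, hD, hLL⟩ := hLL
  obtain ⟨Cm, hCm, hML⟩ := hML
  set V : ℝ := volume.real (closedBall (0 : ℂ) D) + 1 with hVdef
  have hV : 0 < V := by
    have : 0 ≤ volume.real (closedBall (0 : ℂ) D) := measureReal_nonneg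
    linarith
  set A : ℝ := Cs * Ch ^ 2 * Cg ^ 2 with hA
  have hA0 : 0 < A := by positivity
  set X : ℝ := (ε ^ 2 / (2 * A)) ^ 2 / V with hX
  have hX0 : 0 < X := by positivity
  set th₁ : ℝ := min 1 (X / (2 * Cm ^ 2)) with hth
  have hth0 : 0 < th₁ := lt_min one_pos (by positivity)
  have hth1 : th₁ ≤ 1 := min_le_left _ _
  have hthX : Cm ^ 2 * th₁ ≤ X / 2 := by
    have h := mul_le_mul_of_nonneg_left (min_le_right 1 (X / (2 * Cm ^ 2))) (sq_nonneg Cm)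
    have h2 : Cm ^ 2 * (X / (2 * Cm ^ 2)) = X / 2 := by field_simp
    rw [h2] at h
    exact h
  set δ' : ℝ := X / (2 * (Cm ^ 2 + 1)) with hδ'
  have hδ'0 : 0 < δ' := by positivity
  have hδX : δ' * (Cm ^ 2 + 1) = X / 2 := by rw [hδ']; field_simp
  obtain ⟨CG, hCG, hgl⟩ := hgl th₁ hth0 hth1
  have hCG0 : 0 < CG := by linarith
  refine ⟨th₁, hth0, hth1, fun K hK => ?_⟩
  obtain ⟨H, hH1, hH⟩ := hLL2 K δ' hK hδ'0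
  obtain ⟨n₁, hn₁⟩ := hH H le_rfl
  obtain ⟨n₂, hn₂⟩ := hLL Ch CG Cg H (ε ^ 2 / 2) hCh hCG0 hCg hH1 (by positivity)
  set n : ℕ := max (max n₁ n₂) 1 with hn
  have hnp : 0 < n := lt_of_lt_of_le Nat.one_pos (le_max_right _ _)
  have hn1 : n₁ ≤ n := le_trans (le_max_left _ _) (le_max_left _ _)
  have hn2 : n₂ ≤ n := le_trans (le_max_right _ _) (le_max_left _ _)
  obtain ⟨r₀, hr₀, hr⟩ := hn₂ n hn2 hnp
  refine ⟨r₀, hr₀, fun r hr0 hrr => ?_⟩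
  obtain ⟨R₁, hR₁, hR₁'⟩ := hr r hr0 hrr
  obtain ⟨R₂, hR₂, hR₂'⟩ := hn₁ n hn1 hnp CG r hCG0 hr0
  obtain ⟨R₃, hR₃, hR₃'⟩ := hML K r th₁ hK hr0 hth0 hth1
  obtain ⟨R₄, hR₄, hR₄'⟩ := hgl K r hK hr0
  refine ⟨max (max R₁ R₂) (max R₃ R₄), le_trans hR₁ (le_trans (le_max_left _ _)
    (le_max_left _ _)), fun R hR a ha h g hm hb hg1 hg2 => ?_⟩
  have hRR1 : R₁ ≤ R := le_trans (le_trans (le_max_left _ _) (le_max_left _ _)) hR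
  have hRR2 : R₂ ≤ R := le_trans (le_trans (le_max_right _ _) (le_max_left _ _)) hR
  have hRR3 : R₃ ≤ R := le_trans (le_trans (le_max_left _ _) (le_max_right _ _)) hR
  have hRR4 : R₄ ≤ R := le_trans (le_trans (le_max_right _ _) (le_max_right _ _)) hR
  obtain ⟨g1, _, g3, _, g5, _⟩ := hR₄' R hRR4 a ha
  have hmain := hR₁' R hRR1 h (gl C₀ K R r th₁ a) g hm hb g3 g5 hg1 hg2
  have hpt : ∀ y, avgA α n (H / R) r (gl C₀ K R r th₁ a) y ≤ X := by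
    intro y
    obtain ⟨m1, m2⟩ := hR₃' R hRR3 a ha y
    have m0 : 0 ≤ ∫ ξ, specM r (gl C₀ K R r th₁ a) y ξ :=
      integral_nonneg fun ξ => by unfold specM; positivity
    have := hR₂' R hRR2 (gl C₀ K R r th₁ a) g1 g3 y (Cm * th₁) m2
    set M := ∫ ξ, specM r (gl C₀ K R r th₁ a) y ξ with hM
    have e1 : M * (Cm * th₁) ≤ Cm * (Cm * th₁) :=
      mul_le_mul_of_nonneg_right m1 (by positivity)
    have e2 : M ^ 2 ≤ Cm ^ 2 := pow_le_pow_left₀ m0 m1 2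
    have e3 : δ' * M ^ 2 ≤ δ' * Cm ^ 2 := mul_le_mul_of_nonneg_left e2 hδ'0.le
    nlinarith [hthX, hδX, this, e1, e3]
  have hint : ∫ y in closedBall (0 : ℂ) D, avgA α n (H / R) r (gl C₀ K R r th₁ a) y ≤ X * V := by
    have hfin : volume (closedBall (0 : ℂ) D) ≠ ⊤ := (isCompact_closedBall _ _).measure_lt_top.ne
    have := integral_mono_of_nonneg (μ := volume.restrict (closedBall (0 : ℂ) D))
      (f := fun y => avgA α n (H / R) r (gl C₀ K R r th₁ a) y) (g := fun _ => X)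
      (Eventually.of_forall fun y => avgA_nonneg _ _ _ _ _ _)
      ((integrableOn_const_iff).2 (Or.inr hfin.lt_top)) (Eventually.of_forall hpt)
    refine this.trans ?_
    rw [setIntegral_const, smul_eq_mul, hVdef, mul_comm]
    nlinarith
  have hXV : X * V = (ε ^ 2 / (2 * A)) ^ 2 := by rw [hX]; field_simp
  rw [hXV] at hint
  have hs : Real.sqrt (∫ y in closedBall (0 : ℂ) D,
      avgA α n (H / R) r (gl C₀ K R r th₁ a) y) ≤ ε ^ 2 / (2 * A) := by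
    refine (Real.sqrt_le_sqrt hint).trans ?_
    rw [Real.sqrt_sq (by positivity)]
  have hfin : ‖Iform α β γ h (gl C₀ K R r th₁ a) g‖ ^ 2 ≤ ε ^ 2 := by
    refine hmain.trans ?_
    have := mul_le_mul_of_nonneg_left hs hA0.le
    have e : A * (ε ^ 2 / (2 * A)) = ε ^ 2 / 2 := by field_simp
    rw [e] at this
    linarith
  exact le_of_sq_le_sq hfin hε.le

end Pool.Agent.H24.Tri
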