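import Pool.Agent.H24.Tri.ToolB

set_option autoImplicit false

open MeasureTheory Set Complex Metric Filter Topology
open scoped Real ENNReal NNReal FourierTransform ComplexConjugate

namespace Pool.Agent.H24.Tri

private theorem cos_image : Real.cos '' Ioo 0 π = Ioo (-1) 1 := by
  ext t
  constructor
  · rintro ⟨θ, ⟨h0, h1⟩, rfl⟩
    have h2 : 0 < Real.sin θ := Real.sin_pos_of_pos_of_lt_pi h0 h1
    have h3 := Real.sin_sq_add_cos_sq θ
    constructor <;> nlinarith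
  · rintro ⟨h0, h1⟩
    exact ⟨Real.arccos t, ⟨Real.arccos_pos.2 h1, by
      rw [Real.arccos_lt_pi]; exact h0⟩, Real.cos_arccos h0.le h1.le⟩

private theorem cos_cv (g : ℝ → ℂ) : ∫ θ in Ioo 0 π, g (Real.cos θ) =
    ∫ t in Ioo (-1 : ℝ) 1, (1 / Real.sqrt (1 - t ^ 2)) • g t := by
  have h := integral_image_eq_integral_abs_deriv_smul (s := Ioo 0 π) (f := Real.cos)
    (f' := fun θ => -Real.sin θ) measurableSet_Ioo
    (fun x _ => (Real.hasDerivAt_cos x).hasDerivWithinAt)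
    (Real.injOn_cos.mono Ioo_subset_Icc_self) (fun t => (1 / Real.sqrt (1 - t ^ 2)) • g t)
  rw [cos_image] at h
  rw [h]
  refine setIntegral_congr_fun measurableSet_Ioo fun θ hθ => ?_
  have h2 : 0 < Real.sin θ := Real.sin_pos_of_pos_of_lt_pi hθ.1 hθ.2
  have h3 : Real.sqrt (1 - Real.cos θ ^ 2) = Real.sin θ := by
    rw [← Real.sin_sq, Real.sqrt_sq h2.le]
  show g (Real.cos θ) = |-Real.sin θ| • (1 / Real.sqrt (1 - Real.cos θ ^ 2)) • g (Real.cos θ)
  rw [h3, abs_neg, abs_of_pos h2, smul_smul, mul_one_div_cancel h2.ne', one_smul]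

theorem lemJ : Tendsto (fun x : ℝ => ∫ θ in Ioc 0 (2 * π),
    Complex.exp (((2 * π * x * Real.cos θ : ℝ) : ℂ) * Complex.I)) (cocompact ℝ) (𝓝 0) := by
  have hhalf : ∀ x : ℝ, ∫ θ in Ioc 0 (2 * π),
      Complex.exp (((2 * π * x * Real.cos θ : ℝ) : ℂ) * Complex.I) =
      2 * ∫ θ in Ioo 0 π, Complex.exp (((2 * π * x * Real.cos θ : ℝ) : ℂ) * Complex.I) := by
    intro x
    have hc : Continuous (fun θ : ℝ =>
      Complex.exp (((2 * π * x * Real.cos θ : ℝ) : ℂ) * Complex.I)) := by fun_prop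
    rw [← integral_Ioc_eq_integral_Ioo, ← intervalIntegral.integral_of_le (by positivity),
      ← intervalIntegral.integral_of_le (by positivity),
      ← intervalIntegral.integral_add_adjacent_intervals (hc.intervalIntegrable 0 π)
        (hc.intervalIntegrable π (2 * π))]
    have h1 := intervalIntegral.integral_comp_sub_left (a := 0) (b := π) (fun θ : ℝ =>
      Complex.exp (((2 * π * x * Real.cos θ : ℝ) : ℂ) * Complex.I)) (2 * π)
    rw [show 2 * π - π = π by ring, sub_zero] at h1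
    have h2 : ∫ θ in (0 : ℝ)..π, Complex.exp (((2 * π * x * Real.cos (2 * π - θ) : ℝ) : ℂ) *
        Complex.I) = ∫ θ in (0 : ℝ)..π,
        Complex.exp (((2 * π * x * Real.cos θ : ℝ) : ℂ) * Complex.I) := by
      congr 1
      ext θ
      rw [Real.cos_two_pi_sub]
    rw [← h1, h2]
    ring
  have hrl := Real.tendsto_integral_exp_smul_cocompact
    (fun t : ℝ => (Ioo (-1 : ℝ) 1).indicator (fun t => ((1 / Real.sqrt (1 - t ^ 2) : ℝ) : ℂ)) t)
  have hneg : Tendsto (fun x : ℝ => -x) (cocompact ℝ) (cocompact ℝ) :=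
    (Homeomorph.neg ℝ).isClosedEmbedding.tendsto_cocompact
  have h2 := (hrl.comp hneg).const_mul (2 : ℂ)
  rw [mul_zero] at h2
  refine h2.congr fun x => ?_
  rw [hhalf x, cos_cv (fun t => Complex.exp (((2 * π * x * t : ℝ) : ℂ) * Complex.I))]
  congr 1
  rw [← integral_indicator measurableSet_Ioo]
  simp only [Function.comp]
  congr 1
  ext t
  by_cases ht : t ∈ Ioo (-1 : ℝ) 1
  · rw [indicator_of_mem ht, indicator_of_mem ht, Circle.smul_def, Real.fourierChar_apply,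
      Complex.real_smul, smul_eq_mul, mul_comm]
    congr 3
    push_cast
    ring
  · rw [indicator_of_notMem ht, indicator_of_notMem ht, smul_zero]


namespace Osc

theorem cis_eq (θ : ℝ) : cis θ = (Real.cos θ : ℂ) + (Real.sin θ : ℂ) * Complex.I := by
  unfold cis
  rw [Complex.exp_mul_I, ← Complex.ofReal_cos, ← Complex.ofReal_sin]

theorem cis_continuous : Continuous cis := by unfold cis; fun_prop

theorem cis_add (s t : ℝ) : cis (s + t) = cis s * cis t := by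
  unfold cis
  rw [← Complex.exp_add]
  congr 1
  push_cast
  ring

theorem norm_cis (θ : ℝ) : ‖cis θ‖ = 1 := Complex.norm_exp_ofReal_mul_I θ

theorem cis_periodic (θ : ℝ) : cis (θ + 2 * π) = cis θ := by
  rw [cis_add]
  unfold cis
  have : Complex.exp (((2 * π : ℝ) : ℂ) * Complex.I) = 1 := by
    push_cast
    exact Complex.exp_two_pi_mul_I
  rw [this, mul_one]

/-- shift invariance over a period -/
theorem shift {E : Type*} [NormedAddCommGroup E] [NormedSpace ℝ E] (F : ℝ → E)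
    (hF : ∀ θ, F (θ + 2 * π) = F θ) (s : ℝ) :
    ∫ θ in Ioc 0 (2 * π), F (θ + s) = ∫ θ in Ioc 0 (2 * π), F θ := by
  have h0 : (0 : ℝ) ≤ 2 * π := by positivity
  rw [← intervalIntegral.integral_of_le h0, ← intervalIntegral.integral_of_le h0,
    intervalIntegral.integral_comp_add_right]
  have hp : Function.Periodic F (2 * π) := hF
  have := hp.intervalIntegral_add_eq (0 + s) 0
  rw [zero_add] at this ⊢
  rw [zero_add] at this
  rw [add_comm (2 * π) s]
  exact this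

/-- the unnormalised `J` -/
noncomputable def J (x : ℝ) : ℂ :=
  ∫ θ in Ioc 0 (2 * π), Complex.exp (((2 * π * x * Real.cos θ : ℝ) : ℂ) * Complex.I)

theorem rotJ (c : ℂ) : ∫ θ in Ioc 0 (2 * π),
    Complex.exp (((2 * π * (c * cis θ).re : ℝ) : ℂ) * Complex.I) = J ‖c‖ := by
  unfold J
  have h1 : ∀ θ : ℝ, 2 * π * (c * cis θ).re = 2 * π * ‖c‖ * Real.cos (θ + Complex.arg c) := by
    intro θ
    have h2 : c = (‖c‖ : ℂ) * cis (Complex.arg c) := (Complex.norm_mul_exp_arg_mul_I c).symm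
    have h3 : c * cis θ = (‖c‖ : ℂ) * cis (θ + Complex.arg c) := by
      rw [cis_add]
      nth_rewrite 1 [h2]
      ring
    rw [h3, cis_eq, Complex.re_ofReal_mul, Complex.add_re, Complex.ofReal_re, Complex.mul_I_re,
      Complex.ofReal_im]
    ring
  simp_rw [h1]
  exact shift (fun θ => Complex.exp (((2 * π * ‖c‖ * Real.cos θ : ℝ) : ℂ) * Complex.I))
    (fun θ => by rw [Real.cos_add_two_pi]) _

theorem J_small (η : ℝ) (hη : 0 < η) : ∃ X : ℝ, 0 < X ∧ ∀ x, X ≤ x → ‖J x‖ ≤ η := by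
  have h1 : Tendsto J atTop (𝓝 0) := lemJ.mono_left atTop_le_cocompact
  have h2 := (h1.norm).eventually (ge_mem_nhds (by rw [norm_zero]; exact hη))
  obtain ⟨X, hX⟩ := eventually_atTop.1 h2
  exact ⟨max X 1, lt_max_of_lt_right one_pos, fun x hx => hX x ((le_max_left _ _).trans hx)⟩

/-- the correlation function -/
noncomputable def C (a : ℂ → ℂ) (v : ℂ) : ℂ :=
  ∫ ξ, a ξ * conj (a ξ) * Complex.exp (((2 * π * (conj ξ * v).re : ℝ) : ℂ) * Complex.I)

variable {a : ℂ → ℂ}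

theorem norm_integrand (ξ v : ℂ) :
    ‖a ξ * conj (a ξ) * Complex.exp (((2 * π * (conj ξ * v).re : ℝ) : ℂ) * Complex.I)‖ =
      ‖a ξ‖ ^ 2 := by
  rw [norm_mul, norm_mul, Complex.norm_exp_ofReal_mul_I, mul_one, RCLike.norm_conj]
  ring

theorem sq_int (ha : Nice a) : Integrable (fun ξ => ‖a ξ‖ ^ 2) := by
  have hc : Continuous a := ha.smooth.continuous
  refine Continuous.integrable_of_hasCompactSupport (by fun_prop) ?_
  refine HasCompactSupport.intro ha.compact fun x hx => ?_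
  rw [image_eq_zero_of_notMem_tsupport hx, norm_zero]
  norm_num

theorem C_norm (v : ℂ) : ‖C a v‖ ≤ ∫ ξ, ‖a ξ‖ ^ 2 := by
  unfold C
  refine (norm_integral_le_integral_norm _).trans (le_of_eq ?_)
  congr 1
  ext ξ
  exact norm_integrand ξ v

theorem C_cont (ha : Nice a) : Continuous (C a) := by
  have hc : Continuous a := ha.smooth.continuous
  unfold C
  refine continuous_of_dominated (bound := fun ξ => ‖a ξ‖ ^ 2) (fun v => ?_)
    (fun v => Eventually.of_forall fun ξ => (norm_integrand ξ v).le) (sq_int ha)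
    (Eventually.of_forall fun ξ => ?_)
  · refine Continuous.aestronglyMeasurable ?_
    fun_prop
  · fun_prop

theorem C_circle (ha : Nice a) {X η : ℝ} (hX : ∀ x, X ≤ x → ‖J x‖ ≤ η)
    (w : ℂ) (hw : ∀ ξ, a ξ ≠ 0 → X ≤ ‖ξ‖ * ‖w‖) :
    ‖∫ θ in Ioc 0 (2 * π), C a (w * cis θ)‖ ≤ η * ∫ ξ, ‖a ξ‖ ^ 2 := by
  have hc : Continuous a := ha.smooth.continuous
  have hcis := cis_continuous
  have hswap : ∫ θ in Ioc 0 (2 * π), C a (w * cis θ) = ∫ ξ, a ξ * conj (a ξ) * J (‖ξ‖ * ‖w‖) := by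
    unfold C
    rw [integral_integral_swap]
    · congr 1
      ext ξ
      rw [integral_const_mul]
      congr 1
      have h1 := rotJ (conj ξ * w)
      rw [norm_mul, RCLike.norm_conj] at h1
      rw [← h1]
      congr 1
      ext θ
      rw [mul_assoc (conj ξ)]
    · have h1 : Integrable (fun p : ℝ × ℂ => (1 : ℝ) * ‖a p.2‖ ^ 2)
          ((volume.restrict (Ioc 0 (2 * π))).prod volume) :=
        (integrable_const (1 : ℝ)).mul_prod (sq_int ha)
      refine h1.mono' ?_ (Eventually.of_forall fun p => ?_)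
      · refine Continuous.aestronglyMeasurable ?_
        unfold Function.uncurry
        fun_prop
      · simp only [Function.uncurry, one_mul]
        exact (norm_integrand _ _).le
  rw [hswap, ← integral_const_mul]
  refine norm_integral_le_of_norm_le ((sq_int ha).const_mul η) (Eventually.of_forall fun ξ => ?_)
  rw [norm_mul, norm_mul, RCLike.norm_conj, ← pow_two, mul_comm]
  by_cases h0 : a ξ = 0
  · rw [h0, norm_zero]; norm_num
  · exact mul_le_mul_of_nonneg_right (hX _ (hw ξ h0)) (by positivity)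

/-- Cauchy-Schwarz -/
theorem cs {h : ℝ → ℝ} (hc : Continuous h) :
    (∫ θ in Ioc 0 (2 * π), h θ) ^ 2 ≤ 2 * π * ∫ θ in Ioc 0 (2 * π), h θ ^ 2 := by
  set I := ∫ θ in Ioc 0 (2 * π), h θ with hI
  have hi : ∀ {k : ℝ → ℝ}, Continuous k → IntegrableOn k (Ioc 0 (2 * π)) := fun hk =>
    (hk.integrableOn_Icc).mono_set Ioc_subset_Icc_self
  set c := I / (2 * π) with hcdef
  have hp : (0 : ℝ) < 2 * π := by positivity
  have h1 : 0 ≤ ∫ θ in Ioc 0 (2 * π), (h θ - c) ^ 2 := integral_nonneg fun θ => sq_nonneg _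
  have h2 : ∫ θ in Ioc 0 (2 * π), (h θ - c) ^ 2 =
      (∫ θ in Ioc 0 (2 * π), h θ ^ 2) - 2 * c * I + 2 * π * c ^ 2 := by
    have e1 : ∀ θ, (h θ - c) ^ 2 = (h θ ^ 2 - 2 * c * h θ) + c ^ 2 := fun θ => by ring
    simp_rw [e1]
    have i1 : IntegrableOn (fun θ => h θ ^ 2) (Ioc 0 (2 * π)) := hi (hc.pow 2)
    have i2 : IntegrableOn (fun θ => 2 * c * h θ) (Ioc 0 (2 * π)) :=
      hi (continuous_const.mul hc)
    have i3 : IntegrableOn (fun _ : ℝ => c ^ 2) (Ioc 0 (2 * π)) := hi continuous_const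
    have i4 : IntegrableOn (fun θ => h θ ^ 2 - 2 * c * h θ) (Ioc 0 (2 * π)) := hi (by fun_prop)
    have j1 := integral_add (μ := volume.restrict (Ioc 0 (2 * π)))
      (f := fun θ => h θ ^ 2 - 2 * c * h θ) (g := fun _ => c ^ 2) i4 i3
    have j2 := integral_sub (μ := volume.restrict (Ioc 0 (2 * π)))
      (f := fun θ => h θ ^ 2) (g := fun θ => 2 * c * h θ) i1 i2
    rw [j1, j2, integral_const_mul, setIntegral_const, ← hI]
    simp only [Measure.real, Real.volume_Ioc, sub_zero, ENNReal.toReal_ofReal hp.le, smul_eq_mul]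
  rw [h2] at h1
  have h3 : 2 * π * c = I := by rw [hcdef]; field_simp
  have h4 : 2 * π * (2 * c * I) = 2 * I ^ 2 := by
    calc 2 * π * (2 * c * I) = 2 * (2 * π * c) * I := by ring
      _ = _ := by rw [h3]; ring
  have h5 : 2 * π * (2 * π * c ^ 2) = I ^ 2 := by
    calc 2 * π * (2 * π * c ^ 2) = (2 * π * c) ^ 2 := by ring
      _ = _ := by rw [h3]
  have h6 := mul_nonneg hp.le h1
  nlinarith


/-! ### the averaged function -/

/-- the average of `n` rotated copies -/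
noncomputable def Fav (f : ℂ → ℂ) (α : ℂ) (n : ℕ) (s : ℕ → ℝ) (θ : ℝ) (z : ℂ) : ℂ :=
  (n : ℂ)⁻¹ * ∑ j ∈ Finset.range n, f (z + α * cis (θ + s j))

/-- L² norm of the averaged function -/
theorem Fav_sq (ha : Nice a) (α : ℂ) (n : ℕ) (s : ℕ → ℝ) (θ : ℝ) :
    Integrable (fun z => ‖Fav (𝓕⁻ a) α n s θ z‖ ^ 2) ∧
    ((∫ z, ‖Fav (𝓕⁻ a) α n s θ z‖ ^ 2 : ℝ) : ℂ) =
      (n : ℂ)⁻¹ ^ 2 * ∑ j ∈ Finset.range n, ∑ k ∈ Finset.range n,
        C a (α * (cis (s j) - cis (s k)) * cis θ) := by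
  set f := 𝓕⁻ a with hf
  have hfc : Continuous f := nice_continuous a ha
  have hf2 : MemLp f 2 volume := (nice_memLp a ha).2
  have hft : ∀ p : ℂ, MemLp (fun z => f (z + p)) 2 volume := fun p =>
    hf2.comp_measurePreserving (measurePreserving_add_right volume p)
  have hprod : ∀ p q : ℂ, Integrable (fun z => f (z + p) * conj (f (z + q))) := by
    intro p q
    have h1 : MemLp (fun z => conj (f (z + q))) 2 volume := by
      refine (hft q).congr_norm ?_ (Eventually.of_forall fun z => ?_)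
      · exact (Complex.continuous_conj.comp (hfc.comp (by fun_prop))).aestronglyMeasurable
      · rw [RCLike.norm_conj]
    exact (hft p).integrable_mul h1
  have hcorr : ∀ p q : ℂ, ∫ z, f (z + p) * conj (f (z + q)) = C a (p - q) := by
    intro p q
    have h1 := plancherel a a ha ha (p - q)
    have h2 := integral_add_right_eq_self (μ := (volume : Measure ℂ))
      (fun z => f (z + (p - q)) * conj (f z)) q
    unfold C
    rw [← h1, ← h2]
    congr 1
    ext z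
    rw [show z + q + (p - q) = z + p by ring]
  have hexp : ∀ z, ((‖Fav f α n s θ z‖ ^ 2 : ℝ) : ℂ) =
      (n : ℂ)⁻¹ ^ 2 * ∑ j ∈ Finset.range n, ∑ k ∈ Finset.range n,
        f (z + α * cis (θ + s j)) * conj (f (z + α * cis (θ + s k))) := by
    intro z
    have h1 : ((‖Fav f α n s θ z‖ ^ 2 : ℝ) : ℂ) = Fav f α n s θ z * conj (Fav f α n s θ z) := by
      rw [Complex.mul_conj, Complex.normSq_eq_norm_sq]
    rw [h1]
    unfold Fav
    rw [map_mul, map_sum, map_inv₀, Complex.conj_natCast, mul_mul_mul_comm, Finset.sum_mul_sum,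
      ← pow_two]
  have hint : Integrable (fun z => (n : ℂ)⁻¹ ^ 2 * ∑ j ∈ Finset.range n, ∑ k ∈ Finset.range n,
        f (z + α * cis (θ + s j)) * conj (f (z + α * cis (θ + s k)))) :=
    (integrable_finsetSum _ fun j _ => integrable_finsetSum _ fun k _ => hprod _ _).const_mul _
  constructor
  · have h1 : Integrable (fun z => ((‖Fav f α n s θ z‖ ^ 2 : ℝ) : ℂ)) := by
      refine hint.congr (Eventually.of_forall fun z => ?_)
      exact (hexp z).symm
    have h2 := h1.re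
    refine h2.congr (Eventually.of_forall fun z => ?_)
    simp only [RCLike.re_to_complex, Complex.ofReal_re]
  · rw [← integral_complex_ofReal]
    simp_rw [hexp]
    rw [integral_const_mul, integral_finsetSum _ fun j _ =>
      integrable_finsetSum _ fun k _ => hprod _ _]
    congr 1
    refine Finset.sum_congr rfl fun j _ => ?_
    rw [integral_finsetSum _ fun k _ => hprod _ _]
    refine Finset.sum_congr rfl fun k _ => ?_
    rw [hcorr]
    congr 1
    rw [cis_add, cis_add]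
    ring


theorem Fav_cont {f : ℂ → ℂ} (hf : Continuous f) (α : ℂ) (n : ℕ) (s : ℕ → ℝ) :
    Continuous (fun p : ℝ × ℂ => Fav f α n s p.1 p.2) := by
  have hcis := cis_continuous
  unfold Fav
  fun_prop

theorem r_cont (ha : Nice a) (α : ℂ) (n : ℕ) (s : ℕ → ℝ) :
    Continuous (fun θ => ∫ z, ‖Fav (𝓕⁻ a) α n s θ z‖ ^ 2) := by
  have hcis := cis_continuous
  have hC := C_cont ha
  have h1 : ∀ θ, ∫ z, ‖Fav (𝓕⁻ a) α n s θ z‖ ^ 2 =
      ((n : ℂ)⁻¹ ^ 2 * ∑ j ∈ Finset.range n, ∑ k ∈ Finset.range n,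
        C a (α * (cis (s j) - cis (s k)) * cis θ)).re := by
    intro θ
    rw [← (Fav_sq ha α n s θ).2, Complex.ofReal_re]
  simp_rw [h1]
  fun_prop

theorem mainBound (ha : Nice a) (α : ℂ) {n : ℕ} (hn : 0 < n) (s : ℕ → ℝ) {X η : ℝ} (hη : 0 ≤ η)
    (hX : ∀ x, X ≤ x → ‖J x‖ ≤ η)
    (hs : ∀ j < n, ∀ k < n, j ≠ k → ∀ ξ, a ξ ≠ 0 → X ≤ ‖ξ‖ * ‖α * (cis (s j) - cis (s k))‖) :
    ∫ θ in Ioc 0 (2 * π), (∫ z, ‖Fav (𝓕⁻ a) α n s θ z‖ ^ 2) ≤
      (2 * π / n + η) * ∫ ξ, ‖a ξ‖ ^ 2 := by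
  have hcis := cis_continuous
  have hC := C_cont ha
  set A := ∫ ξ, ‖a ξ‖ ^ 2 with hA
  have hA0 : 0 ≤ A := integral_nonneg fun ξ => by positivity
  have hI : ∀ w : ℂ, IntegrableOn (fun θ => C a (w * cis θ)) (Ioc 0 (2 * π)) := fun w =>
    (Continuous.integrableOn_Icc (by fun_prop)).mono_set Ioc_subset_Icc_self
  have h1 : ((∫ θ in Ioc 0 (2 * π), (∫ z, ‖Fav (𝓕⁻ a) α n s θ z‖ ^ 2) : ℝ) : ℂ) =
      (n : ℂ)⁻¹ ^ 2 * ∑ j ∈ Finset.range n, ∑ k ∈ Finset.range n,
        ∫ θ in Ioc 0 (2 * π), C a (α * (cis (s j) - cis (s k)) * cis θ) := by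
    rw [← integral_complex_ofReal]
    simp_rw [fun θ => (Fav_sq ha α n s θ).2]
    rw [integral_const_mul, integral_finsetSum _ fun j _ =>
      integrable_finsetSum _ fun k _ => hI _]
    congr 1
    refine Finset.sum_congr rfl fun j _ => ?_
    rw [integral_finsetSum _ fun k _ => hI _]
  have h2 : ∀ j < n, ∀ k < n, ‖∫ θ in Ioc 0 (2 * π), C a (α * (cis (s j) - cis (s k)) * cis θ)‖ ≤
      (if j = k then 2 * π * A else 0) + η * A := by
    intro j hj k hk
    by_cases hjk : j = k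
    · rw [if_pos hjk]
      have h3 : ‖∫ θ in Ioc 0 (2 * π), C a (α * (cis (s j) - cis (s k)) * cis θ)‖ ≤
          A * (volume : Measure ℝ).real (Ioc 0 (2 * π)) :=
        norm_setIntegral_le_of_norm_le_const (by rw [Real.volume_Ioc]; exact ENNReal.ofReal_lt_top)
          (fun θ _ => C_norm _)
      rw [Measure.real, Real.volume_Ioc, sub_zero,
        ENNReal.toReal_ofReal (by positivity)] at h3
      have : 0 ≤ η * A := mul_nonneg hη hA0
      linarith
    · rw [if_neg hjk, zero_add]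
      exact C_circle ha hX _ (hs j hj k hk hjk)
  have hn0 : (0 : ℝ) < n := by exact_mod_cast hn
  have h3 : ‖(n : ℂ)⁻¹ ^ 2 * ∑ j ∈ Finset.range n, ∑ k ∈ Finset.range n,
        ∫ θ in Ioc 0 (2 * π), C a (α * (cis (s j) - cis (s k)) * cis θ)‖ ≤
      (n : ℝ)⁻¹ ^ 2 * (n * (2 * π * A) + n * (n * (η * A))) := by
    rw [norm_mul, norm_pow, norm_inv, Complex.norm_natCast]
    refine mul_le_mul_of_nonneg_left ?_ (by positivity)
    calc _ ≤ ∑ j ∈ Finset.range n, ∑ k ∈ Finset.range n,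
          ((if j = k then 2 * π * A else 0) + η * A) := by
          refine (norm_sum_le _ _).trans (Finset.sum_le_sum fun j hj => ?_)
          refine (norm_sum_le _ _).trans (Finset.sum_le_sum fun k hk => ?_)
          exact h2 j (Finset.mem_range.1 hj) k (Finset.mem_range.1 hk)
      _ = ∑ j ∈ Finset.range n, (2 * π * A + n * (η * A)) := by
          refine Finset.sum_congr rfl fun j hj => ?_
          rw [Finset.sum_add_distrib, Finset.sum_ite_eq, if_pos hj, Finset.sum_const,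
            Finset.card_range, nsmul_eq_mul]
      _ = n * (2 * π * A) + n * (n * (η * A)) := by
          rw [Finset.sum_const, Finset.card_range, nsmul_eq_mul, mul_add]
  rw [← h1, Complex.norm_real] at h3
  refine (le_abs_self _).trans (h3.trans (le_of_eq ?_))
  field_simp

/-- Tonelli -/
theorem swapSq {F : ℝ → ℂ → ℂ} (hF : Continuous (fun p : ℝ × ℂ => F p.1 p.2))
    (hi : ∀ θ, Integrable (fun z => ‖F θ z‖ ^ 2))
    (hr : Continuous (fun θ => ∫ z, ‖F θ z‖ ^ 2)) :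
    ∫⁻ z, ∫⁻ θ in Ioc 0 (2 * π), ENNReal.ofReal (‖F θ z‖ ^ 2) =
      ENNReal.ofReal (∫ θ in Ioc 0 (2 * π), ∫ z, ‖F θ z‖ ^ 2) := by
  have hm : Continuous (fun p : ℂ × ℝ => ENNReal.ofReal (‖F p.2 p.1‖ ^ 2)) := by
    have h1 : Continuous (fun p : ℂ × ℝ => F p.2 p.1) := hF.comp continuous_swap
    exact ENNReal.continuous_ofReal.comp (h1.norm.pow 2)
  rw [lintegral_lintegral_swap hm.measurable.aemeasurable,
    ofReal_integral_eq_lintegral_ofReal]
  · refine lintegral_congr fun θ => ?_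
    rw [ofReal_integral_eq_lintegral_ofReal (hi θ) (Eventually.of_forall fun z => by positivity)]
  · exact (hr.integrableOn_Icc).mono_set Ioc_subset_Icc_self
  · exact Eventually.of_forall fun θ => integral_nonneg fun z => by positivity


theorem intC {E : Type*} [NormedAddCommGroup E] [NormedSpace ℝ E] {h : ℝ → E} (hc : Continuous h) :
    Integrable h (volume.restrict (Ioc 0 (2 * π))) :=
  (hc.integrableOn_Icc).mono_set Ioc_subset_Icc_self

theorem decomp {f g : ℂ → ℂ} (hf : Continuous f) (hg : Continuous g) (hg1 : ∀ x, ‖g x‖ ≤ 1)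
    (α β : ℂ) {n : ℕ} (hn : 0 < n) (s : ℕ → ℝ) {κ : ℝ}
    (hκ' : ∀ j < n, ∀ (x : ℂ) (θ : ℝ), ‖g (x + β * cis (θ + s j)) - g (x + β * cis θ)‖ ≤ κ)
    (z : ℂ) :
    ‖∫ θ in Ioc 0 (2 * π), f (z + α * cis θ) * g (z + β * cis θ)‖ ^ 2 ≤
      4 * π * (∫ θ in Ioc 0 (2 * π), ‖Fav f α n s θ z‖ ^ 2) +
        4 * π * κ ^ 2 * ∫ θ in Ioc 0 (2 * π), ‖f (z + α * cis θ)‖ ^ 2 := by
  have hcis := cis_continuous
  have hn0 : (n : ℂ) ≠ 0 := by exact_mod_cast hn.ne'
  have hnR : (0 : ℝ) < n := by exact_mod_cast hn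
  have hpz : Continuous (fun θ : ℝ => ((θ, z) : ℝ × ℂ)) := by fun_prop
  have hFc : Continuous (fun θ => Fav f α n s θ z) := (Fav_cont hf α n s).comp hpz
  set T := ∫ θ in Ioc 0 (2 * π), f (z + α * cis θ) * g (z + β * cis θ) with hT
  set P := ∫ θ in Ioc 0 (2 * π), ‖Fav f α n s θ z‖ with hP
  set Q := ∫ θ in Ioc 0 (2 * π), ‖f (z + α * cis θ)‖ with hQ
  have hsh : ∀ j, ∫ θ in Ioc 0 (2 * π), f (z + α * cis (θ + s j)) * g (z + β * cis (θ + s j)) = T :=
    fun j => shift (fun θ => f (z + α * cis θ) * g (z + β * cis θ))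
      (fun θ => by rw [cis_periodic]) (s j)
  have hshQ : ∀ j, ∫ θ in Ioc 0 (2 * π), ‖f (z + α * cis (θ + s j))‖ = Q :=
    fun j => shift (fun θ => ‖f (z + α * cis θ)‖) (fun θ => by rw [cis_periodic]) (s j)
  have hTeq : T = (∫ θ in Ioc 0 (2 * π), Fav f α n s θ z * g (z + β * cis θ)) +
      (n : ℂ)⁻¹ * ∑ j ∈ Finset.range n, ∫ θ in Ioc 0 (2 * π),
        f (z + α * cis (θ + s j)) * (g (z + β * cis (θ + s j)) - g (z + β * cis θ)) := by
    have h1 : T = (n : ℂ)⁻¹ * ∑ j ∈ Finset.range n, ∫ θ in Ioc 0 (2 * π),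
        f (z + α * cis (θ + s j)) * g (z + β * cis (θ + s j)) := by
      simp_rw [hsh]
      rw [Finset.sum_const, Finset.card_range, nsmul_eq_mul, ← mul_assoc, inv_mul_cancel₀ hn0,
        one_mul]
    have h2 : ∫ θ in Ioc 0 (2 * π), Fav f α n s θ z * g (z + β * cis θ) =
        (n : ℂ)⁻¹ * ∑ j ∈ Finset.range n, ∫ θ in Ioc 0 (2 * π),
          f (z + α * cis (θ + s j)) * g (z + β * cis θ) := by
      have h3 : ∀ j ∈ Finset.range n, Integrable (fun θ : ℝ =>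
          f (z + α * cis (θ + s j)) * g (z + β * cis θ)) (volume.restrict (Ioc 0 (2 * π))) :=
        fun j _ => intC (by fun_prop)
      rw [← integral_finsetSum _ h3, ← integral_const_mul]
      congr 1
      ext θ
      unfold Fav
      rw [mul_assoc, Finset.sum_mul]
    rw [h1, h2, ← mul_add, ← Finset.sum_add_distrib]
    congr 1
    refine Finset.sum_congr rfl fun j _ => ?_
    rw [← integral_add (intC (by fun_prop)) (intC (by fun_prop))]
    congr 1
    ext θ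
    ring
  have hb1 : ‖∫ θ in Ioc 0 (2 * π), Fav f α n s θ z * g (z + β * cis θ)‖ ≤ P := by
    refine norm_integral_le_of_norm_le (intC hFc.norm) (Eventually.of_forall fun θ => ?_)
    rw [norm_mul]
    exact mul_le_of_le_one_right (norm_nonneg _) (hg1 _)
  have hb2 : ‖(n : ℂ)⁻¹ * ∑ j ∈ Finset.range n, ∫ θ in Ioc 0 (2 * π),
        f (z + α * cis (θ + s j)) * (g (z + β * cis (θ + s j)) - g (z + β * cis θ))‖ ≤ κ * Q := by
    rw [norm_mul, norm_inv, Complex.norm_natCast]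
    have h1 : ‖∑ j ∈ Finset.range n, ∫ θ in Ioc 0 (2 * π),
        f (z + α * cis (θ + s j)) * (g (z + β * cis (θ + s j)) - g (z + β * cis θ))‖ ≤
        n * (κ * Q) := by
      calc _ ≤ ∑ j ∈ Finset.range n, κ * Q := by
            refine (norm_sum_le _ _).trans (Finset.sum_le_sum fun j hj => ?_)
            rw [← hshQ j, ← integral_const_mul]
            refine norm_integral_le_of_norm_le (intC (by fun_prop))
              (Eventually.of_forall fun θ => ?_)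
            rw [norm_mul, mul_comm]
            exact mul_le_mul_of_nonneg_right (hκ' j (Finset.mem_range.1 hj) z θ) (norm_nonneg _)
        _ = n * (κ * Q) := by rw [Finset.sum_const, Finset.card_range, nsmul_eq_mul]
    calc _ ≤ (n : ℝ)⁻¹ * (n * (κ * Q)) := mul_le_mul_of_nonneg_left h1 (by positivity)
      _ = κ * Q := by field_simp
  have hTn : ‖T‖ ≤ P + κ * Q := by
    rw [hTeq]
    exact (norm_add_le _ _).trans (add_le_add hb1 hb2)
  have hcs1 : P ^ 2 ≤ 2 * π * ∫ θ in Ioc 0 (2 * π), ‖Fav f α n s θ z‖ ^ 2 := cs hFc.norm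
  have hcs2 : Q ^ 2 ≤ 2 * π * ∫ θ in Ioc 0 (2 * π), ‖f (z + α * cis θ)‖ ^ 2 :=
    cs (h := fun θ => ‖f (z + α * cis θ)‖) (by fun_prop)
  have h1 : ‖T‖ ^ 2 ≤ (P + κ * Q) ^ 2 := pow_le_pow_left₀ (norm_nonneg _) hTn 2
  have h2 : (P + κ * Q) ^ 2 ≤ 2 * P ^ 2 + 2 * (κ ^ 2 * Q ^ 2) := by
    nlinarith [sq_nonneg (P - κ * Q)]
  have h3 : κ ^ 2 * Q ^ 2 ≤ κ ^ 2 * (2 * π * ∫ θ in Ioc 0 (2 * π), ‖f (z + α * cis θ)‖ ^ 2) :=
    mul_le_mul_of_nonneg_left hcs2 (sq_nonneg _)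
  linarith

theorem norm_cis_sub (s t : ℝ) : ‖cis s - cis t‖ = ‖2 * Real.sin ((s - t) / 2)‖ := by
  have h1 : cis s - cis t = cis t * (Complex.exp (Complex.I * ((s - t : ℝ) : ℂ)) - 1) := by
    rw [mul_sub, mul_one]
    congr 1
    have h2 : Complex.exp (Complex.I * ((s - t : ℝ) : ℂ)) = cis (s - t) := by
      unfold cis; rw [mul_comm]
    rw [h2, ← cis_add]
    congr 1
    ring
  rw [h1, norm_mul, norm_cis, one_mul, Complex.norm_exp_I_mul_ofReal_sub_one]

theorem norm_cis_sub_le (s t : ℝ) : ‖cis s - cis t‖ ≤ |s - t| := by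
  rw [norm_cis_sub, Real.norm_eq_abs, abs_mul, abs_of_pos (by norm_num : (0 : ℝ) < 2)]
  have h1 : |Real.sin ((s - t) / 2)| ≤ |(s - t) / 2| := Real.abs_sin_le_abs
  rw [abs_div, abs_of_pos (by norm_num : (0 : ℝ) < 2)] at h1
  linarith

theorem le_norm_cis_sub {s t : ℝ} (h : |s - t| ≤ 1) : |s - t| / 2 ≤ ‖cis s - cis t‖ := by
  rw [norm_cis_sub, Real.norm_eq_abs, abs_mul, abs_of_pos (by norm_num : (0 : ℝ) < 2)]
  have h1 : |Real.sin ((s - t) / 2)| = Real.sin (|s - t| / 2) := by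
    rcases abs_cases (s - t) with ⟨h2, h3⟩ | ⟨h2, h3⟩
    · rw [h2, abs_of_nonneg]
      exact Real.sin_nonneg_of_nonneg_of_le_pi (by linarith) (by
        have := Real.pi_gt_three; rw [h2] at h; linarith)
    · rw [h2, show -(s - t) / 2 = -((s - t) / 2) by ring, Real.sin_neg, abs_of_nonpos]
      have h4 : 0 ≤ Real.sin (-((s - t) / 2)) :=
        Real.sin_nonneg_of_nonneg_of_le_pi (by linarith) (by
          have := Real.pi_gt_three; rw [h2] at h; linarith)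
      rw [Real.sin_neg] at h4
      linarith
  rw [h1]
  have h2 : 0 ≤ |s - t| / 2 := by positivity
  have h3 := Real.mul_le_sin h2 (by have := Real.pi_gt_three; linarith)
  have h4 : 1 / 2 ≤ 2 / π := by
    rw [div_le_div_iff₀ (by norm_num) Real.pi_pos]
    have := Real.pi_le_four
    linarith
  have h5 : 1 / 2 * (|s - t| / 2) ≤ 2 / π * (|s - t| / 2) := mul_le_mul_of_nonneg_right h4 h2
  linarith

theorem Fav_cont' {f : ℂ → ℂ} (hf : Continuous f) (α : ℂ) (n : ℕ) (s : ℕ → ℝ) (z : ℂ) :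
    Continuous (fun θ : ℝ => Fav f α n s θ z) := by
  have hcis := cis_continuous
  unfold Fav
  fun_prop

theorem second (ha : Nice a) (α : ℂ) :
    ∫⁻ z, ∫⁻ θ in Ioc 0 (2 * π), ENNReal.ofReal (‖𝓕⁻ a (z + α * cis θ)‖ ^ 2) =
      ENNReal.ofReal (2 * π * ∫ ξ, ‖a ξ‖ ^ 2) := by
  have hcis := cis_continuous
  have hf : Continuous (𝓕⁻ a) := nice_continuous a ha
  have hf2 : Integrable (fun z => ‖𝓕⁻ a z‖ ^ 2) :=
    (nice_memLp a ha).2.integrable_norm_pow two_ne_zero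
  have hr2 : ∀ θ : ℝ, ∫ z, ‖𝓕⁻ a (z + α * cis θ)‖ ^ 2 = ∫ ξ, ‖a ξ‖ ^ 2 := by
    intro θ
    rw [← plancherel_sq a ha]
    exact integral_add_right_eq_self (fun z => ‖𝓕⁻ a z‖ ^ 2) _
  have hj : Continuous (fun p : ℝ × ℂ => 𝓕⁻ a (p.2 + α * cis p.1)) := by fun_prop
  have hi : ∀ θ : ℝ, Integrable (fun z => ‖𝓕⁻ a (z + α * cis θ)‖ ^ 2) := fun θ =>
    hf2.comp_add_right _
  have hr : Continuous (fun θ : ℝ => ∫ z, ‖𝓕⁻ a (z + α * cis θ)‖ ^ 2) := by
    simp_rw [hr2]; exact continuous_const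
  rw [swapSq (F := fun θ z => 𝓕⁻ a (z + α * cis θ)) hj hi hr]
  simp_rw [hr2]
  rw [setIntegral_const, Measure.real, Real.volume_Ioc, sub_zero,
    ENNReal.toReal_ofReal (by positivity), smul_eq_mul]

theorem measF {F : ℝ → ℂ → ℂ} (hF : Continuous (fun p : ℝ × ℂ => F p.1 p.2)) :
    Measurable (fun z => ∫⁻ θ in Ioc 0 (2 * π), ENNReal.ofReal (‖F θ z‖ ^ 2)) := by
  have hm : Continuous (fun p : ℂ × ℝ => ENNReal.ofReal (‖F p.2 p.1‖ ^ 2)) := by
    have h1 : Continuous (fun p : ℂ × ℝ => F p.2 p.1) := hF.comp continuous_swap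
    exact ENNReal.continuous_ofReal.comp (h1.norm.pow 2)
  exact hm.measurable.lintegral_prod_right'

theorem ptwise {x : ℂ} {h k : ℝ → ℂ} (hh : Continuous h) (hk : Continuous k) {c d : ℝ}
    (hc : 0 ≤ c) (hd : 0 ≤ d)
    (hx : ‖x‖ ^ 2 ≤ c * (∫ θ in Ioc 0 (2 * π), ‖h θ‖ ^ 2) + d * ∫ θ in Ioc 0 (2 * π), ‖k θ‖ ^ 2) :
    ‖x‖ₑ ^ 2 ≤ ENNReal.ofReal c * (∫⁻ θ in Ioc 0 (2 * π), ENNReal.ofReal (‖h θ‖ ^ 2)) +
      ENNReal.ofReal d * ∫⁻ θ in Ioc 0 (2 * π), ENNReal.ofReal (‖k θ‖ ^ 2) := by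
  have e1 : ∀ {h : ℝ → ℂ}, Continuous h → ∫⁻ θ in Ioc 0 (2 * π), ENNReal.ofReal (‖h θ‖ ^ 2) =
      ENNReal.ofReal (∫ θ in Ioc 0 (2 * π), ‖h θ‖ ^ 2) := by
    intro h hh
    have i1 : Integrable (fun θ => ‖h θ‖ ^ 2) (volume.restrict (Ioc 0 (2 * π))) :=
      intC (by fun_prop)
    exact (ofReal_integral_eq_lintegral_ofReal i1
      (Eventually.of_forall fun θ => by positivity)).symm
  have n1 : 0 ≤ ∫ θ in Ioc 0 (2 * π), ‖h θ‖ ^ 2 := integral_nonneg fun θ => by positivity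
  have n2 : 0 ≤ ∫ θ in Ioc 0 (2 * π), ‖k θ‖ ^ 2 := integral_nonneg fun θ => by positivity
  rw [e1 hh, e1 hk, ← ENNReal.ofReal_mul hc, ← ENNReal.ofReal_mul hd,
    ← ENNReal.ofReal_add (mul_nonneg hc n1) (mul_nonneg hd n2), ← ofReal_norm,
    ← ENNReal.ofReal_pow (norm_nonneg _)]
  exact ENNReal.ofReal_le_ofReal hx

end Osc

open Osc in
theorem osc (α β : ℂ) (hα : α ≠ 0) : ∀ ε : ℝ, 0 < ε → ∃ A : ℝ, 0 < A ∧ ∀ R' : ℝ, 1 ≤ R' →
    ∀ a : ℂ → ℂ, Nice a → (∀ ξ, ‖ξ‖ < A * R' → a ξ = 0) →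
    ∀ g : ℂ → ℂ, (∀ x, ‖g x‖ ≤ 1) → (∀ x y, ‖g x - g y‖ ≤ R' * ‖x - y‖) →
      ∫⁻ z, ‖∫ θ in Ioc 0 (2 * π), 𝓕⁻ a (z + α * cis θ) * g (z + β * cis θ)‖ₑ ^ 2 ≤
        ENNReal.ofReal (ε ^ 2 * ∫ ξ, ‖a ξ‖ ^ 2) := by
  intro ε hε
  have hπ := Real.pi_pos
  have hα0 : 0 < ‖α‖ := norm_pos_iff.2 hα
  obtain ⟨X, hX0, hX⟩ := J_small (ε ^ 2 / (12 * π)) (by positivity)
  set η := ε ^ 2 / (12 * π) with hη
  obtain ⟨n, hn⟩ := exists_nat_gt (24 * π ^ 2 / ε ^ 2)
  have hnR : (0 : ℝ) < n := lt_of_le_of_lt (by positivity) hn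
  have hn0 : 0 < n := by exact_mod_cast hnR
  set del := min 1 (ε / (5 * π * (‖β‖ + 1))) with hdel
  have hdel0 : 0 < del := lt_min one_pos (by positivity)
  have hdel1 : del ≤ 1 := min_le_left _ _
  set κ := ‖β‖ * del with hκ
  have hκ0 : 0 ≤ κ := by positivity
  have hκb : κ ≤ ε / (5 * π) := by
    have h1 : del ≤ ε / (5 * π * (‖β‖ + 1)) := min_le_right _ _
    calc κ ≤ ‖β‖ * (ε / (5 * π * (‖β‖ + 1))) := mul_le_mul_of_nonneg_left h1 (norm_nonneg _)
      _ = ε / (5 * π) * (‖β‖ / (‖β‖ + 1)) := by field_simp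
      _ ≤ ε / (5 * π) * 1 := by
        refine mul_le_mul_of_nonneg_left ?_ (by positivity)
        rw [div_le_one (by positivity)]
        linarith
      _ = _ := mul_one _
  refine ⟨2 * n * X / (‖α‖ * del), by positivity, ?_⟩
  intro R' hR' a ha hsupp g hg1 hgL
  have hR0 : 0 < R' := by linarith
  have hf : Continuous (𝓕⁻ a) := nice_continuous a ha
  have hg : Continuous g := by
    have : LipschitzWith ⟨R', hR0.le⟩ g := LipschitzWith.of_dist_le_mul fun x y => by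
      rw [dist_eq_norm, dist_eq_norm]; exact hgL x y
    exact this.continuous
  set A0 := ∫ ξ, ‖a ξ‖ ^ 2 with hA0
  have hA00 : 0 ≤ A0 := integral_nonneg fun ξ => by positivity
  set u := del / (R' * n) with hu
  have hu0 : 0 < u := by positivity
  have hun : u * n = del / R' := by rw [hu]; field_simp
  have hdR : del / R' ≤ 1 := by
    rw [div_le_one hR0]; linarith
  let s : ℕ → ℝ := fun j => u * j
  have hsj : ∀ j < n, s j ≤ del / R' := by
    intro j hj
    rw [← hun]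
    exact mul_le_mul_of_nonneg_left (by exact_mod_cast hj.le) hu0.le
  have hsj0 : ∀ j, 0 ≤ s j := fun j => by positivity
  have hκ' : ∀ j < n, ∀ (x : ℂ) (θ : ℝ),
      ‖g (x + β * cis (θ + s j)) - g (x + β * cis θ)‖ ≤ κ := by
    intro j hj x θ
    refine (hgL _ _).trans ?_
    rw [show x + β * cis (θ + s j) - (x + β * cis θ) = β * (cis (θ + s j) - cis θ) by ring,
      norm_mul]
    have h1 := norm_cis_sub_le (θ + s j) θ
    rw [show θ + s j - θ = s j by ring, abs_of_nonneg (hsj0 j)] at h1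
    have h2 := h1.trans (hsj j hj)
    calc R' * (‖β‖ * ‖cis (θ + s j) - cis θ‖) ≤ R' * (‖β‖ * (del / R')) := by
          refine mul_le_mul_of_nonneg_left ?_ hR0.le
          exact mul_le_mul_of_nonneg_left h2 (norm_nonneg _)
      _ = κ := by rw [hκ]; field_simp
  have hs : ∀ j < n, ∀ k < n, j ≠ k → ∀ ξ, a ξ ≠ 0 →
      X ≤ ‖ξ‖ * ‖α * (cis (s j) - cis (s k))‖ := by
    intro j hj k hk hjk ξ hξ
    have h1 : 2 * n * X / (‖α‖ * del) * R' ≤ ‖ξ‖ := by
      by_contra hlt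
      exact hξ (hsupp ξ (not_le.1 hlt))
    have h2 : u ≤ |s j - s k| := by
      show u ≤ |u * j - u * k|
      rw [← mul_sub, abs_mul, abs_of_pos hu0]
      have h3 : (1 : ℝ) ≤ |(j : ℝ) - k| := by
        have h4 : (j : ℤ) - k ≠ 0 := by omega
        have h5 := Int.one_le_abs h4
        exact_mod_cast h5
      nlinarith
    have h3 : |s j - s k| ≤ 1 := by
      rw [abs_le]
      constructor <;> linarith [hsj j hj, hsj k hk, hsj0 j, hsj0 k]
    have h4 := le_norm_cis_sub h3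
    have h5 : u / 2 ≤ ‖cis (s j) - cis (s k)‖ := by linarith
    rw [norm_mul]
    calc X = (2 * n * X / (‖α‖ * del) * R') * (‖α‖ * (u / 2)) := by
          rw [hu]; field_simp
      _ ≤ ‖ξ‖ * (‖α‖ * ‖cis (s j) - cis (s k)‖) := by
          refine mul_le_mul h1 ?_ (by positivity) (norm_nonneg _)
          exact mul_le_mul_of_nonneg_left h5 hα0.le
  -- the two pieces
  have hη0 : 0 ≤ η := by positivity
  have hM1 : ∫ θ in Ioc 0 (2 * π), (∫ z, ‖Fav (𝓕⁻ a) α n s θ z‖ ^ 2) ≤ (2 * π / n + η) * A0 :=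
    mainBound ha α hn0 s hη0 hX hs
  have hS1 : ∫⁻ z, ∫⁻ θ in Ioc 0 (2 * π), ENNReal.ofReal (‖Fav (𝓕⁻ a) α n s θ z‖ ^ 2) =
      ENNReal.ofReal (∫ θ in Ioc 0 (2 * π), ∫ z, ‖Fav (𝓕⁻ a) α n s θ z‖ ^ 2) :=
    swapSq (F := Fav (𝓕⁻ a) α n s) (Fav_cont hf α n s) (fun θ => (Fav_sq ha α n s θ).1)
      (r_cont ha α n s)
  have hS2 : ∫⁻ z, ∫⁻ θ in Ioc 0 (2 * π), ENNReal.ofReal (‖𝓕⁻ a (z + α * cis θ)‖ ^ 2) =
      ENNReal.ofReal (2 * π * A0) := second ha α
  have hFz : ∀ z, Continuous (fun θ : ℝ => Fav (𝓕⁻ a) α n s θ z) := fun z => Fav_cont' hf α n s z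
  have hcis := cis_continuous
  have hpt : ∀ z, ‖∫ θ in Ioc 0 (2 * π), 𝓕⁻ a (z + α * cis θ) * g (z + β * cis θ)‖ₑ ^ 2 ≤
      ENNReal.ofReal (4 * π) * (∫⁻ θ in Ioc 0 (2 * π), ENNReal.ofReal (‖Fav (𝓕⁻ a) α n s θ z‖ ^ 2)) +
      ENNReal.ofReal (4 * π * κ ^ 2) *
        ∫⁻ θ in Ioc 0 (2 * π), ENNReal.ofReal (‖𝓕⁻ a (z + α * cis θ)‖ ^ 2) := by
    intro z
    have hk : Continuous (fun θ : ℝ => 𝓕⁻ a (z + α * cis θ)) := by fun_prop
    exact ptwise (hFz z) hk (by positivity) (by positivity) (decomp hf hg hg1 α β hn0 s hκ' z)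
  have hmeas : Measurable (fun z => ∫⁻ θ in Ioc 0 (2 * π),
      ENNReal.ofReal (‖Fav (𝓕⁻ a) α n s θ z‖ ^ 2)) := measF (Fav_cont hf α n s)
  refine (lintegral_mono hpt).trans ?_
  rw [lintegral_add_left (hmeas.const_mul _), lintegral_const_mul' _ _ ENNReal.ofReal_ne_top,
    lintegral_const_mul' _ _ ENNReal.ofReal_ne_top, hS1, hS2,
    ← ENNReal.ofReal_mul (by positivity), ← ENNReal.ofReal_mul (by positivity),
    ← ENNReal.ofReal_add (mul_nonneg (by positivity)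
      (integral_nonneg fun θ => integral_nonneg fun z => by positivity)) (by positivity)]
  apply ENNReal.ofReal_le_ofReal
  have e1 : 4 * π * (2 * π / n + η) ≤ 2 * (ε ^ 2 / 3) := by
    have h1 : 4 * π * η = ε ^ 2 / 3 := by rw [hη]; field_simp; ring
    have h2 : 4 * π * (2 * π / n) ≤ ε ^ 2 / 3 := by
      rw [div_lt_iff₀ (by positivity)] at hn
      rw [mul_div_assoc', div_le_div_iff₀ hnR (by norm_num)]
      nlinarith
    linarith
  have e2 : 4 * π * κ ^ 2 * (2 * π) ≤ ε ^ 2 / 3 := by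
    have h1 : κ ^ 2 ≤ (ε / (5 * π)) ^ 2 := pow_le_pow_left₀ hκ0 hκb 2
    calc 4 * π * κ ^ 2 * (2 * π) = 8 * π ^ 2 * κ ^ 2 := by ring
      _ ≤ 8 * π ^ 2 * (ε / (5 * π)) ^ 2 := mul_le_mul_of_nonneg_left h1 (by positivity)
      _ = 8 / 25 * ε ^ 2 := by field_simp; ring
      _ ≤ _ := by nlinarith [sq_nonneg ε]
  calc 4 * π * (∫ θ in Ioc 0 (2 * π), ∫ z, ‖Fav (𝓕⁻ a) α n s θ z‖ ^ 2) +
        4 * π * κ ^ 2 * (2 * π * A0)
      ≤ 4 * π * ((2 * π / n + η) * A0) + 4 * π * κ ^ 2 * (2 * π * A0) := by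
        have := mul_le_mul_of_nonneg_left hM1 (by positivity : (0 : ℝ) ≤ 4 * π)
        linarith
    _ = (4 * π * (2 * π / n + η) + 4 * π * κ ^ 2 * (2 * π)) * A0 := by ring
    _ ≤ ε ^ 2 * A0 := mul_le_mul_of_nonneg_right (by linarith) hA00

end Pool.Agent.H24.Tri
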