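import Pool.Agent.H24.Tri.Defs

/-!
# Module RL: a lower bound for the number of small triangles, from the corners theorem
-/

set_option autoImplicit false

open MeasureTheory Set Complex Metric
open scoped Real ENNReal NNReal FourierTransform ComplexConjugate

namespace Pool.Agent.H24.Tri

/-- the set of `z` with `z, z + w, z + ρ w` in `E` -/
def rlS (ρ : ℂ) (E : Set ℂ) (w : ℂ) : Set ℂ := {z | z ∈ E ∧ z + w ∈ E ∧ z + ρ * w ∈ E}

theorem rl_meas_prod (ρ : ℂ) {E : Set ℂ} (hE : MeasurableSet E) :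
    MeasurableSet {p : ℂ × ℂ | p.2 ∈ rlS ρ E p.1} := by
  have h1 : MeasurableSet {p : ℂ × ℂ | p.2 ∈ E} := measurable_snd hE
  have h2 : MeasurableSet {p : ℂ × ℂ | p.2 + p.1 ∈ E} := by
    have : Measurable fun p : ℂ × ℂ => p.2 + p.1 := by fun_prop
    exact this hE
  have h3 : MeasurableSet {p : ℂ × ℂ | p.2 + ρ * p.1 ∈ E} := by
    have : Measurable fun p : ℂ × ℂ => p.2 + ρ * p.1 := by fun_prop
    exact this hE
  exact h1.inter (h2.inter h3)

theorem rl_measS (ρ : ℂ) {E : Set ℂ} (hE : MeasurableSet E) (w : ℂ) :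
    MeasurableSet (rlS ρ E w) := by
  have h : Measurable fun z : ℂ => (w, z) := by fun_prop
  exact h (rl_meas_prod ρ hE)

theorem rl_meas_m (ρ : ℂ) {E : Set ℂ} (hE : MeasurableSet E) :
    Measurable fun w : ℂ => volume (rlS ρ E w) :=
  measurable_measure_prodMk_left (rl_meas_prod ρ hE)

theorem rlS_subset (ρ : ℂ) (E : Set ℂ) (w : ℂ) : rlS ρ E w ⊆ E := fun _ h => h.1

open Classical in
/-- the combinatorial core -/
theorem rl_corner (ρ : ℂ) {η : ℝ} (hη : 0 < η) {n : ℕ} (hn : cornersTheoremBound (η / 9) ≤ n)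
    (E : Set ℂ) (z v : ℂ)
    (h : η * (n : ℝ) ^ 2 ≤ (((Finset.range n ×ˢ Finset.range n).filter fun p : ℕ × ℕ =>
      z + ((p.1 : ℂ) + ρ * p.2) * v ∈ E).card : ℝ)) :
    ∃ x₁ ∈ Finset.range n, ∃ y₁ ∈ Finset.range n, ∃ x₂ ∈ Finset.range n, x₁ ≠ x₂ ∧
      z + ((x₁ : ℂ) + ρ * y₁) * v ∈ rlS ρ E (((x₂ : ℂ) - x₁) * v) := by
  have h1 := corners_theorem_nat hη hn _ (Finset.filter_subset _ _) h
  unfold IsCornerFree at h1
  push Not at h1
  obtain ⟨x₁, y₁, x₂, y₂, hc, hne⟩ := h1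
  obtain ⟨h2, h3, h4, h5⟩ := hc
  simp only [Finset.coe_filter, Finset.mem_product, Set.mem_ofPred_eq] at h2 h3 h4
  refine ⟨x₁, h2.1.1, y₁, h2.1.2, x₂, h4.1.1, hne, h2.2, ?_, ?_⟩
  · have : z + ((x₁ : ℂ) + ρ * y₁) * v + ((x₂ : ℂ) - x₁) * v = z + ((x₂ : ℂ) + ρ * y₁) * v := by
      ring
    rw [this]
    exact h4.2
  · have h6 : (x₁ : ℂ) + y₂ = x₂ + y₁ := by exact_mod_cast h5
    have : z + ((x₁ : ℂ) + ρ * y₁) * v + ρ * (((x₂ : ℂ) - x₁) * v) =
        z + ((x₁ : ℂ) + ρ * y₂) * v := by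
      have h7 : (x₂ : ℂ) - x₁ = y₂ - y₁ := by linear_combination -h6
      rw [h7]
      ring
    rw [this]
    exact h3.2

/-- the index set of the corners -/
def rlI (n : ℕ) : Finset ((ℕ × ℕ) × ℕ) :=
  ((Finset.range n ×ˢ Finset.range n) ×ˢ Finset.range n).filter fun q => q.1.1 ≠ q.2

theorem rlI_card (n : ℕ) : (rlI n).card ≤ n ^ 3 := by
  refine (Finset.card_filter_le _ _).trans (le_of_eq ?_)
  simp only [Finset.card_product, Finset.card_range]
  ring

theorem rl_point (ρ : ℂ) {η : ℝ} (hη : 0 < η) {n : ℕ} (hn : cornersTheoremBound (η / 9) ≤ n)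
    {N : ℝ} {E : Set ℂ} (hEN : E ⊆ closedBall 0 N) {v : ℂ}
    (hv : ‖v‖ * (n * (1 + ‖ρ‖)) ≤ N) (z : ℂ) :
    ∑ p ∈ Finset.range n ×ˢ Finset.range n,
        E.indicator (fun _ => (1 : ℝ≥0∞)) (z + ((p.1 : ℂ) + ρ * p.2) * v) ≤
      (n : ℝ≥0∞) ^ 2 * ∑ q ∈ rlI n, (rlS ρ E (((q.2 : ℂ) - q.1.1) * v)).indicator
        (fun _ => (1 : ℝ≥0∞)) (z + ((q.1.1 : ℂ) + ρ * q.1.2) * v) +
      ENNReal.ofReal (η * (n : ℝ) ^ 2) * (closedBall (0 : ℂ) (2 * N)).indicator
        (fun _ => (1 : ℝ≥0∞)) z := by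
  classical
  set A := (Finset.range n ×ˢ Finset.range n).filter fun p : ℕ × ℕ =>
      z + ((p.1 : ℂ) + ρ * p.2) * v ∈ E with hA
  have h1 : ∑ p ∈ Finset.range n ×ˢ Finset.range n,
      E.indicator (fun _ => (1 : ℝ≥0∞)) (z + ((p.1 : ℂ) + ρ * p.2) * v) = (A.card : ℝ≥0∞) := by
    rw [hA, Finset.card_filter]
    push_cast
    exact Finset.sum_congr rfl fun p _ => by rw [Set.indicator_apply]
  rw [h1]
  rcases le_or_gt (η * (n : ℝ) ^ 2) (A.card : ℝ) with h | h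
  · obtain ⟨x₁, hx₁, y₁, hy₁, x₂, hx₂, hne, hm⟩ := rl_corner ρ hη hn E z v h
    have h2 : (1 : ℝ≥0∞) ≤ ∑ q ∈ rlI n, (rlS ρ E (((q.2 : ℂ) - q.1.1) * v)).indicator
        (fun _ => (1 : ℝ≥0∞)) (z + ((q.1.1 : ℂ) + ρ * q.1.2) * v) := by
      have hq : ((x₁, y₁), x₂) ∈ rlI n := by
        unfold rlI
        rw [Finset.mem_filter, Finset.mem_product, Finset.mem_product]
        exact ⟨⟨⟨hx₁, hy₁⟩, hx₂⟩, hne⟩
      refine le_trans ?_ (Finset.single_le_sum (fun _ _ => zero_le) hq)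
      rw [Set.indicator_of_mem hm]
    have h3 : (A.card : ℝ≥0∞) ≤ (n : ℝ≥0∞) ^ 2 := by
      have : A.card ≤ n ^ 2 := by
        refine (Finset.card_filter_le _ _).trans (le_of_eq ?_)
        simp only [Finset.card_product, Finset.card_range]
        ring
      exact_mod_cast this
    refine le_add_right (h3.trans ?_)
    calc (n : ℝ≥0∞) ^ 2 = (n : ℝ≥0∞) ^ 2 * 1 := (mul_one _).symm
      _ ≤ _ := by gcongr
  · refine le_add_left ?_
    by_cases hz : z ∈ closedBall (0 : ℂ) (2 * N)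
    · rw [Set.indicator_of_mem hz, mul_one]
      rw [← ENNReal.ofReal_natCast]
      exact ENNReal.ofReal_le_ofReal h.le
    · have hA0 : A = ∅ := by
        rw [hA, Finset.filter_eq_empty_iff]
        rintro ⟨a, b⟩ hab hmem
        rw [Finset.mem_product, Finset.mem_range, Finset.mem_range] at hab
        dsimp only at hab hmem
        have h2 := hEN hmem
        rw [mem_closedBall, dist_zero_right] at h2 hz
        apply hz
        have h3 : ‖z‖ ≤ ‖z + ((a : ℂ) + ρ * b) * v‖ + ‖((a : ℂ) + ρ * b) * v‖ := by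
          have := norm_sub_le (z + ((a : ℂ) + ρ * b) * v) (((a : ℂ) + ρ * b) * v)
          rwa [add_sub_cancel_right] at this
        have h4 : ‖((a : ℂ) + ρ * b) * v‖ ≤ N := by
          rw [norm_mul]
          have h5 : ‖(a : ℂ) + ρ * b‖ ≤ n * (1 + ‖ρ‖) := by
            refine (norm_add_le _ _).trans ?_
            rw [norm_mul, Complex.norm_natCast, Complex.norm_natCast]
            have ha : (a : ℝ) ≤ n := by exact_mod_cast hab.1.le
            have hb : (b : ℝ) ≤ n := by exact_mod_cast hab.2.le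
            nlinarith [norm_nonneg ρ]
          calc ‖(a : ℂ) + ρ * b‖ * ‖v‖ ≤ (n * (1 + ‖ρ‖)) * ‖v‖ := by gcongr
            _ = ‖v‖ * (n * (1 + ‖ρ‖)) := by ring
            _ ≤ N := hv
        linarith
      rw [hA0]
      simp

theorem rl_shift {S : Set ℂ} (hS : MeasurableSet S) (c : ℂ) :
    ∫⁻ z, S.indicator (fun _ => (1 : ℝ≥0∞)) (z + c) = volume S := by
  rw [lintegral_add_right_eq_self (fun z => S.indicator (fun _ => (1 : ℝ≥0∞)) z) c,
    lintegral_indicator hS, setLIntegral_one]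

theorem rl_int (ρ : ℂ) {η : ℝ} (hη : 0 < η) {n : ℕ} (hn : cornersTheoremBound (η / 9) ≤ n)
    {N : ℝ} {E : Set ℂ} (hE : MeasurableSet E) (hEN : E ⊆ closedBall 0 N) {v : ℂ}
    (hv : ‖v‖ * (n * (1 + ‖ρ‖)) ≤ N) :
    (n : ℝ≥0∞) ^ 2 * volume E ≤
      (n : ℝ≥0∞) ^ 2 * ∑ q ∈ rlI n, volume (rlS ρ E (((q.2 : ℂ) - q.1.1) * v)) +
      ENNReal.ofReal (η * (n : ℝ) ^ 2) * volume (closedBall (0 : ℂ) (2 * N)) := by
  have hind : ∀ {S : Set ℂ} (hS : MeasurableSet S) (c : ℂ),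
      Measurable fun z : ℂ => S.indicator (fun _ => (1 : ℝ≥0∞)) (z + c) := fun hS c =>
    (measurable_const.indicator hS).comp (measurable_id.add_const c)
  have h1 := lintegral_mono (μ := (volume : Measure ℂ))
    (fun z => rl_point ρ hη hn hEN hv z)
  have h2 : ∫⁻ z : ℂ, ∑ p ∈ Finset.range n ×ˢ Finset.range n,
      E.indicator (fun _ => (1 : ℝ≥0∞)) (z + ((p.1 : ℂ) + ρ * p.2) * v) =
      (n : ℝ≥0∞) ^ 2 * volume E := by
    rw [lintegral_finset_sum _ fun p _ => hind hE _]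
    rw [Finset.sum_congr rfl fun p _ => rl_shift hE _]
    rw [Finset.sum_const, Finset.card_product, Finset.card_range, nsmul_eq_mul]
    push_cast
    ring
  have h3 : ∫⁻ z : ℂ, ((n : ℝ≥0∞) ^ 2 * ∑ q ∈ rlI n,
        (rlS ρ E (((q.2 : ℂ) - q.1.1) * v)).indicator
        (fun _ => (1 : ℝ≥0∞)) (z + ((q.1.1 : ℂ) + ρ * q.1.2) * v) +
      ENNReal.ofReal (η * (n : ℝ) ^ 2) * (closedBall (0 : ℂ) (2 * N)).indicator
        (fun _ => (1 : ℝ≥0∞)) z) =
      (n : ℝ≥0∞) ^ 2 * ∑ q ∈ rlI n, volume (rlS ρ E (((q.2 : ℂ) - q.1.1) * v)) +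
      ENNReal.ofReal (η * (n : ℝ) ^ 2) * volume (closedBall (0 : ℂ) (2 * N)) := by
    rw [lintegral_add_right _ ((measurable_const.indicator measurableSet_closedBall).const_mul _)]
    rw [lintegral_const_mul _ (Finset.measurable_sum _ fun q _ => hind (rl_measS ρ hE _) _)]
    rw [lintegral_finset_sum _ fun q _ => hind (rl_measS ρ hE _) _]
    rw [Finset.sum_congr rfl fun q _ => rl_shift (rl_measS ρ hE _) _]
    rw [lintegral_const_mul _ (measurable_const.indicator measurableSet_closedBall)]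
    rw [lintegral_indicator measurableSet_closedBall, setLIntegral_one]
  rw [h2, h3] at h1
  exact h1

theorem rl_scale {g : ℂ → ℝ≥0∞} (hg : Measurable g) {r s n : ℝ} (hr : 1 ≤ |r|) (hrn : |r| ≤ n)
    (hs : 0 < s) (hn : 0 < n) :
    ∫⁻ v in closedBall (0 : ℂ) (s / n), g ((r : ℂ) * v) ≤ ∫⁻ w in closedBall (0 : ℂ) s, g w := by
  have hr0 : r ≠ 0 := by
    rintro rfl
    rw [abs_zero] at hr
    linarith
  have hmeas : Measurable ((closedBall (0 : ℂ) s).indicator g) :=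
    hg.indicator measurableSet_closedBall
  have h1 : ∫⁻ v in closedBall (0 : ℂ) (s / n), g ((r : ℂ) * v) ≤
      ∫⁻ v : ℂ, (closedBall (0 : ℂ) s).indicator g (r • v) := by
    rw [← lintegral_indicator measurableSet_closedBall]
    refine lintegral_mono fun v => ?_
    by_cases hv : v ∈ closedBall (0 : ℂ) (s / n)
    · have hv' : r • v ∈ closedBall (0 : ℂ) s := by
        rw [mem_closedBall, dist_zero_right] at hv ⊢
        rw [norm_smul, Real.norm_eq_abs]
        rw [le_div_iff₀ hn] at hv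
        nlinarith [norm_nonneg v, abs_nonneg r]
      rw [Set.indicator_of_mem hv, Set.indicator_of_mem hv']
      rw [Complex.real_smul]
    · rw [Set.indicator_of_notMem hv]
      exact zero_le
  refine h1.trans ?_
  have h2 : ∫⁻ v : ℂ, (closedBall (0 : ℂ) s).indicator g (r • v) =
      ∫⁻ w, (closedBall (0 : ℂ) s).indicator g w
        ∂(Measure.map (fun v : ℂ => r • v) (volume : Measure ℂ)) :=
    (lintegral_map hmeas (measurable_const_smul r)).symm
  rw [h2, Measure.map_addHaar_smul _ hr0, lintegral_smul_measure,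
    lintegral_indicator measurableSet_closedBall]
  have h3 : ENNReal.ofReal |(r ^ Module.finrank ℝ ℂ)⁻¹| ≤ 1 := by
    rw [ENNReal.ofReal_le_one, abs_inv, abs_pow]
    exact inv_le_one_of_one_le₀ (one_le_pow₀ hr)
  calc ENNReal.ofReal |(r ^ Module.finrank ℝ ℂ)⁻¹| • ∫⁻ w in closedBall (0 : ℂ) s, g w
      ≤ 1 * ∫⁻ w in closedBall (0 : ℂ) s, g w := by
        rw [smul_eq_mul]
        gcongr
    _ = _ := one_mul _

theorem rl_volE (ρ : ℂ) (E : Set ℂ) (hE : MeasurableSet E) (w : ℂ) :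
    (∫ z, E.indicator (fun _ => (1 : ℝ)) z * E.indicator (fun _ => (1 : ℝ)) (z + w) *
          E.indicator (fun _ => (1 : ℝ)) (z + ρ * w)) = (volume (rlS ρ E w)).toReal := by
  classical
  have h1 : (fun z => E.indicator (fun _ => (1 : ℝ)) z * E.indicator (fun _ => (1 : ℝ)) (z + w) *
      E.indicator (fun _ => (1 : ℝ)) (z + ρ * w)) =
      (rlS ρ E w).indicator (fun _ => (1 : ℝ)) := by
    funext z
    simp only [Set.indicator_apply, rlS, Set.mem_ofPred_eq]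
    by_cases h1 : z ∈ E <;> by_cases h2 : z + w ∈ E <;> by_cases h3 : z + ρ * w ∈ E <;>
      simp [h1, h2, h3]
  rw [h1, integral_indicator (rl_measS ρ hE w), setIntegral_const, smul_eq_mul, mul_one]
  rfl

theorem rl (ρ : ℂ) (hρ : ρ.im ≠ 0) : ∀ c : ℝ, 0 < c → ∃ c₂ κ : ℝ, 0 < c₂ ∧ 0 < κ ∧
    ∀ N s : ℝ, 0 < N → 0 < s → s ≤ κ * N → ∀ E : Set ℂ, MeasurableSet E →
      E ⊆ closedBall 0 N → ENNReal.ofReal (c * N ^ 2) ≤ volume E →
      c₂ * s ^ 2 * N ^ 2 ≤ ∫ w in closedBall (0 : ℂ) s, ∫ z,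
        E.indicator (fun _ => (1 : ℝ)) z * E.indicator (fun _ => (1 : ℝ)) (z + w) *
          E.indicator (fun _ => (1 : ℝ)) (z + ρ * w) := by
  intro c hc
  set η : ℝ := c / (8 * π) with hη
  have hη0 : 0 < η := by positivity
  set n : ℕ := max 1 (cornersTheoremBound (η / 9)) with hn
  have hn1 : 1 ≤ n := le_max_left _ _
  have hnb : cornersTheoremBound (η / 9) ≤ n := le_max_right _ _
  have hn0 : (0 : ℝ) < n := by exact_mod_cast hn1
  refine ⟨c * π / (2 * n ^ 5), (1 + ‖ρ‖)⁻¹, by positivity, by positivity, ?_⟩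
  intro N s hN hs hsN E hE hEN hcE
  set J : ℝ≥0∞ := ∫⁻ w in closedBall (0 : ℂ) s, volume (rlS ρ E w) with hJ
  have hvolE : volume E < ⊤ := (measure_mono hEN).trans_lt measure_closedBall_lt_top
  have hJtop : J < ⊤ := by
    have h1 : J ≤ ∫⁻ _w in closedBall (0 : ℂ) s, volume E :=
      lintegral_mono fun w => measure_mono (rlS_subset ρ E w)
    rw [setLIntegral_const] at h1
    exact h1.trans_lt (ENNReal.mul_lt_top hvolE measure_closedBall_lt_top)
  have hconv : (∫ w in closedBall (0 : ℂ) s, ∫ z,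
        E.indicator (fun _ => (1 : ℝ)) z * E.indicator (fun _ => (1 : ℝ)) (z + w) *
          E.indicator (fun _ => (1 : ℝ)) (z + ρ * w)) = J.toReal := by
    simp only [rl_volE ρ E hE]
    rw [integral_toReal (rl_meas_m ρ hE).aemeasurable]
    exact Filter.Eventually.of_forall fun w =>
      (measure_mono (rlS_subset ρ E w)).trans_lt hvolE
  rw [hconv]
  rw [← ENNReal.ofReal_le_iff_le_toReal hJtop.ne]
  -- the bound for each `v`
  have hpt : ∀ v ∈ closedBall (0 : ℂ) (s / n), ENNReal.ofReal (c * N ^ 2 / 2) ≤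
      ∑ q ∈ rlI n, volume (rlS ρ E (((q.2 : ℂ) - q.1.1) * v)) := by
    intro v hv
    rw [mem_closedBall, dist_zero_right, le_div_iff₀ hn0] at hv
    have hv' : ‖v‖ * (n * (1 + ‖ρ‖)) ≤ N := by
      have h1 : ‖v‖ * (n * (1 + ‖ρ‖)) = (‖v‖ * n) * (1 + ‖ρ‖) := by ring
      rw [h1]
      have h2 : s * (1 + ‖ρ‖) ≤ N := by
        have h3 : (0 : ℝ) < 1 + ‖ρ‖ := by positivity
        calc s * (1 + ‖ρ‖) ≤ ((1 + ‖ρ‖)⁻¹ * N) * (1 + ‖ρ‖) := by gcongr
          _ = N := by field_simp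
      refine le_trans ?_ h2
      gcongr
    have h1 := rl_int ρ hη0 hnb hE hEN hv'
    set S : ℝ≥0∞ := ∑ q ∈ rlI n, volume (rlS ρ E (((q.2 : ℂ) - q.1.1) * v)) with hS
    have h2 : ENNReal.ofReal (η * (n : ℝ) ^ 2) * volume (closedBall (0 : ℂ) (2 * N)) =
        ENNReal.ofReal ((n : ℝ) ^ 2 * (c * N ^ 2 / 2)) := by
      have hpi : ((NNReal.pi : ℝ≥0) : ℝ≥0∞) = ENNReal.ofReal π := by
        rw [← NNReal.coe_real_pi, ENNReal.ofReal_coe_nnreal]
      rw [Complex.volume_closedBall, hpi, ← ENNReal.ofReal_pow (by positivity),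
        ← ENNReal.ofReal_mul (by positivity), ← ENNReal.ofReal_mul (by positivity)]
      congr 1
      rw [hη]
      field_simp
      ring
    have h3 : (n : ℝ≥0∞) ^ 2 = ENNReal.ofReal ((n : ℝ) ^ 2) := by
      rw [ENNReal.ofReal_pow hn0.le, ENNReal.ofReal_natCast]
    have h4 : (n : ℝ≥0∞) ^ 2 * ENNReal.ofReal (c * N ^ 2) ≤ (n : ℝ≥0∞) ^ 2 * volume E := by
      gcongr
    have h5 : (n : ℝ≥0∞) ^ 2 * ENNReal.ofReal (c * N ^ 2) =
        (n : ℝ≥0∞) ^ 2 * ENNReal.ofReal (c * N ^ 2 / 2) +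
          ENNReal.ofReal ((n : ℝ) ^ 2 * (c * N ^ 2 / 2)) := by
      rw [h3, ← ENNReal.ofReal_mul (by positivity), ← ENNReal.ofReal_mul (by positivity),
        ← ENNReal.ofReal_add (by positivity) (by positivity)]
      congr 1
      ring
    rw [h2] at h1
    have h6 := h4.trans h1
    rw [h5] at h6
    have h7 : (n : ℝ≥0∞) ^ 2 * ENNReal.ofReal (c * N ^ 2 / 2) ≤ (n : ℝ≥0∞) ^ 2 * S :=
      ENNReal.le_of_add_le_add_right ENNReal.ofReal_ne_top h6
    have h8 : (n : ℝ≥0∞) ^ 2 ≠ 0 := by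
      apply pow_ne_zero
      exact_mod_cast (by omega : n ≠ 0)
    have h9 : (n : ℝ≥0∞) ^ 2 ≠ ⊤ := ENNReal.pow_ne_top (ENNReal.natCast_ne_top n)
    exact (ENNReal.mul_le_mul_iff_right h8 h9).1 h7
  -- integrate over `v`
  have hI : ENNReal.ofReal (c * N ^ 2 / 2) * volume (closedBall (0 : ℂ) (s / n)) ≤
      (n : ℝ≥0∞) ^ 3 * J := by
    have h1 : ENNReal.ofReal (c * N ^ 2 / 2) * volume (closedBall (0 : ℂ) (s / n)) =
        ∫⁻ _v in closedBall (0 : ℂ) (s / n), ENNReal.ofReal (c * N ^ 2 / 2) := by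
      rw [setLIntegral_const]
    rw [h1]
    have h2 : ∫⁻ _v in closedBall (0 : ℂ) (s / n), ENNReal.ofReal (c * N ^ 2 / 2) ≤
        ∫⁻ v in closedBall (0 : ℂ) (s / n),
          ∑ q ∈ rlI n, volume (rlS ρ E (((q.2 : ℂ) - q.1.1) * v)) :=
      setLIntegral_mono' measurableSet_closedBall hpt
    refine h2.trans ?_
    rw [lintegral_finset_sum]
    · have h3 : ∀ q ∈ rlI n, ∫⁻ v in closedBall (0 : ℂ) (s / n),
          volume (rlS ρ E (((q.2 : ℂ) - q.1.1) * v)) ≤ J := by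
        rintro ⟨⟨a, b⟩, d⟩ hq
        unfold rlI at hq
        rw [Finset.mem_filter, Finset.mem_product, Finset.mem_product, Finset.mem_range,
          Finset.mem_range, Finset.mem_range] at hq
        obtain ⟨⟨⟨ha, -⟩, hd⟩, hne⟩ := hq
        dsimp only at ha hd hne ⊢
        have h4 : ((d : ℂ) - a) = (((d : ℝ) - a : ℝ) : ℂ) := by push_cast; ring
        rw [h4]
        have ha' : (a : ℝ) < n := by exact_mod_cast ha
        have hd' : (d : ℝ) < n := by exact_mod_cast hd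
        have ha0 : (0 : ℝ) ≤ a := Nat.cast_nonneg _
        have hd0 : (0 : ℝ) ≤ d := Nat.cast_nonneg _
        refine rl_scale (g := fun w => volume (rlS ρ E w)) (rl_meas_m ρ hE) ?_ ?_ hs hn0
        · have h5 : (1 : ℤ) ≤ |(d : ℤ) - a| := by
            apply Int.one_le_abs
            intro h6
            apply hne
            omega
          exact_mod_cast h5
        · rw [abs_le]
          constructor <;> linarith
      refine (Finset.sum_le_sum h3).trans ?_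
      rw [Finset.sum_const, nsmul_eq_mul]
      have h5 : ((rlI n).card : ℝ≥0∞) ≤ (n : ℝ≥0∞) ^ 3 := by exact_mod_cast rlI_card n
      gcongr
    · intro q _
      exact (rl_meas_m ρ hE).comp (measurable_id.const_mul _)
  -- conclusion
  have hpi : ((NNReal.pi : ℝ≥0) : ℝ≥0∞) = ENNReal.ofReal π := by
    rw [← NNReal.coe_real_pi, ENNReal.ofReal_coe_nnreal]
  rw [Complex.volume_closedBall, hpi, ← ENNReal.ofReal_pow (by positivity),
    ← ENNReal.ofReal_mul (by positivity), ← ENNReal.ofReal_mul (by positivity)] at hI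
  have h8 : (n : ℝ≥0∞) ^ 3 ≠ 0 := by
    apply pow_ne_zero
    exact_mod_cast (by omega : n ≠ 0)
  have h9 : (n : ℝ≥0∞) ^ 3 ≠ ⊤ := ENNReal.pow_ne_top (ENNReal.natCast_ne_top n)
  refine (ENNReal.mul_le_mul_iff_right h8 h9).1 ?_
  refine le_trans (le_of_eq ?_) hI
  have h3 : (n : ℝ≥0∞) ^ 3 = ENNReal.ofReal ((n : ℝ) ^ 3) := by
    rw [ENNReal.ofReal_pow hn0.le, ENNReal.ofReal_natCast]
  rw [h3, ← ENNReal.ofReal_mul (by positivity)]
  congr 1
  field_simp

end Pool.Agent.H24.Tri
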