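import Pool.Agent.H24.Tri.Defs

set_option autoImplicit false

open MeasureTheory Set Complex Metric Filter Topology
open scoped Real ENNReal NNReal ComplexConjugate

namespace Pool.Agent.H24.Tri

namespace RigL0

theorem vol_ball (z : ℂ) {s : ℝ} (hs : 0 ≤ s) :
    volume (closedBall z s) = ENNReal.ofReal (π * s ^ 2) := by
  rw [Complex.volume_closedBall, mul_comm π, ENNReal.ofReal_mul (by positivity),
    ENNReal.ofReal_pow hs]
  congr 1
  rw [ENNReal.ofReal, ← NNReal.coe_real_pi, Real.toNNReal_coe]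

/-- a point outside of two small sets -/
theorem exists_common {α : Type*} [MeasurableSpace α] (μ : Measure α) (T S₁ S₂ : Set α)
    (h : μ S₁ + μ S₂ < μ T) : ∃ x ∈ T, x ∉ S₁ ∧ x ∉ S₂ := by
  by_contra hcon
  push Not at hcon
  have h1 : T ⊆ S₁ ∪ S₂ := by
    intro x hx
    by_cases h2 : x ∈ S₁
    · exact Or.inl h2
    · exact Or.inr (hcon x hx h2)
  exact absurd (h.trans_le ((measure_mono h1).trans (measure_union_le _ _))) (lt_irrefl _)

variable {E : Type} [NormedAddCommGroup E] [NormedSpace ℝ E] [FiniteDimensional ℝ E]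
    [MeasurableSpace E] [BorelSpace E]

/-- `c` is a good value for `f` on the ball of radius `s`. -/
def Good (f : ℂ → E) (C : ℝ) (z : ℂ) (s : ℝ) (c : E) : Prop :=
  volume {x | x ∈ closedBall z s ∧ C * s < ‖f x - c‖} ≤ ENNReal.ofReal (π * s ^ 2 / 64)

theorem exists_good (f : ℂ → E) (hf : Measurable f) (C s : ℝ) (hs : 0 < s) (z : ℂ)
    (h : volume {p : ℂ × ℂ | p.1 ∈ closedBall z s ∧ p.2 ∈ closedBall z s ∧
        C * s < ‖f p.1 - f p.2‖} ≤ volume (closedBall z s ×ˢ closedBall z s) / 64) :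
    ∃ c, Good f C z s c := by
  obtain ⟨P, hP⟩ : ∃ P : Set (ℂ × ℂ), P = {p : ℂ × ℂ | p.1 ∈ closedBall z s ∧
    p.2 ∈ closedBall z s ∧ C * s < ‖f p.1 - f p.2‖} := ⟨_, rfl⟩
  have hPm : MeasurableSet P := by
    rw [hP]
    refine MeasurableSet.inter ?_ (MeasurableSet.inter ?_ ?_)
    · exact measurableSet_closedBall.preimage measurable_fst
    · exact measurableSet_closedBall.preimage measurable_snd
    · exact measurableSet_lt measurable_const
        ((hf.comp measurable_fst).sub (hf.comp measurable_snd)).norm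
  rw [← hP] at h
  have hB0 : volume (closedBall z s) ≠ 0 := (measure_closedBall_pos _ _ hs).ne'
  have hBt : volume (closedBall z s) ≠ ∞ := measure_closedBall_lt_top.ne
  have h1 : ∫⁻ x in closedBall z s, volume (Prod.mk x ⁻¹' P) ≤
      volume (closedBall z s) * (volume (closedBall z s) / 64) := by
    calc ∫⁻ x in closedBall z s, volume (Prod.mk x ⁻¹' P)
        ≤ ∫⁻ x, volume (Prod.mk x ⁻¹' P) := setLIntegral_le_lintegral _ _
      _ = volume P := by rw [Measure.volume_eq_prod, Measure.prod_apply hPm]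
      _ ≤ volume (closedBall z s ×ˢ closedBall z s) / 64 := h
      _ = _ := by
        rw [Measure.volume_eq_prod, Measure.prod_prod, mul_div_assoc]
  obtain ⟨x, hx, hx2⟩ := exists_le_setLAverage (μ := volume) hB0 hBt
    (measurable_measure_prodMk_left (ν := (volume : Measure ℂ)) hPm).aemeasurable
  refine ⟨f x, ?_⟩
  unfold Good
  have h2 : {y | y ∈ closedBall z s ∧ C * s < ‖f y - f x‖} ⊆ Prod.mk x ⁻¹' P := by
    rintro y ⟨hy1, hy2⟩
    rw [hP]
    refine ⟨hx, hy1, ?_⟩
    rw [norm_sub_rev]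
    exact hy2
  refine (measure_mono h2).trans (hx2.trans ?_)
  rw [setLAverage_eq]
  have h3 : volume (closedBall z s) / 64 = ENNReal.ofReal (π * s ^ 2 / 64) := by
    rw [vol_ball z hs.le, ENNReal.ofReal_div_of_pos (by norm_num)]
    norm_num
  rw [← h3]
  refine ENNReal.div_le_of_le_mul ?_
  rw [mul_comm]
  exact h1

theorem good_half (f : ℂ → E) (C s : ℝ) (hs : 0 < s) (z : ℂ) (c c' : E)
    (h : Good f C z s c) (h' : Good f C z (s / 2) c') : ‖c - c'‖ ≤ C * s + C * (s / 2) := by
  have hpi := Real.pi_pos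
  obtain ⟨x, hx, hx1, hx2⟩ := exists_common volume (closedBall z (s / 2))
    {x | x ∈ closedBall z s ∧ C * s < ‖f x - c‖}
    {x | x ∈ closedBall z (s / 2) ∧ C * (s / 2) < ‖f x - c'‖} (by
      refine lt_of_le_of_lt (add_le_add h h') ?_
      rw [vol_ball z (by positivity), ← ENNReal.ofReal_add (by positivity) (by positivity)]
      rw [ENNReal.ofReal_lt_ofReal_iff (by positivity)]
      have : 0 < π * s ^ 2 := by positivity
      nlinarith)
  have h1 : ‖f x - c‖ ≤ C * s := by
    by_contra hcon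
    exact hx1 ⟨closedBall_subset_closedBall (by linarith) hx, not_le.1 hcon⟩
  have h2 : ‖f x - c'‖ ≤ C * (s / 2) := by
    by_contra hcon
    exact hx2 ⟨hx, not_le.1 hcon⟩
  have h3 : c - c' = (f x - c') - (f x - c) := by abel
  rw [h3]
  refine (norm_sub_le _ _).trans ?_
  linarith

theorem good_two (f : ℂ → E) (C s : ℝ) (hs : 0 < s) (z z' : ℂ) (hz : dist z z' ≤ s / 2)
    (c c' : E) (h : Good f C z s c) (h' : Good f C z' s c') : ‖c - c'‖ ≤ 2 * (C * s) := by
  have hpi := Real.pi_pos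
  obtain ⟨x, hx, hx1, hx2⟩ := exists_common volume (closedBall z (s / 2))
    {x | x ∈ closedBall z s ∧ C * s < ‖f x - c‖}
    {x | x ∈ closedBall z' s ∧ C * s < ‖f x - c'‖} (by
      refine lt_of_le_of_lt (add_le_add h h') ?_
      rw [vol_ball z (by positivity), ← ENNReal.ofReal_add (by positivity) (by positivity)]
      rw [ENNReal.ofReal_lt_ofReal_iff (by positivity)]
      have : 0 < π * s ^ 2 := by positivity
      nlinarith)
  have h1 : ‖f x - c‖ ≤ C * s := by
    by_contra hcon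
    exact hx1 ⟨closedBall_subset_closedBall (by linarith) hx, not_le.1 hcon⟩
  have h2 : ‖f x - c'‖ ≤ C * s := by
    by_contra hcon
    refine hx2 ⟨?_, not_le.1 hcon⟩
    rw [mem_closedBall] at hx ⊢
    calc dist x z' ≤ dist x z + dist z z' := dist_triangle _ _ _
      _ ≤ s := by linarith
  have h3 : c - c' = (f x - c') - (f x - c) := by abel
  rw [h3]
  refine (norm_sub_le _ _).trans ?_
  linarith

/-- at a Lebesgue point the good values at small scales are close to the value -/
theorem good_lebesgue (f : ℂ → E) (hf : Measurable f) (M : ℝ) (hM : ∀ x, ‖f x‖ ≤ M) (C : ℝ)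
    (z : ℂ) (hz : ∀ δ : ℕ → ℝ, Tendsto δ atTop (𝓝[>] 0) →
      Tendsto (fun j => ⨍ y in closedBall z (δ j), ‖f y - f z‖) atTop (𝓝 0))
    (s : ℝ) (hs : 0 < s) (ε : ℝ) (hε : 0 < ε) :
    ∀ᶠ n : ℕ in atTop, ∀ c, Good f C z (s / 2 ^ n) c → ‖c - f z‖ ≤ C * (s / 2 ^ n) + ε := by
  have hpi := Real.pi_pos
  have hδ : Tendsto (fun n : ℕ => s / 2 ^ n) atTop (𝓝[>] 0) := by
    rw [tendsto_nhdsWithin_iff]
    refine ⟨?_, Eventually.of_forall fun n => ?_⟩
    · have h1 := (tendsto_pow_atTop_nhds_zero_of_lt_one (r := (1 / 2 : ℝ)) (by norm_num)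
        (by norm_num)).const_mul s
      rw [mul_zero] at h1
      refine h1.congr fun n => ?_
      rw [one_div, inv_pow]
      rfl
    · change 0 < s / 2 ^ n
      positivity
  have h1 := hz _ hδ
  have h2 : ∀ᶠ n : ℕ in atTop, ⨍ y in closedBall z (s / 2 ^ n), ‖f y - f z‖ < ε / 64 :=
    h1.eventually_lt_const (by positivity)
  filter_upwards [h2] with n hn c hc
  have hsn : 0 < s / 2 ^ n := by positivity
  obtain ⟨r, hr⟩ : ∃ r, r = s / 2 ^ n := ⟨_, rfl⟩
  rw [← hr] at hn hc hsn ⊢
  have hint : IntegrableOn (fun y => ‖f y - f z‖) (closedBall z r) := by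
    refine Measure.integrableOn_of_bounded (M := 2 * M) measure_closedBall_lt_top.ne
      (hf.sub_const _).norm.aestronglyMeasurable (Eventually.of_forall fun y => ?_)
    rw [norm_norm]
    refine (norm_sub_le _ _).trans ?_
    have := hM y
    have := hM z
    linarith
  have hcheb := mul_meas_ge_le_integral_of_nonneg (μ := volume.restrict (closedBall z r))
    (Eventually.of_forall fun y => norm_nonneg (f y - f z)) hint ε
  have hBr : volume.real (closedBall z r) = π * r ^ 2 := by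
    rw [Measure.real, vol_ball z hsn.le, ENNReal.toReal_ofReal (by positivity)]
  rw [setAverage_eq, hBr, smul_eq_mul, inv_mul_lt_iff₀ (by positivity)] at hn
  have hms : MeasurableSet {y | ε ≤ ‖f y - f z‖} :=
    measurableSet_le measurable_const (hf.sub_const _).norm
  rw [measureReal_restrict_apply hms] at hcheb
  have h3 : volume.real ({y | ε ≤ ‖f y - f z‖} ∩ closedBall z r) ≤ π * r ^ 2 / 64 := by
    have h4 : ε * volume.real ({y | ε ≤ ‖f y - f z‖} ∩ closedBall z r) <
        ε * (π * r ^ 2 / 64) := by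
      refine hcheb.trans_lt (hn.trans_le (le_of_eq ?_))
      ring
    exact (lt_of_mul_lt_mul_left h4 hε.le).le
  have h5 : volume ({y | ε ≤ ‖f y - f z‖} ∩ closedBall z r) ≤
      ENNReal.ofReal (π * r ^ 2 / 64) := by
    rw [ENNReal.le_ofReal_iff_toReal_le]
    · exact h3
    · exact ((measure_mono inter_subset_right).trans_lt measure_closedBall_lt_top).ne
    · positivity
  obtain ⟨x, hx, hx1, hx2⟩ := exists_common volume (closedBall z r)
    {x | x ∈ closedBall z r ∧ C * r < ‖f x - c‖}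
    ({y | ε ≤ ‖f y - f z‖} ∩ closedBall z r) (by
      refine lt_of_le_of_lt (add_le_add hc h5) ?_
      rw [vol_ball z (by positivity), ← ENNReal.ofReal_add (by positivity) (by positivity)]
      rw [ENNReal.ofReal_lt_ofReal_iff (by positivity)]
      have : 0 < π * r ^ 2 := by positivity
      linarith)
  have h6 : ‖f x - c‖ ≤ C * r := by
    by_contra hcon
    exact hx1 ⟨hx, not_le.1 hcon⟩
  have h7 : ‖f x - f z‖ ≤ ε := by
    by_contra hcon
    exact hx2 ⟨(not_le.1 hcon).le, hx⟩
  have h8 : c - f z = (f x - f z) - (f x - c) := by abel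
  rw [h8]
  refine (norm_sub_le _ _).trans ?_
  linarith

/-- good values are close to the value at Lebesgue points -/
theorem good_value (f : ℂ → E) (hf : Measurable f) (M : ℝ) (hM : ∀ x, ‖f x‖ ≤ M) (C : ℝ)
    (hC : 0 ≤ C) (z : ℂ) (hz : ∀ δ : ℕ → ℝ, Tendsto δ atTop (𝓝[>] 0) →
      Tendsto (fun j => ⨍ y in closedBall z (δ j), ‖f y - f z‖) atTop (𝓝 0))
    (s : ℝ) (hs : 0 < s) (hex : ∀ r, 0 < r → r ≤ s → ∃ c, Good f C z r c)
    (c : E) (hc : Good f C z s c) : ‖c - f z‖ ≤ 3 * (C * s) := by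
  have hseq : ∀ n : ℕ, ∃ c', Good f C z (s / 2 ^ n) c' ∧
      ‖c - c'‖ ≤ 3 * (C * s) - 3 * (C * (s / 2 ^ n)) := by
    intro n
    induction n with
    | zero =>
      refine ⟨c, ?_, ?_⟩
      · simpa using hc
      · simp
    | succ n ih =>
      obtain ⟨c', hc', hcc'⟩ := ih
      have hsn : 0 < s / 2 ^ n := by positivity
      obtain ⟨c'', hc''⟩ := hex (s / 2 ^ (n + 1)) (by positivity) (by
        rw [div_le_iff₀ (by positivity)]
        have : (1 : ℝ) ≤ 2 ^ (n + 1) := one_le_pow₀ (by norm_num)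
        nlinarith)
      refine ⟨c'', hc'', ?_⟩
      have h1 : s / 2 ^ (n + 1) = s / 2 ^ n / 2 := by
        rw [pow_succ, div_div]
      have h2 := good_half f C (s / 2 ^ n) hsn z c' c'' hc' (by rw [← h1]; exact hc'')
      have h3 : c - c'' = (c - c') + (c' - c'') := by abel
      rw [h3, h1]
      refine (norm_add_le _ _).trans ?_
      linarith
  refine le_of_forall_pos_le_add fun ε hε => ?_
  have h1 := good_lebesgue f hf M hM C z hz s hs ε hε
  obtain ⟨n, hn⟩ := h1.exists
  obtain ⟨c', hc', hcc'⟩ := hseq n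
  have h2 := hn c' hc'
  have h3 : c - f z = (c - c') + (c' - f z) := by abel
  rw [h3]
  refine (norm_add_le _ _).trans ?_
  have h4 : 0 ≤ C * (s / 2 ^ n) := by positivity
  linarith

end RigL0

/-- L0: small oscillation on most pairs at every small scale around every point of `Z`
gives a Lipschitz bound on a co-null part of `Z`. -/
theorem rigL0 {E : Type} [NormedAddCommGroup E] [NormedSpace ℝ E] [FiniteDimensional ℝ E]
    [MeasurableSpace E] [BorelSpace E] (f : ℂ → E) (hf : Measurable f) (M : ℝ)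
    (hM : ∀ x, ‖f x‖ ≤ M) (Z : Set ℂ) (hZ : MeasurableSet Z) (s₀ C : ℝ) (hs₀ : 0 < s₀)
    (hC : 0 ≤ C)
    (h : ∀ z ∈ Z, ∀ s : ℝ, 0 < s → s ≤ s₀ →
      volume {p : ℂ × ℂ | p.1 ∈ closedBall z s ∧ p.2 ∈ closedBall z s ∧
        C * s < ‖f p.1 - f p.2‖} ≤ volume (closedBall z s ×ˢ closedBall z s) / 64) :
    ∃ Z' : Set ℂ, Z' ⊆ Z ∧ MeasurableSet Z' ∧ volume (Z \ Z') = 0 ∧
      ∀ z ∈ Z', ∀ z' ∈ Z', dist z z' ≤ s₀ / 8 → ‖f z - f z'‖ ≤ 64 * C * dist z z' := by
  have hint : LocallyIntegrable f volume := by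
    intro x
    refine ⟨closedBall x 1, closedBall_mem_nhds x one_pos, ?_⟩
    exact Measure.integrableOn_of_bounded (M := M) measure_closedBall_lt_top.ne
      hf.aestronglyMeasurable (Eventually.of_forall hM)
  have hleb := IsUnifLocDoublingMeasure.ae_tendsto_average_norm_sub (μ := (volume : Measure ℂ))
    hint 1
  obtain ⟨N, hN, hNm, hN0⟩ := exists_measurable_superset_of_null (ae_iff.1 hleb)
  have hpt : ∀ z, z ∉ N → ∀ δ : ℕ → ℝ, Tendsto δ atTop (𝓝[>] 0) →
      Tendsto (fun j => ⨍ y in closedBall z (δ j), ‖f y - f z‖) atTop (𝓝 0) := by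
    intro z hz δ hδ
    by_contra hcon
    apply hz
    apply hN
    intro hall
    apply hcon
    refine hall (fun _ => z) δ hδ ?_
    have h1 : ∀ᶠ j in atTop, δ j ∈ Ioi (0 : ℝ) := hδ.eventually self_mem_nhdsWithin
    filter_upwards [h1] with j hj
    rw [mem_closedBall, dist_self, one_mul]
    exact le_of_lt hj
  refine ⟨Z \ N, sdiff_subset, hZ.diff hNm, ?_, ?_⟩
  · refine measure_mono_null ?_ hN0
    rintro x ⟨hx, hx'⟩
    by_contra hcon
    exact hx' ⟨hx, hcon⟩
  · rintro z ⟨hz, hzN⟩ z' ⟨hz', hzN'⟩ hd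
    rcases (dist_nonneg (x := z) (y := z')).eq_or_lt with h0 | h0
    · have : z = z' := dist_eq_zero.1 h0.symm
      subst this
      simp
    · obtain ⟨s, hs⟩ : ∃ s, s = 2 * dist z z' := ⟨_, rfl⟩
      have hs0 : 0 < s := by rw [hs]; positivity
      have hss : s ≤ s₀ := by rw [hs]; linarith
      have hex : ∀ w ∈ Z, ∀ r, 0 < r → r ≤ s → ∃ c, RigL0.Good f C w r c :=
        fun w hw r hr hrs => RigL0.exists_good f hf C r hr w (h w hw r hr (hrs.trans hss))
      obtain ⟨c, hc⟩ := hex z hz s hs0 le_rfl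
      obtain ⟨c', hc'⟩ := hex z' hz' s hs0 le_rfl
      have h1 := RigL0.good_value f hf M hM C hC z (hpt z hzN) s hs0 (hex z hz) c hc
      have h2 := RigL0.good_value f hf M hM C hC z' (hpt z' hzN') s hs0 (hex z' hz') c' hc'
      have h3 := RigL0.good_two f C s hs0 z z' (by rw [hs]; linarith) c c' hc hc'
      have h4 : f z - f z' = (c - c') - (c - f z) + (c' - f z') := by abel
      rw [h4]
      refine (norm_add_le _ _).trans ?_
      have h5 := norm_sub_le (c - c') (c - f z)
      have h6 : 0 ≤ C * dist z z' := by positivity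
      rw [hs] at h1 h2 h3
      nlinarith

end Pool.Agent.H24.Tri
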