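import Pool.Agent.H24.Tri.RigL0

set_option autoImplicit false

open MeasureTheory Set Complex Metric Filter Topology
open scoped Real ENNReal NNReal ComplexConjugate

namespace Pool.Agent.H24.Tri

namespace RigL1

/-- coordinates in the basis `E₁, E₂` -/
theorem exists_coord (E₁ E₂ : ℂ) (hE : (conj E₁ * E₂).im ≠ 0) (v : ℂ) :
    ∃ a b : ℝ, v = a * E₁ + b * E₂ ∧ |a| * |(conj E₁ * E₂).im| ≤ ‖E₂‖ * ‖v‖ ∧
      |b| * |(conj E₁ * E₂).im| ≤ ‖E₁‖ * ‖v‖ := by
  refine ⟨-(conj E₂ * v).im / (conj E₁ * E₂).im, (conj E₁ * v).im / (conj E₁ * E₂).im, ?_, ?_, ?_⟩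
  · have hD : (conj E₁ * E₂).im = E₁.re * E₂.im - E₁.im * E₂.re := by
      simp only [mul_im, conj_re, conj_im]
      ring
    have h1 : (conj E₂ * v).im = E₂.re * v.im - E₂.im * v.re := by
      simp only [mul_im, conj_re, conj_im]
      ring
    have h2 : (conj E₁ * v).im = E₁.re * v.im - E₁.im * v.re := by
      simp only [mul_im, conj_re, conj_im]
      ring
    rw [hD] at hE ⊢
    rw [h1, h2]
    apply Complex.ext
    · simp only [add_re, mul_re, ofReal_re, ofReal_im, zero_mul, sub_zero]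
      rw [div_mul_eq_mul_div, div_mul_eq_mul_div, ← add_div, eq_div_iff hE]
      ring
    · simp only [add_im, mul_im, ofReal_re, ofReal_im, zero_mul, add_zero]
      rw [div_mul_eq_mul_div, div_mul_eq_mul_div, ← add_div, eq_div_iff hE]
      ring
  · rw [abs_div, abs_neg, div_mul_cancel₀ _ (abs_ne_zero.2 hE)]
    calc |(conj E₂ * v).im| ≤ ‖conj E₂ * v‖ := Complex.abs_im_le_norm _
      _ = ‖E₂‖ * ‖v‖ := by rw [norm_mul, Complex.norm_conj]
  · rw [abs_div, div_mul_cancel₀ _ (abs_ne_zero.2 hE)]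
    calc |(conj E₁ * v).im| ≤ ‖conj E₁ * v‖ := Complex.abs_im_le_norm _
      _ = ‖E₁‖ * ‖v‖ := by rw [norm_mul, Complex.norm_conj]

section

variable {E : Type} [NormedAddCommGroup E]

/-- bad parameters for `x` -/
def T (f : ℂ → E) (E₁ E₂ : ℂ) (s C : ℝ) (x : ℂ) : Set (ℝ × ℝ) :=
  {q | q.1 ∈ Icc s (2 * s) ∧ q.2 ∈ Icc s (2 * s) ∧
    (C * s < ‖f (x + q.1 * E₁) - f x‖ ∨ C * s < ‖f (x + q.1 * E₁ + q.2 * E₂) - f (x + q.1 * E₁)‖)}

/-- if both `x` and `x'` have few bad parameters, then `f x` and `f x'` are close -/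
theorem close_of_good (f : ℂ → E) (E₁ E₂ : ℂ) (s C : ℝ) (hs : 0 < s) (x x' : ℂ) (a b : ℝ)
    (hab : x' - x = a * E₁ + b * E₂) (ha : |a| ≤ s / 4) (hb : |b| ≤ s / 4)
    (hm : MeasurableSet (T f E₁ E₂ s C x'))
    (h1 : volume (T f E₁ E₂ s C x) < ENNReal.ofReal (s ^ 2 / 8))
    (h2 : volume (T f E₁ E₂ s C x') < ENNReal.ofReal (s ^ 2 / 8)) :
    ‖f x - f x'‖ ≤ 4 * C * s := by
  obtain ⟨ha1, ha2⟩ := abs_le.1 ha
  obtain ⟨hb1, hb2⟩ := abs_le.1 hb
  let T' : Set (ℝ × ℝ) := (fun q : ℝ × ℝ => q - (a, b)) ⁻¹' T f E₁ E₂ s C x'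
  have hT' : volume T' = volume (T f E₁ E₂ s C x') :=
    (measurePreserving_sub_right volume ((a, b) : ℝ × ℝ)).measure_preimage hm.nullMeasurableSet
  let Q : Set (ℝ × ℝ) := Icc (s + s / 4) (2 * s - s / 4) ×ˢ Icc (s + s / 4) (2 * s - s / 4)
  have hQ : volume Q = ENNReal.ofReal (s ^ 2 / 4) := by
    show volume (Icc (s + s / 4) (2 * s - s / 4) ×ˢ Icc (s + s / 4) (2 * s - s / 4)) = _
    rw [Measure.volume_eq_prod, Measure.prod_prod, Real.volume_Icc,
      ← ENNReal.ofReal_mul (by linarith)]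
    congr 1
    ring
  have hlt : volume (T f E₁ E₂ s C x ∪ T') < volume Q := by
    refine (measure_union_le _ _).trans_lt ?_
    rw [hT', hQ]
    refine (ENNReal.add_lt_add h1 h2).trans_le ?_
    rw [← ENNReal.ofReal_add (by positivity) (by positivity)]
    exact ENNReal.ofReal_le_ofReal (by linarith)
  have hex : ∃ q ∈ Q, q ∉ T f E₁ E₂ s C x ∪ T' := by
    by_contra hcon
    push Not at hcon
    exact absurd (measure_mono hcon) (not_le.2 hlt)
  obtain ⟨q, hqQ, hq⟩ := hex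
  rw [mem_union, not_or] at hq
  obtain ⟨hq1, hq2⟩ := hq
  obtain ⟨⟨hqa, hqb⟩, ⟨hqc, hqd⟩⟩ := hqQ
  have k1 : ‖f (x + q.1 * E₁) - f x‖ ≤ C * s := by
    by_contra hcon
    exact hq1 ⟨⟨by linarith, by linarith⟩, ⟨by linarith, by linarith⟩, Or.inl (not_le.1 hcon)⟩
  have k2 : ‖f (x + q.1 * E₁ + q.2 * E₂) - f (x + q.1 * E₁)‖ ≤ C * s := by
    by_contra hcon
    exact hq1 ⟨⟨by linarith, by linarith⟩, ⟨by linarith, by linarith⟩, Or.inr (not_le.1 hcon)⟩
  have hbox1 : (q - (a, b)).1 ∈ Icc s (2 * s) := ⟨by simp only [Prod.fst_sub]; linarith,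
    by simp only [Prod.fst_sub]; linarith⟩
  have hbox2 : (q - (a, b)).2 ∈ Icc s (2 * s) := ⟨by simp only [Prod.snd_sub]; linarith,
    by simp only [Prod.snd_sub]; linarith⟩
  have k3 : ‖f (x' + (q - (a, b)).1 * E₁) - f x'‖ ≤ C * s := by
    by_contra hcon
    exact hq2 ⟨hbox1, hbox2, Or.inl (not_le.1 hcon)⟩
  have k4 : ‖f (x' + (q - (a, b)).1 * E₁ + (q - (a, b)).2 * E₂) -
      f (x' + (q - (a, b)).1 * E₁)‖ ≤ C * s := by
    by_contra hcon
    exact hq2 ⟨hbox1, hbox2, Or.inr (not_le.1 hcon)⟩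
  have hpt : x' + (q - (a, b)).1 * E₁ + (q - (a, b)).2 * E₂ = x + q.1 * E₁ + q.2 * E₂ := by
    simp only [Prod.fst_sub, Prod.snd_sub]
    push_cast
    linear_combination hab
  rw [hpt] at k4
  have e : f x - f x' = -(f (x + q.1 * E₁) - f x) - (f (x + q.1 * E₁ + q.2 * E₂) -
      f (x + q.1 * E₁)) + (f (x + q.1 * E₁ + q.2 * E₂) - f (x' + (q - (a, b)).1 * E₁)) +
      (f (x' + (q - (a, b)).1 * E₁) - f x') := by abel
  rw [e]
  calc _ ≤ ‖-(f (x + q.1 * E₁) - f x) - (f (x + q.1 * E₁ + q.2 * E₂) - f (x + q.1 * E₁)) +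
        (f (x + q.1 * E₁ + q.2 * E₂) - f (x' + (q - (a, b)).1 * E₁))‖ +
        ‖f (x' + (q - (a, b)).1 * E₁) - f x'‖ := norm_add_le _ _
    _ ≤ ‖-(f (x + q.1 * E₁) - f x) - (f (x + q.1 * E₁ + q.2 * E₂) - f (x + q.1 * E₁))‖ +
        ‖(f (x + q.1 * E₁ + q.2 * E₂) - f (x' + (q - (a, b)).1 * E₁))‖ +
        ‖f (x' + (q - (a, b)).1 * E₁) - f x'‖ := by gcongr; exact norm_add_le _ _
    _ ≤ ‖-(f (x + q.1 * E₁) - f x)‖ + ‖(f (x + q.1 * E₁ + q.2 * E₂) - f (x + q.1 * E₁))‖ +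
        ‖(f (x + q.1 * E₁ + q.2 * E₂) - f (x' + (q - (a, b)).1 * E₁))‖ +
        ‖f (x' + (q - (a, b)).1 * E₁) - f x'‖ := by gcongr; exact norm_sub_le _ _
    _ ≤ C * s + C * s + C * s + C * s := by
        rw [norm_neg]
        gcongr
    _ = 4 * C * s := by ring

end

section

variable {E : Type} [NormedAddCommGroup E] [NormedSpace ℝ E] [FiniteDimensional ℝ E]
    [MeasurableSpace E] [BorelSpace E]

/-- the measure of the bad parameters is measurable and has small integral -/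
theorem meas_T_all (f : ℂ → E) (hf : Measurable f) (E₁ E₂ : ℂ) (s C : ℝ) :
    MeasurableSet {p : ℂ × ℝ × ℝ | p.2 ∈ T f E₁ E₂ s C p.1} := by
  have : ProperSpace E := FiniteDimensional.proper_real E
  have : SecondCountableTopology E := inferInstance
  have m1 : Measurable fun p : ℂ × ℝ × ℝ => f (p.1 + (p.2.1 : ℂ) * E₁) :=
    hf.comp (by fun_prop)
  have m2 : Measurable fun p : ℂ × ℝ × ℝ => f (p.1 + (p.2.1 : ℂ) * E₁ + (p.2.2 : ℂ) * E₂) :=
    hf.comp (by fun_prop)
  have m3 : Measurable fun p : ℂ × ℝ × ℝ => f p.1 := hf.comp measurable_fst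
  have a1 : MeasurableSet {p : ℂ × ℝ × ℝ | p.2.1 ∈ Icc s (2 * s)} :=
    measurableSet_Icc.preimage (by fun_prop)
  have a2 : MeasurableSet {p : ℂ × ℝ × ℝ | p.2.2 ∈ Icc s (2 * s)} :=
    measurableSet_Icc.preimage (by fun_prop)
  have a3 : MeasurableSet {p : ℂ × ℝ × ℝ | C * s < ‖f (p.1 + (p.2.1 : ℂ) * E₁) - f p.1‖} :=
    measurableSet_lt measurable_const (m1.sub m3).norm
  have a4 : MeasurableSet {p : ℂ × ℝ × ℝ | C * s <
      ‖f (p.1 + (p.2.1 : ℂ) * E₁ + (p.2.2 : ℂ) * E₂) - f (p.1 + (p.2.1 : ℂ) * E₁)‖} :=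
    measurableSet_lt measurable_const (m2.sub m1).norm
  exact a1.inter (a2.inter (a3.union a4))


/-- the bad pairs (point, parameter) for one direction -/
def P (f : ℂ → E) (E₁ : ℂ) (s C : ℝ) (B : Set ℂ) : Set (ℂ × ℝ) :=
  {p | p.1 ∈ B ∧ p.2 ∈ Icc s (2 * s) ∧ C * s < ‖f (p.1 + p.2 * E₁) - f p.1‖}

theorem meas_P (f : ℂ → E) (hf : Measurable f) (E₁ : ℂ) (s C : ℝ) (B : Set ℂ)
    (hB : MeasurableSet B) : MeasurableSet (P f E₁ s C B) := by
  have : ProperSpace E := FiniteDimensional.proper_real E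
  have : SecondCountableTopology E := inferInstance
  have m1 : Measurable fun p : ℂ × ℝ => f (p.1 + (p.2 : ℂ) * E₁) := hf.comp (by fun_prop)
  have m3 : Measurable fun p : ℂ × ℝ => f p.1 := hf.comp measurable_fst
  have a0 : MeasurableSet {p : ℂ × ℝ | p.1 ∈ B} := hB.preimage measurable_fst
  have a1 : MeasurableSet {p : ℂ × ℝ | p.2 ∈ Icc s (2 * s)} :=
    measurableSet_Icc.preimage measurable_snd
  have a3 : MeasurableSet {p : ℂ × ℝ | C * s < ‖f (p.1 + (p.2 : ℂ) * E₁) - f p.1‖} :=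
    measurableSet_lt measurable_const (m1.sub m3).norm
  exact a0.inter (a1.inter a3)

theorem int_T_le (f : ℂ → E) (hf : Measurable f) (E₁ E₂ : ℂ) (s C : ℝ)
    (A B : Set ℂ) (hA : MeasurableSet A) (hB : MeasurableSet B) (hAB : A ⊆ B)
    (hAB' : ∀ x ∈ A, ∀ c ∈ Icc s (2 * s), x + (c : ℂ) * E₁ ∈ B) (K : ℝ≥0∞)
    (h1 : volume (P f E₁ s C B) ≤ K) (h2 : volume (P f E₂ s C B) ≤ K) :
    ∫⁻ x in A, volume (T f E₁ E₂ s C x) ≤ 2 * (ENNReal.ofReal s * K) := by
  have hP1 := meas_P f hf E₁ s C B hB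
  have hP2 := meas_P f hf E₂ s C B hB
  let g1 : ℂ → ℝ≥0∞ := fun x => volume (Prod.mk x ⁻¹' P f E₁ s C B)
  let g2 : ℂ → ℝ≥0∞ := fun x => volume (Prod.mk x ⁻¹' P f E₂ s C B)
  have mg1 : Measurable g1 := measurable_measure_prodMk_left hP1
  have mg2 : Measurable g2 := measurable_measure_prodMk_left hP2
  have hg1 : ∫⁻ x, g1 x = volume (P f E₁ s C B) := by
    rw [Measure.volume_eq_prod, Measure.prod_apply hP1]
  have hg2 : ∫⁻ x, g2 x = volume (P f E₂ s C B) := by
    rw [Measure.volume_eq_prod, Measure.prod_apply hP2]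
  have hIcc : volume (Icc s (2 * s)) = ENNReal.ofReal s := by
    rw [Real.volume_Icc]
    congr 1
    ring
  have key : ∀ x ∈ A, volume (T f E₁ E₂ s C x) ≤
      ENNReal.ofReal s * g1 x + ∫⁻ c in Icc s (2 * s), g2 (x + (c : ℂ) * E₁) := by
    intro x hx
    let T1 : Set (ℝ × ℝ) := (Prod.mk x ⁻¹' P f E₁ s C B) ×ˢ Icc s (2 * s)
    let T2 : Set (ℝ × ℝ) := {q | q.1 ∈ Icc s (2 * s) ∧ (x + (q.1 : ℂ) * E₁, q.2) ∈ P f E₂ s C B}
    have mT2 : MeasurableSet T2 := by
      have b1 : MeasurableSet {q : ℝ × ℝ | q.1 ∈ Icc s (2 * s)} :=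
        measurableSet_Icc.preimage measurable_fst
      have b2 : MeasurableSet {q : ℝ × ℝ | (x + (q.1 : ℂ) * E₁, q.2) ∈ P f E₂ s C B} :=
        hP2.preimage (by fun_prop)
      exact b1.inter b2
    have hsub : T f E₁ E₂ s C x ⊆ T1 ∪ T2 := by
      rintro q ⟨hq1, hq2, hq3 | hq3⟩
      · exact Or.inl ⟨⟨hAB hx, hq1, hq3⟩, hq2⟩
      · exact Or.inr ⟨hq1, hAB' x hx _ hq1, hq2, hq3⟩
    refine (measure_mono hsub).trans ((measure_union_le _ _).trans (add_le_add ?_ ?_))
    · show volume ((Prod.mk x ⁻¹' P f E₁ s C B) ×ˢ Icc s (2 * s)) ≤ _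
      rw [Measure.volume_eq_prod, Measure.prod_prod, hIcc, mul_comm]
    · rw [Measure.volume_eq_prod, Measure.prod_apply mT2, ← lintegral_indicator measurableSet_Icc]
      refine lintegral_mono (fun c => ?_)
      by_cases hc : c ∈ Icc s (2 * s)
      · rw [indicator_of_mem hc]
        refine measure_mono ?_
        intro c' hc'
        exact hc'.2
      · rw [indicator_of_notMem hc]
        refine le_of_eq ?_
        have : Prod.mk c ⁻¹' T2 = ∅ := by
          ext c'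
          constructor
          · intro h
            exact (hc h.1).elim
          · intro h
            exact h.elim
        rw [this, measure_empty]
  have mg3 : Measurable fun x : ℂ => ∫⁻ c in Icc s (2 * s), g2 (x + (c : ℂ) * E₁) := by
    apply Measurable.lintegral_prod_right'
      (f := fun p : ℂ × ℝ => g2 (p.1 + (p.2 : ℂ) * E₁))
    exact mg2.comp (by fun_prop)
  calc ∫⁻ x in A, volume (T f E₁ E₂ s C x)
      ≤ ∫⁻ x in A, (ENNReal.ofReal s * g1 x + ∫⁻ c in Icc s (2 * s), g2 (x + (c : ℂ) * E₁)) :=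
        setLIntegral_mono' hA key
    _ ≤ ∫⁻ x, (ENNReal.ofReal s * g1 x + ∫⁻ c in Icc s (2 * s), g2 (x + (c : ℂ) * E₁)) :=
        setLIntegral_le_lintegral _ _
    _ = (∫⁻ x, ENNReal.ofReal s * g1 x) +
        ∫⁻ x, ∫⁻ c in Icc s (2 * s), g2 (x + (c : ℂ) * E₁) :=
        lintegral_add_left (mg1.const_mul _) _
    _ = ENNReal.ofReal s * (∫⁻ x, g1 x) + ∫⁻ c in Icc s (2 * s), ∫⁻ x, g2 (x + (c : ℂ) * E₁) := by
        rw [lintegral_const_mul _ mg1]
        congr 1
        apply lintegral_lintegral_swap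
        exact (mg2.comp (by fun_prop : Measurable fun p : ℂ × ℝ =>
          p.1 + (p.2 : ℂ) * E₁)).aemeasurable
    _ = ENNReal.ofReal s * (∫⁻ x, g1 x) + ENNReal.ofReal s * (∫⁻ x, g2 x) := by
        congr 1
        have : ∀ c : ℝ, ∫⁻ x, g2 (x + (c : ℂ) * E₁) = ∫⁻ x, g2 x := fun c =>
          lintegral_add_right_eq_self g2 _
        simp only [this]
        rw [lintegral_const, Measure.restrict_apply MeasurableSet.univ, univ_inter, hIcc, mul_comm]
    _ ≤ ENNReal.ofReal s * K + ENNReal.ofReal s * K := by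
        rw [hg1, hg2]
        gcongr
    _ = 2 * (ENNReal.ofReal s * K) := by ring

end

end RigL1

open RigL1 in
/-- L1: two independent directions. -/
theorem rigL1 (E : Type) [NormedAddCommGroup E] [NormedSpace ℝ E] [FiniteDimensional ℝ E]
    [MeasurableSpace E] [BorelSpace E] (E₁ E₂ : ℂ) (hE : (conj E₁ * E₂).im ≠ 0) :
    ∃ κ M : ℝ, 0 < κ ∧ 1 ≤ M ∧ ∀ (f : ℂ → E), Measurable f → (∃ b : ℝ, ∀ x, ‖f x‖ ≤ b) →
      ∀ Z : Set ℂ, MeasurableSet Z → ∀ s₀ C : ℝ, 0 < s₀ → 0 ≤ C →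
      (∀ z ∈ Z, ∀ s : ℝ, 0 < s → s ≤ s₀ →
        volume {p : ℂ × ℝ | p.1 ∈ closedBall z (M * s) ∧ p.2 ∈ Icc s (2 * s) ∧
          C * s < ‖f (p.1 + p.2 * E₁) - f p.1‖} ≤ ENNReal.ofReal (κ * s ^ 3) ∧
        volume {p : ℂ × ℝ | p.1 ∈ closedBall z (M * s) ∧ p.2 ∈ Icc s (2 * s) ∧
          C * s < ‖f (p.1 + p.2 * E₂) - f p.1‖} ≤ ENNReal.ofReal (κ * s ^ 3)) →
      ∃ Z' : Set ℂ, Z' ⊆ Z ∧ MeasurableSet Z' ∧ volume (Z \ Z') = 0 ∧ ∃ C' r : ℝ, 0 < r ∧
        ∀ z ∈ Z', ∀ z' ∈ Z', dist z z' ≤ r → ‖f z - f z'‖ ≤ C' * dist z z' := by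
  have hD : 0 < |(conj E₁ * E₂).im| := abs_pos.2 hE
  set D := |(conj E₁ * E₂).im| with hDdef
  have hE1 := norm_nonneg E₁
  have hE2 := norm_nonneg E₂
  set S := ‖E₁‖ + ‖E₂‖ + 1 with hSdef
  have hS : 0 < S := by positivity
  set d := D / (8 * S) with hddef
  have hd : 0 < d := by positivity
  have hdD : d * S * 8 = D := by
    rw [hddef]
    field_simp
  refine ⟨d ^ 2 / 2048, 1 + d + 2 * ‖E₁‖, by positivity, by linarith, ?_⟩
  intro f hf hb Z hZ s₀ C hs₀ hC h
  obtain ⟨b, hb⟩ := hb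
  obtain ⟨Z', hZ'Z, hZ'm, hZ'0, hZ'⟩ := rigL0 f hf b hb Z hZ (d * s₀) (4 * C / d) (by positivity)
    (by positivity) (by
      intro z hz s' hs' hs'0
      obtain ⟨s, hsdef⟩ : ∃ s, s = s' / d := ⟨_, rfl⟩
      have hs's : s' = d * s := by
        rw [hsdef]
        field_simp
      have hs : 0 < s := by
        rw [hsdef]
        positivity
      have hss₀ : s ≤ s₀ := by
        rw [hs's] at hs'0
        exact le_of_mul_le_mul_left hs'0 hd
      obtain ⟨k1, k2⟩ := h z hz s hs hss₀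
      subst hs's
      set A := closedBall z (d * s) with hA
      set B := closedBall z ((1 + d + 2 * ‖E₁‖) * s) with hB
      have hAm : MeasurableSet A := measurableSet_closedBall
      have hBm : MeasurableSet B := measurableSet_closedBall
      have hAB : A ⊆ B := by
        apply closedBall_subset_closedBall
        nlinarith
      have hAB' : ∀ x ∈ A, ∀ c ∈ Icc s (2 * s), x + (c : ℂ) * E₁ ∈ B := by
        intro x hx c hc
        rw [hB, mem_closedBall, dist_eq_norm]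
        rw [hA, mem_closedBall, dist_eq_norm] at hx
        have e : x + (c : ℂ) * E₁ - z = (x - z) + (c : ℂ) * E₁ := by ring
        rw [e]
        refine (norm_add_le _ _).trans ?_
        rw [norm_mul, Complex.norm_real, Real.norm_eq_abs, abs_of_nonneg (hs.le.trans hc.1)]
        have : c * ‖E₁‖ ≤ 2 * s * ‖E₁‖ := mul_le_mul_of_nonneg_right hc.2 hE1
        nlinarith
      have hint := int_T_le f hf E₁ E₂ s C A B hAm hBm hAB hAB'
        (ENNReal.ofReal (d ^ 2 / 2048 * s ^ 3)) k1 k2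
      -- the exceptional points
      have mT := meas_T_all f hf E₁ E₂ s C
      have mTx : Measurable fun x => volume (T f E₁ E₂ s C x) := measurable_measure_prodMk_left mT
      have mTs : ∀ x, MeasurableSet (T f E₁ E₂ s C x) := fun x => mT.preimage measurable_prodMk_left
      let X : Set ℂ := {x | x ∈ A ∧ ENNReal.ofReal (s ^ 2 / 8) ≤ volume (T f E₁ E₂ s C x)}
      have hXm : MeasurableSet X := hAm.inter (measurableSet_le measurable_const mTx)
      have hX : volume X ≤ ENNReal.ofReal (d ^ 2 * s ^ 2 / 128) := by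
        have h1 := mul_meas_ge_le_lintegral (μ := volume.restrict A) mTx
          (ENNReal.ofReal (s ^ 2 / 8))
        have h2 : (volume.restrict A) {x | ENNReal.ofReal (s ^ 2 / 8) ≤
            volume (T f E₁ E₂ s C x)} = volume X := by
          rw [Measure.restrict_apply (measurableSet_le measurable_const mTx)]
          congr 1
          ext x
          exact ⟨fun hx => ⟨hx.2, hx.1⟩, fun hx => ⟨hx.2, hx.1⟩⟩
        rw [h2] at h1
        have h3 := h1.trans hint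
        have h4 : (2 : ℝ≥0∞) * (ENNReal.ofReal s * ENNReal.ofReal (d ^ 2 / 2048 * s ^ 3)) =
            ENNReal.ofReal (s ^ 2 / 8) * ENNReal.ofReal (d ^ 2 * s ^ 2 / 128) := by
          rw [← ENNReal.ofReal_mul hs.le, ← ENNReal.ofReal_mul (by positivity),
            show (2 : ℝ≥0∞) = ENNReal.ofReal 2 by simp, ← ENNReal.ofReal_mul (by norm_num)]
          congr 1
          ring
        rw [h4] at h3
        exact (ENNReal.mul_le_mul_iff_right (by positivity) ENNReal.ofReal_ne_top).1 h3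
      have hsub : {p : ℂ × ℂ | p.1 ∈ A ∧ p.2 ∈ A ∧ 4 * C / d * (d * s) < ‖f p.1 - f p.2‖} ⊆
          X ×ˢ A ∪ A ×ˢ X := by
        rintro ⟨x, x'⟩ ⟨hx, hx', hlt⟩
        by_contra hcon
        rw [mem_union, not_or] at hcon
        have hxX : x ∉ X := fun hh => hcon.1 ⟨hh, hx'⟩
        have hxX' : x' ∉ X := fun hh => hcon.2 ⟨hx, hh⟩
        have g1 : volume (T f E₁ E₂ s C x) < ENNReal.ofReal (s ^ 2 / 8) := by
          by_contra hh
          exact hxX ⟨hx, not_lt.1 hh⟩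
        have g2 : volume (T f E₁ E₂ s C x') < ENNReal.ofReal (s ^ 2 / 8) := by
          by_contra hh
          exact hxX' ⟨hx', not_lt.1 hh⟩
        obtain ⟨a, b', hab, ha, hb'⟩ := exists_coord E₁ E₂ hE (x' - x)
        have hv : ‖x' - x‖ ≤ 2 * (d * s) := by
          simp only [hA, mem_closedBall, dist_eq_norm] at hx hx'
          calc ‖x' - x‖ = ‖(x' - z) - (x - z)‖ := by congr 1; ring
            _ ≤ ‖x' - z‖ + ‖x - z‖ := norm_sub_le _ _
            _ ≤ 2 * (d * s) := by linarith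
        have bound : ∀ (e : ℂ) (c : ℝ), ‖e‖ ≤ S → |c| * D ≤ ‖e‖ * ‖x' - x‖ → |c| ≤ s / 4 := by
          intro e c he hc
          have h1 : ‖e‖ * ‖x' - x‖ ≤ S * (2 * (d * s)) :=
            mul_le_mul he hv (norm_nonneg _) hS.le
          have h2 : |c| * D ≤ s / 4 * D := by
            rw [← hdD]
            rw [← hdD] at hc
            nlinarith
          exact le_of_mul_le_mul_right h2 hD
        have hclose := close_of_good f E₁ E₂ s C hs x x' a b' hab
          (bound E₂ a (by rw [hSdef]; linarith) ha) (bound E₁ b' (by rw [hSdef]; linarith) hb')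
          (mTs x') g1 g2
        have e : 4 * C / d * (d * s) = 4 * C * s := by
          field_simp
        rw [e] at hlt
        exact absurd hclose (not_le.2 hlt)
      have hvolA : volume A = ENNReal.ofReal (π * (d * s) ^ 2) := by
        rw [hA, Complex.volume_closedBall, ← ENNReal.ofReal_pow (by positivity),
          ENNReal.ofReal_mul Real.pi_pos.le, mul_comm]
        congr 1
        rw [ENNReal.ofReal]
        congr 1
        rw [Real.toNNReal_of_nonneg Real.pi_pos.le]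
        rfl
      calc volume {p : ℂ × ℂ | p.1 ∈ A ∧ p.2 ∈ A ∧ 4 * C / d * (d * s) < ‖f p.1 - f p.2‖}
          ≤ volume (X ×ˢ A ∪ A ×ˢ X) := measure_mono hsub
        _ ≤ volume (X ×ˢ A) + volume (A ×ˢ X) := measure_union_le _ _
        _ = volume X * volume A + volume A * volume X := by
            rw [Measure.volume_eq_prod, Measure.prod_prod, Measure.prod_prod]
        _ ≤ ENNReal.ofReal (d ^ 2 * s ^ 2 / 128) * volume A +
            volume A * ENNReal.ofReal (d ^ 2 * s ^ 2 / 128) := by gcongr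
        _ ≤ volume (A ×ˢ A) / 64 := by
            rw [Measure.volume_eq_prod, Measure.prod_prod, hvolA,
              ← ENNReal.ofReal_mul (by positivity), ← ENNReal.ofReal_mul (by positivity),
              ← ENNReal.ofReal_add (by positivity) (by positivity),
              ← ENNReal.ofReal_mul (by positivity),
              show (64 : ℝ≥0∞) = ENNReal.ofReal 64 by simp,
              ← ENNReal.ofReal_div_of_pos (by norm_num)]
            apply ENNReal.ofReal_le_ofReal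
            have hpi : 1 ≤ π := by linarith [Real.pi_gt_three]
            have hds : 0 ≤ (d * s) ^ 2 := by positivity
            have h5 : π * (d * s) ^ 2 ≤ π * (d * s) ^ 2 * π := by
              nlinarith [mul_nonneg Real.pi_pos.le hds]
            nlinarith [mul_le_mul_of_nonneg_right h5 hds])
  refine ⟨Z', hZ'Z, hZ'm, hZ'0, 64 * (4 * C / d), d * s₀ / 8, by positivity, hZ'⟩

end Pool.Agent.H24.Tri
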