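import Pool.Agent.H24.Tri.RigL1
import Pool.Agent.H7.Tri.RigL2

set_option autoImplicit false

open MeasureTheory Set Complex Metric Filter Topology
open scoped Real ENNReal NNReal ComplexConjugate

namespace Pool.Agent.H24.Tri

/-! ### the function `cis` -/

theorem sd_norm_cis (θ : ℝ) : ‖cis θ‖ = 1 := by
  unfold cis
  exact Complex.norm_exp_ofReal_mul_I θ

theorem sd_cis_add (a b : ℝ) : cis (a + b) = cis a * cis b := by
  unfold cis
  rw [← Complex.exp_add]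
  congr 1
  push_cast
  ring

theorem sd_cis_zero : cis 0 = 1 := by
  unfold cis
  simp

theorem sd_conj_cis (a : ℝ) : conj (cis a) = cis (-a) := by
  unfold cis
  rw [← Complex.exp_conj]
  congr 1
  simp

theorem sd_cis_mul_conj (a : ℝ) : cis a * conj (cis a) = 1 := by
  rw [sd_conj_cis, ← sd_cis_add, add_neg_cancel, sd_cis_zero]

theorem sd_cis_eq (a : ℝ) : cis a = (Real.cos a : ℂ) + (Real.sin a : ℂ) * Complex.I := by
  unfold cis
  rw [Complex.exp_mul_I, Complex.ofReal_cos, Complex.ofReal_sin]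

theorem sd_cis_sq (a : ℝ) : cis a ^ 2 = cis (2 * a) := by
  rw [two_mul, sd_cis_add, sq]

theorem sd_conj_cis_sq (a : ℝ) : conj (cis a) ^ 2 = cis (-(2 * a)) := by
  rw [sd_conj_cis, sd_cis_sq]
  congr 1
  ring

theorem sd_norm_cis_sub (a b : ℝ) : ‖cis a - cis b‖ ≤ |a - b| := by
  have h1 : cis a - cis b = cis b * (cis (a - b) - 1) := by
    rw [mul_sub, ← sd_cis_add, mul_one]
    congr 2
    ring
  rw [h1, norm_mul, sd_norm_cis, one_mul]
  have h2 := Real.norm_exp_I_mul_ofReal_sub_one_le (x := a - b)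
  rw [Real.norm_eq_abs] at h2
  unfold cis
  rwa [mul_comm]

theorem sd_measurable_cis : Measurable cis := by
  unfold cis
  fun_prop

theorem sd_continuous_cis : Continuous cis := by
  unfold cis
  fun_prop

/-- Common endpoint of two chords. -/
theorem sd_cis_chord (θ c : ℝ) (hc : |c| ≤ 2) :
    cis (θ + Real.arcsin (c / 2)) - cis (θ - Real.arcsin (c / 2)) =
      (c : ℂ) * (Complex.I * cis θ) := by
  have h1 : -1 ≤ c / 2 := by
    have := neg_abs_le c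
    linarith
  have h2 : c / 2 ≤ 1 := by
    have := le_abs_self c
    linarith
  have h3 : Real.sin (Real.arcsin (c / 2)) = c / 2 := Real.sin_arcsin h1 h2
  rw [sub_eq_add_neg θ, sd_cis_add, sd_cis_add, sd_cis_eq (Real.arcsin (c / 2)),
    sd_cis_eq (-Real.arcsin (c / 2)), Real.cos_neg, Real.sin_neg, h3]
  push_cast
  ring

/-! ### sets in `ℂ × ℝ` -/

/-- Shears preserve the measure. -/
theorem sd_shear (ε : ℂ) (A : Set (ℂ × ℝ)) (hA : MeasurableSet A) :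
    volume ((fun p : ℂ × ℝ => (p.1 + ε * cis p.2, p.2)) ⁻¹' A) = volume A := by
  have hm : Measurable (fun p : ℂ × ℝ => (p.1 + ε * cis p.2, p.2)) := by
    have := sd_measurable_cis
    fun_prop
  rw [Measure.volume_eq_prod, Measure.prod_apply_symm (hm hA), Measure.prod_apply_symm hA]
  congr 1
  ext θ
  have h1 : (fun x : ℂ => (x, θ)) ⁻¹' ((fun p : ℂ × ℝ => (p.1 + ε * cis p.2, p.2)) ⁻¹' A) =
      (fun x : ℂ => x + ε * cis θ) ⁻¹' ((fun x : ℂ => (x, θ)) ⁻¹' A) := rfl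
  rw [h1, measure_preimage_add_right]

theorem sd_measurableSet_shear (ε : ℂ) (A : Set (ℂ × ℝ)) (hA : MeasurableSet A) :
    MeasurableSet ((fun p : ℂ × ℝ => (p.1 + ε * cis p.2, p.2)) ⁻¹' A) := by
  have hm : Measurable (fun p : ℂ × ℝ => (p.1 + ε * cis p.2, p.2)) := by
    have := sd_measurable_cis
    fun_prop
  exact hm hA

/-- The part of `A` over the points with slices of positive measure is everything up to a null
set. -/
theorem sd_slices (A : Set (ℂ × ℝ)) (hA : MeasurableSet A) :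
    MeasurableSet {z : ℂ | volume {t : ℝ | (z, t) ∈ A} ≠ 0} ∧
      volume (A \ ({z : ℂ | volume {t : ℝ | (z, t) ∈ A} ≠ 0} ×ˢ (univ : Set ℝ))) = 0 := by
  have h1 : Measurable (fun z : ℂ => volume {t : ℝ | (z, t) ∈ A}) :=
    measurable_measure_prodMk_left hA
  have h2 : MeasurableSet {z : ℂ | volume {t : ℝ | (z, t) ∈ A} ≠ 0} :=
    (h1 (measurableSet_singleton 0)).compl
  refine ⟨h2, ?_⟩
  rw [Measure.volume_eq_prod, Measure.measure_prod_null (hA.diff (h2.prod MeasurableSet.univ))]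
  refine Eventually.of_forall fun z => ?_
  by_cases hz : volume {t : ℝ | (z, t) ∈ A} = 0
  · refine measure_mono_null ?_ hz
    intro t ht
    exact ht.1
  · have : (Prod.mk z ⁻¹' (A \ ({z : ℂ | volume {t : ℝ | (z, t) ∈ A} ≠ 0} ×ˢ (univ : Set ℝ)))) =
        ∅ := by
      ext t
      constructor
      · intro ht
        exact absurd ⟨hz, mem_univ _⟩ ht.2
      · intro ht
        exact absurd ht (notMem_empty _)
    show volume _ = 0
    rw [this, measure_empty]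

/-- A set of positive measure has a slice of positive measure. -/
theorem sd_exists_slice (A : Set (ℂ × ℝ)) (hA : MeasurableSet A) (h : volume A ≠ 0) :
    ∃ z : ℂ, volume {t : ℝ | (z, t) ∈ A} ≠ 0 := by
  by_contra hc
  push Not at hc
  apply h
  rw [Measure.volume_eq_prod, Measure.measure_prod_null hA]
  exact Eventually.of_forall fun z => hc z

/-- Almost every point of `A` is accumulated by points of `A` in the same slice. -/
theorem sd_acc (A : Set (ℂ × ℝ)) (hA : MeasurableSet A) :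
    ∃ A' : Set (ℂ × ℝ), A' ⊆ A ∧ MeasurableSet A' ∧ volume (A \ A') = 0 ∧
      ∀ p ∈ A', ∀ ε : ℝ, 0 < ε → ∃ θ : ℝ, (p.1, θ) ∈ A ∧ θ ≠ p.2 ∧ |θ - p.2| < ε := by
  -- the bad part
  let N : ℚ × ℚ → Set (ℂ × ℝ) := fun q => {x | x ∈ A ∧ ((q.1 : ℝ) < x.2 ∧ x.2 < q.2) ∧
    volume {t : ℝ | (x.1, t) ∈ A ∩ (univ ×ˢ Ioo (q.1 : ℝ) q.2)} = 0}
  have hAq : ∀ q : ℚ × ℚ, MeasurableSet (A ∩ ((univ : Set ℂ) ×ˢ Ioo (q.1 : ℝ) q.2)) := fun q =>
    hA.inter (MeasurableSet.univ.prod measurableSet_Ioo)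
  have hN : ∀ q, MeasurableSet (N q) := by
    intro q
    have h1 : Measurable (fun z : ℂ => volume {t : ℝ | (z, t) ∈ A ∩ (univ ×ˢ Ioo (q.1 : ℝ) q.2)}) :=
      measurable_measure_prodMk_left (hAq q)
    have h2 : MeasurableSet {x : ℂ × ℝ |
        volume {t : ℝ | (x.1, t) ∈ A ∩ (univ ×ˢ Ioo (q.1 : ℝ) q.2)} = 0} :=
      (h1.comp measurable_fst) (measurableSet_singleton 0)
    have h3 : MeasurableSet {x : ℂ × ℝ | (q.1 : ℝ) < x.2 ∧ x.2 < q.2} :=
      measurable_snd measurableSet_Ioo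
    exact hA.inter (h3.inter h2)
  have hN0 : ∀ q, volume (N q) = 0 := by
    intro q
    rw [Measure.volume_eq_prod, Measure.measure_prod_null (hN q)]
    refine Eventually.of_forall fun z => ?_
    show volume (Prod.mk z ⁻¹' N q) = 0
    by_cases hz : volume {t : ℝ | (z, t) ∈ A ∩ (univ ×ˢ Ioo (q.1 : ℝ) q.2)} = 0
    · refine measure_mono_null ?_ hz
      intro t ht
      exact ⟨ht.1, mem_univ _, ht.2.1⟩
    · have : Prod.mk z ⁻¹' N q = ∅ := by
        ext t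
        constructor
        · intro ht
          exact absurd ht.2.2 hz
        · intro ht
          exact absurd ht (notMem_empty _)
      rw [this, measure_empty]
  refine ⟨A \ ⋃ q, N q, sdiff_subset, hA.diff (MeasurableSet.iUnion hN), ?_, ?_⟩
  · refine measure_mono_null ?_ (measure_iUnion_null hN0)
    intro x hx
    by_contra hc
    exact hx.2 ⟨hx.1, hc⟩
  · rintro p ⟨hp, hpN⟩ ε hε
    obtain ⟨q₁, h1, h2⟩ := exists_rat_btwn (show p.2 - ε < p.2 by linarith)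
    obtain ⟨q₂, h3, h4⟩ := exists_rat_btwn (show p.2 < p.2 + ε by linarith)
    have h5 : volume {t : ℝ | (p.1, t) ∈ A ∩ (univ ×ˢ Ioo (q₁ : ℝ) q₂)} ≠ 0 := by
      intro h5
      apply hpN
      rw [mem_iUnion]
      exact ⟨(q₁, q₂), hp, ⟨h2, h3⟩, h5⟩
    by_contra hc
    push Not at hc
    apply h5
    refine measure_mono_null (t := {p.2}) ?_ (measure_singleton _)
    intro t ht
    by_contra hne
    have h6 := hc t ht.1 hne
    have h7 := ht.2.2
    have h8 : |t - p.2| < ε := by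
      rw [abs_lt]
      constructor
      · linarith [h7.1]
      · linarith [h7.2]
    linarith

/-! ### the first derivative relation and Lipschitz continuity -/

/-- The relation (PSI) can be inverted. -/
theorem sd_inverse {ρ : ℂ} (hi : ρ.im ≠ 0) {r r' : ℝ} {B B' : ℂ} {θ : ℝ}
    (h1 : r' = r / 2 - 3 / (2 * ρ.im) * (B * conj (cis θ) ^ 2).im)
    (h2 : B' = B + cis θ ^ 2 * (r' * (ρ - 1) - r * ρ)) :
    r = r' / 2 - 3 / (2 * ρ.im) * (B' * conj (cis θ) ^ 2).im ∧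
      B = B' - cis θ ^ 2 * (r' * (ρ - 1) - r * ρ) := by
  have h3 : cis θ ^ 2 * conj (cis θ) ^ 2 = 1 := by
    rw [← mul_pow, sd_cis_mul_conj, one_pow]
  have h4 : B' * conj (cis θ) ^ 2 = B * conj (cis θ) ^ 2 + (r' * (ρ - 1) - r * ρ) := by
    rw [h2]
    linear_combination ((r' : ℂ) * (ρ - 1) - r * ρ) * h3
  have h5 : (B' * conj (cis θ) ^ 2).im =
      (B * conj (cis θ) ^ 2).im + (r' * ρ.im - r * ρ.im) := by
    rw [h4]
    simp
  refine ⟨?_, ?_⟩
  · rw [h5]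
    field_simp at h1 ⊢
    linarith
  · rw [h2]
    ring

/-- Two points with a common neighbour. -/
theorem sd_common {ρ : ℂ} (hi : ρ.im ≠ 0) {b r r₀ r' : ℝ} {B B₀ B' : ℂ} {θ θ₀ : ℝ}
    (hr : |r| ≤ b) (hr' : |r'| ≤ b) (hB' : ‖B'‖ ≤ b)
    (h1 : r' = r / 2 - 3 / (2 * ρ.im) * (B * conj (cis θ) ^ 2).im)
    (h2 : B' = B + cis θ ^ 2 * (r' * (ρ - 1) - r * ρ))
    (h3 : r' = r₀ / 2 - 3 / (2 * ρ.im) * (B₀ * conj (cis θ₀) ^ 2).im)
    (h4 : B' = B₀ + cis θ₀ ^ 2 * (r' * (ρ - 1) - r₀ * ρ)) :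
    |r - r₀| ≤ 3 / |ρ.im| * b * |θ - θ₀| ∧
      ‖B - B₀‖ ≤ (2 * b * ‖ρ - 1‖ + 2 * b * ‖ρ‖ + ‖ρ‖ * (3 / |ρ.im| * b)) * |θ - θ₀| := by
  obtain ⟨h5, h6⟩ := sd_inverse hi h1 h2
  obtain ⟨h7, h8⟩ := sd_inverse hi h3 h4
  have hb : 0 ≤ b := (abs_nonneg _).trans hr
  have hcc : ‖conj (cis θ) ^ 2 - conj (cis θ₀) ^ 2‖ ≤ 2 * |θ - θ₀| := by
    rw [sd_conj_cis_sq, sd_conj_cis_sq]
    refine (sd_norm_cis_sub _ _).trans ?_
    rw [show -(2 * θ) - -(2 * θ₀) = -(2 * (θ - θ₀)) by ring, abs_neg, abs_mul,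
      abs_of_pos (two_pos)]
  have hcs : ‖cis θ ^ 2 - cis θ₀ ^ 2‖ ≤ 2 * |θ - θ₀| := by
    rw [sd_cis_sq, sd_cis_sq]
    refine (sd_norm_cis_sub _ _).trans ?_
    rw [show 2 * θ - 2 * θ₀ = 2 * (θ - θ₀) by ring, abs_mul, abs_of_pos (two_pos)]
  have hr0 : |r - r₀| ≤ 3 / |ρ.im| * b * |θ - θ₀| := by
    have h9 : r - r₀ = -(3 / (2 * ρ.im) * (B' * (conj (cis θ) ^ 2 - conj (cis θ₀) ^ 2)).im) := by
      rw [h5, h7, mul_sub, Complex.sub_im]
      ring
    have h10 : |(B' * (conj (cis θ) ^ 2 - conj (cis θ₀) ^ 2)).im| ≤ b * (2 * |θ - θ₀|) := by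
      refine (Complex.abs_im_le_norm _).trans ?_
      rw [norm_mul]
      exact mul_le_mul hB' hcc (norm_nonneg _) hb
    rw [h9, abs_neg, abs_mul, abs_div, abs_mul, abs_of_pos (two_pos : (0 : ℝ) < 2),
      abs_of_pos (three_pos : (0 : ℝ) < 3)]
    have h11 : 0 < |ρ.im| := abs_pos.2 hi
    calc 3 / (2 * |ρ.im|) * |(B' * (conj (cis θ) ^ 2 - conj (cis θ₀) ^ 2)).im|
        ≤ 3 / (2 * |ρ.im|) * (b * (2 * |θ - θ₀|)) := by
          apply mul_le_mul_of_nonneg_left h10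
          positivity
      _ = 3 / |ρ.im| * b * |θ - θ₀| := by
          field_simp
  refine ⟨hr0, ?_⟩
  have h9 : B - B₀ = -((cis θ ^ 2 - cis θ₀ ^ 2) * (r' * (ρ - 1))) +
      (cis θ ^ 2 - cis θ₀ ^ 2) * (r * ρ) + cis θ₀ ^ 2 * (((r - r₀ : ℝ) : ℂ) * ρ) := by
    rw [h6, h8]
    push_cast
    ring
  have hcθ : ‖cis θ₀ ^ 2‖ = 1 := by rw [norm_pow, sd_norm_cis, one_pow]
  have h10 : ‖(cis θ ^ 2 - cis θ₀ ^ 2) * (r' * (ρ - 1))‖ ≤ 2 * |θ - θ₀| * (b * ‖ρ - 1‖) := by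
    rw [norm_mul, norm_mul, Complex.norm_real, Real.norm_eq_abs]
    refine mul_le_mul hcs ?_ (by positivity) (by positivity)
    exact mul_le_mul_of_nonneg_right hr' (norm_nonneg _)
  have h11 : ‖(cis θ ^ 2 - cis θ₀ ^ 2) * (r * ρ)‖ ≤ 2 * |θ - θ₀| * (b * ‖ρ‖) := by
    rw [norm_mul, norm_mul, Complex.norm_real, Real.norm_eq_abs]
    refine mul_le_mul hcs ?_ (by positivity) (by positivity)
    exact mul_le_mul_of_nonneg_right hr (norm_nonneg _)
  have h12 : ‖cis θ₀ ^ 2 * (((r - r₀ : ℝ) : ℂ) * ρ)‖ ≤ 3 / |ρ.im| * b * |θ - θ₀| * ‖ρ‖ := by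
    rw [norm_mul, norm_mul, Complex.norm_real, Real.norm_eq_abs, hcθ, one_mul]
    exact mul_le_mul_of_nonneg_right hr0 (norm_nonneg _)
  rw [h9]
  refine (norm_add_le _ _).trans ?_
  have h13 := norm_add_le (-((cis θ ^ 2 - cis θ₀ ^ 2) * (r' * (ρ - 1))))
    ((cis θ ^ 2 - cis θ₀ ^ 2) * (r * ρ))
  rw [norm_neg] at h13
  nlinarith

theorem sd_arcsin_le {x : ℝ} (h0 : 0 ≤ x) (h1 : x ≤ 1) : Real.arcsin x ≤ 2 * x := by
  have h2 : 0 ≤ Real.arcsin x := Real.arcsin_nonneg.2 h0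
  have h3 : Real.arcsin x ≤ π / 2 := Real.arcsin_le_pi_div_two x
  have h4 := Real.mul_le_sin h2 h3
  rw [Real.sin_arcsin (by linarith) h1] at h4
  have h5 : Real.arcsin x ≤ π / 2 * x := by
    have := mul_le_mul_of_nonneg_left h4 (show 0 ≤ π / 2 by positivity)
    have h6 : π / 2 * (2 / π * Real.arcsin x) = Real.arcsin x := by
      field_simp
    rwa [h6] at this
  have h6 : π / 2 ≤ 2 := by linarith [Real.pi_le_four]
  nlinarith

/-- Measure of the exceptional set for one direction. -/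
theorem sd_bad {E : Type} [NormedAddCommGroup E] (f : ℂ → E) (G : Set (ℂ × ℝ))
    (hG : MeasurableSet G) (C₀ : ℝ) (hC₀ : 0 ≤ C₀)
    (hf : ∀ z z' : ℂ, ∀ t t' : ℝ, (z, t) ∈ G → (z', t') ∈ G → z + cis t = z' + cis t' →
      ‖f z' - f z‖ ≤ C₀ * |t - t'|)
    (z : ℂ) (θ s m : ℝ) (hs : 0 < s) (hs1 : s ≤ 1 / 4) (hm : 0 ≤ m) (η : ℝ) (hη : 0 ≤ η)
    (hη1 : volume ((closedBall z (m + 2 * s) ×ˢ
      Icc (θ - (m + 2 * s)) (θ + (m + 2 * s))) \ G) ≤ ENNReal.ofReal η) :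
    volume {p : ℂ × ℝ | p.1 ∈ closedBall z m ∧ p.2 ∈ Icc s (2 * s) ∧
      4 * C₀ * s < ‖f (p.1 + p.2 * (Complex.I * cis θ)) - f p.1‖} ≤ ENNReal.ofReal (4 * η) := by
  have harc : ∀ c ∈ Icc s (2 * s), HasDerivAt (fun c : ℝ => Real.arcsin (c / 2))
      (1 / √(1 - (c / 2) ^ 2) * (1 / 2)) c := by
    intro c hc
    have h1 : c / 2 ≠ -1 := by
      have := hc.1
      intro h
      linarith
    have h2 : c / 2 ≠ 1 := by
      have := hc.2
      intro h
      linarith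
    have h3 : HasDerivAt (fun c : ℝ => c / 2) (1 / 2) c := (hasDerivAt_id c).div_const 2
    exact (Real.hasDerivAt_arcsin h1 h2).comp c h3
  have hder : ∀ c ∈ Icc s (2 * s), 1 / 2 ≤ 1 / √(1 - (c / 2) ^ 2) * (1 / 2) := by
    intro c hc
    have h1 : 0 < 1 - (c / 2) ^ 2 := by
      have h1 := hc.1
      have h2 := hc.2
      nlinarith
    have h2 : √(1 - (c / 2) ^ 2) ≤ 1 := by
      rw [Real.sqrt_le_one]
      nlinarith [sq_nonneg (c / 2)]
    have h3 : 0 < √(1 - (c / 2) ^ 2) := Real.sqrt_pos.2 h1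
    have h4 : 1 ≤ 1 / √(1 - (c / 2) ^ 2) := by
      rw [le_div_iff₀ h3]
      linarith
    linarith
  have harcb : ∀ c ∈ Icc s (2 * s), 0 ≤ Real.arcsin (c / 2) ∧ Real.arcsin (c / 2) ≤ 2 * s := by
    intro c hc
    have h1 := hc.1
    have h2 := hc.2
    refine ⟨Real.arcsin_nonneg.2 (by linarith), ?_⟩
    have := sd_arcsin_le (x := c / 2) (by linarith) (by linarith)
    linarith
  -- the two exceptional sets
  have e1 := rigL2c G hG z θ s (1 / 2) m (2 * s) (2 * s) hs (by norm_num) hm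
    (fun c => θ + Real.arcsin (c / 2)) (fun c => 1 / √(1 - (c / 2) ^ 2) * (1 / 2)) (fun _ => 0)
    (fun c hc => (harc c hc).const_add θ) (Or.inl hder) measurable_const
    (fun c _ => by rw [norm_zero]; positivity)
    (fun c hc => by
      rw [add_sub_cancel_left, abs_of_nonneg (harcb c hc).1]
      exact (harcb c hc).2)
  have e2 := rigL2c G hG z θ s (1 / 2) m (2 * s) (2 * s) hs (by norm_num) hm
    (fun c => θ - Real.arcsin (c / 2)) (fun c => -(1 / √(1 - (c / 2) ^ 2) * (1 / 2)))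
    (fun c => (c : ℂ) * (Complex.I * cis θ))
    (fun c hc => (harc c hc).const_sub θ)
    (Or.inr fun c hc => by have := hder c hc; linarith)
    (by fun_prop)
    (fun c hc => by
      rw [norm_mul, norm_mul, sd_norm_cis, Complex.norm_I, mul_one, mul_one, Complex.norm_real,
        Real.norm_eq_abs, abs_of_nonneg (hs.le.trans hc.1)]
      exact hc.2)
    (fun c hc => by
      rw [sub_sub_cancel_left, abs_neg, abs_of_nonneg (harcb c hc).1]
      exact (harcb c hc).2)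
  have hsub : ((closedBall z (m + 2 * s) ×ˢ Icc (θ - 2 * s) (θ + 2 * s)) \ G) ⊆
      ((closedBall z (m + 2 * s) ×ˢ Icc (θ - (m + 2 * s)) (θ + (m + 2 * s))) \ G) := by
    rintro p ⟨⟨h1, h2⟩, h3⟩
    exact ⟨⟨h1, by constructor <;> linarith [h2.1, h2.2]⟩, h3⟩
  have hvol : ENNReal.ofReal (1 / (1 / 2)) *
      volume ((closedBall z (m + 2 * s) ×ˢ Icc (θ - 2 * s) (θ + 2 * s)) \ G) ≤
      ENNReal.ofReal (2 * η) := by
    calc ENNReal.ofReal (1 / (1 / 2)) *
      volume ((closedBall z (m + 2 * s) ×ˢ Icc (θ - 2 * s) (θ + 2 * s)) \ G)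
        ≤ ENNReal.ofReal (1 / (1 / 2)) * ENNReal.ofReal η := by
          gcongr
          exact (measure_mono hsub).trans hη1
      _ = ENNReal.ofReal (2 * η) := by
          rw [← ENNReal.ofReal_mul (by norm_num)]
          norm_num
  refine (measure_mono ?_).trans ((measure_union_le _ _).trans
    ((add_le_add (e1.trans hvol) (e2.trans hvol)).trans ?_))
  · rintro p ⟨h1, h2, h3⟩
    by_contra hc
    rw [mem_union, not_or] at hc
    obtain ⟨hc1, hc2⟩ := hc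
    have h4 : (p.1 + 0, θ + Real.arcsin (p.2 / 2)) ∈ G := by
      by_contra h
      exact hc1 ⟨h1, h2, h⟩
    have h5 : (p.1 + (p.2 : ℂ) * (Complex.I * cis θ), θ - Real.arcsin (p.2 / 2)) ∈ G := by
      by_contra h
      exact hc2 ⟨h1, h2, h⟩
    rw [add_zero] at h4
    have h6 : |p.2| ≤ 2 := by
      rw [abs_of_nonneg (hs.le.trans h2.1)]
      linarith [h2.2]
    have h7 := sd_cis_chord θ p.2 h6
    have h8 := hf _ _ _ _ h4 h5 (by rw [← h7]; ring)
    have h9 : |θ + Real.arcsin (p.2 / 2) - (θ - Real.arcsin (p.2 / 2))| ≤ 4 * s := by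
      rw [show θ + Real.arcsin (p.2 / 2) - (θ - Real.arcsin (p.2 / 2)) =
        2 * Real.arcsin (p.2 / 2) by ring, abs_of_nonneg (by linarith [(harcb p.2 h2).1])]
      linarith [(harcb p.2 h2).2]
    have h10 := mul_le_mul_of_nonneg_left h9 hC₀
    linarith
  · rw [← ENNReal.ofReal_add (by positivity) (by positivity)]
    apply ENNReal.ofReal_le_ofReal
    linarith

/-- A function with Lipschitz dependence along common neighbours is Lipschitz on a set of positive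
measure. -/
theorem sd_lipschitz (f : ℂ → ℝ × ℂ) (mf : Measurable f) (hfb : ∃ b : ℝ, ∀ x, ‖f x‖ ≤ b)
    (G : Set (ℂ × ℝ)) (hG : MeasurableSet G) (hpos : 0 < volume G) (C₀ : ℝ) (hC₀ : 0 ≤ C₀)
    (hf : ∀ z z' : ℂ, ∀ t t' : ℝ, (z, t) ∈ G → (z', t') ∈ G → z + cis t = z' + cis t' →
      ‖f z' - f z‖ ≤ C₀ * |t - t'|) :
    ∃ Z : Set ℂ, MeasurableSet Z ∧ 0 < volume Z ∧ (∀ z ∈ Z, 0 < volume {t : ℝ | (z, t) ∈ G}) ∧
      ∃ K : ℝ≥0, LipschitzOnWith K f Z := by
  obtain ⟨δ, hδ, h2⟩ := rigL2 G hG hpos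
  set w₀ : ℝ := min δ 1 with hw₀
  have hw0 : 0 < w₀ := lt_min hδ one_pos
  have hw1 : w₀ ≤ 1 := min_le_right _ _
  have hwδ : w₀ ≤ δ := min_le_left _ _
  obtain ⟨θ, h3⟩ := h2 ![0, w₀, 0] (by
    intro k
    fin_cases k
    · simpa using hδ.le
    · simpa [abs_of_pos hw0] using hwδ
    · simpa using hδ.le)
  have hE : (conj (Complex.I * cis θ) * (Complex.I * cis (θ + w₀))).im ≠ 0 := by
    have h4 : conj (Complex.I * cis θ) * (Complex.I * cis (θ + w₀)) = cis w₀ := by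
      rw [map_mul, Complex.conj_I, sd_cis_add]
      have h5 := sd_cis_mul_conj θ
      have h6 : Complex.I * Complex.I = -1 := Complex.I_mul_I
      linear_combination cis w₀ * h5 - cis θ * conj (cis θ) * cis w₀ * h6
    rw [h4, sd_cis_eq]
    have h5 : ((Real.cos w₀ : ℂ) + (Real.sin w₀ : ℂ) * Complex.I).im = Real.sin w₀ := by
      simp [Complex.cos_ofReal_im, Complex.sin_ofReal_re]
    rw [h5]
    exact (Real.sin_pos_of_pos_of_lt_pi hw0 (by linarith [Real.pi_gt_three])).ne'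
  obtain ⟨κ, M, hκ, hM, h4⟩ := rigL1 (ℝ × ℂ) (Complex.I * cis θ) (Complex.I * cis (θ + w₀)) hE
  have hM2 : 0 < M + 2 := by linarith
  set η : ℝ := κ / (4 * (M + 2) ^ 3) with hη
  have hη0 : 0 < η := by positivity
  obtain ⟨Z, mZ, pZ, sZ, s₀, hs₀, h5⟩ := h3 η hη0
  set s₁ : ℝ := min (1 / 4) (s₀ / (M + 2)) with hs₁
  have hs1 : 0 < s₁ := lt_min (by norm_num) (by positivity)
  have key : ∀ z ∈ Z, ∀ s : ℝ, 0 < s → s ≤ s₁ → ∀ θ' : ℝ,
      (∀ r : ℝ, 0 < r → r ≤ s₀ → volume ((closedBall z r ×ˢ Icc (θ' - r) (θ' + r)) \ G) ≤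
        ENNReal.ofReal (η * r ^ 3)) →
      volume {p : ℂ × ℝ | p.1 ∈ closedBall z (M * s) ∧ p.2 ∈ Icc s (2 * s) ∧
          4 * C₀ * s < ‖f (p.1 + p.2 * (Complex.I * cis θ')) - f p.1‖} ≤
        ENNReal.ofReal (κ * s ^ 3) := by
    intro z hz s hs hss θ' h6
    have h7 : s ≤ 1 / 4 := hss.trans (min_le_left _ _)
    have h8 : (M + 2) * s ≤ s₀ := by
      have := hss.trans (min_le_right _ _)
      rw [le_div_iff₀ hM2] at this
      linarith
    have h9 := h6 ((M + 2) * s) (by positivity) h8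
    rw [show (M + 2) * s = M * s + 2 * s by ring] at h9
    have h10 := sd_bad f G hG C₀ hC₀ hf z θ' s (M * s) hs h7 (by positivity)
      (η * (M * s + 2 * s) ^ 3) (by positivity) h9
    refine h10.trans (le_of_eq ?_)
    congr 1
    rw [hη]
    field_simp
  obtain ⟨Z', hZ', mZ', nZ', C', r, hr, h6⟩ := h4 f mf hfb Z mZ s₁ (4 * C₀) hs1 (by positivity) (by
    intro z hz s hs hss
    refine ⟨key z hz s hs hss θ fun r hr hrs => ?_, key z hz s hs hss (θ + w₀) fun r hr hrs => ?_⟩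
    · have := h5 z hz r hr hrs 0
      simpa using this
    · have := h5 z hz r hr hrs 1
      simpa using this)
  have pZ' : volume Z' ≠ 0 := by
    intro h7
    have h8 : volume Z ≤ volume Z' + volume (Z \ Z') := by
      refine (measure_mono ?_).trans (measure_union_le _ _)
      intro x hx
      by_cases h : x ∈ Z'
      · exact Or.inl h
      · exact Or.inr ⟨hx, h⟩
    rw [h7, nZ', add_zero] at h8
    exact absurd h8 (not_le.2 pZ)
  obtain ⟨x₀, hx₀, h7⟩ := exists_mem_forall_mem_nhdsWithin_pos_measure pZ'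
  refine ⟨Z' ∩ ball x₀ (r / 2), mZ'.inter measurableSet_ball, ?_, ?_, C'.toNNReal, ?_⟩
  · exact h7 _ (inter_mem_nhdsWithin _ (ball_mem_nhds _ (by positivity)))
  · intro z hz
    exact sZ z (hZ' hz.1)
  · refine LipschitzOnWith.of_dist_le_mul fun z hz z' hz' => ?_
    have h8 : dist z z' ≤ r := by
      have h9 := dist_triangle_right z z' x₀
      have h10 := mem_ball.1 hz.2
      have h11 := mem_ball.1 hz'.2
      linarith
    rw [dist_eq_norm]
    refine (h6 z hz.1 z' hz'.1 h8).trans ?_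
    exact mul_le_mul_of_nonneg_right (Real.le_coe_toNNReal C') dist_nonneg

/-! ### trigonometric polynomials -/

theorem sd_frequently {S : Set ℝ} (hS : volume S ≠ 0) :
    ∃ t₀, ∃ᶠ t in 𝓝[≠] t₀, t ∈ S := by
  obtain ⟨t₀, -, h⟩ := exists_mem_forall_mem_nhdsWithin_pos_measure hS
  refine ⟨t₀, fun hc => ?_⟩
  rw [eventually_nhdsWithin_iff] at hc
  have h1 : S ∩ {t | t ∈ ({t₀}ᶜ : Set ℝ) → ¬ t ∈ S} ∈ 𝓝[S] t₀ := inter_mem_nhdsWithin _ hc
  have h2 := h _ h1
  have h3 : S ∩ {t | t ∈ ({t₀}ᶜ : Set ℝ) → ¬ t ∈ S} ⊆ {t₀} := by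
    rintro t ⟨ht1, ht2⟩
    by_contra h4
    exact ht2 h4 ht1
  exact absurd (measure_mono_null h3 (measure_singleton _)) h2.ne'

theorem sd_trig (a a' p p' q q' x y k : ℝ) (hk : k ≠ 0) (S : Set ℝ) (hS : volume S ≠ 0)
    (h : ∀ t ∈ S, (Real.sin t * a - Real.cos t * a') / 2 -
      k * ((Real.sin t * p - Real.cos t * p') * Real.cos (2 * t) -
        (Real.sin t * q - Real.cos t * q') * Real.sin (2 * t) -
        2 * (x * Real.cos (2 * t) + y * Real.sin (2 * t))) = 0) : x = 0 ∧ y = 0 := by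
  set P : ℝ → ℝ := fun t => (Real.sin t * a - Real.cos t * a') / 2 -
      k * ((Real.sin t * p - Real.cos t * p') * Real.cos (2 * t) -
        (Real.sin t * q - Real.cos t * q') * Real.sin (2 * t) -
        2 * (x * Real.cos (2 * t) + y * Real.sin (2 * t))) with hP
  have han : AnalyticOnNhd ℝ P univ := by
    intro t _
    rw [hP]
    fun_prop
  obtain ⟨t₀, ht₀⟩ := sd_frequently hS
  have h0 : EqOn P 0 univ :=
    han.eqOn_zero_of_preconnected_of_frequently_eq_zero isPreconnected_univ (mem_univ t₀)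
      (ht₀.mono fun t ht => h t ht)
  have e0 : P 0 = 0 := h0 (mem_univ _)
  have e1 : P π = 0 := h0 (mem_univ _)
  have e2 : P (π / 4) = 0 := h0 (mem_univ _)
  have e3 : P (π / 4 + π) = 0 := h0 (mem_univ _)
  simp only [hP, mul_zero, Real.sin_zero, Real.cos_zero, Real.sin_pi, Real.cos_pi,
    Real.cos_two_pi, Real.sin_two_pi] at e0 e1
  have h5 : (2 : ℝ) * (π / 4) = π / 2 := by ring
  have h6 : (2 : ℝ) * (π / 4 + π) = π / 2 + 2 * π := by ring
  simp only [hP, Real.sin_add_pi, Real.cos_add_pi, h5, h6, Real.cos_add_two_pi,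
    Real.sin_add_two_pi, Real.cos_pi_div_two, Real.sin_pi_div_two] at e2 e3
  constructor
  · have : k * x = 0 := by linarith
    exact (mul_eq_zero.1 this).resolve_left hk
  · have : k * y = 0 := by linarith
    exact (mul_eq_zero.1 this).resolve_left hk

/-! ### the main statement -/

theorem sd_hasDerivAt_cis (θ : ℝ) : HasDerivAt cis (Complex.I * cis θ) θ := by
  have h1 : HasDerivAt (fun t : ℝ => (t : ℂ) * Complex.I) (1 * Complex.I) θ :=
    Complex.ofRealCLM.hasDerivAt.mul_const Complex.I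
  have h2 := h1.cexp
  unfold cis
  rw [show Complex.I * Complex.exp (θ * Complex.I) =
    Complex.exp (θ * Complex.I) * (1 * Complex.I) by ring]
  exact h2

theorem sd_hasDerivAt_cis2 (θ : ℝ) : HasDerivAt (fun t : ℝ => conj (cis t) ^ 2)
    (-(2 * Complex.I) * conj (cis θ) ^ 2) θ := by
  have h1 : HasDerivAt (fun t : ℝ => -2 * t) (-2) θ := by
    have := (hasDerivAt_id θ).const_mul (-2 : ℝ)
    simpa using this
  have h0 : ∀ t : ℝ, conj (cis t) ^ 2 = cis (-2 * t) := by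
    intro t
    rw [sd_conj_cis_sq]
    congr 1
    ring
  have h2 := (sd_hasDerivAt_cis (-2 * θ)).scomp θ h1
  have h3 : (fun t : ℝ => conj (cis t) ^ 2) = cis ∘ fun t : ℝ => -2 * t := by
    ext t
    exact h0 t
  rw [h3, h0]
  refine h2.congr_deriv ?_
  rw [Complex.real_smul]
  push_cast
  ring

/-- The derivative of the first component along the points with a common neighbour. -/
theorem sd_deriv (k : ℝ) (g : ℂ → ℝ × ℂ) (y : ℂ) (θ : ℝ)
    (hg : DifferentiableAt ℝ g (y - cis θ)) :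
    HasDerivAt (fun t : ℝ => (g (y - cis t)).1 / 2 - k * ((g (y - cis t)).2 * conj (cis t) ^ 2).im)
      ((fderiv ℝ g (y - cis θ) (-(Complex.I * cis θ))).1 / 2 -
        k * ((fderiv ℝ g (y - cis θ) (-(Complex.I * cis θ))).2 * conj (cis θ) ^ 2 +
          (g (y - cis θ)).2 * (-(2 * Complex.I) * conj (cis θ) ^ 2)).im) θ := by
  have h1 : HasDerivAt (fun t : ℝ => y - cis t) (-(Complex.I * cis θ)) θ :=
    (sd_hasDerivAt_cis θ).const_sub y
  have h2 : HasDerivAt (fun t : ℝ => g (y - cis t))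
      (fderiv ℝ g (y - cis θ) (-(Complex.I * cis θ))) θ :=
    hg.hasFDerivAt.comp_hasDerivAt θ h1
  have h3 : HasDerivAt (fun t : ℝ => (g (y - cis t)).1)
      (fderiv ℝ g (y - cis θ) (-(Complex.I * cis θ))).1 θ :=
    (ContinuousLinearMap.fst ℝ ℝ ℂ).hasFDerivAt.comp_hasDerivAt θ h2
  have h4 : HasDerivAt (fun t : ℝ => (g (y - cis t)).2)
      (fderiv ℝ g (y - cis θ) (-(Complex.I * cis θ))).2 θ :=
    (ContinuousLinearMap.snd ℝ ℝ ℂ).hasFDerivAt.comp_hasDerivAt θ h2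
  have h5 := h4.mul (sd_hasDerivAt_cis2 θ)
  have h6 : HasDerivAt (fun t : ℝ => ((g (y - cis t)).2 * conj (cis t) ^ 2).im)
      ((fderiv ℝ g (y - cis θ) (-(Complex.I * cis θ))).2 * conj (cis θ) ^ 2 +
          (g (y - cis θ)).2 * (-(2 * Complex.I) * conj (cis θ) ^ 2)).im θ :=
    Complex.imCLM.hasFDerivAt.comp_hasDerivAt θ h5
  exact (h3.div_const 2).sub (h6.const_mul k)

/-- The derivative as a trigonometric polynomial. -/
theorem sd_expand (k t : ℝ) (L : ℂ →L[ℝ] ℝ × ℂ) (B : ℂ) :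
    (L (-(Complex.I * cis t))).1 / 2 -
        k * ((L (-(Complex.I * cis t))).2 * conj (cis t) ^ 2 +
          B * (-(2 * Complex.I) * conj (cis t) ^ 2)).im =
      (Real.sin t * (L 1).1 - Real.cos t * (L Complex.I).1) / 2 -
      k * ((Real.sin t * (L 1).2.im - Real.cos t * (L Complex.I).2.im) * Real.cos (2 * t) -
        (Real.sin t * (L 1).2.re - Real.cos t * (L Complex.I).2.re) * Real.sin (2 * t) -
        2 * (B.re * Real.cos (2 * t) + B.im * Real.sin (2 * t))) := by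
  have h1 : -(Complex.I * cis t) = (Real.sin t) • (1 : ℂ) - (Real.cos t) • Complex.I := by
    rw [sd_cis_eq, Complex.real_smul, Complex.real_smul]
    have h6 : Complex.I * Complex.I = -1 := Complex.I_mul_I
    linear_combination -(Real.sin t : ℂ) * h6
  have h2 : L (-(Complex.I * cis t)) = (Real.sin t) • L 1 - (Real.cos t) • L Complex.I := by
    rw [h1, map_sub, map_smul, map_smul]
  have h3 : conj (cis t) ^ 2 = (Real.cos (2 * t) : ℂ) - (Real.sin (2 * t) : ℂ) * Complex.I := by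
    rw [sd_conj_cis_sq, sd_cis_eq, Real.cos_neg, Real.sin_neg]
    push_cast
    ring
  rw [h2, h3]
  simp only [Prod.fst_sub, Prod.smul_fst, Prod.snd_sub, Prod.smul_snd, smul_eq_mul]
  congr 2
  simp only [Complex.add_im, Complex.mul_im, Complex.sub_im, Complex.sub_re, Complex.mul_re,
    Complex.ofReal_re, Complex.ofReal_im, Complex.I_re, Complex.I_im, Complex.neg_re,
    Complex.neg_im, Complex.real_smul, Complex.re_ofNat, Complex.im_ofNat]
  ring

theorem sd_exists_ne {S : Set ℝ} (hS : volume S ≠ 0) {t : ℝ} :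
    ∃ t' ∈ S, cis t' ^ 2 ≠ cis t ^ 2 := by
  by_contra hc
  push Not at hc
  apply hS
  have h1 : S ⊆ range (fun n : ℤ => t + n * π) := by
    intro t' ht'
    have h2 := hc t' ht'
    rw [sd_cis_sq, sd_cis_sq] at h2
    unfold cis at h2
    rw [Complex.exp_eq_exp_iff_exists_int] at h2
    obtain ⟨n, hn⟩ := h2
    refine ⟨n, ?_⟩
    have h3 : ((2 * t' : ℝ) : ℂ) = ((2 * t + n * (2 * π) : ℝ) : ℂ) := by
      have h4 : Complex.I ≠ 0 := Complex.I_ne_zero
      apply mul_right_cancel₀ h4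
      rw [hn]
      push_cast
      ring
    have h5 : 2 * t' = 2 * t + n * (2 * π) := by exact_mod_cast h3
    show t + n * π = t'
    linarith
  exact measure_mono_null h1 ((countable_range _).measure_zero volume)

/-- SD: second derivatives: (PSI) forces `r₁ = 0`, `B₁ = 0`. -/
theorem rigSD (ρ : ℂ) (hi : ρ.im ≠ 0) (r₁ r₂ : ℂ → ℝ) (B₁ B₂ : ℂ → ℂ)
    (mr₁ : Measurable r₁) (mr₂ : Measurable r₂) (mB₁ : Measurable B₁) (mB₂ : Measurable B₂)
    (b : ℝ) (hb : ∀ z, |r₁ z| ≤ b ∧ |r₂ z| ≤ b ∧ ‖B₁ z‖ ≤ b ∧ ‖B₂ z‖ ≤ b)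
    (G : Set (ℂ × ℝ)) (hG : MeasurableSet G)
    (hp1 : ∀ p ∈ G, r₂ (p.1 + cis p.2) =
      r₁ p.1 / 2 - 3 / (2 * ρ.im) * (B₁ p.1 * conj (cis p.2) ^ 2).im)
    (hp2 : ∀ p ∈ G, B₂ (p.1 + cis p.2) =
      B₁ p.1 + cis p.2 ^ 2 * (r₂ (p.1 + cis p.2) * (ρ - 1) - r₁ p.1 * ρ))
    (hne : ∀ p ∈ G, r₁ p.1 ≠ 0 ∨ B₁ p.1 ≠ 0) : volume G = 0 := by
  by_contra hG0
  have hb0 : 0 ≤ b := (abs_nonneg _).trans (hb 0).1
  have hi' : 0 < |ρ.im| := abs_pos.2 hi
  set f : ℂ → ℝ × ℂ := fun z => (r₁ z, B₁ z) with hf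
  have mf : Measurable f := mr₁.prodMk mB₁
  have hfb : ∃ b : ℝ, ∀ x, ‖f x‖ ≤ b := by
    refine ⟨b, fun x => ?_⟩
    rw [Prod.norm_def]
    exact max_le (hb x).1 (hb x).2.2.1
  set C₀ : ℝ := 3 / |ρ.im| * b + (2 * b * ‖ρ - 1‖ + 2 * b * ‖ρ‖ + ‖ρ‖ * (3 / |ρ.im| * b)) with hC₀
  have hC₀0 : 0 ≤ C₀ := by positivity
  have hcommon : ∀ z z' : ℂ, ∀ t t' : ℝ, (z, t) ∈ G → (z', t') ∈ G → z + cis t = z' + cis t' →
      ‖f z' - f z‖ ≤ C₀ * |t - t'| := by
    intro z z' t t' h1 h2 h3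
    have e1 := hp1 _ h1
    have e2 := hp2 _ h1
    have e3 := hp1 _ h2
    have e4 := hp2 _ h2
    simp only at e1 e2 e3 e4
    rw [← h3] at e3 e4
    obtain ⟨h4, h5⟩ := sd_common hi (hb z).1 (hb (z + cis t)).2.1 (hb (z + cis t)).2.2.2
      e1 e2 e3 e4
    rw [norm_sub_rev, Prod.norm_def]
    have h6 : 0 ≤ 3 / |ρ.im| * b * |t - t'| := by positivity
    have h7 : 0 ≤ (2 * b * ‖ρ - 1‖ + 2 * b * ‖ρ‖ + ‖ρ‖ * (3 / |ρ.im| * b)) * |t - t'| := by
      positivity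
    refine max_le ?_ ?_
    · refine h4.trans ?_
      rw [hC₀, add_mul]
      linarith
    · refine h5.trans ?_
      rw [hC₀, add_mul]
      linarith
  obtain ⟨Z₃, mZ₃, pZ₃, sZ₃, K, hK⟩ := sd_lipschitz f mf hfb G hG (pos_iff_ne_zero.2 hG0) C₀ hC₀0
    hcommon
  obtain ⟨g, hg, hfg⟩ := hK.extend_finite_dimension
  set D : Set ℂ := {x | DifferentiableAt ℝ g x} with hD
  have mD : MeasurableSet D := measurableSet_of_differentiableAt ℝ g
  have nD : ∀ᵐ x : ℂ, x ∈ D := hg.ae_differentiableAt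
  set Z₄ : Set ℂ := Z₃ ∩ D with hZ₄
  have mZ₄ : MeasurableSet Z₄ := mZ₃.inter mD
  have pZ₄ : volume Z₄ ≠ 0 := by
    intro h1
    refine pZ₃.ne' (measure_mono_null (t := Z₄ ∪ {x | ¬ x ∈ D}) ?_
      (measure_union_null h1 (ae_iff.1 nD)))
    intro x hx
    by_cases h : x ∈ D
    · exact Or.inl ⟨hx, h⟩
    · exact Or.inr h
  set G₅ : Set (ℂ × ℝ) := G ∩ (Z₄ ×ˢ univ) with hG₅
  have mG₅ : MeasurableSet G₅ := hG.inter (mZ₄.prod MeasurableSet.univ)
  have pG₅ : volume G₅ ≠ 0 := by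
    intro h1
    rw [Measure.volume_eq_prod, Measure.measure_prod_null mG₅] at h1
    apply pZ₄
    refine measure_mono_null ?_ h1
    intro z hz
    have h2 := sZ₃ z hz.1
    have h3 : {t : ℝ | (z, t) ∈ G} ⊆ Prod.mk z ⁻¹' G₅ := fun t ht => ⟨ht, hz, mem_univ _⟩
    exact (lt_of_lt_of_le h2 (measure_mono h3)).ne'
  -- the sheared set and its accumulation points
  set A : Set (ℂ × ℝ) := (fun p : ℂ × ℝ => (p.1 + (-1) * cis p.2, p.2)) ⁻¹' G₅ with hA
  have mA : MeasurableSet A := sd_measurableSet_shear (-1) G₅ mG₅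
  have pA : volume A ≠ 0 := by
    rw [hA, sd_shear (-1) G₅ mG₅]
    exact pG₅
  obtain ⟨A', hA'A, mA', nA', hacc⟩ := sd_acc A mA
  have pA' : volume A' ≠ 0 := by
    intro h1
    apply pA
    refine measure_mono_null (t := A' ∪ A \ A') ?_ (measure_union_null h1 nA')
    intro x hx
    by_cases h : x ∈ A'
    · exact Or.inl h
    · exact Or.inr ⟨hx, h⟩
  set G₆ : Set (ℂ × ℝ) := (fun p : ℂ × ℝ => (p.1 + 1 * cis p.2, p.2)) ⁻¹' A' with hG₆
  have mG₆ : MeasurableSet G₆ := sd_measurableSet_shear 1 A' mA'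
  have pG₆ : volume G₆ ≠ 0 := by
    rw [hG₆, sd_shear 1 A' mA']
    exact pA'
  have hG₆₅ : G₆ ⊆ G₅ := by
    intro p hp
    have h1 : (p.1 + 1 * cis p.2 + (-1) * cis p.2, p.2) ∈ G₅ := hA'A hp
    have h2 : p.1 + 1 * cis p.2 + (-1) * cis p.2 = p.1 := by ring
    rw [h2] at h1
    exact h1
  -- the derivative vanishes on `G₆`
  have hder : ∀ p ∈ G₆, (fderiv ℝ g p.1 (-(Complex.I * cis p.2))).1 / 2 -
      3 / (2 * ρ.im) * ((fderiv ℝ g p.1 (-(Complex.I * cis p.2))).2 * conj (cis p.2) ^ 2 +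
        (g p.1).2 * (-(2 * Complex.I) * conj (cis p.2) ^ 2)).im = 0 := by
    intro p hp
    have hp5 := hG₆₅ hp
    set y : ℂ := p.1 + 1 * cis p.2 with hy
    have hyp : y - cis p.2 = p.1 := by rw [hy]; ring
    have hd : DifferentiableAt ℝ g (y - cis p.2) := by
      rw [hyp]
      exact hp5.2.1.2
    have h1 := sd_deriv (3 / (2 * ρ.im)) g y p.2 hd
    rw [hyp] at h1
    have hval : ∀ t : ℝ, (y, t) ∈ A →
        (g (y - cis t)).1 / 2 - 3 / (2 * ρ.im) * ((g (y - cis t)).2 * conj (cis t) ^ 2).im =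
          r₂ y := by
      intro t ht
      have h2 : (y + (-1) * cis t, t) ∈ G₅ := ht
      have h3 : y + (-1) * cis t = y - cis t := by ring
      rw [h3] at h2
      have h4 := hp1 _ h2.1
      have h5 : g (y - cis t) = f (y - cis t) := (hfg h2.2.1.1).symm
      simp only [sub_add_cancel] at h4
      rw [h5, h4]
    by_contra hne0
    have h2 := h1.eventually_ne hne0 (c := r₂ y)
    rw [eventually_nhdsWithin_iff, Metric.eventually_nhds_iff] at h2
    obtain ⟨ε, hε, h3⟩ := h2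
    obtain ⟨t, ht1, ht2, ht3⟩ := hacc _ hp ε hε
    exact h3 (y := t) (by rw [Real.dist_eq]; exact ht3) ht2 (hval t ht1)
  -- hence `B₁ = 0`
  obtain ⟨mZ₅, nZ₅⟩ := sd_slices G₆ mG₆
  set Z₅ : Set ℂ := {z : ℂ | volume {t : ℝ | (z, t) ∈ G₆} ≠ 0} with hZ₅
  have hk : 3 / (2 * ρ.im) ≠ 0 := div_ne_zero three_ne_zero (mul_ne_zero two_ne_zero hi)
  have hB : ∀ z ∈ Z₅, (g z).2 = 0 := by
    intro z hz
    obtain ⟨h1, h2⟩ := sd_trig (fderiv ℝ g z 1).1 (fderiv ℝ g z Complex.I).1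
      (fderiv ℝ g z 1).2.im (fderiv ℝ g z Complex.I).2.im (fderiv ℝ g z 1).2.re
      (fderiv ℝ g z Complex.I).2.re (g z).2.re (g z).2.im (3 / (2 * ρ.im)) hk
      {t : ℝ | (z, t) ∈ G₆} hz (by
        intro t ht
        rw [← sd_expand]
        exact hder (z, t) ht)
    exact Complex.ext h1 h2
  set G₇ : Set (ℂ × ℝ) := G₆ ∩ (Z₅ ×ˢ univ) with hG₇
  have mG₇ : MeasurableSet G₇ := mG₆.inter (mZ₅.prod MeasurableSet.univ)
  have pG₇ : volume G₇ ≠ 0 := by
    intro h1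
    apply pG₆
    refine measure_mono_null (t := G₇ ∪ G₆ \ (Z₅ ×ˢ (univ : Set ℝ))) ?_
      (measure_union_null h1 nZ₅)
    intro x hx
    by_cases h : x ∈ Z₅ ×ˢ (univ : Set ℝ)
    · exact Or.inl ⟨hx, h⟩
    · exact Or.inr ⟨hx, h⟩
  have mA₇ := sd_measurableSet_shear (-1) G₇ mG₇
  obtain ⟨y, hy⟩ := sd_exists_slice _ mA₇ (by
    rw [sd_shear (-1) G₇ mG₇]
    exact pG₇)
  obtain ⟨t, ht⟩ := nonempty_of_measure_ne_zero hy
  obtain ⟨t', ht', hne'⟩ := sd_exists_ne hy (t := t)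
  have hrel : ∀ s : ℝ, s ∈ {t : ℝ | (y, t) ∈
      (fun p : ℂ × ℝ => (p.1 + (-1) * cis p.2, p.2)) ⁻¹' G₇} →
      (y - cis s, s) ∈ G ∧ B₁ (y - cis s) = 0 ∧ r₂ y = r₁ (y - cis s) / 2 ∧
        B₂ y = -(cis s ^ 2 * (r₂ y * (ρ + 1))) := by
    intro s hs
    have h1 : (y + (-1) * cis s, s) ∈ G₇ := hs
    have h2 : y + (-1) * cis s = y - cis s := by ring
    rw [h2] at h1
    have h3 := hG₆₅ h1.1
    have h4 : g (y - cis s) = f (y - cis s) := (hfg h3.2.1.1).symm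
    have h5 : B₁ (y - cis s) = 0 := by
      have h6 := hB _ h1.2.1
      rw [h4] at h6
      exact h6
    have h7 := hp1 _ h3.1
    have h8 := hp2 _ h3.1
    simp only [sub_add_cancel] at h7 h8
    rw [h5, zero_mul, Complex.zero_im, mul_zero, sub_zero] at h7
    rw [h5, zero_add] at h8
    refine ⟨h3.1, h5, h7, ?_⟩
    rw [h8]
    have h9 : (r₁ (y - cis s) : ℂ) = 2 * r₂ y := by
      rw [h7]
      push_cast
      ring
    rw [h9]
    ring
  obtain ⟨a1, a2, a3, a4⟩ := hrel t ht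
  obtain ⟨-, -, -, b4⟩ := hrel t' ht'
  have h1 : (cis t' ^ 2 - cis t ^ 2) * ((r₂ y : ℂ) * (ρ + 1)) = 0 := by
    rw [a4] at b4
    linear_combination b4
  have h2 : (r₂ y : ℂ) * (ρ + 1) = 0 := (mul_eq_zero.1 h1).resolve_left (sub_ne_zero.2 hne')
  have h3 : ρ + 1 ≠ 0 := by
    intro h
    apply hi
    have := congrArg Complex.im h
    simpa using this
  have h4 : (r₂ y : ℂ) = 0 := (mul_eq_zero.1 h2).resolve_right h3
  have h5 : r₂ y = 0 := by exact_mod_cast h4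
  have h6 : r₁ (y - cis t) = 0 := by
    rw [h5] at a3
    linarith
  rcases hne _ a1 with h7 | h7
  · exact h7 h6
  · exact h7 a2

end Pool.Agent.H24.Tri
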