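import Pool.Agent.H24.Tri.Defs

set_option autoImplicit false

open MeasureTheory Set Complex Metric Filter Topology
open scoped Real ENNReal NNReal FourierTransform ComplexConjugate

namespace Pool.Agent.H24.Tri

/-- the Schwartz function of a nice symbol -/
noncomputable def tbS (a : ℂ → ℂ) (ha : Nice a) : SchwartzMap ℂ ℂ :=
  ha.compact.toSchwartzMap ha.smooth

theorem tbS_coe (a : ℂ → ℂ) (ha : Nice a) : (tbS a ha : ℂ → ℂ) = a := rfl

theorem tbS_inv (a : ℂ → ℂ) (ha : Nice a) :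
    ((𝓕⁻ (tbS a ha) : SchwartzMap ℂ ℂ) : ℂ → ℂ) = 𝓕⁻ a := by
  rw [SchwartzMap.fourierInv_coe]
  rfl

theorem nice_integrable (a : ℂ → ℂ) (ha : Nice a) : Integrable a ∧ Integrable (𝓕⁻ a) := by
  constructor
  · exact (tbS a ha).integrable
  · rw [← tbS_inv a ha]
    exact SchwartzMap.integrable _

theorem nice_memLp (a : ℂ → ℂ) (ha : Nice a) : MemLp a 2 volume ∧ MemLp (𝓕⁻ a) 2 volume := by
  constructor
  · exact (tbS a ha).memLp 2 volume
  · rw [← tbS_inv a ha]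
    exact SchwartzMap.memLp _ 2 volume

theorem nice_continuous (a : ℂ → ℂ) (ha : Nice a) : Continuous (𝓕⁻ a) := by
  rw [← tbS_inv a ha]
  exact SchwartzMap.continuous _

theorem tb_inner (w z : ℂ) : inner ℝ w z = (conj w * z).re := by
  rw [Complex.inner, mul_comm]

theorem tb_fourierInv (a : ℂ → ℂ) (z : ℂ) :
    𝓕⁻ a z = ∫ ξ, Complex.exp (((2 * π * (conj ξ * z).re : ℝ) : ℂ) * Complex.I) * a ξ := by
  rw [Real.fourierInv_eq']
  simp only [tb_inner, smul_eq_mul]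

/-- (T4) -/
theorem modulate (a : ℂ → ℂ) (b z : ℂ) :
    𝓕⁻ (fun ξ => a (ξ + b)) z =
      Complex.exp (((-(2 * π * (conj b * z).re) : ℝ) : ℂ) * Complex.I) * 𝓕⁻ a z := by
  rw [tb_fourierInv, tb_fourierInv, ← integral_const_mul]
  rw [← integral_add_right_eq_self (μ := volume) (fun ξ : ℂ =>
    Complex.exp (((-(2 * π * (conj b * z).re) : ℝ) : ℂ) * Complex.I) *
      (Complex.exp (((2 * π * (conj ξ * z).re : ℝ) : ℂ) * Complex.I) * a ξ)) b]
  congr 1
  ext ξ
  rw [← mul_assoc, ← Complex.exp_add]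
  congr 2
  have : (conj (ξ + b) * z).re = (conj ξ * z).re + (conj b * z).re := by
    rw [map_add, add_mul, Complex.add_re]
  rw [this]
  push_cast
  ring

theorem plancherel_sq (a : ℂ → ℂ) (ha : Nice a) : ∫ z, ‖𝓕⁻ a z‖ ^ 2 = ∫ ξ, ‖a ξ‖ ^ 2 := by
  have h := SchwartzMap.integral_norm_sq_fourier (𝓕⁻ (tbS a ha))
  rw [FourierTransform.fourier_fourierInv_eq] at h
  rw [tbS_inv] at h
  exact h.symm

theorem tb_plancherel0 (a b : ℂ → ℂ) (ha : Nice a) (hb : Nice b) :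
    ∫ z, 𝓕⁻ a z * conj (𝓕⁻ b z) = ∫ ξ, a ξ * conj (b ξ) := by
  have h := SchwartzMap.integral_inner_fourier_fourier (𝓕⁻ (tbS b hb)) (𝓕⁻ (tbS a ha))
  rw [FourierTransform.fourier_fourierInv_eq, FourierTransform.fourier_fourierInv_eq] at h
  simp only [tbS_inv, tbS_coe, RCLike.inner_apply] at h
  exact h.symm

theorem tb_nice_mod (a : ℂ → ℂ) (ha : Nice a) (v : ℂ) :
    Nice (fun ξ => a ξ * Complex.exp (((2 * π * (conj ξ * v).re : ℝ) : ℂ) * Complex.I)) := by
  constructor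
  · apply ha.smooth.mul
    apply Complex.contDiff_exp.comp
    apply ContDiff.mul _ contDiff_const
    apply Complex.ofRealCLM.contDiff.comp
    apply contDiff_const.mul
    exact Complex.reCLM.contDiff.comp (f := fun x : ℂ => conj x * v)
      ((Complex.conjCLE.contDiff).mul contDiff_const)
  · exact ha.compact.mul_right

/-- Plancherel with a translation (T1) -/
theorem plancherel (a b : ℂ → ℂ) (ha : Nice a) (hb : Nice b) (v : ℂ) :
    ∫ z, 𝓕⁻ a (z + v) * conj (𝓕⁻ b z) =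
      ∫ ξ, a ξ * conj (b ξ) * Complex.exp (((2 * π * (conj ξ * v).re : ℝ) : ℂ) * Complex.I) := by
  have h := tb_plancherel0 _ b (tb_nice_mod a ha v) hb
  have h1 : ∀ z : ℂ, 𝓕⁻ (fun ξ => a ξ *
      Complex.exp (((2 * π * (conj ξ * v).re : ℝ) : ℂ) * Complex.I)) z = 𝓕⁻ a (z + v) := by
    intro z
    rw [tb_fourierInv, tb_fourierInv]
    congr 1
    ext ξ
    have e : (conj ξ * (z + v)).re = (conj ξ * z).re + (conj ξ * v).re := by
      rw [mul_add, Complex.add_re]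
    rw [e, mul_comm (a ξ), ← mul_assoc, ← Complex.exp_add]
    congr 2
    push_cast
    ring
  simp only [h1] at h
  rw [h]
  congr 1
  ext ξ
  ring

/-- multiplier = convolution (T2) -/
theorem mult_conv (m a : ℂ → ℂ) (hm : Nice m) (ha : Nice a) (z : ℂ) :
    𝓕⁻ (fun ξ => m ξ * a ξ) z = ∫ y, 𝓕⁻ m y * 𝓕⁻ a (z - y) := by
  have h := SchwartzMap.convolution_apply (ContinuousLinearMap.mul ℂ ℂ)
    (𝓕⁻ (tbS m hm)) (𝓕⁻ (tbS a ha)) z
  have h2 : SchwartzMap.convolution (ContinuousLinearMap.mul ℂ ℂ)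
      (𝓕⁻ (tbS m hm)) (𝓕⁻ (tbS a ha)) =
      𝓕⁻ (SchwartzMap.pairing (ContinuousLinearMap.mul ℂ ℂ) (tbS m hm) (tbS a ha)) := by
    have h4 := SchwartzMap.fourier_convolution (ContinuousLinearMap.mul ℂ ℂ)
      (𝓕⁻ (tbS m hm)) (𝓕⁻ (tbS a ha))
    rw [FourierTransform.fourier_fourierInv_eq, FourierTransform.fourier_fourierInv_eq] at h4
    rw [← h4, FourierTransform.fourierInv_fourier_eq]
  rw [h2, SchwartzMap.fourierInv_coe] at h
  have h3 : ((SchwartzMap.pairing (ContinuousLinearMap.mul ℂ ℂ) (tbS m hm) (tbS a ha) :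
      SchwartzMap ℂ ℂ) : ℂ → ℂ) = fun ξ => m ξ * a ξ := by
    ext ξ
    rw [SchwartzMap.pairing_apply_apply]
    rfl
  rw [h3] at h
  rw [h, MeasureTheory.convolution_def]
  simp only [ContinuousLinearMap.mul_apply', tbS_inv]

theorem tb_integral_mul (c : ℂ) (hc : c ≠ 0) (F : ℂ → ℂ) :
    ∫ ξ, F ξ = ((‖c‖ ^ 2 : ℝ) : ℂ) * ∫ ξ, F (c * ξ) := by
  have hdet : LinearMap.det (LinearMap.mulLeft ℝ c) = ‖c‖ ^ 2 := by
    have h := Algebra.norm_complex_apply c
    rw [Algebra.norm_apply] at h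
    rw [← Complex.normSq_eq_norm_sq, ← h]
    rfl
  have hpos : 0 < ‖c‖ ^ 2 := by positivity
  have hmap := Measure.map_linearMap_addHaar_eq_smul_addHaar (μ := (volume : Measure ℂ))
    (f := LinearMap.mulLeft ℝ c) (by rw [hdet]; exact hpos.ne')
  rw [hdet] at hmap
  have hemb : MeasurableEmbedding (fun ξ : ℂ => c * ξ) :=
    (Homeomorph.mulLeft₀ c hc).measurableEmbedding
  have h1 : ∫ ξ, F (c * ξ) = ∫ ξ, F ξ ∂(Measure.map (LinearMap.mulLeft ℝ c) volume) := by
    exact (hemb.integral_map F).symm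
  rw [h1, hmap, integral_smul_measure, abs_of_pos (inv_pos.mpr hpos),
    ENNReal.toReal_ofReal (inv_pos.mpr hpos).le, Complex.real_smul, ← mul_assoc,
    ← Complex.ofReal_mul, mul_inv_cancel₀ hpos.ne', Complex.ofReal_one, one_mul]

/-- rescaled symbols (T2): kernels are rescaled, modulated copies -/
theorem kernel_scaled (t : ℂ → ℂ) (ht : Nice t) (c : ℂ) (hc : c ≠ 0) (n y : ℂ) :
    𝓕⁻ (fun ξ => t (ξ / c - n)) y =
      Complex.exp (((2 * π * (conj (c * n) * y).re : ℝ) : ℂ) * Complex.I) *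
        ((‖c‖ ^ 2 : ℝ) : ℂ) * 𝓕⁻ t (conj c * y) := by
  rw [tb_fourierInv, tb_fourierInv, tb_integral_mul c hc]
  rw [← integral_add_right_eq_self (μ := volume) (fun ξ : ℂ =>
    Complex.exp (((2 * π * (conj (c * ξ) * y).re : ℝ) : ℂ) * Complex.I) *
      t (c * ξ / c - n)) n]
  rw [mul_comm (Complex.exp _) (((‖c‖ ^ 2 : ℝ) : ℂ)), mul_assoc]
  congr 1
  rw [← integral_const_mul]
  congr 1
  ext η
  have e : c * (η + n) / c - n = η := by
    field_simp
    ring
  have e2 : (conj (c * (η + n)) * y).re = (conj (c * n) * y).re + (conj η * (conj c * y)).re := by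
    rw [← Complex.add_re]
    congr 1
    simp only [map_mul, map_add]
    ring
  rw [e, e2, ← mul_assoc (Complex.exp _) (Complex.exp _) (t η), ← Complex.exp_add]
  congr 2
  push_cast
  ring

theorem tb_modulus (f : SchwartzMap ℂ ℂ) (v : ℂ) :
    ∫ y, ‖f (y + v) - f y‖ ≤ (∫ y, ‖fderiv ℝ f y‖) * ‖v‖ := by
  have hd : Integrable (fun y => fderiv ℝ f y) := (SchwartzMap.fderivCLM ℝ ℂ ℂ f).integrable
  have hc : Continuous (fun y => fderiv ℝ f y) := (SchwartzMap.fderivCLM ℝ ℂ ℂ f).continuous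
  have hpt : ∀ y : ℂ, ‖f (y + v) - f y‖ₑ ≤
      ∫⁻ s in Ioc (0 : ℝ) 1, ‖fderiv ℝ f (y + s • v)‖ₑ * ‖v‖ₑ := by
    intro y
    have hder : ∀ s : ℝ, HasDerivAt (fun s : ℝ => f (y + s • v)) (fderiv ℝ f (y + s • v) v) s := by
      intro s
      have h1 : HasDerivAt (fun s : ℝ => y + s • v) v s := by
        have := ((hasDerivAt_id s).smul_const v).const_add y
        simpa using this
      exact (f.hasFDerivAt (y + s • v)).comp_hasDerivAt s h1
    have hcont : Continuous (fun s : ℝ => fderiv ℝ f (y + s • v) v) := by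
      have h2 : Continuous (fun s : ℝ => y + s • v) := by fun_prop
      exact (hc.comp h2).clm_apply continuous_const
    have hftc := intervalIntegral.integral_eq_sub_of_hasDerivAt (a := 0) (b := 1)
      (fun s _ => hder s) (hcont.intervalIntegrable 0 1)
    simp only [one_smul, zero_smul, add_zero] at hftc
    rw [← hftc, intervalIntegral.integral_of_le zero_le_one]
    refine (enorm_integral_le_lintegral_enorm _).trans ?_
    apply lintegral_mono
    intro s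
    exact ContinuousLinearMap.le_opENorm _ _
  have hfs : Integrable (fun y => f (y + v) - f y) := by
    apply Integrable.sub _ f.integrable
    exact f.integrable.comp_add_right v
  have key : ∫⁻ y, ‖f (y + v) - f y‖ₑ ≤ (∫⁻ y, ‖fderiv ℝ f y‖ₑ) * ‖v‖ₑ := by
    calc ∫⁻ y, ‖f (y + v) - f y‖ₑ
        ≤ ∫⁻ y, ∫⁻ s in Ioc (0 : ℝ) 1, ‖fderiv ℝ f (y + s • v)‖ₑ * ‖v‖ₑ := lintegral_mono hpt
      _ = ∫⁻ s in Ioc (0 : ℝ) 1, ∫⁻ y, ‖fderiv ℝ f (y + s • v)‖ₑ * ‖v‖ₑ := by
          apply lintegral_lintegral_swap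
          apply Measurable.aemeasurable
          apply Measurable.mul_const
          apply Continuous.measurable
          apply Continuous.enorm
          apply hc.comp
          fun_prop
      _ = ∫⁻ s in Ioc (0 : ℝ) 1, (∫⁻ y, ‖fderiv ℝ f y‖ₑ) * ‖v‖ₑ := by
          congr 1
          ext s
          rw [lintegral_mul_const _ (by
            apply Continuous.measurable
            apply Continuous.enorm
            apply hc.comp
            fun_prop)]
          rw [lintegral_add_right_eq_self (fun y : ℂ => ‖fderiv ℝ f y‖ₑ) (s • v)]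
      _ = (∫⁻ y, ‖fderiv ℝ f y‖ₑ) * ‖v‖ₑ := by
          simp
  rw [integral_norm_eq_lintegral_enorm hfs.aestronglyMeasurable,
    integral_norm_eq_lintegral_enorm hd.aestronglyMeasurable, ← toReal_enorm v,
    ← ENNReal.toReal_mul]
  apply ENNReal.toReal_mono _ key
  exact ENNReal.mul_ne_top hd.2.ne enorm_ne_top

/-- L¹ bound for a kernel of a nice symbol, its first moment and its modulus of continuity -/
theorem kernel_bounds (t : ℂ → ℂ) (ht : Nice t) : ∃ C : ℝ, 0 ≤ C ∧ (∫ y, ‖𝓕⁻ t y‖) ≤ C ∧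
    (Integrable fun y => ‖y‖ * ‖𝓕⁻ t y‖) ∧ (∫ y, ‖y‖ * ‖𝓕⁻ t y‖) ≤ C ∧
    ∀ v : ℂ, ∫ y, ‖𝓕⁻ t (y + v) - 𝓕⁻ t y‖ ≤ C * ‖v‖ := by
  rw [← tbS_inv t ht]
  generalize (𝓕⁻ (tbS t ht) : SchwartzMap ℂ ℂ) = f
  have h1 : 0 ≤ ∫ y, ‖f y‖ := integral_nonneg fun y => norm_nonneg _
  have h2 : 0 ≤ ∫ y, ‖y‖ * ‖f y‖ := integral_nonneg fun y => by positivity
  have h3 : 0 ≤ ∫ y, ‖fderiv ℝ f y‖ := integral_nonneg fun y => norm_nonneg _
  refine ⟨(∫ y, ‖f y‖) + (∫ y, ‖y‖ * ‖f y‖) + ∫ y, ‖fderiv ℝ f y‖, by positivity, by linarith,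
    ?_, by linarith, fun v => (tb_modulus f v).trans ?_⟩
  · have := f.integrable_pow_mul volume 1
    simpa using this
  · exact mul_le_mul_of_nonneg_right (by linarith) (norm_nonneg v)

end Pool.Agent.H24.Tri
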