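import Pool.Agent.H24.Tri.ToolA
import Pool.Agent.H24.Tri.ToolB
import Pool.Agent.H24.Tri.LW

/-!
# TRI / SG (section 10'): (S) implies the Gaussian form (Sg)

`SG.smoothG_of : ρ.im ≠ 0 → SG.PropS ρ → (statement of smoothG)`, where `SG.PropS ρ` is the
statement of `smoothS` for `ρ`.
-/

set_option autoImplicit false

open MeasureTheory Set Complex Metric Filter Topology
open scoped Real ENNReal NNReal FourierTransform ComplexConjugate Convolution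

namespace Pool.Agent.H24.Tri

namespace SG

/-- continuity of translations in `L¹` -/
theorem trans_L1 (f : ℂ → ℂ) (hf : Integrable f) :
    Tendsto (fun y : ℂ => ∫⁻ z, ‖f (y + z) - f z‖ₑ) (𝓝 0) (𝓝 0) := by
  have hf1 : MemLp f 1 volume := memLp_one_iff_integrable.2 hf
  have hfact : Fact ((1 : ℝ≥0∞) ≠ ∞) := ⟨ENNReal.one_ne_top⟩
  have hc : Continuous fun y : ℂ => (DomAddAct.mk y) +ᵥ (hf1.toLp f) := by
    fun_prop
  have h0 : Tendsto (fun y : ℂ => (DomAddAct.mk y) +ᵥ (hf1.toLp f)) (𝓝 0)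
      (𝓝 (hf1.toLp f)) := by
    have := hc.tendsto 0
    rwa [show DomAddAct.mk (0 : ℂ) +ᵥ (hf1.toLp f) = hf1.toLp f by simp] at this
  have h1 : Tendsto (fun y : ℂ => ‖(DomAddAct.mk y +ᵥ (hf1.toLp f)) - hf1.toLp f‖ₑ) (𝓝 0)
      (𝓝 0) := by
    have := (h0.sub_const (hf1.toLp f)).enorm
    rwa [sub_self, enorm_zero] at this
  refine h1.congr (fun y => ?_)
  rw [DomAddAct.mk_vadd_toLp, ← MemLp.toLp_sub, Lp.enorm_toLp, eLpNorm_one_eq_lintegral_enorm]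
  rfl

/-- the rescaled cutoff symbol -/
noncomputable def mM (M : ℝ) (ξ : ℂ) : ℂ := chiC (ξ / (M : ℂ))

theorem nice_mM (M : ℝ) (hM : M ≠ 0) : Nice (mM M) := by
  constructor
  · exact nice_chi.smooth.comp (contDiff_id.div_const _)
  · have h := nice_chi.compact.comp_homeomorph (Homeomorph.mulLeft₀ ((M : ℂ)⁻¹)
      (inv_ne_zero (by exact_mod_cast hM)))
    have e : mM M = chiC ∘ (Homeomorph.mulLeft₀ ((M : ℂ)⁻¹)
        (inv_ne_zero (by exact_mod_cast hM))) := by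
      ext ξ
      simp [mM, div_eq_inv_mul]
    rw [e]
    exact h

theorem inv_mM (M : ℝ) (hM : M ≠ 0) (y : ℂ) :
    𝓕⁻ (mM M) y = ((M ^ 2 : ℝ) : ℂ) * 𝓕⁻ chiC ((M : ℂ) * y) := by
  have h := kernel_scaled chiC nice_chi (M : ℂ) (by exact_mod_cast hM) 0 y
  have e : (fun ξ => chiC (ξ / (M : ℂ) - 0)) = mM M := by
    ext ξ
    simp [mM]
  rw [e] at h
  rw [h]
  simp

theorem inv_mM_eq_PR (M : ℝ) (hM : M ≠ 0) (y : ℂ) : 𝓕⁻ (mM M) y = PR M y := by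
  rw [inv_mM M hM]
  unfold PR
  push_cast
  rfl

theorem chiC_zero : chiC 0 = 1 := by
  unfold chiC
  rw [chi_one 0 (by simp)]
  simp

/-- the total mass of the kernel -/
theorem integral_inv_mM (M : ℝ) (hM : M ≠ 0) : ∫ y, 𝓕⁻ (mM M) y = 1 := by
  have h1 : 𝓕 (𝓕⁻ (mM M)) 0 = mM M 0 := by
    have h2 : (𝓕 (𝓕⁻ (tbS (mM M) (nice_mM M hM))) : SchwartzMap ℂ ℂ) =
      tbS (mM M) (nice_mM M hM) := FourierTransform.fourier_fourierInv_eq _
    have h3 := congrArg (fun S : SchwartzMap ℂ ℂ => (S : ℂ → ℂ) 0) h2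
    simp only [SchwartzMap.fourier_coe, tbS_inv, tbS_coe] at h3
    exact h3
  rw [Real.fourier_eq'] at h1
  simpa [mM, chiC_zero] using h1

theorem fourier_inv_mM (M : ℝ) (hM : M ≠ 0) : 𝓕 (𝓕⁻ (mM M)) = mM M := by
  have h2 : (𝓕 (𝓕⁻ (tbS (mM M) (nice_mM M hM))) : SchwartzMap ℂ ℂ) =
    tbS (mM M) (nice_mM M hM) := FourierTransform.fourier_fourierInv_eq _
  have h3 := congrArg (fun S : SchwartzMap ℂ ℂ => (S : ℂ → ℂ)) h2
  simp only [SchwartzMap.fourier_coe, tbS_inv, tbS_coe] at h3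
  exact h3

theorem lintegral_scale (F : ℂ → ℝ≥0∞) (M : ℝ) (hM : 0 < M) :
    ∫⁻ y, ENNReal.ofReal (M ^ 2) * F ((M : ℂ) * y) = ∫⁻ u, F u := by
  have h := Measure.map_addHaar_smul (volume : Measure ℂ) hM.ne'
  have h1 : ∫⁻ u, F u ∂(Measure.map (fun x : ℂ => M • x) volume) =
      ∫⁻ y, F ((M : ℂ) * y) := by
    have h2 := (Homeomorph.smulOfNeZero (α := ℂ) M hM.ne').measurableEmbedding.lintegral_map
      (μ := volume) F
    have h3 : (⇑(Homeomorph.smulOfNeZero (α := ℂ) M hM.ne')) = fun x : ℂ => M • x := rfl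
    rw [h3] at h2
    rw [h2]
    simp only [Complex.real_smul]
  rw [h, lintegral_smul_measure] at h1
  rw [Complex.finrank_real_complex] at h1
  rw [lintegral_const_mul' _ _ ENNReal.ofReal_ne_top, ← h1, smul_eq_mul, ← mul_assoc,
    ← ENNReal.ofReal_mul (by positivity), abs_of_pos (by positivity),
    mul_inv_cancel₀ (by positivity), ENNReal.ofReal_one, one_mul]


/-- bounded functions vanishing outside a ball are integrable -/
theorem integrable_of_bdd (f : ℂ → ℂ) (hf : Measurable f) (K D : ℝ) (hK : ∀ z, ‖f z‖ ≤ K)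
    (hD : ∀ z, D ≤ ‖z‖ → f z = 0) : Integrable f := by
  have h1 : IntegrableOn f (closedBall 0 D) := by
    apply Measure.integrableOn_of_bounded (M := K)
    · exact (measure_closedBall_lt_top).ne
    · exact hf.aestronglyMeasurable
    · exact Filter.Eventually.of_forall hK
  rw [← integrableOn_univ]
  apply h1.of_forall_sdiff_eq_zero MeasurableSet.univ
  intro x hx
  apply hD
  by_contra hcon
  exact hx.2 (by rw [mem_closedBall, dist_zero_right]; exact (not_le.1 hcon).le)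

theorem nice_mul_fourier (f : ℂ → ℂ) (hf : Measurable f) (K D : ℝ) (hK : ∀ z, ‖f z‖ ≤ K)
    (hD : ∀ z, D ≤ ‖z‖ → f z = 0) (M : ℝ) (hM : M ≠ 0) :
    Nice (fun ξ => mM M ξ * 𝓕 f ξ) := by
  have hK0 : 0 ≤ K := (norm_nonneg _).trans (hK 0)
  constructor
  · apply (nice_mM M hM).smooth.mul
    apply Real.contDiff_fourier
    intro n _
    have h := integrable_of_bdd (fun v => ((‖v‖ ^ n * ‖f v‖ : ℝ) : ℂ))
      (by fun_prop) ((max D 0) ^ n * K) D ?_ ?_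
    · refine h.norm.congr (Filter.Eventually.of_forall fun v => ?_)
      show ‖((‖v‖ ^ n * ‖f v‖ : ℝ) : ℂ)‖ = ‖v‖ ^ n * ‖f v‖
      rw [Complex.norm_real, Real.norm_eq_abs, abs_of_nonneg (by positivity)]
    · intro z
      rw [Complex.norm_real, Real.norm_eq_abs, abs_of_nonneg (by positivity)]
      by_cases hz : D ≤ ‖z‖
      · rw [hD z hz, norm_zero, mul_zero]
        positivity
      · have h1 : ‖z‖ ≤ max D 0 := (not_le.1 hz).le.trans (le_max_left _ _)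
        gcongr
        exact hK z
    · intro z hz
      rw [hD z hz, norm_zero, mul_zero]
      simp
  · exact (nice_mM M hM).compact.mul_right

theorem bdd_inv (a : ℂ → ℂ) : ∃ B : ℝ, ∀ z, ‖𝓕⁻ a z‖ ≤ B := by
  refine ⟨∫ ξ, ‖a ξ‖, fun z => ?_⟩
  rw [tb_fourierInv]
  refine (norm_integral_le_integral_norm _).trans (le_of_eq ?_)
  congr 1
  ext ξ
  rw [norm_mul, Complex.norm_exp_ofReal_mul_I, one_mul]

/-- `𝓕⁻ (m_M 𝓕 f) = f * 𝓕⁻ m_M` -/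
theorem inv_mul_fourier (f : ℂ → ℂ) (hf : Measurable f) (K D : ℝ) (hK : ∀ z, ‖f z‖ ≤ K)
    (hD : ∀ z, D ≤ ‖z‖ → f z = 0) (M : ℝ) (hM : M ≠ 0) (z : ℂ) :
    𝓕⁻ (fun ξ => mM M ξ * 𝓕 f ξ) z = ∫ t, f t * 𝓕⁻ (mM M) (z - t) := by
  have hfi := integrable_of_bdd f hf K D hK hD
  have hPi := (nice_integrable _ (nice_mM M hM)).2
  have hPc := nice_continuous _ (nice_mM M hM)
  obtain ⟨B, hB⟩ := bdd_inv (mM M)
  have hconv := Real.fourier_mul_convolution_eq (E := ℂ) (R := ℂ) hfi hPi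
  have hcont : Continuous (f ⋆[ContinuousLinearMap.mul ℂ ℂ, volume] 𝓕⁻ (mM M)) := by
    apply BddAbove.continuous_convolution_right_of_integrable _ _ hfi hPc
    exact ⟨B, by rintro _ ⟨x, rfl⟩; exact hB x⟩
  have hint : Integrable (f ⋆[ContinuousLinearMap.mul ℂ ℂ, volume] 𝓕⁻ (mM M)) :=
    hfi.integrable_convolution _ hPi
  have hF : 𝓕 (f ⋆[ContinuousLinearMap.mul ℂ ℂ, volume] 𝓕⁻ (mM M)) =
      fun ξ => mM M ξ * 𝓕 f ξ := by
    ext ξ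
    rw [hconv ξ, fourier_inv_mM M hM, mul_comm]
  have hni := (nice_integrable _ (nice_mul_fourier f hf K D hK hD M hM)).1
  have h := hint.fourierInv_fourier_eq (by rw [hF]; exact hni) (hcont.continuousAt (x := z))
  rw [hF] at h
  rw [h, MeasureTheory.convolution_def]
  simp

/-- L¹ norm of the kernel `P` -/
noncomputable def k₁ : ℝ≥0∞ := ∫⁻ u, ‖𝓕⁻ chiC u‖ₑ

theorem k₁_ne_top : k₁ ≠ ⊤ := (nice_integrable _ nice_chi).2.hasFiniteIntegral.ne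

theorem lintegral_inv_mM (M : ℝ) (hM : 0 < M) : ∫⁻ y, ‖𝓕⁻ (mM M) y‖ₑ = k₁ := by
  have h := lintegral_scale (fun u => ‖𝓕⁻ chiC u‖ₑ) M hM
  rw [k₁, ← h]
  congr 1
  ext y
  rw [inv_mM M hM.ne', enorm_mul]
  congr 1
  rw [← ofReal_norm, Complex.norm_real, Real.norm_eq_abs, abs_of_nonneg (by positivity)]

/-- the approximation lemma -/
theorem approx (f : ℂ → ℂ) (hf : Measurable f) (D : ℝ) (hK : ∀ z, ‖f z‖ ≤ 1)
    (hD : ∀ z, D ≤ ‖z‖ → f z = 0) (δ : ℝ) (hδ : 0 < δ) :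
    ∃ a : ℂ → ℂ, Nice a ∧ (∀ z, ‖𝓕⁻ a z‖ ≤ k₁.toReal) ∧
      ∫⁻ z, ‖f z - 𝓕⁻ a z‖ₑ ^ 2 ≤ ENNReal.ofReal δ := by
  have hfi := integrable_of_bdd f hf 1 D hK hD
  let Φ : ℂ → ℝ≥0∞ := fun y => ∫⁻ z, ‖f (y + z) - f z‖ₑ
  have hΦ : Tendsto Φ (𝓝 0) (𝓝 0) := trans_L1 f hfi
  have mΦ : Measurable Φ := by
    apply Measurable.lintegral_prod_right' (f := fun p : ℂ × ℂ => ‖f (p.1 + p.2) - f p.2‖ₑ)
    have h1 : Measurable fun p : ℂ × ℂ => f (p.1 + p.2) := hf.comp (by fun_prop)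
    have h2 : Measurable fun p : ℂ × ℂ => f p.2 := hf.comp measurable_snd
    exact (h1.sub h2).enorm
  have hΦb : ∀ y, Φ y ≤ 2 * ∫⁻ z, ‖f z‖ₑ := by
    intro y
    calc Φ y ≤ ∫⁻ z, (‖f (y + z)‖ₑ + ‖f z‖ₑ) := lintegral_mono fun z => enorm_sub_le
      _ = (∫⁻ z, ‖f (y + z)‖ₑ) + ∫⁻ z, ‖f z‖ₑ := by
          rw [lintegral_add_right _ hf.enorm]
      _ = 2 * ∫⁻ z, ‖f z‖ₑ := by
          rw [lintegral_add_left_eq_self (fun z => ‖f z‖ₑ) y]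
          ring
  -- choice of the scale
  have hlim : Tendsto (fun n : ℕ => ∫⁻ u, ‖𝓕⁻ chiC u‖ₑ * Φ (-(u / ((n : ℝ) + 1 : ℝ)))) atTop
      (𝓝 (∫⁻ _u : ℂ, 0)) := by
    apply tendsto_lintegral_of_dominated_convergence
      (fun u => ‖𝓕⁻ chiC u‖ₑ * (2 * ∫⁻ z, ‖f z‖ₑ))
    · intro n
      apply Measurable.mul
      · exact (nice_continuous _ nice_chi).measurable.enorm
      · exact mΦ.comp (by fun_prop)
    · intro n
      exact Filter.Eventually.of_forall fun u => mul_le_mul_right (hΦb _) _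
    · rw [lintegral_mul_const _ (nice_continuous _ nice_chi).measurable.enorm]
      exact ENNReal.mul_ne_top k₁_ne_top
        (ENNReal.mul_ne_top (by simp) hfi.hasFiniteIntegral.ne)
    · refine Filter.Eventually.of_forall fun u => ?_
      have h1 : Tendsto (fun n : ℕ => -(u / (((n : ℝ) + 1 : ℝ) : ℂ))) atTop (𝓝 0) := by
        have h2 : Tendsto (fun n : ℕ => ‖-(u / (((n : ℝ) + 1 : ℝ) : ℂ))‖) atTop (𝓝 0) := by
          have h3 : Tendsto (fun n : ℕ => ‖u‖ / ((n : ℝ) + 1)) atTop (𝓝 0) :=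
            tendsto_const_nhds.div_atTop
              (tendsto_natCast_atTop_atTop.atTop_add tendsto_const_nhds)
          refine h3.congr (fun n => ?_)
          rw [norm_neg, norm_div, Complex.norm_real, Real.norm_eq_abs,
            abs_of_nonneg (by positivity)]
        exact tendsto_zero_iff_norm_tendsto_zero.2 h2
      have h4 := ENNReal.Tendsto.const_mul (hΦ.comp h1) (a := ‖𝓕⁻ chiC u‖ₑ)
        (Or.inr enorm_ne_top)
      rw [mul_zero] at h4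
      exact h4
  rw [lintegral_zero] at hlim
  have hlim2 : Tendsto (fun n : ℕ => (2 * k₁) *
      ∫⁻ u, ‖𝓕⁻ chiC u‖ₑ * Φ (-(u / ((n : ℝ) + 1 : ℝ)))) atTop (𝓝 0) := by
    have := ENNReal.Tendsto.const_mul hlim (a := 2 * k₁)
      (Or.inr (ENNReal.mul_ne_top (by simp) k₁_ne_top))
    rwa [mul_zero] at this
  obtain ⟨n, hn⟩ := ((tendsto_order.1 hlim2).2 (ENNReal.ofReal δ)
    (ENNReal.ofReal_pos.2 hδ)).exists
  set M : ℝ := (n : ℝ) + 1 with hMdef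
  have hM : 0 < M := by positivity
  have hPi := (nice_integrable _ (nice_mM M hM.ne')).2
  have hPc := nice_continuous _ (nice_mM M hM.ne')
  have ha := nice_mul_fourier f hf 1 D hK hD M hM.ne'
  refine ⟨_, ha, ?_, ?_⟩
  · intro z
    have h1 : ‖𝓕⁻ (fun ξ => mM M ξ * 𝓕 f ξ) z‖ₑ ≤ k₁ := by
      rw [inv_mul_fourier f hf 1 D hK hD M hM.ne']
      calc ‖∫ t, f t * 𝓕⁻ (mM M) (z - t)‖ₑ ≤ ∫⁻ t, ‖f t * 𝓕⁻ (mM M) (z - t)‖ₑ :=
            enorm_integral_le_lintegral_enorm _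
        _ ≤ ∫⁻ t, ‖𝓕⁻ (mM M) (z - t)‖ₑ := by
            apply lintegral_mono
            intro t
            show ‖f t * 𝓕⁻ (mM M) (z - t)‖ₑ ≤ ‖𝓕⁻ (mM M) (z - t)‖ₑ
            rw [enorm_mul]
            calc ‖f t‖ₑ * ‖𝓕⁻ (mM M) (z - t)‖ₑ ≤ 1 * ‖𝓕⁻ (mM M) (z - t)‖ₑ := by
                  gcongr
                  rw [← ofReal_norm, ← ENNReal.ofReal_one]
                  exact ENNReal.ofReal_le_ofReal (hK t)
              _ = _ := one_mul _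
        _ = ∫⁻ y, ‖𝓕⁻ (mM M) y‖ₑ := lintegral_sub_left_eq_self (fun y => ‖𝓕⁻ (mM M) y‖ₑ) z
        _ = k₁ := lintegral_inv_mM M hM
    have h2 := ENNReal.toReal_mono k₁_ne_top h1
    rwa [toReal_enorm] at h2
  · -- pointwise bound
    let J : ℂ → ℝ≥0∞ := fun z => ∫⁻ t, ‖f z - f t‖ₑ * ‖𝓕⁻ (mM M) (z - t)‖ₑ
    have hJ : ∀ z, ‖f z - 𝓕⁻ (fun ξ => mM M ξ * 𝓕 f ξ) z‖ₑ ≤ J z := by
      intro z
      have e1 : f z = ∫ t, f z * 𝓕⁻ (mM M) (z - t) := by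
        rw [integral_const_mul, integral_sub_left_eq_self (fun y => 𝓕⁻ (mM M) y),
          integral_inv_mM M hM.ne', mul_one]
      have i1 : Integrable fun t => f z * 𝓕⁻ (mM M) (z - t) :=
        (hPi.comp_sub_left z).const_mul _
      have i2 : Integrable fun t => f t * 𝓕⁻ (mM M) (z - t) :=
        (hPi.comp_sub_left z).bdd_mul hf.aestronglyMeasurable (Filter.Eventually.of_forall hK)
      have e2 : f z - 𝓕⁻ (fun ξ => mM M ξ * 𝓕 f ξ) z =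
          ∫ t, (f z - f t) * 𝓕⁻ (mM M) (z - t) := by
        rw [inv_mul_fourier f hf 1 D hK hD M hM.ne']
        conv_lhs => rw [e1]
        rw [← integral_sub i1 i2]
        congr 1
        ext t
        ring
      rw [e2]
      refine (enorm_integral_le_lintegral_enorm _).trans (le_of_eq ?_)
      congr 1
      ext t
      rw [enorm_mul]
    have hJ2 : ∀ z, J z ≤ 2 * k₁ := by
      intro z
      calc J z ≤ ∫⁻ t, 2 * ‖𝓕⁻ (mM M) (z - t)‖ₑ := by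
            apply lintegral_mono
            intro t
            apply mul_le_mul_left
            calc ‖f z - f t‖ₑ ≤ ‖f z‖ₑ + ‖f t‖ₑ := enorm_sub_le
              _ ≤ 1 + 1 := by
                  gcongr
                  · rw [← ofReal_norm, ← ENNReal.ofReal_one]
                    exact ENNReal.ofReal_le_ofReal (hK z)
                  · rw [← ofReal_norm, ← ENNReal.ofReal_one]
                    exact ENNReal.ofReal_le_ofReal (hK t)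
              _ = 2 := by norm_num
        _ = 2 * ∫⁻ t, ‖𝓕⁻ (mM M) (z - t)‖ₑ := by
            rw [lintegral_const_mul]
            exact (hPc.comp (by fun_prop)).measurable.enorm
        _ = 2 * k₁ := by
            rw [lintegral_sub_left_eq_self (fun y => ‖𝓕⁻ (mM M) y‖ₑ) z, lintegral_inv_mM M hM]
    have hJ3 : ∫⁻ z, J z = ∫⁻ u, ‖𝓕⁻ chiC u‖ₑ * Φ (-(u / (M : ℂ))) := by
      have e1 : ∀ z, J z = ∫⁻ y, ‖f (-y + z) - f z‖ₑ * ‖𝓕⁻ (mM M) y‖ₑ := by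
        intro z
        rw [← lintegral_sub_left_eq_self (fun y => ‖f (-y + z) - f z‖ₑ * ‖𝓕⁻ (mM M) y‖ₑ) z]
        apply lintegral_congr
        intro t
        rw [show -(z - t) + z = t by ring, enorm_sub_rev]
      simp only [e1]
      rw [lintegral_lintegral_swap]
      · have e2 : ∀ y, ∫⁻ z, ‖f (-y + z) - f z‖ₑ * ‖𝓕⁻ (mM M) y‖ₑ =
            ENNReal.ofReal (M ^ 2) * (‖𝓕⁻ chiC ((M : ℂ) * y)‖ₑ *
              Φ (-(((M : ℂ) * y) / (M : ℂ)))) := by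
          intro y
          rw [lintegral_mul_const _ (by
            have h1 : Measurable fun z : ℂ => f (-y + z) := hf.comp (by fun_prop)
            exact (h1.sub hf).enorm)]
          have e3 : ((M : ℂ) * y) / (M : ℂ) = y := by
            have : (M : ℂ) ≠ 0 := by exact_mod_cast hM.ne'
            field_simp
          rw [e3, inv_mM M hM.ne', enorm_mul]
          have e4 : ‖((M ^ 2 : ℝ) : ℂ)‖ₑ = ENNReal.ofReal (M ^ 2) := by
            rw [← ofReal_norm, Complex.norm_real, Real.norm_eq_abs,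
              abs_of_nonneg (by positivity)]
          rw [e4]
          simp only [Φ]
          ring
        simp only [e2]
        exact lintegral_scale (fun u => ‖𝓕⁻ chiC u‖ₑ * Φ (-(u / (M : ℂ)))) M hM
      · apply Measurable.aemeasurable
        have h1 : Measurable fun p : ℂ × ℂ => f (-p.2 + p.1) := hf.comp (by fun_prop)
        have h2 : Measurable fun p : ℂ × ℂ => f p.1 := hf.comp measurable_fst
        exact (h1.sub h2).enorm.mul (hPc.measurable.comp measurable_snd).enorm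
    calc ∫⁻ z, ‖f z - 𝓕⁻ (fun ξ => mM M ξ * 𝓕 f ξ) z‖ₑ ^ 2 ≤ ∫⁻ z, (2 * k₁) * J z := by
          apply lintegral_mono
          intro z
          calc ‖f z - 𝓕⁻ (fun ξ => mM M ξ * 𝓕 f ξ) z‖ₑ ^ 2 ≤ J z ^ 2 := by
                gcongr
                exact hJ z
            _ = J z * J z := sq _
            _ ≤ (2 * k₁) * J z := mul_le_mul_left (hJ2 z) _
      _ = (2 * k₁) * ∫⁻ z, J z :=
          lintegral_const_mul' _ _ (ENNReal.mul_ne_top (by simp) k₁_ne_top)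
      _ ≤ ENNReal.ofReal δ := by
          rw [hJ3]
          exact hn.le


/-- measurable bounded square integrable functions -/
structure Cls (f : ℂ → ℂ) : Prop where
  meas : Measurable f
  bdd : ∃ K : ℝ, ∀ z, ‖f z‖ ≤ K
  memLp : MemLp f 2 volume

theorem Cls.sub {f g : ℂ → ℂ} (hf : Cls f) (hg : Cls g) : Cls (fun z => f z - g z) := by
  obtain ⟨K, hK⟩ := hf.bdd
  obtain ⟨K', hK'⟩ := hg.bdd
  exact ⟨hf.meas.sub hg.meas, ⟨K + K', fun z => (norm_sub_le _ _).trans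
    (add_le_add (hK z) (hK' z))⟩, hf.memLp.sub hg.memLp⟩

theorem Cls.translate {f : ℂ → ℂ} (hf : Cls f) (v : ℂ) : Cls (fun z => f (z + v)) := by
  obtain ⟨K, hK⟩ := hf.bdd
  exact ⟨hf.meas.comp (measurable_add_const v), ⟨K, fun z => hK _⟩,
    hf.memLp.comp_measurePreserving (measurePreserving_add_right volume v)⟩

theorem Cls.inv {a : ℂ → ℂ} (ha : Nice a) : Cls (𝓕⁻ a) :=
  ⟨(nice_continuous a ha).measurable, bdd_inv a, (nice_memLp a ha).2⟩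

theorem Cls.of_bdd {f : ℂ → ℂ} (hf : Measurable f) (K D : ℝ) (hK : ∀ z, ‖f z‖ ≤ K)
    (hD : ∀ z, D ≤ ‖z‖ → f z = 0) : Cls f := by
  refine ⟨hf, ⟨K, hK⟩, ?_⟩
  rw [memLp_two_iff_integrable_sq_norm hf.aestronglyMeasurable]
  have hK0 : 0 ≤ K := (norm_nonneg _).trans (hK 0)
  have h := integrable_of_bdd (fun v => ((‖f v‖ ^ 2 : ℝ) : ℂ)) (by fun_prop) (K ^ 2) D ?_ ?_
  · refine h.norm.congr (Filter.Eventually.of_forall fun v => ?_)
    show ‖((‖f v‖ ^ 2 : ℝ) : ℂ)‖ = ‖f v‖ ^ 2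
    rw [Complex.norm_real, Real.norm_eq_abs, abs_of_nonneg (by positivity)]
  · intro z
    rw [Complex.norm_real, Real.norm_eq_abs, abs_of_nonneg (by positivity)]
    gcongr
    exact hK z
  · intro z hz
    rw [hD z hz]
    simp

/-- the `L²` norm -/
noncomputable def n2 (f : ℂ → ℂ) : ℝ := Real.sqrt (∫ z, ‖f z‖ ^ 2)

theorem n2_nonneg (f : ℂ → ℂ) : 0 ≤ n2 f := Real.sqrt_nonneg _

theorem n2_translate (f : ℂ → ℂ) (v : ℂ) : n2 (fun z => f (z + v)) = n2 f := by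
  unfold n2
  rw [integral_add_right_eq_self (fun z => ‖f z‖ ^ 2) v]

theorem tri_integrable (ρ : ℂ) {f₁ f₂ f₃ : ℂ → ℂ} (h₁ : Cls f₁) (h₂ : Cls f₂) (h₃ : Cls f₃)
    (v : ℂ) : Integrable (fun z => f₁ z * f₂ (z + v) * f₃ (z + ρ * v)) := by
  obtain ⟨K, hK⟩ := h₁.bdd
  have h := (h₂.translate v).memLp.integrable_mul (h₃.translate (ρ * v)).memLp
  have h' := h.bdd_mul h₁.meas.aestronglyMeasurable (Filter.Eventually.of_forall hK)
  refine h'.congr (Filter.Eventually.of_forall fun z => ?_)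
  simp only [Pi.mul_apply]
  ring

theorem tri_bound (ρ : ℂ) {f₁ f₂ f₃ : ℂ → ℂ} (h₁ : Cls f₁) (h₂ : Cls f₂) (h₃ : Cls f₃) :
    ∃ B : ℝ, ∀ v, ‖tri ρ f₁ f₂ f₃ v‖ ≤ B := by
  obtain ⟨K, hK⟩ := h₁.bdd
  have hK0 : 0 ≤ K := (norm_nonneg _).trans (hK 0)
  have i2 := (memLp_two_iff_integrable_sq_norm h₂.meas.aestronglyMeasurable).1 h₂.memLp
  have i3 := (memLp_two_iff_integrable_sq_norm h₃.meas.aestronglyMeasurable).1 h₃.memLp
  refine ⟨K * ((∫ z, ‖f₂ z‖ ^ 2) + ∫ z, ‖f₃ z‖ ^ 2), fun v => ?_⟩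
  unfold tri
  have e : K * ((∫ z, ‖f₂ z‖ ^ 2) + ∫ z, ‖f₃ z‖ ^ 2) =
      ∫ z, K * (‖f₂ (z + v)‖ ^ 2 + ‖f₃ (z + ρ * v)‖ ^ 2) := by
    rw [integral_const_mul, integral_add (i2.comp_add_right v) (i3.comp_add_right (ρ * v)),
      integral_add_right_eq_self (fun z => ‖f₂ z‖ ^ 2) v,
      integral_add_right_eq_self (fun z => ‖f₃ z‖ ^ 2) (ρ * v)]
  rw [e]
  apply norm_integral_le_of_norm_le
  · exact ((i2.comp_add_right v).add (i3.comp_add_right (ρ * v))).const_mul K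
  · refine Filter.Eventually.of_forall fun z => ?_
    rw [norm_mul, norm_mul, mul_assoc]
    apply mul_le_mul (hK z) _ (by positivity) hK0
    nlinarith [sq_nonneg (‖f₂ (z + v)‖ - ‖f₃ (z + ρ * v)‖), norm_nonneg (f₂ (z + v)),
      norm_nonneg (f₃ (z + ρ * v))]

theorem tri_meas (ρ : ℂ) {f₁ f₂ f₃ : ℂ → ℂ} (h₁ : Cls f₁) (h₂ : Cls f₂) (h₃ : Cls f₃) :
    Measurable (tri ρ f₁ f₂ f₃) := by
  have hm : Measurable (fun p : ℂ × ℂ => f₁ p.2 * f₂ (p.2 + p.1) * f₃ (p.2 + ρ * p.1)) :=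
    ((h₁.meas.comp measurable_snd).mul (h₂.meas.comp (by fun_prop))).mul
      (h₃.meas.comp (by fun_prop))
  exact (hm.stronglyMeasurable.integral_prod_right'
    (ν := (volume : Measure ℂ))).measurable

theorem lam_intble (ρ : ℂ) {f₁ f₂ f₃ : ℂ → ℂ} (h₁ : Cls f₁) (h₂ : Cls f₂) (h₃ : Cls f₃) (w : ℂ) :
    IntegrableOn (fun θ => tri ρ f₁ f₂ f₃ (cis θ + w)) (Ioc 0 (2 * π)) := by
  obtain ⟨B, hB⟩ := tri_bound ρ h₁ h₂ h₃
  apply Measure.integrableOn_of_bounded (M := B)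
  · exact measure_Ioc_lt_top.ne
  · exact ((tri_meas ρ h₁ h₂ h₃).comp (lw_measurable_cis.add_const w)).aestronglyMeasurable
  · exact Filter.Eventually.of_forall fun θ => hB _

theorem lam_meas (ρ : ℂ) {f₁ f₂ f₃ : ℂ → ℂ} (h₁ : Cls f₁) (h₂ : Cls f₂) (h₃ : Cls f₃) :
    Measurable (Lam ρ f₁ f₂ f₃) := by
  have hm : Measurable (fun p : ℂ × ℝ => tri ρ f₁ f₂ f₃ (cis p.2 + p.1)) :=
    (tri_meas ρ h₁ h₂ h₃).comp ((lw_measurable_cis.comp measurable_snd).add measurable_fst)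
  exact (hm.stronglyMeasurable.integral_prod_right'
    (ν := (volume.restrict (Ioc 0 (2 * π)) : Measure ℝ))).measurable

theorem lam_sub₁ (ρ : ℂ) {f₁ g₁ f₂ f₃ : ℂ → ℂ} (h₁ : Cls f₁) (k₁ : Cls g₁) (h₂ : Cls f₂)
    (h₃ : Cls f₃) (w : ℂ) :
    Lam ρ (fun z => f₁ z - g₁ z) f₂ f₃ w = Lam ρ f₁ f₂ f₃ w - Lam ρ g₁ f₂ f₃ w := by
  unfold Lam
  rw [← integral_sub (lam_intble ρ h₁ h₂ h₃ w) (lam_intble ρ k₁ h₂ h₃ w)]
  congr 1
  ext θ
  unfold tri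
  rw [← integral_sub (tri_integrable ρ h₁ h₂ h₃ _) (tri_integrable ρ k₁ h₂ h₃ _)]
  congr 1
  ext z
  ring

theorem lam_sub₂ (ρ : ℂ) {f₁ g₂ f₂ f₃ : ℂ → ℂ} (h₁ : Cls f₁) (k₂ : Cls g₂) (h₂ : Cls f₂)
    (h₃ : Cls f₃) (w : ℂ) :
    Lam ρ f₁ (fun z => f₂ z - g₂ z) f₃ w = Lam ρ f₁ f₂ f₃ w - Lam ρ f₁ g₂ f₃ w := by
  unfold Lam
  rw [← integral_sub (lam_intble ρ h₁ h₂ h₃ w) (lam_intble ρ h₁ k₂ h₃ w)]
  congr 1
  ext θ
  unfold tri
  rw [← integral_sub (tri_integrable ρ h₁ h₂ h₃ _) (tri_integrable ρ h₁ k₂ h₃ _)]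
  congr 1
  ext z
  ring

theorem lam_sub₃ (ρ : ℂ) {f₁ g₃ f₂ f₃ : ℂ → ℂ} (h₁ : Cls f₁) (k₃ : Cls g₃) (h₂ : Cls f₂)
    (h₃ : Cls f₃) (w : ℂ) :
    Lam ρ f₁ f₂ (fun z => f₃ z - g₃ z) w = Lam ρ f₁ f₂ f₃ w - Lam ρ f₁ f₂ g₃ w := by
  unfold Lam
  rw [← integral_sub (lam_intble ρ h₁ h₂ h₃ w) (lam_intble ρ h₁ h₂ k₃ w)]
  congr 1
  ext θ
  unfold tri
  rw [← integral_sub (tri_integrable ρ h₁ h₂ h₃ _) (tri_integrable ρ h₁ h₂ k₃ _)]
  congr 1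
  ext z
  ring

theorem lam_diff (ρ : ℂ) (hρ : ρ.im ≠ 0) : ∃ C : ℝ, 0 ≤ C ∧ ∀ f₁ f₂ f₃ g₁ g₂ g₃ : ℂ → ℂ,
    Cls f₁ → Cls f₂ → Cls f₃ → Cls g₁ → Cls g₂ → Cls g₃ → ∀ w : ℂ,
    ‖Lam ρ f₁ f₂ f₃ w‖ ≤ C * n2 f₁ * n2 f₂ * n2 f₃ ∧
    ‖Lam ρ f₁ f₂ f₃ w - Lam ρ g₁ g₂ g₃ w‖ ≤
      C * n2 (fun z => f₁ z - g₁ z) * n2 f₂ * n2 f₃ +
      C * n2 g₁ * n2 (fun z => f₂ z - g₂ z) * n2 f₃ +
      C * n2 g₁ * n2 g₂ * n2 (fun z => f₃ z - g₃ z) := by
  obtain ⟨C, hC, h⟩ := lam_le ρ hρ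
  refine ⟨C, hC, ?_⟩
  intro f₁ f₂ f₃ g₁ g₂ g₃ h₁ h₂ h₃ k₁ k₂ k₃ w
  refine ⟨h f₁ f₂ f₃ h₁.memLp h₂.memLp h₃.memLp w, ?_⟩
  have e : Lam ρ f₁ f₂ f₃ w - Lam ρ g₁ g₂ g₃ w =
      Lam ρ (fun z => f₁ z - g₁ z) f₂ f₃ w + Lam ρ g₁ (fun z => f₂ z - g₂ z) f₃ w +
      Lam ρ g₁ g₂ (fun z => f₃ z - g₃ z) w := by
    rw [lam_sub₁ ρ h₁ k₁ h₂ h₃, lam_sub₂ ρ k₁ k₂ h₂ h₃, lam_sub₃ ρ k₁ k₃ k₂ h₃]
    ring
  rw [e]
  refine (norm_add₃_le).trans (add_le_add (add_le_add ?_ ?_) ?_)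
  · exact h _ _ _ (h₁.sub k₁).memLp h₂.memLp h₃.memLp w
  · exact h _ _ _ k₁.memLp (h₂.sub k₂).memLp h₃.memLp w
  · exact h _ _ _ k₁.memLp k₂.memLp (h₃.sub k₃).memLp w

theorem lamK_intble (ρ : ℂ) (hρ : ρ.im ≠ 0) {f₁ f₂ f₃ : ℂ → ℂ} (h₁ : Cls f₁) (h₂ : Cls f₂)
    (h₃ : Cls f₃) (k : ℂ → ℂ) (hk : Integrable k) :
    Integrable (fun w => k w * Lam ρ f₁ f₂ f₃ w) := by
  obtain ⟨C, hC, h⟩ := lam_diff ρ hρ
  have := hk.bdd_mul (lam_meas ρ h₁ h₂ h₃).aestronglyMeasurable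
    (Filter.Eventually.of_forall fun w => (h f₁ f₂ f₃ f₁ f₂ f₃ h₁ h₂ h₃ h₁ h₂ h₃ w).1)
  refine this.congr (Filter.Eventually.of_forall fun w => ?_)
  simp only
  ring

theorem lamK_diff (ρ : ℂ) (hρ : ρ.im ≠ 0) {f₁ f₂ f₃ g₁ g₂ g₃ : ℂ → ℂ} (h₁ : Cls f₁) (h₂ : Cls f₂)
    (h₃ : Cls f₃) (k₁ : Cls g₁) (k₂ : Cls g₂) (k₃ : Cls g₃) (k : ℂ → ℂ) (hk : Integrable k)
    (B : ℝ) (hB : ∀ w, ‖Lam ρ f₁ f₂ f₃ w - Lam ρ g₁ g₂ g₃ w‖ ≤ B) :
    ‖LamK ρ k f₁ f₂ f₃ - LamK ρ k g₁ g₂ g₃‖ ≤ (∫ w, ‖k w‖) * B := by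
  unfold LamK
  rw [← integral_sub (lamK_intble ρ hρ h₁ h₂ h₃ k hk) (lamK_intble ρ hρ k₁ k₂ k₃ k hk),
    ← integral_mul_const]
  apply norm_integral_le_of_norm_le (hk.norm.mul_const B)
  refine Filter.Eventually.of_forall fun w => ?_
  rw [← mul_sub, norm_mul]
  exact mul_le_mul_of_nonneg_left (hB w) (norm_nonneg _)


theorem sq_integrable {f : ℂ → ℂ} (hf : Cls f) : Integrable (fun z => ‖f z‖ ^ 2) :=
  (memLp_two_iff_integrable_sq_norm hf.meas.aestronglyMeasurable).1 hf.memLp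

theorem integral_sq_le {f : ℂ → ℂ} (hf : Measurable f) (D : ℝ) (hK : ∀ z, ‖f z‖ ≤ 1)
    (hD : ∀ z, D ≤ ‖z‖ → f z = 0) :
    ∫ z, ‖f z‖ ^ 2 ≤ (volume (closedBall (0 : ℂ) D)).toReal := by
  have h1 : ∫ z, ‖f z‖ ^ 2 = ∫ z in closedBall (0 : ℂ) D, ‖f z‖ ^ 2 := by
    rw [setIntegral_eq_integral_of_forall_compl_eq_zero]
    intro z hz
    rw [hD z]
    · simp
    · rw [mem_closedBall, dist_zero_right] at hz
      exact (not_le.1 hz).le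
  rw [h1]
  have hcls := Cls.of_bdd hf 1 D hK hD
  calc ∫ z in closedBall (0 : ℂ) D, ‖f z‖ ^ 2 ≤ ∫ z in closedBall (0 : ℂ) D, (1 : ℝ) := by
        apply setIntegral_mono (sq_integrable hcls).integrableOn
        · exact integrableOn_const measure_closedBall_lt_top.ne
        · intro z
          have := hK z
          have h0 := norm_nonneg (f z)
          show ‖f z‖ ^ 2 ≤ 1
          nlinarith
    _ = (volume (closedBall (0 : ℂ) D)).toReal := by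
        rw [setIntegral_const]
        simp [Measure.real]

theorem integral_sq_le_two {f g : ℂ → ℂ} (hf : Cls f) (hg : Cls g) :
    ∫ z, ‖g z‖ ^ 2 ≤ 2 * (∫ z, ‖f z‖ ^ 2) + 2 * ∫ z, ‖f z - g z‖ ^ 2 := by
  rw [← integral_const_mul, ← integral_const_mul,
    ← integral_add ((sq_integrable hf).const_mul 2) ((sq_integrable (hf.sub hg)).const_mul 2)]
  apply integral_mono (sq_integrable hg)
    (((sq_integrable hf).const_mul 2).add ((sq_integrable (hf.sub hg)).const_mul 2))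
  intro z
  show ‖g z‖ ^ 2 ≤ 2 * ‖f z‖ ^ 2 + 2 * ‖f z - g z‖ ^ 2
  have h : ‖g z‖ ≤ ‖f z‖ + ‖f z - g z‖ := by
    calc ‖g z‖ = ‖f z - (f z - g z)‖ := by congr 1; ring
      _ ≤ _ := norm_sub_le _ _
  nlinarith [sq_nonneg (‖f z‖ - ‖f z - g z‖), norm_nonneg (g z), norm_nonneg (f z),
    norm_nonneg (f z - g z)]

theorem integral_sq_of_lintegral {g : ℂ → ℂ} (hg : Cls g) (δ : ℝ) (hδ : 0 ≤ δ)
    (h : ∫⁻ z, ‖g z‖ₑ ^ 2 ≤ ENNReal.ofReal δ) : ∫ z, ‖g z‖ ^ 2 ≤ δ := by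
  rw [integral_eq_lintegral_of_nonneg_ae (Filter.Eventually.of_forall fun z => by positivity)
    (sq_integrable hg).aestronglyMeasurable]
  have e : ∫⁻ z, ENNReal.ofReal (‖g z‖ ^ 2) = ∫⁻ z, ‖g z‖ₑ ^ 2 := by
    congr 1
    ext z
    rw [ENNReal.ofReal_pow (norm_nonneg _), ofReal_norm]
  rw [e]
  calc (∫⁻ z, ‖g z‖ₑ ^ 2).toReal ≤ (ENNReal.ofReal δ).toReal :=
        ENNReal.toReal_mono ENNReal.ofReal_ne_top h
    _ = δ := ENNReal.toReal_ofReal hδ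

theorem PR_integrable (R : ℝ) (hR : 0 < R) : Integrable (PR R) := by
  have h := (nice_integrable _ (nice_mM R hR.ne')).2
  refine h.congr (Filter.Eventually.of_forall fun y => inv_mM_eq_PR R hR.ne' y)

theorem PR_norm (R : ℝ) (hR : 0 < R) : ∫ w, ‖PR R w‖ = k₁.toReal := by
  have h := lintegral_inv_mM R hR
  rw [← h, ← integral_toReal]
  · congr 1
    ext y
    rw [toReal_enorm, inv_mM_eq_PR R hR.ne']
  · exact (nice_continuous _ (nice_mM R hR.ne')).measurable.enorm.aemeasurable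
  · exact Filter.Eventually.of_forall fun y => enorm_lt_top

theorem tri_smul (ρ : ℂ) (f₁ f₂ f₃ : ℂ → ℂ) (c v : ℂ) :
    tri ρ (fun z => c * f₁ z) (fun z => c * f₂ z) (fun z => c * f₃ z) v =
      c ^ 3 * tri ρ f₁ f₂ f₃ v := by
  unfold tri
  rw [← integral_const_mul]
  congr 1
  ext z
  ring

theorem lam_smul (ρ : ℂ) (f₁ f₂ f₃ : ℂ → ℂ) (c w : ℂ) :
    Lam ρ (fun z => c * f₁ z) (fun z => c * f₂ z) (fun z => c * f₃ z) w =
      c ^ 3 * Lam ρ f₁ f₂ f₃ w := by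
  unfold Lam
  simp only [tri_smul]
  rw [integral_const_mul]

theorem lamK_smul (ρ : ℂ) (k f₁ f₂ f₃ : ℂ → ℂ) (c : ℂ) :
    LamK ρ k (fun z => c * f₁ z) (fun z => c * f₂ z) (fun z => c * f₃ z) =
      c ^ 3 * LamK ρ k f₁ f₂ f₃ := by
  unfold LamK
  simp only [lam_smul]
  rw [← integral_const_mul]
  congr 1
  ext w
  ring

theorem nice_smul {a : ℂ → ℂ} (ha : Nice a) (c : ℂ) : Nice (fun ξ => c * a ξ) :=
  ⟨contDiff_const.mul ha.smooth, ha.compact.mul_left⟩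

theorem inv_smul (a : ℂ → ℂ) (c : ℂ) : 𝓕⁻ (fun ξ => c * a ξ) = fun z => c * 𝓕⁻ a z := by
  ext z
  rw [tb_fourierInv, tb_fourierInv, ← integral_const_mul]
  congr 1
  ext ξ
  ring

/-- the property (S) -/
def PropS (ρ : ℂ) : Prop :=
    ∀ V ε : ℝ, 0 < V → 0 < ε → ∃ R₀ : ℝ, 1 ≤ R₀ ∧ ∀ R : ℝ, R₀ ≤ R →
      ∀ a₁ a₂ a₃ : ℂ → ℂ, Nice a₁ → Nice a₂ → Nice a₃ →
      (∀ z, ‖𝓕⁻ a₁ z‖ ≤ 1) → (∀ z, ‖𝓕⁻ a₂ z‖ ≤ 1) → (∀ z, ‖𝓕⁻ a₃ z‖ ≤ 1) →
      (∫ ξ, ‖a₁ ξ‖ ^ 2) ≤ V → (∫ ξ, ‖a₂ ξ‖ ^ 2) ≤ V → (∫ ξ, ‖a₃ ξ‖ ^ 2) ≤ V →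
      ‖Lam ρ (𝓕⁻ a₁) (𝓕⁻ a₂) (𝓕⁻ a₃) 0 - LamK ρ (PR R) (𝓕⁻ a₁) (𝓕⁻ a₂) (𝓕⁻ a₃)‖ ≤ ε

theorem sprime (ρ : ℂ) (hi : ρ.im ≠ 0) (hS : PropS ρ) (D ε : ℝ) (hε : 0 < ε) :
    ∃ R : ℝ, 1 ≤ R ∧ ∀ f₁ f₂ f₃ : ℂ → ℂ, Measurable f₁ → Measurable f₂ → Measurable f₃ →
      (∀ z, ‖f₁ z‖ ≤ 1) → (∀ z, ‖f₂ z‖ ≤ 1) → (∀ z, ‖f₃ z‖ ≤ 1) →
      (∀ z, D ≤ ‖z‖ → f₁ z = 0) → (∀ z, D ≤ ‖z‖ → f₂ z = 0) → (∀ z, D ≤ ‖z‖ → f₃ z = 0) →
      ‖Lam ρ f₁ f₂ f₃ 0 - LamK ρ (PR R) f₁ f₂ f₃‖ ≤ ε := by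
  obtain ⟨C, hC, hL⟩ := lam_diff ρ hi
  set v : ℝ := (volume (closedBall (0 : ℂ) D)).toReal with hv
  have hv0 : 0 ≤ v := ENNReal.toReal_nonneg
  set V : ℝ := 2 * v + 2 with hV
  have hV0 : 0 < V := by positivity
  set κ : ℝ := k₁.toReal with hκ
  have hκ0 : 0 ≤ κ := ENNReal.toReal_nonneg
  set K : ℝ := κ + 1 with hKdef
  have hK1 : 1 ≤ K := by linarith
  have hK0 : 0 < K := by linarith
  set W : ℝ := Real.sqrt V with hW
  have hW0 : 0 ≤ W := Real.sqrt_nonneg _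
  set Y : ℝ := 3 * C * W ^ 2 * (1 + κ) + 1 with hY
  have hY0 : 0 < Y := by positivity
  obtain ⟨R, hR1, hR⟩ := hS V (ε / (2 * K ^ 3)) hV0 (by positivity)
  have hR0 : 0 < R := by linarith
  refine ⟨R, hR1, ?_⟩
  intro f₁ f₂ f₃ m₁ m₂ m₃ b₁ b₂ b₃ s₁ s₂ s₃
  set δ : ℝ := min 1 ((ε / (2 * Y)) ^ 2) with hδ
  have hδ0 : 0 < δ := by positivity
  have hδ1 : δ ≤ 1 := min_le_left _ _
  have hδ2 : Real.sqrt δ ≤ ε / (2 * Y) := by
    calc Real.sqrt δ ≤ Real.sqrt ((ε / (2 * Y)) ^ 2) := Real.sqrt_le_sqrt (min_le_right _ _)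
      _ = ε / (2 * Y) := Real.sqrt_sq (by positivity)
  -- approximation of one function
  have key : ∀ f : ℂ → ℂ, Measurable f → (∀ z, ‖f z‖ ≤ 1) → (∀ z, D ≤ ‖z‖ → f z = 0) →
      ∃ b : ℂ → ℂ, Nice b ∧ (∀ z, ‖𝓕⁻ b z‖ ≤ 1) ∧ (∫ ξ, ‖b ξ‖ ^ 2) ≤ V ∧
        Cls f ∧ Cls (fun z => (K : ℂ) * 𝓕⁻ b z) ∧ n2 f ≤ W ∧
        n2 (fun z => (K : ℂ) * 𝓕⁻ b z) ≤ W ∧
        n2 (fun z => f z - (K : ℂ) * 𝓕⁻ b z) ≤ ε / (2 * Y) := by
    intro f hf hb hs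
    obtain ⟨a, ha, ha1, ha2⟩ := approx f hf D hb hs δ hδ0
    have hcf := Cls.of_bdd hf 1 D hb hs
    have hca := Cls.inv ha
    have hKc : (K : ℂ) ≠ 0 := by exact_mod_cast hK0.ne'
    have e1 : 𝓕⁻ (fun ξ => (K : ℂ)⁻¹ * a ξ) = fun z => (K : ℂ)⁻¹ * 𝓕⁻ a z := inv_smul a _
    have e2 : (fun z => (K : ℂ) * 𝓕⁻ (fun ξ => (K : ℂ)⁻¹ * a ξ) z) = 𝓕⁻ a := by
      rw [e1]
      ext z
      rw [← mul_assoc, mul_inv_cancel₀ hKc, one_mul]
    have hdiff : ∫ z, ‖f z - 𝓕⁻ a z‖ ^ 2 ≤ δ :=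
      integral_sq_of_lintegral (hcf.sub hca) δ hδ0.le ha2
    have hfv : ∫ z, ‖f z‖ ^ 2 ≤ v := integral_sq_le hf D hb hs
    have hav : ∫ z, ‖𝓕⁻ a z‖ ^ 2 ≤ V := by
      have := integral_sq_le_two hcf hca
      rw [hV]
      linarith
    refine ⟨fun ξ => (K : ℂ)⁻¹ * a ξ, nice_smul ha _, ?_, ?_, hcf, ?_, ?_, ?_, ?_⟩
    · intro z
      rw [e1, norm_mul, norm_inv, Complex.norm_real, Real.norm_eq_abs, abs_of_pos hK0]
      have h1 := ha1 z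
      rw [inv_mul_le_iff₀ hK0]
      linarith
    · have h1 : ∀ ξ, ‖(K : ℂ)⁻¹ * a ξ‖ ^ 2 = (K⁻¹) ^ 2 * ‖a ξ‖ ^ 2 := by
        intro ξ
        rw [norm_mul, norm_inv, Complex.norm_real, Real.norm_eq_abs, abs_of_pos hK0, mul_pow]
      simp only [h1]
      rw [integral_const_mul, ← plancherel_sq a ha]
      have h2 : (K⁻¹) ^ 2 ≤ 1 := by
        have : K⁻¹ ≤ 1 := inv_le_one_of_one_le₀ hK1
        have h3 : 0 ≤ K⁻¹ := by positivity
        nlinarith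
      have h3 : 0 ≤ ∫ z, ‖𝓕⁻ a z‖ ^ 2 := integral_nonneg fun z => by positivity
      nlinarith
    · rw [e2]
      exact hca
    · unfold n2
      apply Real.sqrt_le_sqrt
      rw [hV]
      linarith
    · rw [e2]
      exact Real.sqrt_le_sqrt hav
    · have e3 : (fun z => f z - (K : ℂ) * 𝓕⁻ (fun ξ => (K : ℂ)⁻¹ * a ξ) z) =
          fun z => f z - 𝓕⁻ a z := by
        ext z
        have := congrFun e2 z
        rw [this]
      rw [e3]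
      exact (Real.sqrt_le_sqrt hdiff).trans hδ2
  obtain ⟨a₁, na₁, ba₁, va₁, cf₁, cg₁, nf₁, ng₁, d₁⟩ := key f₁ m₁ b₁ s₁
  obtain ⟨a₂, na₂, ba₂, va₂, cf₂, cg₂, nf₂, ng₂, d₂⟩ := key f₂ m₂ b₂ s₂
  obtain ⟨a₃, na₃, ba₃, va₃, cf₃, cg₃, nf₃, ng₃, d₃⟩ := key f₃ m₃ b₃ s₃
  set g₁ : ℂ → ℂ := fun z => (K : ℂ) * 𝓕⁻ a₁ z with hg₁
  set g₂ : ℂ → ℂ := fun z => (K : ℂ) * 𝓕⁻ a₂ z with hg₂
  set g₃ : ℂ → ℂ := fun z => (K : ℂ) * 𝓕⁻ a₃ z with hg₃
  set η : ℝ := ε / (2 * Y) with hη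
  have hη0 : 0 ≤ η := by positivity
  have hB : ∀ w, ‖Lam ρ f₁ f₂ f₃ w - Lam ρ g₁ g₂ g₃ w‖ ≤ 3 * C * W ^ 2 * η := by
    intro w
    refine (hL f₁ f₂ f₃ g₁ g₂ g₃ cf₁ cf₂ cf₃ cg₁ cg₂ cg₃ w).2.trans ?_
    have t1 : C * n2 (fun z => f₁ z - g₁ z) * n2 f₂ * n2 f₃ ≤ C * η * W * W := by
      have := n2_nonneg (fun z => f₁ z - g₁ z)
      have := n2_nonneg f₂
      have := n2_nonneg f₃
      gcongr
    have t2 : C * n2 g₁ * n2 (fun z => f₂ z - g₂ z) * n2 f₃ ≤ C * W * η * W := by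
      have := n2_nonneg (fun z => f₂ z - g₂ z)
      have := n2_nonneg g₁
      have := n2_nonneg f₃
      gcongr
    have t3 : C * n2 g₁ * n2 g₂ * n2 (fun z => f₃ z - g₃ z) ≤ C * W * W * η := by
      have := n2_nonneg (fun z => f₃ z - g₃ z)
      have := n2_nonneg g₁
      have := n2_nonneg g₂
      gcongr
    nlinarith
  have hK := lamK_diff ρ hi cf₁ cf₂ cf₃ cg₁ cg₂ cg₃ (PR R) (PR_integrable R hR0) _ hB
  rw [PR_norm R hR0] at hK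
  have hmid : ‖Lam ρ g₁ g₂ g₃ 0 - LamK ρ (PR R) g₁ g₂ g₃‖ ≤ ε / 2 := by
    have h := hR R le_rfl a₁ a₂ a₃ na₁ na₂ na₃ ba₁ ba₂ ba₃ va₁ va₂ va₃
    rw [hg₁, hg₂, hg₃, lam_smul, lamK_smul, ← mul_sub, norm_mul, norm_pow, Complex.norm_real,
      Real.norm_eq_abs, abs_of_pos hK0]
    calc K ^ 3 * ‖Lam ρ (𝓕⁻ a₁) (𝓕⁻ a₂) (𝓕⁻ a₃) 0 -
          LamK ρ (PR R) (𝓕⁻ a₁) (𝓕⁻ a₂) (𝓕⁻ a₃)‖ ≤ K ^ 3 * (ε / (2 * K ^ 3)) := by gcongr
      _ = ε / 2 := by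
          field_simp
  have e : Lam ρ f₁ f₂ f₃ 0 - LamK ρ (PR R) f₁ f₂ f₃ =
      (Lam ρ f₁ f₂ f₃ 0 - Lam ρ g₁ g₂ g₃ 0) +
      (Lam ρ g₁ g₂ g₃ 0 - LamK ρ (PR R) g₁ g₂ g₃) -
      (LamK ρ (PR R) f₁ f₂ f₃ - LamK ρ (PR R) g₁ g₂ g₃) := by ring
  rw [e]
  calc _ ≤ ‖(Lam ρ f₁ f₂ f₃ 0 - Lam ρ g₁ g₂ g₃ 0) +
      (Lam ρ g₁ g₂ g₃ 0 - LamK ρ (PR R) g₁ g₂ g₃)‖ +
      ‖LamK ρ (PR R) f₁ f₂ f₃ - LamK ρ (PR R) g₁ g₂ g₃‖ := norm_sub_le _ _
    _ ≤ ‖Lam ρ f₁ f₂ f₃ 0 - Lam ρ g₁ g₂ g₃ 0‖ +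
      ‖Lam ρ g₁ g₂ g₃ 0 - LamK ρ (PR R) g₁ g₂ g₃‖ +
      ‖LamK ρ (PR R) f₁ f₂ f₃ - LamK ρ (PR R) g₁ g₂ g₃‖ := by
        gcongr
        exact norm_add_le _ _
    _ ≤ 3 * C * W ^ 2 * η + ε / 2 + κ * (3 * C * W ^ 2 * η) := by
        gcongr
        exact hB 0
    _ ≤ ε := by
        have h1 : Y * η = ε / 2 := by
          rw [hη]
          field_simp
        have h2 : 3 * C * W ^ 2 * (1 + κ) * η ≤ Y * η := by
          apply mul_le_mul_of_nonneg_right _ hη0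
          rw [hY]
          linarith
        nlinarith


theorem gauss_integral (s : ℝ) (hs : 0 < s) : ∫ w : ℂ, gauss s w = 1 := by
  unfold gauss
  rw [integral_const_mul]
  have h := GaussianFourier.integral_rexp_neg_mul_sq_norm (V := ℂ) (b := π / s ^ 2)
    (by positivity)
  have e : (fun w : ℂ => Real.exp (-π * ‖w‖ ^ 2 / s ^ 2)) =
      fun w : ℂ => Real.exp (-(π / s ^ 2) * ‖w‖ ^ 2) := by
    ext w
    congr 1
    ring
  rw [e, h, Complex.finrank_real_complex]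
  have h1 : π / (π / s ^ 2) = s ^ 2 := by
    field_simp
  rw [h1]
  norm_num
  field_simp

theorem gauss_integrable (s : ℝ) (hs : 0 < s) : Integrable (fun w : ℂ => gauss s w) :=
  integrable_of_integral_eq_one (gauss_integral s hs)

theorem gauss_nonneg (s : ℝ) (w : ℂ) : 0 ≤ gauss s w := by
  unfold gauss
  positivity

theorem gauss_tail (s η : ℝ) (hs : 0 < s) (hη : 0 ≤ η) (w : ℂ) (hw : η < ‖w‖) :
    gauss s w ≤ 2 * Real.exp (-(π * η ^ 2 / (2 * s ^ 2))) * gauss (Real.sqrt 2 * s) w := by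
  unfold gauss
  have e1 : (Real.sqrt 2 * s) ^ 2 = 2 * s ^ 2 := by
    rw [mul_pow, Real.sq_sqrt (by norm_num)]
  rw [e1]
  have e2 : Real.exp (-π * ‖w‖ ^ 2 / s ^ 2) =
      Real.exp (-(π * ‖w‖ ^ 2 / (2 * s ^ 2))) * Real.exp (-π * ‖w‖ ^ 2 / (2 * s ^ 2)) := by
    rw [← Real.exp_add]
    congr 1
    field_simp
    ring
  rw [e2]
  have e3 : Real.exp (-(π * ‖w‖ ^ 2 / (2 * s ^ 2))) ≤ Real.exp (-(π * η ^ 2 / (2 * s ^ 2))) := by
    apply Real.exp_le_exp.2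
    apply neg_le_neg
    have : η ^ 2 ≤ ‖w‖ ^ 2 := by
      apply pow_le_pow_left₀ hη hw.le
    have hpi := Real.pi_pos
    gcongr
  calc (s ^ 2)⁻¹ * (Real.exp (-(π * ‖w‖ ^ 2 / (2 * s ^ 2))) *
        Real.exp (-π * ‖w‖ ^ 2 / (2 * s ^ 2)))
      ≤ (s ^ 2)⁻¹ * (Real.exp (-(π * η ^ 2 / (2 * s ^ 2))) *
        Real.exp (-π * ‖w‖ ^ 2 / (2 * s ^ 2))) := by gcongr
    _ = _ := by
        rw [mul_inv]
        ring

theorem lam_translate (ρ : ℂ) (f₁ f₂ f₃ : ℂ → ℂ) (w u : ℂ) :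
    Lam ρ f₁ (fun z => f₂ (z + w)) (fun z => f₃ (z + ρ * w)) u = Lam ρ f₁ f₂ f₃ (u + w) := by
  unfold Lam
  congr 1
  ext θ
  unfold tri
  congr 1
  ext z
  have e1 : z + (cis θ + u) + w = z + (cis θ + (u + w)) := by ring
  have e2 : z + ρ * (cis θ + u) + ρ * w = z + ρ * (cis θ + (u + w)) := by ring
  show f₁ z * f₂ (z + (cis θ + u) + w) * f₃ (z + ρ * (cis θ + u) + ρ * w) = _
  rw [e1, e2]

theorem smoothG_of (ρ : ℂ) (hi : ρ.im ≠ 0) (hS : PropS ρ) :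
    ∀ D ε : ℝ, 0 < D → 0 < ε → ∃ s₀ : ℝ, 0 < s₀ ∧ ∀ s : ℝ, 0 < s → s ≤ s₀ →
      ∀ f₁ f₂ f₃ : ℂ → ℂ, Measurable f₁ → Measurable f₂ → Measurable f₃ →
      (∀ z, ‖f₁ z‖ ≤ 1) → (∀ z, ‖f₂ z‖ ≤ 1) → (∀ z, ‖f₃ z‖ ≤ 1) →
      (∀ z, D ≤ ‖z‖ → f₁ z = 0) → (∀ z, D ≤ ‖z‖ → f₂ z = 0) → (∀ z, D ≤ ‖z‖ → f₃ z = 0) →
      ‖Lam ρ f₁ f₂ f₃ 0 - LamK ρ (gaussC s) f₁ f₂ f₃‖ ≤ ε := by
  intro D ε _ hε
  obtain ⟨R, hR1, hR⟩ := sprime ρ hi hS (D + 1 + ‖ρ‖) (ε / 8) (by positivity)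
  have hR0 : 0 < R := by linarith
  obtain ⟨C, hC, hL⟩ := lam_diff ρ hi
  set v : ℝ := (volume (closedBall (0 : ℂ) D)).toReal with hv
  have hv0 : 0 ≤ v := ENNReal.toReal_nonneg
  set S : ℝ := C * Real.sqrt v * Real.sqrt v * Real.sqrt v with hSdef
  have hS0 : 0 ≤ S := by positivity
  obtain ⟨C', hC', -, -, -, hker⟩ := kernel_bounds (mM R) (nice_mM R hR0.ne')
  obtain ⟨η, hη0, hη1, hη2⟩ : ∃ η : ℝ, 0 < η ∧ η ≤ 1 ∧ S * (C' * η) ≤ ε / 4 := by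
    refine ⟨min 1 (ε / (4 * (S * C' + 1))), by positivity, min_le_left _ _, ?_⟩
    calc S * (C' * min 1 (ε / (4 * (S * C' + 1)))) ≤ S * (C' * (ε / (4 * (S * C' + 1)))) := by
          gcongr
          exact min_le_right _ _
      _ = (S * C') / (S * C' + 1) * (ε / 4) := by
          field_simp
      _ ≤ 1 * (ε / 4) := by
          gcongr
          rw [div_le_one (by positivity)]
          linarith
      _ = ε / 4 := one_mul _
  refine ⟨η * Real.sqrt (ε / (16 * (S + 1))), by positivity, ?_⟩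
  intro s hs0 hs f₁ f₂ f₃ m₁ m₂ m₃ b₁ b₂ b₃ s₁ s₂ s₃
  have cf₁ := Cls.of_bdd m₁ 1 D b₁ s₁
  have cf₂ := Cls.of_bdd m₂ 1 D b₂ s₂
  have cf₃ := Cls.of_bdd m₃ 1 D b₃ s₃
  have nb : ∀ f : ℂ → ℂ, Measurable f → (∀ z, ‖f z‖ ≤ 1) → (∀ z, D ≤ ‖z‖ → f z = 0) →
      n2 f ≤ Real.sqrt v := fun f hf hb hs => Real.sqrt_le_sqrt (integral_sq_le hf D hb hs)
  set L : ℂ → ℂ := fun w => Lam ρ f₁ f₂ f₃ w with hLdef
  have mL : Measurable L := lam_meas ρ cf₁ cf₂ cf₃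
  have hLb : ∀ w, ‖L w‖ ≤ S := by
    intro w
    refine (hL f₁ f₂ f₃ f₁ f₂ f₃ cf₁ cf₂ cf₃ cf₁ cf₂ cf₃ w).1.trans ?_
    have := n2_nonneg f₁
    have := n2_nonneg f₂
    have := n2_nonneg f₃
    rw [hSdef]
    gcongr
    · exact nb f₁ m₁ b₁ s₁
    · exact nb f₂ m₂ b₂ s₂
    · exact nb f₃ m₃ b₃ s₃
  -- the averages
  set A : ℂ → ℂ := fun w => ∫ u, PR R u * L (u + w) with hA
  have hPi := PR_integrable R hR0
  have hLA : ∀ w, ‖w‖ ≤ 1 → ‖L w - A w‖ ≤ ε / 8 := by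
    intro w hw
    have h := hR f₁ (fun z => f₂ (z + w)) (fun z => f₃ (z + ρ * w)) m₁
      (m₂.comp (measurable_add_const w)) (m₃.comp (measurable_add_const (ρ * w))) b₁
      (fun z => b₂ _) (fun z => b₃ _)
      (fun z hz => s₁ z (by
        have := norm_nonneg ρ
        linarith))
      (fun z hz => s₂ _ (by
        have h1 : ‖z‖ ≤ ‖z + w‖ + ‖w‖ := by
          calc ‖z‖ = ‖(z + w) - w‖ := by congr 1; ring
            _ ≤ _ := norm_sub_le _ _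
        have := norm_nonneg ρ
        linarith))
      (fun z hz => s₃ _ (by
        have h1 : ‖z‖ ≤ ‖z + ρ * w‖ + ‖ρ * w‖ := by
          calc ‖z‖ = ‖(z + ρ * w) - ρ * w‖ := by congr 1; ring
            _ ≤ _ := norm_sub_le _ _
        have h2 : ‖ρ * w‖ ≤ ‖ρ‖ := by
          rw [norm_mul]
          nlinarith [norm_nonneg ρ]
        linarith))
    rw [lam_translate, zero_add] at h
    have e : LamK ρ (PR R) f₁ (fun z => f₂ (z + w)) (fun z => f₃ (z + ρ * w)) = A w := by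
      unfold LamK
      simp only [lam_translate]
      rfl
    rw [e] at h
    exact h
  have hAA : ∀ w, ‖w‖ ≤ η → ‖A w - A 0‖ ≤ ε / 4 := by
    intro w hw
    have e1 : A w = ∫ u, PR R (u - w) * L u := by
      simp only [hA]
      rw [← integral_add_right_eq_self (fun u => PR R (u - w) * L u) w]
      congr 1
      ext u
      rw [add_sub_cancel_right]
    have e2 : A 0 = ∫ u, PR R u * L u := by
      simp only [hA, add_zero]
    have i1 : Integrable fun u => PR R (u - w) * L u := by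
      have := (hPi.comp_sub_right w).bdd_mul mL.aestronglyMeasurable
        (Filter.Eventually.of_forall hLb)
      refine this.congr (Filter.Eventually.of_forall fun u => ?_)
      simp only
      ring
    have i2 : Integrable fun u => PR R u * L u := by
      have := hPi.bdd_mul mL.aestronglyMeasurable
        (Filter.Eventually.of_forall hLb)
      refine this.congr (Filter.Eventually.of_forall fun u => ?_)
      simp only
      ring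
    rw [e1, e2, ← integral_sub i1 i2]
    calc ‖∫ u, (PR R (u - w) * L u - PR R u * L u)‖
        ≤ ∫ u, S * ‖𝓕⁻ (mM R) (u + -w) - 𝓕⁻ (mM R) u‖ := by
          apply norm_integral_le_of_norm_le
          · have j1 := (nice_integrable _ (nice_mM R hR0.ne')).2
            exact ((j1.comp_add_right (-w)).sub j1).norm.const_mul S
          · refine Filter.Eventually.of_forall fun u => ?_
            rw [inv_mM_eq_PR R hR0.ne', inv_mM_eq_PR R hR0.ne', ← sub_eq_add_neg, ← sub_mul,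
              norm_mul, mul_comm]
            exact mul_le_mul_of_nonneg_right (hLb u) (norm_nonneg _)
      _ = S * ∫ u, ‖𝓕⁻ (mM R) (u + -w) - 𝓕⁻ (mM R) u‖ := integral_const_mul _ _
      _ ≤ S * (C' * ‖-w‖) := by
          gcongr
          exact hker (-w)
      _ ≤ S * (C' * η) := by
          rw [norm_neg]
          gcongr
      _ ≤ ε / 4 := hη2
  have hLL : ∀ w, ‖w‖ ≤ η → ‖L w - L 0‖ ≤ ε / 2 := by
    intro w hw
    have h1 := hLA w (hw.trans hη1)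
    have h2 := hAA w hw
    have h3 := hLA 0 (by simp)
    have e : L w - L 0 = (L w - A w) + (A w - A 0) - (L 0 - A 0) := by ring
    rw [e]
    calc _ ≤ ‖(L w - A w) + (A w - A 0)‖ + ‖L 0 - A 0‖ := norm_sub_le _ _
      _ ≤ ‖L w - A w‖ + ‖A w - A 0‖ + ‖L 0 - A 0‖ := by
          gcongr
          exact norm_add_le _ _
      _ ≤ ε / 2 := by linarith
  -- the Gaussian average
  have hgi := gauss_integrable s hs0
  have hs2 : 0 < Real.sqrt 2 * s := by positivity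
  have hgi2 := gauss_integrable (Real.sqrt 2 * s) hs2
  set T : ℝ := Real.exp (-(π * η ^ 2 / (2 * s ^ 2))) with hT
  have hT0 : 0 ≤ T := (Real.exp_pos _).le
  have hTle : T * (8 * (S + 1)) ≤ ε := by
    have hx : 0 < π * η ^ 2 / (2 * s ^ 2) := by positivity
    have h1 : T ≤ 1 / (π * η ^ 2 / (2 * s ^ 2)) := by
      rw [hT, Real.exp_neg, le_div_iff₀ hx]
      have h2 := Real.add_one_le_exp (π * η ^ 2 / (2 * s ^ 2))
      rw [inv_mul_le_iff₀ (Real.exp_pos _)]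
      linarith
    have h3 : s ^ 2 ≤ η ^ 2 * (ε / (16 * (S + 1))) := by
      calc s ^ 2 ≤ (η * Real.sqrt (ε / (16 * (S + 1)))) ^ 2 := by gcongr
        _ = η ^ 2 * (ε / (16 * (S + 1))) := by
            rw [mul_pow, Real.sq_sqrt (by positivity)]
    have h4 : 1 / (π * η ^ 2 / (2 * s ^ 2)) ≤ ε / (8 * (S + 1)) := by
      rw [one_div_div, div_le_div_iff₀ (by positivity) (by positivity)]
      have hpi : 1 ≤ π := by linarith [Real.pi_gt_three]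
      have h5 : 2 * s ^ 2 * (8 * (S + 1)) ≤ ε * η ^ 2 := by
        calc 2 * s ^ 2 * (8 * (S + 1)) ≤
              2 * (η ^ 2 * (ε / (16 * (S + 1)))) * (8 * (S + 1)) := by gcongr
          _ = ε * η ^ 2 := by
              field_simp
              ring
      have h6 : ε * η ^ 2 ≤ ε * (π * η ^ 2) := by
        have h7 : η ^ 2 ≤ π * η ^ 2 := by nlinarith [sq_nonneg η]
        exact mul_le_mul_of_nonneg_left h7 hε.le
      linarith
    have h8 := h1.trans h4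
    rwa [le_div_iff₀ (by positivity)] at h8
  have e0 : Lam ρ f₁ f₂ f₃ 0 - LamK ρ (gaussC s) f₁ f₂ f₃ =
      -∫ w, ((gauss s w : ℝ) : ℂ) * (L w - L 0) := by
    have i1 : Integrable fun w : ℂ => ((gauss s w : ℝ) : ℂ) * L w := by
      have := (hgi.ofReal (𝕜 := ℂ)).bdd_mul mL.aestronglyMeasurable
        (Filter.Eventually.of_forall hLb)
      refine this.congr (Filter.Eventually.of_forall fun u => ?_)
      simp only
      exact mul_comm _ _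
    have i2 : Integrable fun w : ℂ => ((gauss s w : ℝ) : ℂ) * L 0 :=
      (hgi.ofReal (𝕜 := ℂ)).mul_const _
    have e1 : ∫ w : ℂ, ((gauss s w : ℝ) : ℂ) = 1 := by
      rw [integral_complex_ofReal, gauss_integral s hs0]
      simp
    simp only [mul_sub]
    rw [integral_sub i1 i2, integral_mul_const, e1]
    unfold LamK gaussC
    ring
  rw [e0, norm_neg]
  calc ‖∫ w, ((gauss s w : ℝ) : ℂ) * (L w - L 0)‖
      ≤ ∫ w : ℂ, (ε / 2 * gauss s w + 4 * S * T * gauss (Real.sqrt 2 * s) w) := by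
        apply norm_integral_le_of_norm_le
        · exact (hgi.const_mul _).add (hgi2.const_mul _)
        · refine Filter.Eventually.of_forall fun w => ?_
          have g0 := gauss_nonneg s w
          have g1 := gauss_nonneg (Real.sqrt 2 * s) w
          rw [norm_mul, Complex.norm_real, Real.norm_eq_abs, abs_of_nonneg g0]
          by_cases hw : ‖w‖ ≤ η
          · have := hLL w hw
            have h1 : gauss s w * ‖L w - L 0‖ ≤ gauss s w * (ε / 2) := by gcongr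
            have h2 : 0 ≤ 4 * S * T * gauss (Real.sqrt 2 * s) w := by positivity
            linarith
          · have h1 : ‖L w - L 0‖ ≤ 2 * S := by
              have := norm_sub_le (L w) (L 0)
              have := hLb w
              have := hLb 0
              linarith
            have h2 := gauss_tail s η hs0 hη0.le w (not_le.1 hw)
            have h3 : gauss s w * ‖L w - L 0‖ ≤
                (2 * T * gauss (Real.sqrt 2 * s) w) * (2 * S) := by gcongr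
            have h4 : 0 ≤ ε / 2 * gauss s w := by positivity
            linarith
    _ = ε / 2 + 4 * S * T := by
        rw [integral_add (hgi.const_mul _) (hgi2.const_mul _), integral_const_mul,
          integral_const_mul, gauss_integral s hs0, gauss_integral _ hs2]
        ring
    _ ≤ ε := by nlinarith

end SG

end Pool.Agent.H24.Tri
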