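import Pool.Agent.H24.Tri.Defs

/-! Project TRI, module TA: cutoffs (section 4 of the paper proof). -/

set_option autoImplicit false

open MeasureTheory Set Complex Metric Filter Topology
open scoped Real ENNReal NNReal FourierTransform ComplexConjugate

namespace Pool.Agent.H24.Tri

/-! ### `chi`, `kap` -/

theorem chi_smooth : ContDiff ℝ ((⊤ : ℕ∞) : WithTop ℕ∞) chi := by
  unfold chi
  exact Real.smoothTransition.contDiff.comp
    ((contDiff_const.sub (contDiff_norm_sq ℝ)).div_const _)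

theorem chi_nonneg (z : ℂ) : 0 ≤ chi z := Real.smoothTransition.nonneg _

theorem chi_le_one (z : ℂ) : chi z ≤ 1 := Real.smoothTransition.le_one _

theorem chi_one (z : ℂ) (h : ‖z‖ ≤ 1) : chi z = 1 := by
  apply Real.smoothTransition.one_of_one_le
  have : ‖z‖ ^ 2 ≤ 1 := pow_le_one₀ (norm_nonneg _) h
  rw [le_div_iff₀ (by norm_num)]
  linarith

theorem chi_zero (z : ℂ) (h : 2 ≤ ‖z‖) : chi z = 0 := by
  apply Real.smoothTransition.zero_of_nonpos
  apply div_nonpos_of_nonpos_of_nonneg _ (by norm_num)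
  nlinarith

theorem chi_compact : HasCompactSupport chi := by
  refine HasCompactSupport.intro (isCompact_closedBall (0 : ℂ) 2) fun z hz => chi_zero z ?_
  rw [mem_closedBall_zero_iff, not_le] at hz
  exact hz.le

theorem nice_chi : Nice chiC where
  smooth := Complex.ofRealCLM.contDiff.comp chi_smooth
  compact := chi_compact.comp_left (g := fun x : ℝ => (x : ℂ)) Complex.ofReal_zero

theorem nice_kap : Nice kapC where
  smooth := (nice_chi.smooth.comp (contDiff_id.div_const 2)).sub nice_chi.smooth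
  compact := by
    refine HasCompactSupport.intro (isCompact_closedBall (0 : ℂ) 4) fun z hz => ?_
    rw [mem_closedBall_zero_iff, not_le] at hz
    have h2 : ‖z / 2‖ = ‖z‖ / 2 := by rw [norm_div]; norm_num
    rw [kapC, chiC, chiC, chi_zero z (by linarith), chi_zero (z / 2) (by rw [h2]; linarith)]
    simp

theorem kapC_inner (z : ℂ) (h : ‖z‖ ≤ 1) : kapC z = 0 := by
  have h2 : ‖z / 2‖ = ‖z‖ / 2 := by rw [norm_div]; norm_num
  rw [kapC, chiC, chiC, chi_one z h, chi_one (z / 2) (by rw [h2]; linarith)]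
  simp

theorem kapC_outer (z : ℂ) (h : 4 ≤ ‖z‖) : kapC z = 0 := by
  have h2 : ‖z / 2‖ = ‖z‖ / 2 := by rw [norm_div]; norm_num
  rw [kapC, chiC, chiC, chi_zero z (by linarith), chi_zero (z / 2) (by rw [h2]; linarith)]
  simp

/-! ### `th`, `theta` -/

theorem th_smooth : ContDiff ℝ ((⊤ : ℕ∞) : WithTop ℕ∞) th := by
  unfold th
  exact (Real.smoothTransition.contDiff.comp (contDiff_id.add contDiff_const)).mul
    (Real.smoothTransition.contDiff.comp (contDiff_const.sub contDiff_id))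

theorem th_nonneg (t : ℝ) : 0 ≤ th t :=
  mul_nonneg (Real.smoothTransition.nonneg _) (Real.smoothTransition.nonneg _)

theorem th_le_one (t : ℝ) : th t ≤ 1 :=
  mul_le_one₀ (Real.smoothTransition.le_one _) (Real.smoothTransition.nonneg _)
    (Real.smoothTransition.le_one _)

theorem th_zero (t : ℝ) (h : 1 ≤ |t|) : th t = 0 := by
  rcases le_abs.mp h with h | h
  · rw [th, Real.smoothTransition.zero_of_nonpos (x := 1 - t) (by linarith), mul_zero]
  · rw [th, Real.smoothTransition.zero_of_nonpos (x := t + 1) (by linarith), zero_mul]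

theorem th_add (t : ℝ) (h0 : 0 ≤ t) (h1 : t ≤ 1) : th t + th (t - 1) = 1 := by
  have e1 : th t = Real.smoothTransition (1 - t) := by
    rw [th, Real.smoothTransition.one_of_one_le (x := t + 1) (by linarith), one_mul]
  have e2 : th (t - 1) = Real.smoothTransition t := by
    rw [th, Real.smoothTransition.one_of_one_le (x := 1 - (t - 1)) (by linarith), mul_one,
      sub_add_cancel]
  rw [e1, e2, Real.smoothTransition, Real.smoothTransition, sub_sub_cancel,
    add_comm (expNegInvGlue (1 - t)) (expNegInvGlue t), ← add_div,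
    add_comm (expNegInvGlue (1 - t)) (expNegInvGlue t)]
  exact div_self (Real.smoothTransition.pos_denom t).ne'

theorem theta_smooth : ContDiff ℝ ((⊤ : ℕ∞) : WithTop ℕ∞) theta := by
  unfold theta
  exact (th_smooth.comp Complex.reCLM.contDiff).mul (th_smooth.comp Complex.imCLM.contDiff)

theorem theta_nonneg (x : ℂ) : 0 ≤ theta x := mul_nonneg (th_nonneg _) (th_nonneg _)

theorem theta_le_one (x : ℂ) : theta x ≤ 1 := mul_le_one₀ (th_le_one _) (th_nonneg _) (th_le_one _)

theorem theta_zero (x : ℂ) (h : 2 ≤ ‖x‖) : theta x = 0 := by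
  have h1 := Complex.norm_le_abs_re_add_abs_im x
  by_cases h2 : 1 ≤ |x.re|
  · rw [theta, th_zero _ h2, zero_mul]
  · rw [theta, th_zero x.im (by push Not at h2; linarith), mul_zero]

theorem theta_compact : HasCompactSupport theta := by
  refine HasCompactSupport.intro (isCompact_closedBall (0 : ℂ) 2) fun z hz => theta_zero z ?_
  rw [mem_closedBall_zero_iff, not_le] at hz
  exact hz.le

theorem gi_re (n : ℤ × ℤ) : (gi n).re = n.1 := by simp [gi]

theorem gi_im (n : ℤ × ℤ) : (gi n).im = n.2 := by simp [gi]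

theorem th_int_zero (x : ℝ) (n : ℤ) (h : n ≠ ⌊x⌋) (h' : n ≠ ⌊x⌋ + 1) : th (x - n) = 0 := by
  apply th_zero
  have h1 : (⌊x⌋ : ℝ) ≤ x := Int.floor_le x
  have h2 : x < ⌊x⌋ + 1 := Int.lt_floor_add_one x
  rcases lt_or_gt_of_ne h with h3 | h3
  · have h4 : (n : ℝ) + 1 ≤ ⌊x⌋ := by exact_mod_cast h3
    exact le_trans (by linarith) (le_abs_self _)
  · have h4 : ⌊x⌋ + 1 < n := lt_of_le_of_ne h3 (Ne.symm h')
    have h5 : (⌊x⌋ : ℝ) + 1 + 1 ≤ n := by exact_mod_cast h4
    exact le_trans (by linarith) (neg_le_abs _)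

/-- integer translates of `theta` form a partition of unity -/
theorem theta_sum (x : ℂ) (s : Finset (ℤ × ℤ)) (hs : ∀ n : ℤ × ℤ, theta (x - gi n) ≠ 0 → n ∈ s) :
    ∑ n ∈ s, theta (x - gi n) = 1 := by
  have key : ∀ n : ℤ × ℤ, theta (x - gi n) = th (x.re - n.1) * th (x.im - n.2) := by
    intro n
    rw [theta, Complex.sub_re, Complex.sub_im, gi_re, gi_im]
  have box : ∀ y : ℝ, ∑ m ∈ ({⌊y⌋, ⌊y⌋ + 1} : Finset ℤ), th (y - m) = 1 := by
    intro y
    rw [Finset.sum_pair (by omega)]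
    have h1 : y - ((⌊y⌋ + 1 : ℤ) : ℝ) = (y - ⌊y⌋) - 1 := by push_cast; ring
    rw [h1]
    exact th_add _ (by linarith [Int.floor_le y]) (by linarith [Int.lt_floor_add_one y])
  set B : Finset (ℤ × ℤ) :=
    ({⌊x.re⌋, ⌊x.re⌋ + 1} : Finset ℤ) ×ˢ ({⌊x.im⌋, ⌊x.im⌋ + 1} : Finset ℤ) with hB
  have hBs : ∑ n ∈ B, theta (x - gi n) = 1 := by
    rw [hB, Finset.sum_product]
    simp only [key]
    simp only [← Finset.mul_sum, ← Finset.sum_mul]
    rw [box, box, one_mul]
  have hz : ∀ n, n ∉ B → theta (x - gi n) = 0 := by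
    intro n hn
    rw [hB, Finset.mem_product, not_and_or] at hn
    rw [key]
    rcases hn with hn | hn
    · simp only [Finset.mem_insert, Finset.mem_singleton, not_or] at hn
      rw [th_int_zero _ _ hn.1 hn.2, zero_mul]
    · simp only [Finset.mem_insert, Finset.mem_singleton, not_or] at hn
      rw [th_int_zero _ _ hn.1 hn.2, mul_zero]
  have h1 : ∑ n ∈ s, theta (x - gi n) = ∑ n ∈ s ∪ B, theta (x - gi n) :=
    Finset.sum_subset Finset.subset_union_left fun n _ hn => by
      by_contra h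
      exact hn (hs n h)
  have h2 : ∑ n ∈ B, theta (x - gi n) = ∑ n ∈ s ∪ B, theta (x - gi n) :=
    Finset.sum_subset Finset.subset_union_right fun n _ hn => hz n hn
  rw [h1, ← h2, hBs]

theorem sym_smooth (c : ℂ) (s : ℝ) (n : ℤ × ℤ) :
    ContDiff ℝ ((⊤ : ℕ∞) : WithTop ℕ∞) (sym c s n) := by
  unfold sym
  exact theta_smooth.comp ((contDiff_id.div_const _).sub contDiff_const)

theorem sym_nonneg (c : ℂ) (s : ℝ) (n : ℤ × ℤ) (ξ : ℂ) : 0 ≤ sym c s n ξ := theta_nonneg _

theorem sym_le_one (c : ℂ) (s : ℝ) (n : ℤ × ℤ) (ξ : ℂ) : sym c s n ξ ≤ 1 := theta_le_one _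

theorem nice_piece (c : ℂ) (s : ℝ) (n : ℤ × ℤ) (a : ℂ → ℂ) (ha : Nice a) :
    Nice (piece c s n a) where
  smooth := (Complex.ofRealCLM.contDiff.comp (sym_smooth c s n)).mul ha.smooth
  compact := ha.compact.mul_left

/-! ### `psi0`, `psi`, `psr` -/

theorem psi0_smooth : ContDiff ℝ ((⊤ : ℕ∞) : WithTop ℕ∞) psi0 := by
  unfold psi0
  exact Real.smoothTransition.contDiff.comp (contDiff_const.sub (contDiff_norm_sq ℝ))

theorem psi0_nonneg (z : ℂ) : 0 ≤ psi0 z := Real.smoothTransition.nonneg _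

theorem psi0_le_one (z : ℂ) : psi0 z ≤ 1 := Real.smoothTransition.le_one _

theorem psi0_even (z : ℂ) : psi0 (-z) = psi0 z := by rw [psi0, psi0, norm_neg]

theorem psi0_at_zero : psi0 0 = 1 := by
  rw [psi0, norm_zero]
  exact Real.smoothTransition.one_of_one_le (by norm_num)

theorem psi0_zero (z : ℂ) (h : 1 ≤ ‖z‖) : psi0 z = 0 := by
  apply Real.smoothTransition.zero_of_nonpos
  have := one_le_pow₀ (n := 2) h
  linarith

theorem psi0_compact : HasCompactSupport psi0 := by
  refine HasCompactSupport.intro (isCompact_closedBall (0 : ℂ) 1) fun z hz => psi0_zero z ?_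
  rw [mem_closedBall_zero_iff, not_le] at hz
  exact hz.le

theorem psi0_sq_compact : HasCompactSupport (fun x : ℂ => psi0 x ^ 2) := by
  refine HasCompactSupport.intro (isCompact_closedBall (0 : ℂ) 1) fun z hz => ?_
  rw [mem_closedBall_zero_iff, not_le] at hz
  rw [psi0_zero z hz.le]
  norm_num

theorem psi0_sq_continuous : Continuous (fun x : ℂ => psi0 x ^ 2) :=
  psi0_smooth.continuous.pow 2

theorem psi0_sq_integrable : Integrable (fun x : ℂ => psi0 x ^ 2) :=
  psi0_sq_continuous.integrable_of_hasCompactSupport psi0_sq_compact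

theorem psi0_sq_pos : 0 < ∫ x, psi0 x ^ 2 := by
  rw [integral_pos_iff_support_of_nonneg (fun x => sq_nonneg _) psi0_sq_integrable]
  have h1 : IsOpen (Function.support fun x => psi0 x ^ 2) :=
    (psi0_smooth.continuous.pow 2).isOpen_support
  refine h1.measure_pos _ ⟨0, ?_⟩
  rw [Function.mem_support, psi0_at_zero]
  norm_num

theorem psi_smooth : ContDiff ℝ ((⊤ : ℕ∞) : WithTop ℕ∞) psi := by
  unfold psi
  exact psi0_smooth.div_const _

theorem psi_nonneg (z : ℂ) : 0 ≤ psi z := div_nonneg (psi0_nonneg z) (Real.sqrt_nonneg _)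

theorem psi_even (z : ℂ) : psi (-z) = psi z := by rw [psi, psi, psi0_even]

theorem psi_zero (z : ℂ) (h : 1 ≤ ‖z‖) : psi z = 0 := by rw [psi, psi0_zero z h, zero_div]

theorem psi_le (z : ℂ) : psi z ≤ (Real.sqrt (∫ x, psi0 x ^ 2))⁻¹ := by
  rw [psi, div_eq_mul_inv]
  exact mul_le_of_le_one_left (inv_nonneg.mpr (Real.sqrt_nonneg _)) (psi0_le_one z)

theorem psi_compact : HasCompactSupport psi := by
  refine HasCompactSupport.intro (isCompact_closedBall (0 : ℂ) 1) fun z hz => psi_zero z ?_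
  rw [mem_closedBall_zero_iff, not_le] at hz
  exact hz.le

theorem psi_sq_integral : ∫ x, psi x ^ 2 = 1 := by
  have h : ∀ x, psi x ^ 2 = psi0 x ^ 2 / ∫ y, psi0 y ^ 2 := by
    intro x
    rw [psi, div_pow, Real.sq_sqrt psi0_sq_pos.le]
  simp only [h]
  rw [integral_div, div_self psi0_sq_pos.ne']

theorem psr_smooth (r : ℝ) : ContDiff ℝ ((⊤ : ℕ∞) : WithTop ℕ∞) (psr r) := by
  unfold psr
  exact contDiff_const.mul (psi_smooth.comp (contDiff_id.div_const _))

theorem psr_nonneg {r : ℝ} (hr : 0 < r) (x : ℂ) : 0 ≤ psr r x :=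
  mul_nonneg (inv_nonneg.mpr hr.le) (psi_nonneg _)

theorem psr_even (r : ℝ) (x : ℂ) : psr r (-x) = psr r x := by rw [psr, psr, neg_div, psi_even]

theorem psr_zero {r : ℝ} (hr : 0 < r) (x : ℂ) (h : r ≤ ‖x‖) : psr r x = 0 := by
  rw [psr, psi_zero, mul_zero]
  rw [norm_div, Complex.norm_real, Real.norm_of_nonneg hr.le, one_le_div hr]
  exact h

theorem psr_compact {r : ℝ} (hr : 0 < r) : HasCompactSupport (psr r) := by
  refine HasCompactSupport.intro (isCompact_closedBall (0 : ℂ) r) fun z hz => psr_zero hr z ?_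
  rw [mem_closedBall_zero_iff, not_le] at hz
  exact hz.le

theorem psr_sq_integral {r : ℝ} (hr : 0 < r) : ∫ x, psr r x ^ 2 = 1 := by
  have h : ∀ x : ℂ, psr r x ^ 2 = (r⁻¹) ^ 2 * (fun y : ℂ => psi y ^ 2) (r⁻¹ • x) := by
    intro x
    have h1 : x / (r : ℂ) = r⁻¹ • x := by
      rw [Complex.real_smul, Complex.ofReal_inv, div_eq_mul_inv, mul_comm]
    simp only [psr, h1, mul_pow]
  have h2 := Measure.integral_comp_smul (volume : Measure ℂ) (fun y : ℂ => psi y ^ 2) r⁻¹
  rw [Complex.finrank_real_complex, psi_sq_integral, smul_eq_mul, mul_one,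
    abs_of_nonneg (by positivity)] at h2
  rw [integral_congr_ae (Filter.Eventually.of_forall h), integral_const_mul, h2]
  exact mul_inv_cancel₀ (by positivity)

/-- Lipschitz constant of `psr r` -/
theorem psr_lip : ∃ C : ℝ, 0 ≤ C ∧ ∀ r : ℝ, 0 < r → ∀ x y : ℂ,
    |psr r x - psr r y| ≤ C / r ^ 2 * ‖x - y‖ := by
  obtain ⟨C, hC⟩ := psi_smooth.lipschitzWith_of_hasCompactSupport psi_compact (by simp)
  refine ⟨C, C.2, fun r hr x y => ?_⟩
  have h1 := hC.dist_le_mul (x / (r : ℂ)) (y / (r : ℂ))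
  rw [Real.dist_eq, dist_eq_norm, ← sub_div, norm_div, Complex.norm_real,
    Real.norm_of_nonneg hr.le] at h1
  rw [psr, psr, ← mul_sub, abs_mul, abs_of_pos (inv_pos.mpr hr)]
  calc r⁻¹ * |psi (x / r) - psi (y / r)| ≤ r⁻¹ * (C * (‖x - y‖ / r)) := by gcongr
    _ = C / r ^ 2 * ‖x - y‖ := by field_simp

theorem psr_le : ∃ C : ℝ, 0 ≤ C ∧ ∀ r : ℝ, 0 < r → ∀ x : ℂ, psr r x ≤ C / r := by
  refine ⟨(Real.sqrt (∫ x, psi0 x ^ 2))⁻¹, inv_nonneg.mpr (Real.sqrt_nonneg _), fun r hr x => ?_⟩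
  rw [psr, mul_comm, ← div_eq_mul_inv]
  gcongr
  exact psi_le _

end Pool.Agent.H24.Tri
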