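import Pool.Agent.H24.Tri.ToolA
import Pool.Agent.H24.Tri.ToolB

/-! Project TRI, module TC: Fourier form of the trilinear form (section 4 of the paper proof). -/

set_option autoImplicit false

open MeasureTheory Set Complex Metric Filter Topology
open scoped Real ENNReal NNReal FourierTransform ComplexConjugate

namespace Pool.Agent.H24.Tri

/-- the additive character -/
noncomputable def tcE (t : ℝ) : ℂ := Complex.exp (((2 * π * t : ℝ) : ℂ) * Complex.I)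

theorem tcE_add (s t : ℝ) : tcE (s + t) = tcE s * tcE t := by
  unfold tcE
  rw [← Complex.exp_add]
  congr 1
  push_cast
  ring

theorem tcE_norm (t : ℝ) : ‖tcE t‖ = 1 := Complex.norm_exp_ofReal_mul_I _

theorem tcE_zero : tcE 0 = 1 := by
  unfold tcE
  simp

theorem tcE_continuous : Continuous tcE := by
  unfold tcE
  fun_prop

theorem tc_fourierInv (a : ℂ → ℂ) (z : ℂ) : 𝓕⁻ a z = ∫ ξ, a ξ * tcE (conj ξ * z).re := by
  rw [tb_fourierInv]
  refine integral_congr_ae (ae_of_all _ fun ξ => ?_)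
  change Complex.exp _ * a ξ = a ξ * Complex.exp _
  rw [mul_comm]

/-- Fourier inversion -/
theorem tc_inversion (a : ℂ → ℂ) (ha : Nice a) (w : ℂ) :
    ∫ z, 𝓕⁻ a z * tcE (conj w * z).re = a (-w) := by
  have h1 : (𝓕 (𝓕⁻ (tbS a ha)) : SchwartzMap ℂ ℂ) = tbS a ha :=
    FourierTransform.fourier_fourierInv_eq _
  have h2 : (𝓕 (𝓕⁻ (tbS a ha)) : SchwartzMap ℂ ℂ) (-w) = a (-w) := by
    rw [h1]; rfl
  rw [SchwartzMap.fourier_coe, tbS_inv, Real.fourier_eq'] at h2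
  rw [← h2]
  refine integral_congr_ae (ae_of_all _ fun z => ?_)
  change 𝓕⁻ a z * Complex.exp _ = Complex.exp _ * 𝓕⁻ a z
  rw [mul_comm]
  congr 3
  rw [tb_inner]
  have h3 : (conj z * -w).re = -(conj w * z).re := by
    simp [Complex.mul_re]
    ring
  rw [h3]
  ring_nf

theorem tc_bound (a : ℂ → ℂ) (ha : Nice a) : ∃ C : ℝ, ∀ x, ‖a x‖ ≤ C :=
  ha.compact.exists_bound_of_continuous ha.smooth.continuous

/-- the frequency side integrand -/
noncomputable def tcPhi (a₁ a₂ a₃ : ℂ → ℂ) (x : ℂ × ℂ) : ℂ := a₁ (-x.1 - x.2) * a₂ x.1 * a₃ x.2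

theorem tcPhi_continuous (a₁ a₂ a₃ : ℂ → ℂ) (h₁ : Nice a₁) (h₂ : Nice a₂) (h₃ : Nice a₃) :
    Continuous (tcPhi a₁ a₂ a₃) := by
  have c1 := h₁.smooth.continuous
  have c2 := h₂.smooth.continuous
  have c3 := h₃.smooth.continuous
  unfold tcPhi
  exact ((c1.comp (continuous_fst.neg.sub continuous_snd)).mul (c2.comp continuous_fst)).mul
    (c3.comp continuous_snd)

theorem tcPhi_integrable (a₁ a₂ a₃ : ℂ → ℂ) (h₁ : Nice a₁) (h₂ : Nice a₂) (h₃ : Nice a₃) :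
    Integrable (tcPhi a₁ a₂ a₃) := by
  obtain ⟨C, hC⟩ := tc_bound a₁ h₁
  have hp : Integrable (fun x : ℂ × ℂ => a₂ x.1 * a₃ x.2) :=
    (nice_integrable a₂ h₂).1.mul_prod (nice_integrable a₃ h₃).1
  refine (hp.norm.const_mul C).mono' (tcPhi_continuous a₁ a₂ a₃ h₁ h₂ h₃).aestronglyMeasurable
    (ae_of_all _ fun x => ?_)
  unfold tcPhi
  rw [mul_assoc, norm_mul]
  exact mul_le_mul_of_nonneg_right (hC _) (norm_nonneg _)

theorem tc_re (ρ x y v : ℂ) :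
    (conj (x + conj ρ * y) * v).re = (conj x * v).re + (conj y * (ρ * v)).re := by
  rw [← Complex.add_re]
  congr 1
  simp only [map_add, map_mul, Complex.conj_conj]
  ring

theorem tri_fourier' (ρ : ℂ) (a₁ a₂ a₃ : ℂ → ℂ) (h₁ : Nice a₁) (h₂ : Nice a₂)
    (h₃ : Nice a₃) (v : ℂ) :
    tri ρ (𝓕⁻ a₁) (𝓕⁻ a₂) (𝓕⁻ a₃) v =
      ∫ x : ℂ × ℂ, tcPhi a₁ a₂ a₃ x * tcE (conj (x.1 + conj ρ * x.2) * v).re := by
  have c1 := nice_continuous a₁ h₁
  have c2 := h₂.smooth.continuous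
  have c3 := h₃.smooth.continuous
  let G : ℂ → ℂ × ℂ → ℂ := fun z p => 𝓕⁻ a₁ z *
    ((a₂ p.1 * tcE (conj p.1 * (z + v)).re) * (a₃ p.2 * tcE (conj p.2 * (z + ρ * v)).re))
  have hG : Integrable (Function.uncurry G) ((volume : Measure ℂ).prod (volume : Measure (ℂ × ℂ))) := by
    have hp : Integrable (fun x : ℂ × ℂ => a₂ x.1 * a₃ x.2) :=
      (nice_integrable a₂ h₂).1.mul_prod (nice_integrable a₃ h₃).1
    have hq := (nice_integrable a₁ h₁).2.mul_prod hp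
    refine hq.norm.mono' ?_ (ae_of_all _ fun q => ?_)
    · refine Continuous.aestronglyMeasurable ?_
      change Continuous fun q : ℂ × (ℂ × ℂ) => 𝓕⁻ a₁ q.1 *
        ((a₂ q.2.1 * tcE (conj q.2.1 * (q.1 + v)).re) *
          (a₃ q.2.2 * tcE (conj q.2.2 * (q.1 + ρ * v)).re))
      have e1 : Continuous fun q : ℂ × (ℂ × ℂ) => tcE (conj q.2.1 * (q.1 + v)).re :=
        tcE_continuous.comp (Complex.continuous_re.comp
          ((Complex.continuous_conj.comp (continuous_fst.comp continuous_snd)).mul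
            (continuous_fst.add continuous_const)))
      have e2 : Continuous fun q : ℂ × (ℂ × ℂ) => tcE (conj q.2.2 * (q.1 + ρ * v)).re :=
        tcE_continuous.comp (Complex.continuous_re.comp
          ((Complex.continuous_conj.comp (continuous_snd.comp continuous_snd)).mul
            (continuous_fst.add continuous_const)))
      exact (c1.comp continuous_fst).mul
        (((c2.comp (continuous_fst.comp continuous_snd)).mul e1).mul
          ((c3.comp (continuous_snd.comp continuous_snd)).mul e2))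
    · change ‖𝓕⁻ a₁ q.1 * ((a₂ q.2.1 * tcE _) * (a₃ q.2.2 * tcE _))‖ ≤
        ‖𝓕⁻ a₁ q.1 * (a₂ q.2.1 * a₃ q.2.2)‖
      simp only [norm_mul, tcE_norm, mul_one, le_refl]
  have hL : tri ρ (𝓕⁻ a₁) (𝓕⁻ a₂) (𝓕⁻ a₃) v = ∫ z, ∫ p, G z p := by
    unfold tri
    refine integral_congr_ae (ae_of_all _ fun z => ?_)
    change 𝓕⁻ a₁ z * 𝓕⁻ a₂ (z + v) * 𝓕⁻ a₃ (z + ρ * v) = ∫ p, G z p
    have h4 : ∫ p, G z p = 𝓕⁻ a₁ z * ∫ p : ℂ × ℂ, (a₂ p.1 * tcE (conj p.1 * (z + v)).re) *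
        (a₃ p.2 * tcE (conj p.2 * (z + ρ * v)).re) := integral_const_mul _ _
    rw [h4, mul_assoc]
    congr 1
    rw [tc_fourierInv a₂, tc_fourierInv a₃]
    exact (integral_prod_mul (μ := (volume : Measure ℂ)) (ν := (volume : Measure ℂ))
      (fun x => a₂ x * tcE (conj x * (z + v)).re)
      (fun y => a₃ y * tcE (conj y * (z + ρ * v)).re)).symm
  rw [hL, integral_integral_swap hG]
  refine integral_congr_ae (ae_of_all _ fun p => ?_)
  change ∫ z, G z p = tcPhi a₁ a₂ a₃ p * tcE (conj (p.1 + conj ρ * p.2) * v).re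
  have h5 : ∀ z, G z p = (a₂ p.1 * a₃ p.2 * tcE (conj (p.1 + conj ρ * p.2) * v).re) *
      (𝓕⁻ a₁ z * tcE (conj (p.1 + p.2) * z).re) := by
    intro z
    change 𝓕⁻ a₁ z * ((a₂ p.1 * tcE (conj p.1 * (z + v)).re) *
      (a₃ p.2 * tcE (conj p.2 * (z + ρ * v)).re)) = _
    have e1 : (conj p.1 * (z + v)).re = (conj p.1 * z).re + (conj p.1 * v).re := by
      rw [mul_add, Complex.add_re]
    have e2 : (conj p.2 * (z + ρ * v)).re = (conj p.2 * z).re + (conj p.2 * (ρ * v)).re := by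
      rw [mul_add, Complex.add_re]
    have e3 : (conj (p.1 + p.2) * z).re = (conj p.1 * z).re + (conj p.2 * z).re := by
      rw [map_add, add_mul, Complex.add_re]
    rw [e1, e2, e3, tc_re, tcE_add, tcE_add, tcE_add, tcE_add]
    ring
  simp only [h5]
  rw [integral_const_mul, tc_inversion a₁ h₁]
  unfold tcPhi
  rw [show -(p.1 + p.2) = -p.1 - p.2 by ring]
  ring

/-- (T5) Fourier form of the trilinear form -/
theorem tri_fourier (ρ : ℂ) (hρ : ρ.im ≠ 0) (a₁ a₂ a₃ : ℂ → ℂ) (h₁ : Nice a₁) (h₂ : Nice a₂)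
    (h₃ : Nice a₃) (v : ℂ) :
    tri ρ (𝓕⁻ a₁) (𝓕⁻ a₂) (𝓕⁻ a₃) v =
      ∫ x : ℂ × ℂ, a₁ (-x.1 - x.2) * a₂ x.1 * a₃ x.2 *
        Complex.exp (((2 * π * (conj (x.1 + conj ρ * x.2) * v).re : ℝ) : ℂ) * Complex.I) :=
  tri_fourier' ρ a₁ a₂ a₃ h₁ h₂ h₃ v

/-- the circle average of the character -/
noncomputable def tcJ (ζ : ℂ) : ℂ := ∫ θ in Ioc 0 (2 * π), tcE (conj ζ * cis θ).re

theorem cis_continuous : Continuous cis := by
  unfold cis
  fun_prop

theorem tcJ_bound (ζ : ℂ) : ‖tcJ ζ‖ ≤ 2 * π := by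
  unfold tcJ
  refine (norm_integral_le_of_norm_le_const (C := 1) (ae_of_all _ fun θ => (tcE_norm _).le)).trans ?_
  rw [one_mul, measureReal_restrict_apply_univ, Real.volume_real_Ioc_of_le (by positivity)]
  simp

theorem tcJ_measurable (ρ : ℂ) : StronglyMeasurable fun x : ℂ × ℂ => tcJ (x.1 + conj ρ * x.2) := by
  have h : Continuous fun q : (ℂ × ℂ) × ℝ => tcE (conj (q.1.1 + conj ρ * q.1.2) * cis q.2).re := by
    refine tcE_continuous.comp (Complex.continuous_re.comp ?_)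
    exact (Complex.continuous_conj.comp ((continuous_fst.comp continuous_fst).add
      (continuous_const.mul (continuous_snd.comp continuous_fst)))).mul
      (cis_continuous.comp continuous_snd)
  exact h.stronglyMeasurable.integral_prod_right

theorem lam_fourier' (ρ : ℂ) (a₁ a₂ a₃ : ℂ → ℂ) (h₁ : Nice a₁) (h₂ : Nice a₂)
    (h₃ : Nice a₃) (w : ℂ) :
    Lam ρ (𝓕⁻ a₁) (𝓕⁻ a₂) (𝓕⁻ a₃) w =
      ∫ x : ℂ × ℂ, tcPhi a₁ a₂ a₃ x * (tcE (conj (x.1 + conj ρ * x.2) * w).re *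
        tcJ (x.1 + conj ρ * x.2)) := by
  unfold Lam
  simp only [tri_fourier' ρ a₁ a₂ a₃ h₁ h₂ h₃]
  have hI : Integrable (Function.uncurry fun (θ : ℝ) (x : ℂ × ℂ) => tcPhi a₁ a₂ a₃ x *
      tcE (conj (x.1 + conj ρ * x.2) * (cis θ + w)).re)
      ((volume.restrict (Ioc 0 (2 * π))).prod (volume : Measure (ℂ × ℂ))) := by
    have h0 : Integrable (fun _ : ℝ => (1 : ℂ)) (volume.restrict (Ioc 0 (2 * π))) :=
      integrable_const _
    have hq := h0.mul_prod (tcPhi_integrable a₁ a₂ a₃ h₁ h₂ h₃)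
    refine hq.norm.mono' ?_ (ae_of_all _ fun q => ?_)
    · refine Continuous.aestronglyMeasurable ?_
      change Continuous fun q : ℝ × (ℂ × ℂ) => tcPhi a₁ a₂ a₃ q.2 *
        tcE (conj (q.2.1 + conj ρ * q.2.2) * (cis q.1 + w)).re
      refine ((tcPhi_continuous a₁ a₂ a₃ h₁ h₂ h₃).comp continuous_snd).mul ?_
      refine tcE_continuous.comp (Complex.continuous_re.comp ?_)
      exact (Complex.continuous_conj.comp ((continuous_fst.comp continuous_snd).add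
        (continuous_const.mul (continuous_snd.comp continuous_snd)))).mul
        ((cis_continuous.comp continuous_fst).add continuous_const)
    · change ‖tcPhi a₁ a₂ a₃ q.2 * tcE _‖ ≤ ‖(1 : ℂ) * tcPhi a₁ a₂ a₃ q.2‖
      rw [norm_mul, tcE_norm, mul_one, one_mul]
  rw [integral_integral_swap hI]
  refine integral_congr_ae (ae_of_all _ fun x => ?_)
  change ∫ θ in Ioc 0 (2 * π), tcPhi a₁ a₂ a₃ x *
    tcE (conj (x.1 + conj ρ * x.2) * (cis θ + w)).re = _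
  have h5 : ∀ θ : ℝ, tcPhi a₁ a₂ a₃ x * tcE (conj (x.1 + conj ρ * x.2) * (cis θ + w)).re =
      (tcPhi a₁ a₂ a₃ x * tcE (conj (x.1 + conj ρ * x.2) * w).re) *
        tcE (conj (x.1 + conj ρ * x.2) * cis θ).re := by
    intro θ
    rw [mul_add, Complex.add_re, tcE_add]
    ring
  simp only [h5]
  rw [integral_const_mul]
  unfold tcJ
  ring

/-- Fourier form of `Lam` -/
theorem lam_fourier (ρ : ℂ) (hρ : ρ.im ≠ 0) (a₁ a₂ a₃ : ℂ → ℂ)
    (h₁ : Nice a₁) (h₂ : Nice a₂) (h₃ : Nice a₃) :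
    Lam ρ (𝓕⁻ a₁) (𝓕⁻ a₂) (𝓕⁻ a₃) 0 =
      ∫ x : ℂ × ℂ, a₁ (-x.1 - x.2) * a₂ x.1 * a₃ x.2 * ∫ θ in Ioc 0 (2 * π),
        Complex.exp (((2 * π * (conj (x.1 + conj ρ * x.2) * cis θ).re : ℝ) : ℂ) *
          Complex.I) := by
  rw [lam_fourier' ρ a₁ a₂ a₃ h₁ h₂ h₃]
  refine integral_congr_ae (ae_of_all _ fun x => ?_)
  change tcPhi a₁ a₂ a₃ x * (tcE _ * tcJ _) = tcPhi a₁ a₂ a₃ x * tcJ _
  rw [mul_zero, Complex.zero_re, tcE_zero, one_mul]

/-- the Fourier transform of a rescaled kernel -/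
theorem kernel_fourier (m : ℂ → ℂ) (hm : Nice m) (S : ℝ) (hS : 0 < S) (ζ : ℂ) :
    ∫ w, ((S : ℂ) ^ 2 * 𝓕⁻ m ((S : ℂ) * w)) * tcE (conj ζ * w).re = m (-ζ / (S : ℂ)) := by
  have hSc : (S : ℂ) ≠ 0 := by exact_mod_cast hS.ne'
  have h1 := tb_integral_mul (S : ℂ) hSc (fun u => 𝓕⁻ m u * tcE (conj (ζ / (S : ℂ)) * u).re)
  rw [tc_inversion m hm] at h1
  rw [show -ζ / (S : ℂ) = -(ζ / (S : ℂ)) by ring, h1, ← integral_const_mul]
  refine integral_congr_ae (ae_of_all _ fun w => ?_)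
  change ((S : ℂ) ^ 2 * 𝓕⁻ m ((S : ℂ) * w)) * tcE (conj ζ * w).re =
    ((‖(S : ℂ)‖ ^ 2 : ℝ) : ℂ) * (𝓕⁻ m ((S : ℂ) * w) *
      tcE (conj (ζ / (S : ℂ)) * ((S : ℂ) * w)).re)
  have h2 : conj (ζ / (S : ℂ)) * ((S : ℂ) * w) = conj ζ * w := by
    rw [map_div₀, Complex.conj_ofReal]
    field_simp
  have h3 : ((‖(S : ℂ)‖ ^ 2 : ℝ) : ℂ) = (S : ℂ) ^ 2 := by
    rw [Complex.norm_real, Real.norm_eq_abs, sq_abs]
    push_cast
    rfl
  rw [h2, h3]
  ring

theorem kernel_integrable (m : ℂ → ℂ) (hm : Nice m) (S : ℝ) (hS : 0 < S) :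
    Integrable fun w : ℂ => (S : ℂ) ^ 2 * 𝓕⁻ m ((S : ℂ) * w) := by
  have h1 := ((nice_integrable m hm).2.comp_smul hS.ne').const_mul ((S : ℂ) ^ 2)
  simpa only [Complex.real_smul] using h1

/-- Fourier form of `LamK` for the kernels `S² F⁻m(S w)` -/
theorem lamK_fourier (ρ : ℂ) (hρ : ρ.im ≠ 0) (S : ℝ) (hS : 0 < S) (m a₁ a₂ a₃ : ℂ → ℂ)
    (hm : Nice m) (h₁ : Nice a₁) (h₂ : Nice a₂) (h₃ : Nice a₃) :
    LamK ρ (fun w => (S : ℂ) ^ 2 * 𝓕⁻ m ((S : ℂ) * w)) (𝓕⁻ a₁) (𝓕⁻ a₂) (𝓕⁻ a₃) =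
      ∫ x : ℂ × ℂ, a₁ (-x.1 - x.2) * a₂ x.1 * a₃ x.2 *
        (m (-(x.1 + conj ρ * x.2) / (S : ℂ)) * ∫ θ in Ioc 0 (2 * π),
          Complex.exp (((2 * π * (conj (x.1 + conj ρ * x.2) * cis θ).re : ℝ) : ℂ) *
            Complex.I)) := by
  unfold LamK
  simp only [lam_fourier' ρ a₁ a₂ a₃ h₁ h₂ h₃]
  let K : ℂ → ℂ := fun w => (S : ℂ) ^ 2 * 𝓕⁻ m ((S : ℂ) * w)
  have hK : Integrable K := kernel_integrable m hm S hS
  have hKc : Continuous K :=
    continuous_const.mul ((nice_continuous m hm).comp (continuous_const.mul continuous_id))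
  have hI : Integrable (Function.uncurry fun (w : ℂ) (x : ℂ × ℂ) => K w * (tcPhi a₁ a₂ a₃ x *
      (tcE (conj (x.1 + conj ρ * x.2) * w).re * tcJ (x.1 + conj ρ * x.2))))
      ((volume : Measure ℂ).prod (volume : Measure (ℂ × ℂ))) := by
    have hq := (hK.mul_prod (tcPhi_integrable a₁ a₂ a₃ h₁ h₂ h₃)).norm.const_mul (2 * π)
    refine hq.mono' ?_ (ae_of_all _ fun q => ?_)
    · have e1 : Continuous fun q : ℂ × (ℂ × ℂ) => K q.1 := hKc.comp continuous_fst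
      have e2 : Continuous fun q : ℂ × (ℂ × ℂ) => tcPhi a₁ a₂ a₃ q.2 :=
        (tcPhi_continuous a₁ a₂ a₃ h₁ h₂ h₃).comp continuous_snd
      have e3 : Continuous fun q : ℂ × (ℂ × ℂ) => tcE (conj (q.2.1 + conj ρ * q.2.2) * q.1).re :=
        tcE_continuous.comp (Complex.continuous_re.comp
          ((Complex.continuous_conj.comp ((continuous_fst.comp continuous_snd).add
            (continuous_const.mul (continuous_snd.comp continuous_snd)))).mul continuous_fst))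
      have e4 : StronglyMeasurable fun q : ℂ × (ℂ × ℂ) => tcJ (q.2.1 + conj ρ * q.2.2) :=
        (tcJ_measurable ρ).comp_measurable measurable_snd
      exact (e1.stronglyMeasurable.mul (e2.stronglyMeasurable.mul
        (e3.stronglyMeasurable.mul e4))).aestronglyMeasurable
    · change ‖K q.1 * (tcPhi a₁ a₂ a₃ q.2 * (tcE _ * tcJ _))‖ ≤
        2 * π * ‖K q.1 * tcPhi a₁ a₂ a₃ q.2‖
      rw [← mul_assoc, norm_mul, norm_mul (tcE _), tcE_norm, one_mul, mul_comm]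
      exact mul_le_mul_of_nonneg_right (tcJ_bound _) (norm_nonneg _)
  have hL : (∫ w, ((S : ℂ) ^ 2 * 𝓕⁻ m ((S : ℂ) * w)) * ∫ x : ℂ × ℂ, tcPhi a₁ a₂ a₃ x *
      (tcE (conj (x.1 + conj ρ * x.2) * w).re * tcJ (x.1 + conj ρ * x.2))) =
      ∫ w, ∫ x : ℂ × ℂ, K w * (tcPhi a₁ a₂ a₃ x *
      (tcE (conj (x.1 + conj ρ * x.2) * w).re * tcJ (x.1 + conj ρ * x.2))) := by
    refine integral_congr_ae (ae_of_all _ fun w => ?_)
    exact (integral_const_mul _ _).symm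
  rw [hL, integral_integral_swap hI]
  refine integral_congr_ae (ae_of_all _ fun x => ?_)
  change ∫ w, K w * (tcPhi a₁ a₂ a₃ x * (tcE _ * tcJ _)) =
    tcPhi a₁ a₂ a₃ x * (m (-(x.1 + conj ρ * x.2) / (S : ℂ)) * tcJ (x.1 + conj ρ * x.2))
  have h5 : ∀ w, K w * (tcPhi a₁ a₂ a₃ x * (tcE (conj (x.1 + conj ρ * x.2) * w).re *
      tcJ (x.1 + conj ρ * x.2))) = (tcPhi a₁ a₂ a₃ x * tcJ (x.1 + conj ρ * x.2)) *
      (K w * tcE (conj (x.1 + conj ρ * x.2) * w).re) := by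
    intro w
    ring
  simp only [h5]
  rw [integral_const_mul, kernel_fourier m hm S hS]
  ring

/-- the Fourier transform of `k_R` -/
theorem kR_fourier (R : ℝ) (hR : 0 < R) (z : ℂ) :
    ∫ w, kR R w * Complex.exp (((2 * π * (conj z * w).re : ℝ) : ℂ) * Complex.I) =
      kapC (-z / (R : ℂ)) :=
  kernel_fourier kapC nice_kap R hR z

/-- the Fourier transform of `P_R` -/
theorem PR_fourier (R : ℝ) (hR : 0 < R) (z : ℂ) :
    ∫ w, PR R w * Complex.exp (((2 * π * (conj z * w).re : ℝ) : ℂ) * Complex.I) =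
      chiC (-z / (R : ℂ)) :=
  kernel_fourier chiC nice_chi R hR z

theorem PR_integrable (R : ℝ) (hR : 0 < R) : Integrable (PR R) :=
  kernel_integrable chiC nice_chi R hR

theorem kR_integrable (R : ℝ) (hR : 0 < R) : Integrable (kR R) :=
  kernel_integrable kapC nice_kap R hR

theorem PR_continuous (R : ℝ) : Continuous (PR R) :=
  continuous_const.mul ((nice_continuous chiC nice_chi).comp (continuous_const.mul continuous_id))

theorem kR_continuous (R : ℝ) : Continuous (kR R) :=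
  continuous_const.mul ((nice_continuous kapC nice_kap).comp (continuous_const.mul continuous_id))

/-- the integral of `P_R` is one -/
theorem PR_integral (R : ℝ) (hR : 0 < R) : ∫ w, PR R w = 1 := by
  have h := PR_fourier R hR 0
  simp only [map_zero, zero_mul, Complex.zero_re, mul_zero, Complex.ofReal_zero,
    Complex.exp_zero, mul_one, neg_zero, zero_div] at h
  rw [h]
  unfold chiC
  rw [chi_one 0 (by simp)]
  simp

/-- the integral of `k_R` is zero -/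
theorem kR_integral (R : ℝ) (hR : 0 < R) : ∫ w, kR R w = 0 := by
  have h := kR_fourier R hR 0
  simp only [map_zero, zero_mul, Complex.zero_re, mul_zero, Complex.ofReal_zero,
    Complex.exp_zero, mul_one, neg_zero, zero_div] at h
  rw [h]
  exact kapC_inner 0 (by simp)

/-- norms of rescaled kernels do not depend on the scale -/
theorem kernel_norm (F : ℂ → ℂ) (S : ℝ) (hS : 0 < S) :
    ∫ w, ‖(S : ℂ) ^ 2 * F ((S : ℂ) * w)‖ = ∫ w, ‖F w‖ := by
  have hSc : (S : ℂ) ≠ 0 := by exact_mod_cast hS.ne'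
  have h1 := tb_integral_mul (S : ℂ) hSc (fun u => ((‖F u‖ : ℝ) : ℂ))
  rw [integral_complex_ofReal, integral_complex_ofReal, ← Complex.ofReal_mul] at h1
  have h2 : ∫ u, ‖F u‖ = ‖(S : ℂ)‖ ^ 2 * ∫ u, ‖F ((S : ℂ) * u)‖ := by exact_mod_cast h1
  rw [h2, ← integral_const_mul]
  refine integral_congr_ae (ae_of_all _ fun w => ?_)
  change ‖(S : ℂ) ^ 2 * F ((S : ℂ) * w)‖ = _
  rw [norm_mul, norm_pow]

theorem PR_norm (R : ℝ) (hR : 0 < R) : ∫ w, ‖PR R w‖ = ∫ w, ‖𝓕⁻ chiC w‖ :=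
  kernel_norm (𝓕⁻ chiC) R hR

theorem kR_norm (R : ℝ) (hR : 0 < R) : ∫ w, ‖kR R w‖ = ∫ w, ‖𝓕⁻ kapC w‖ :=
  kernel_norm (𝓕⁻ kapC) R hR

/-- (T5) vanishing -/
theorem lamK_vanish (ρ : ℂ) (hρ : ρ.im ≠ 0) (R : ℝ) (hR : 0 < R) (a₁ a₂ a₃ : ℂ → ℂ)
    (h₁ : Nice a₁) (h₂ : Nice a₂) (h₃ : Nice a₃)
    (h : ∀ x y : ℂ, a₁ (-x - y) * a₂ x * a₃ y ≠ 0 →
      ‖x + conj ρ * y‖ ≤ R ∨ 4 * R ≤ ‖x + conj ρ * y‖) :
    LamK ρ (kR R) (𝓕⁻ a₁) (𝓕⁻ a₂) (𝓕⁻ a₃) = 0 := by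
  have h4 := lamK_fourier ρ hρ R hR kapC a₁ a₂ a₃ nice_kap h₁ h₂ h₃
  change LamK ρ (kR R) (𝓕⁻ a₁) (𝓕⁻ a₂) (𝓕⁻ a₃) = _ at h4
  rw [h4]
  refine integral_eq_zero_of_ae (ae_of_all _ fun x => ?_)
  change a₁ (-x.1 - x.2) * a₂ x.1 * a₃ x.2 * _ = (0 : ℂ)
  by_cases h0 : a₁ (-x.1 - x.2) * a₂ x.1 * a₃ x.2 = 0
  · rw [h0, zero_mul]
  · have hn : ‖-(x.1 + conj ρ * x.2) / (R : ℂ)‖ = ‖x.1 + conj ρ * x.2‖ / R := by
      rw [norm_div, norm_neg, Complex.norm_real, Real.norm_eq_abs, abs_of_pos hR]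
    have hk : kapC (-(x.1 + conj ρ * x.2) / (R : ℂ)) = 0 := by
      rcases h x.1 x.2 h0 with h5 | h5
      · refine kapC_inner _ ?_
        rw [hn, div_le_one hR]
        exact h5
      · refine kapC_outer _ ?_
        rw [hn, le_div_iff₀ hR]
        exact h5
    rw [hk, zero_mul, mul_zero]

/-- (T5) full frequency range -/
theorem lamK_full (ρ : ℂ) (hρ : ρ.im ≠ 0) (R : ℝ) (hR : 0 < R) (a₁ a₂ a₃ : ℂ → ℂ)
    (h₁ : Nice a₁) (h₂ : Nice a₂) (h₃ : Nice a₃)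
    (h : ∀ x y : ℂ, a₁ (-x - y) * a₂ x * a₃ y ≠ 0 → ‖x + conj ρ * y‖ ≤ R) :
    LamK ρ (PR R) (𝓕⁻ a₁) (𝓕⁻ a₂) (𝓕⁻ a₃) = Lam ρ (𝓕⁻ a₁) (𝓕⁻ a₂) (𝓕⁻ a₃) 0 := by
  have h4 := lamK_fourier ρ hρ R hR chiC a₁ a₂ a₃ nice_chi h₁ h₂ h₃
  change LamK ρ (PR R) (𝓕⁻ a₁) (𝓕⁻ a₂) (𝓕⁻ a₃) = _ at h4
  rw [h4, lam_fourier ρ hρ a₁ a₂ a₃ h₁ h₂ h₃]
  refine integral_congr_ae (ae_of_all _ fun x => ?_)
  change a₁ (-x.1 - x.2) * a₂ x.1 * a₃ x.2 * (chiC (-(x.1 + conj ρ * x.2) / (R : ℂ)) * _) =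
    a₁ (-x.1 - x.2) * a₂ x.1 * a₃ x.2 * _
  by_cases h0 : a₁ (-x.1 - x.2) * a₂ x.1 * a₃ x.2 = 0
  · rw [h0, zero_mul, zero_mul]
  · have hn : ‖-(x.1 + conj ρ * x.2) / (R : ℂ)‖ = ‖x.1 + conj ρ * x.2‖ / R := by
      rw [norm_div, norm_neg, Complex.norm_real, Real.norm_eq_abs, abs_of_pos hR]
    have hk : chiC (-(x.1 + conj ρ * x.2) / (R : ℂ)) = 1 := by
      unfold chiC
      rw [chi_one _ (by rw [hn, div_le_one hR]; exact h x.1 x.2 h0)]
      simp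
    rw [hk, one_mul]

/-- `k_R = P_{2R} - P_R` -/
theorem kR_eq (R : ℝ) (hR : 0 < R) (w : ℂ) : kR R w = PR (2 * R) w - PR R w := by
  have h2 : (2 : ℂ) ≠ 0 := two_ne_zero
  have hs := kernel_scaled chiC nice_chi 2 h2 0 ((R : ℂ) * w)
  simp only [sub_zero, mul_zero, map_zero, zero_mul, Complex.zero_re, Complex.ofReal_zero,
    Complex.exp_zero, one_mul] at hs
  have hsub : 𝓕⁻ kapC ((R : ℂ) * w) =
      𝓕⁻ (fun ξ => chiC (ξ / 2)) ((R : ℂ) * w) - 𝓕⁻ chiC ((R : ℂ) * w) := by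
    rw [tc_fourierInv, tc_fourierInv, tc_fourierInv, ← integral_sub]
    · refine integral_congr_ae (ae_of_all _ fun ξ => ?_)
      change (chiC (ξ / 2) - chiC ξ) * _ = chiC (ξ / 2) * _ - chiC ξ * _
      ring
    · have hc : Integrable (fun ξ : ℂ => chiC (ξ / 2)) := by
        have h3 := (nice_integrable chiC nice_chi).1.comp_smul (R := (1 / 2 : ℝ)) (by norm_num)
        refine h3.congr (ae_of_all _ fun ξ => ?_)
        change chiC ((1 / 2 : ℝ) • ξ) = chiC (ξ / 2)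
        congr 1
        rw [Complex.real_smul]
        push_cast
        ring
      refine hc.norm.mono' ?_ (ae_of_all _ fun ξ => ?_)
      · exact ((nice_chi.smooth.continuous.comp (continuous_id.div_const _)).mul
          (tcE_continuous.comp (Complex.continuous_re.comp
            (Complex.continuous_conj.mul continuous_const)))).aestronglyMeasurable
      · rw [norm_mul, tcE_norm, mul_one]
    · refine (nice_integrable chiC nice_chi).1.norm.mono' ?_ (ae_of_all _ fun ξ => ?_)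
      · exact (nice_chi.smooth.continuous.mul
          (tcE_continuous.comp (Complex.continuous_re.comp
            (Complex.continuous_conj.mul continuous_const)))).aestronglyMeasurable
      · rw [norm_mul, tcE_norm, mul_one]
  unfold kR PR
  rw [hsub, hs]
  have h4 : ((‖(2 : ℂ)‖ ^ 2 : ℝ) : ℂ) = 4 := by
    rw [Complex.norm_ofNat]
    norm_num
  have h5 : conj (2 : ℂ) * ((R : ℂ) * w) = ((2 * R : ℝ) : ℂ) * w := by
    have : conj (2 : ℂ) = 2 := Complex.conj_ofNat 2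
    rw [this]
    push_cast
    ring
  rw [h4, h5]
  push_cast
  ring

/-- modulation invariance -/
theorem tri_modulate (ρ κ : ℂ) (f₁ f₂ f₃ : ℂ → ℂ) (v : ℂ) :
    tri ρ (fun z => Complex.exp (((2 * π * (conj (c1 ρ * κ) * z).re : ℝ) : ℂ) * Complex.I) * f₁ z)
      (fun z => Complex.exp (((2 * π * (conj (c2 ρ * κ) * z).re : ℝ) : ℂ) * Complex.I) * f₂ z)
      (fun z => Complex.exp (((2 * π * (conj (c3 * κ) * z).re : ℝ) : ℂ) * Complex.I) * f₃ z) v =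
      tri ρ f₁ f₂ f₃ v := by
  unfold tri
  refine integral_congr_ae (ae_of_all _ fun z => ?_)
  change (tcE (conj (c1 ρ * κ) * z).re * f₁ z) * (tcE (conj (c2 ρ * κ) * (z + v)).re * f₂ (z + v)) *
    (tcE (conj (c3 * κ) * (z + ρ * v)).re * f₃ (z + ρ * v)) = f₁ z * f₂ (z + v) * f₃ (z + ρ * v)
  have h1 : tcE (conj (c1 ρ * κ) * z).re * tcE (conj (c2 ρ * κ) * (z + v)).re *
      tcE (conj (c3 * κ) * (z + ρ * v)).re = 1 := by
    rw [← tcE_add, ← tcE_add, ← Complex.add_re, ← Complex.add_re]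
    have h2 : conj (c1 ρ * κ) * z + conj (c2 ρ * κ) * (z + v) +
        conj (c3 * κ) * (z + ρ * v) = 0 := by
      unfold c1 c2 c3
      simp only [map_mul, map_sub, map_neg, map_one, Complex.conj_conj]
      ring
    rw [h2, Complex.zero_re, tcE_zero]
  linear_combination (f₁ z * f₂ (z + v) * f₃ (z + ρ * v)) * h1

end Pool.Agent.H24.Tri
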